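import Pool.Agent.Nao.Zl

/-! There is no irreducible group of odd order on a vector space with 49 elements. -/

set_option autoImplicit false

namespace Pool.Agent.Nap

open Pool.Agent.Nan Pool.Agent.Nas

/-- an eigenvector of an element of order dividing 3, characteristic 7 -/
private theorem c7_eig {S : Type} [AddCommGroup S] [Module (ZMod 7) S] [Nontrivial S]
    (T : Module.End (ZMod 7) S) (hT : T ^ 3 = 1) :
    ∃ v : S, v ≠ 0 ∧ ∃ c : ZMod 7, T v = c • v := by
  obtain ⟨v, hv⟩ := exists_ne (0 : S)
  have h3 : T (T (T v)) = v := by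
    have h1 := LinearMap.congr_fun hT v
    simpa [pow_succ, Module.End.mul_apply] using h1
  set a := T v with ha
  set b := T a with hb
  have hTb : T b = v := h3
  have c8 : (8 : ZMod 7) = 1 := by decide
  have c16 : (16 : ZMod 7) = 2 := by decide
  have c4 : (4 : ZMod 7) * 2 = 1 := by decide
  have c44 : (4 : ZMod 7) * 4 = 2 := by decide
  have c22 : (2 : ZMod 7) * 2 = 4 := by decide
  have c24 : (2 : ZMod 7) * 4 = 1 := by decide
  by_cases h0 : v + a + b = 0
  · by_cases h1 : v + (2 : ZMod 7) • a + (4 : ZMod 7) • b = 0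
    · refine ⟨v + (4 : ZMod 7) • a + (2 : ZMod 7) • b, ?_, 2, ?_⟩
      · intro h2
        have h4 : (v + a + b) + (v + (2 : ZMod 7) • a + (4 : ZMod 7) • b) +
            (v + (4 : ZMod 7) • a + (2 : ZMod 7) • b) = (3 : ZMod 7) • v := by
          have e1 : (v + a + b) + (v + (2 : ZMod 7) • a + (4 : ZMod 7) • b) +
            (v + (4 : ZMod 7) • a + (2 : ZMod 7) • b) = (1 + 1 + 1 : ZMod 7) • v +
              (1 + 2 + 4 : ZMod 7) • a + (1 + 4 + 2 : ZMod 7) • b := by
            simp only [add_smul, one_smul]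
            abel
          rw [e1, show (1 + 2 + 4 : ZMod 7) = 0 by decide, show (1 + 4 + 2 : ZMod 7) = 0 by decide,
            zero_smul, zero_smul, add_zero, add_zero, show (1 + 1 + 1 : ZMod 7) = 3 by decide]
        rw [h0, h1, h2, add_zero, add_zero] at h4
        apply hv
        have h5 : (5 : ZMod 7) • ((3 : ZMod 7) • v) = v := by
          rw [smul_smul, show (5 : ZMod 7) * 3 = 1 by decide, one_smul]
        rw [← h5, ← h4, smul_zero]
      · rw [map_add, map_add, map_smul, map_smul, ← hb, hTb, smul_add, smul_add, smul_smul,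
          smul_smul, c24, c22, one_smul, ← ha]
        abel
    · refine ⟨_, h1, 4, ?_⟩
      rw [map_add, map_add, map_smul, map_smul, ← hb, hTb, smul_add, smul_add, smul_smul,
          smul_smul, c4, c44, one_smul, ← ha]
      abel
  · refine ⟨_, h0, 1, ?_⟩
    rw [map_add, map_add, ← ha, ← hb, hTb, one_smul]
    abel

/-- There is no irreducible group of odd order on a space with 49 elements. -/
theorem odd7 [Fact (Nat.Prime 7)] {X S : Type} [Group X] [Finite X] [AddCommGroup S]
    [Module (ZMod 7) S] [Finite S] [Nontrivial S] (ρ : Representation (ZMod 7) X S)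
    (hs : Group.IsSolvable X) (ho : ¬ 2 ∣ Nat.card X)
    (hirr : Irrd ρ ⊤) (hS : Nat.card S = 7 ^ 2) : False := by
  classical
  obtain ⟨J, hJfin, W, UU, hB⟩ := bs_ex (ρ := ρ) hirr
  have := Fintype.ofFinite J
  have hp : Nat.Prime 7 := by norm_num
  have hfr : Module.finrank (ZMod 7) S = 2 := by
    have h1 : Nat.card S = 7 ^ Module.finrank (ZMod 7) S := by
      have := Module.natCard_eq_pow_finrank (K := ZMod 7) (V := S)
      rw [Nat.card_zmod] at this
      exact this
    rw [hS] at h1
    exact (Nat.pow_right_injective hp.two_le h1).symm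
  have hJ : Nat.card J ≤ 2 := by
    have : Fintype {i : J // W i ≠ ⊥} := Fintype.ofFinite _
    have h1 := hB.ind.subtype_ne_bot_le_finrank
    rw [hfr, ← Nat.card_eq_fintype_card] at h1
    have h2 : Nat.card {i : J // W i ≠ ⊥} = Nat.card J :=
      Nat.card_congr (Equiv.subtypeUnivEquiv hB.ne)
    omega
  have hne : Nonempty J := by
    by_contra h
    rw [not_nonempty_iff] at h
    have h1 := hB.sup
    rw [iSup_of_empty] at h1
    exact bot_ne_top h1
  obtain ⟨j⟩ := hne
  -- all the elements fix the blocks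
  have hfix : ∀ x : X, (W j).map (ρ x) = W j := by
    intro x
    have hinj : Function.Injective W := hB.ind.injective hB.ne
    choose f hf using fun j => hB.prm x j
    have hit : ∀ n : ℕ, (W j).map (ρ (x ^ n)) = W (f^[n] j) := by
      intro n
      induction n with
      | zero =>
        simp only [pow_zero, map_one, Function.iterate_zero, id_eq]
        exact Submodule.map_id _
      | succ n ih =>
        rw [pow_succ', map_mul, Function.iterate_succ_apply', ← hf, ← ih]
        exact Submodule.map_comp _ _ _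
    have hper : Function.IsPeriodicPt f (orderOf x) j := by
      have h1 := hit (orderOf x)
      rw [pow_orderOf_eq_one, map_one] at h1
      have h2 : (W j).map (1 : Module.End (ZMod 7) S) = W j := Submodule.map_id _
      rw [h2] at h1
      exact (hinj h1).symm
    have hmp := hper.minimalPeriod_dvd
    have h2 := Function.minimalPeriod_le_card (f := f) (x := j)
    rw [← Nat.card_eq_fintype_card] at h2
    have hpos : 0 < Function.minimalPeriod f j := hper.minimalPeriod_pos (orderOf_pos x)
    have hodd : ¬ 2 ∣ Function.minimalPeriod f j := fun h3 =>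
      ho ((h3.trans hmp).trans (orderOf_dvd_natCard x))
    have h3 : Function.minimalPeriod f j = 1 := by
      have h4 : Function.minimalPeriod f j ≤ 2 := h2.trans hJ
      interval_cases hm : Function.minimalPeriod f j
      · rfl
      · exact absurd (dvd_refl 2) hodd
    have h4 : Function.IsFixedPt f j := Function.minimalPeriod_eq_one_iff_isFixedPt.1 h3
    rw [hf, h4]
  have hWt : W j = ⊤ := by
    rcases hirr (W j) (fun n _ w hw => by
      rw [← hfix n]
      exact Submodule.mem_map_of_mem hw) with h1 | h1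
    · exact absurd h1 (hB.ne j)
    · exact h1
  obtain ⟨L, iL, iLf, ρL, π, U, hπ, hπρ, hQP, hU⟩ := bs_qp hB j
  have hWn : Nontrivial (W j) := (Submodule.nontrivial_iff_ne_bot).2 (hB.ne j)
  have hsL : Group.IsSolvable L := by
    have : Group.IsSolvable (Nm ρ (W j)) := by
      have := hs
      infer_instance
    exact Group.isSolvable_of_surjective hπ
  have hoL : ¬ 2 ∣ Nat.card L := fun h2 => ho ((h2.trans
    (Subgroup.card_dvd_of_surjective π hπ)).trans (Subgroup.card_subgroup_dvd_card _))
  have hcW : Nat.card (W j) = 7 ^ 2 := by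
    rw [← hS]
    exact Nat.card_congr (Equiv.subtypeUnivEquiv fun y => by rw [hWt]; exact Submodule.mem_top)
  obtain ⟨a, ha, hUa, hidx, hAA, ⟨d', hd', hWd⟩, -⟩ := qp_gal hQP
  have had : a * d' = 2 := by
    rw [hcW, ← pow_mul] at hWd
    exact (Nat.pow_right_injective hp.two_le hWd).symm
  have ha2 : a ≤ 2 := by
    rw [← had]
    exact Nat.le_mul_of_pos_right a hd'
  have hUn : U.Normal := hQP.ab.nor
  obtain ⟨E, n, M, hE⟩ := qp_E hQP hsL
  obtain ⟨e, he0, he, -⟩ := sq_ex (⟨qp_cyc hQP, hE.UE, hE.cU, hE.com, hE.cen⟩ : Prg U E)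
  have hdim := qp_dim hQP hE e he
  have hed : e ≤ 2 := by
    rw [hAA, hcW, ← pow_mul] at hdim
    have := (Nat.pow_le_pow_iff_right hp.one_lt).1 hdim
    exact le_trans (Nat.le_mul_of_pos_left e ha) this
  have he2 : ¬ 2 ∣ e := by
    intro h2
    apply hoL
    have h3 : U.relIndex E ∣ Nat.card L :=
      (Subgroup.relIndex_dvd_card U E).trans (Subgroup.card_subgroup_dvd_card E)
    rw [he] at h3
    exact (h2.trans (dvd_pow_self e two_ne_zero)).trans h3
  have he1 : e = 1 := by
    interval_cases e
    · rfl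
    · exact absurd (dvd_refl 2) he2
  have hcen : Subgroup.centralizer (U : Set L) ≤ U := by
    intro x hx
    by_contra hxU
    have hn := hE.pos ⟨x, fun u hu => (Subgroup.mem_centralizer_iff.1 hx u hu).symm, hxU⟩
    rw [he1, one_pow, Subgroup.relIndex_eq_one] at he
    exact absurd ((hE.mE ⟨0, hn⟩).trans he) (not_le_of_gt (hE.mU ⟨0, hn⟩))
  have hidx2 : U.index ∣ a := by
    refine dvd_trans ?_ hidx
    exact Subgroup.index_dvd_of_le hcen
  have hUL : U.index = 1 := by
    have h1 : U.index ≤ 2 := (Nat.le_of_dvd ha hidx2).trans ha2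
    have h2 : U.index ≠ 2 := fun h2 => hoL (h2 ▸ Subgroup.index_dvd_card U)
    have h3 : U.index ≠ 0 := Subgroup.index_ne_zero_of_finite
    omega
  have hUtop : U = ⊤ := Subgroup.index_eq_one.1 hUL
  have hcard : Nat.card U ∣ 3 := by
    have h1 : Nat.card U ∣ 48 := by
      interval_cases a
      · exact hUa.trans (by norm_num)
      · exact hUa.trans (by norm_num)
    have h2 : Nat.Coprime (Nat.card U) (2 ^ 4) := by
      apply Nat.Coprime.pow_right
      rw [Nat.coprime_comm]
      exact (Nat.Prime.coprime_iff_not_dvd Nat.prime_two).2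
        fun h3 => hoL (h3.trans (Subgroup.card_subgroup_dvd_card U))
    exact h2.dvd_of_dvd_mul_left (by norm_num; exact h1)
  obtain ⟨⟨g, hgU⟩, hg⟩ := (qp_cyc hQP).exists_generator
  have hg3 : g ^ 3 = 1 := by
    have h1 : (⟨g, hgU⟩ : U) ^ 3 = 1 := orderOf_dvd_iff_pow_eq_one.1
      ((orderOf_dvd_natCard _).trans hcard)
    exact congrArg Subtype.val h1
  obtain ⟨v, hv, c, hc⟩ := c7_eig (ρL g) (by rw [← map_pow, hg3, map_one])
  -- the line of `v` is invariant
  have hall : ∀ y : L, ∃ c : ZMod 7, ρL y v = c • v := by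
    intro y
    have hyU : y ∈ U := by rw [hUtop]; trivial
    obtain ⟨k, hk⟩ := Subgroup.mem_zpowers_iff.1 (hg ⟨y, hyU⟩)
    have hn : ∃ m : ℕ, y = g ^ m := by
      have h1 : (⟨y, hyU⟩ : U) ∈ Subgroup.zpowers (⟨g, hgU⟩ : U) := hg ⟨y, hyU⟩
      rw [← mem_powers_iff_mem_zpowers] at h1
      obtain ⟨m, hm⟩ := h1
      exact ⟨m, (congrArg Subtype.val hm).symm⟩
    obtain ⟨m, rfl⟩ := hn
    refine ⟨c ^ m, ?_⟩
    clear hk hyU
    induction m with
    | zero => rw [pow_zero, pow_zero, map_one, one_smul]; rfl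
    | succ m ih =>
      rw [pow_succ, map_mul, Module.End.mul_apply, hc, map_smul, ih, smul_smul, pow_succ, mul_comm]
  have hinv : ∀ x ∈ (⊤ : Subgroup X), ∀ w ∈ Submodule.span (ZMod 7) {(v : S)},
      ρ x w ∈ Submodule.span (ZMod 7) {(v : S)} := by
    intro x _ w hw
    obtain ⟨r, rfl⟩ := Submodule.mem_span_singleton.1 hw
    obtain ⟨c', hc'⟩ := hall (π ⟨x, hfix x⟩)
    have h1 := hπρ ⟨x, hfix x⟩ v
    rw [hc'] at h1
    rw [map_smul, ← h1]
    exact Submodule.smul_mem _ _ (Submodule.smul_mem _ _ (Submodule.mem_span_singleton_self _))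
  have hv' : (v : S) ≠ 0 := fun h0 => hv (Subtype.ext h0)
  rcases hirr _ hinv with h1 | h1
  · rw [Submodule.span_singleton_eq_bot] at h1
    exact hv' h1
  · have h2 := finrank_span_singleton (K := ZMod 7) hv'
    rw [h1, finrank_top, hfr] at h2
    omega

/-- The group `E / U` does not have order 49 in a group of odd order. -/
theorem no7 {p : ℕ} [Fact p.Prime] {L W : Type} [Group L] [Finite L] [AddCommGroup W]
    [Module (ZMod p) W] [Finite W] [Nontrivial W] {ρ : Representation (ZMod p) L W}
    {U : Subgroup L} (h : QP ρ U) (hs : Group.IsSolvable L) (ho : ¬ 2 ∣ Nat.card L)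
    {E : Subgroup L} {n : ℕ} {M : Fin n → Subgroup L} (hE : SE U E n M) (hn : 0 < n)
    (he : U.relIndex E = 7 ^ 2) : False := by
  have hUn : U.Normal := h.ab.nor
  obtain ⟨i, -⟩ : ∃ i : Fin n, i = i := ⟨⟨0, hn⟩, rfl⟩
  have hdv : U.relIndex (M i) ∣ 7 ^ 2 := by
    rw [← he, hE.card]
    exact Finset.dvd_prod_of_mem _ (Finset.mem_univ i)
  obtain ⟨k, hk, hk2⟩ := (Nat.dvd_prime_pow (by norm_num : Nat.Prime 7)).1 hdv
  have hk0 : k ≠ 0 := by
    rintro rfl
    rw [pow_zero, Subgroup.relIndex_eq_one] at hk2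
    exact absurd hk2 (not_le_of_gt (hE.mU i))
  have hk' : k = 1 ∨ k = 2 := by omega
  rcases hk' with rfl | rfl
  · -- `M i` is abelian
    have hab : Ab (M i) := by
      refine ⟨hE.mN i, ?_⟩
      have key : ∀ x ∈ M i, x ∉ U → ∀ y ∈ M i, x * y = y * x := by
        intro x hx hxU y hy
        let C : Subgroup L := Subgroup.centralizer ({x} : Set L) ⊓ M i
        have hUC : U ≤ C := fun u hu => ⟨Subgroup.mem_centralizer_singleton_iff.2
          (by exact (hE.cU x (hE.mE i hx) u hu).symm), (hE.mU i).le hu⟩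
        have hxC : x ∈ C := ⟨Subgroup.mem_centralizer_singleton_iff.2 rfl, hx⟩
        have h1 : U.relIndex C * C.relIndex (M i) = 7 := by
          rw [Subgroup.relIndex_mul_relIndex U C (M i) hUC inf_le_right, hk2, pow_one]
        have h2 : U.relIndex C ≠ 1 := by
          rw [Ne, Subgroup.relIndex_eq_one]
          exact fun h3 => hxU (h3 hxC)
        have h3 : U.relIndex C = 7 := by
          rcases (Nat.dvd_prime (by norm_num : Nat.Prime 7)).1 (Dvd.intro _ h1) with h4 | h4
          · exact absurd h4 h2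
          · exact h4
        rw [h3] at h1
        have h4 : C.relIndex (M i) = 1 := by omega
        rw [Subgroup.relIndex_eq_one] at h4
        exact (Subgroup.mem_centralizer_singleton_iff.1 (h4 hy).1).symm
      intro x hx y hy
      by_cases hxU : x ∈ U
      · exact (hE.cU y (hE.mE i hy) x hxU).symm
      · exact key x hx hxU y hy
    exact absurd (h.mx _ hab (hE.mU i).le) (not_le_of_gt (hE.mU i))
  · obtain ⟨r, hr, S, iA, iM, iF, iN, ρ', q, q1, q2, q3, q4, q5, q6, q7⟩ :=
      chief hs U (M i) (hE.mN i) (hE.mU i) (hE.mMin i)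
    have hr7 : r = 7 := by
      rw [q6, hk2] at q7
      exact (Nat.prime_dvd_prime_iff_eq hr.out (by norm_num)).1 (hr.out.dvd_of_dvd_pow q7)
    subst hr7
    exact odd7 ρ' hs ho q5 (q6.trans hk2)

end Pool.Agent.Nap
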