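import Pool.Agent.Nap.C7
import Pool.Agent.Nao.Cn
import Pool.Agent.Nfv.Cn

/-! A vector which no Sylow subgroup fixes, groups of odd order, every characteristic. -/

set_option autoImplicit false

namespace Pool.Agent.Nap

open Pool.Agent.Nan Pool.Agent.Nas

private theorem cn_odd {L : Type} [Group L] {U : Subgroup L} (ho : ¬ 2 ∣ Nat.card L) {E : Subgroup L} (e : ℕ)
    (he : U.relIndex E = e ^ 2) : ¬ 2 ∣ e := by
  intro h2
  apply ho
  have h3 : U.relIndex E ∣ Nat.card L :=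
    (Subgroup.relIndex_dvd_card U E).trans (Subgroup.card_subgroup_dvd_card E)
  rw [he] at h3
  exact (h2.trans (dvd_pow_self e two_ne_zero)).trans h3

section
variable {L W : Type} [Group L] [Finite L] [AddCommGroup W]
  [Module (ZMod 2) W] [Finite W] [Nontrivial W] {ρ : Representation (ZMod 2) L W}
  {U : Subgroup L}

private theorem cn3_nor (hU : Ab U) : (Subgroup.centralizer (U : Set L)).Normal := by
  haveI := hU.nor
  infer_instance

private theorem cn3_ndvd (hU : Ab U) (l : ℕ) (hl : l.Prime) (x : L) (hx : x ^ l = 1)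
    (hxc : x ∉ Subgroup.centralizer (U : Set L)) :
    l ∣ (Subgroup.centralizer (U : Set L)).index := by
  haveI := cn3_nor hU
  have h1 : (QuotientGroup.mk x : L ⧸ Subgroup.centralizer (U : Set L)) ≠ 1 := by
    intro h
    exact hxc ((QuotientGroup.eq_one_iff x).mp h)
  have h2 : (QuotientGroup.mk x : L ⧸ Subgroup.centralizer (U : Set L)) ^ l = 1 := by
    rw [← QuotientGroup.mk_pow, hx]
    rfl
  have h4 : orderOf (QuotientGroup.mk x : L ⧸ Subgroup.centralizer (U : Set L)) = l := by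
    haveI : Fact l.Prime := ⟨hl⟩
    exact orderOf_eq_prime h2 h1
  rw [Subgroup.index_eq_card, ← h4]
  exact orderOf_dvd_natCard _

private theorem cn3_card (hs : Group.IsSolvable L) (hUn : U.Normal) {E : Subgroup L} {n : ℕ}
    {M : Fin n → Subgroup L} (hE : SE U E n M) (hn : 0 < n) (e a : ℕ)
    (he : U.relIndex E = e ^ 2) (hU : Nat.card U ∣ 2 ^ a - 1) (ha : 0 < a)
    (hC : (Subgroup.centralizer (U : Set L)).index ∣ a) :
    4 * Nat.card L ≤ a * 2 ^ a * e ^ 8 := by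
  haveI := hUn
  have h1 := cs_ob hs hUn hE hn (U.relIndex E) (ob _) le_rfl
  have hEC : E ≤ Subgroup.centralizer (U : Set L) := by
    intro x hx
    rw [Subgroup.mem_centralizer_iff]
    intro u hu
    exact (hE.cU x hx u hu).symm
  have h2 : Nat.card L = Nat.card U * (U.relIndex E * (E.relIndex (Subgroup.centralizer (U : Set L)) *
      (Subgroup.centralizer (U : Set L)).index)) := by
    rw [Subgroup.relIndex_mul_index hEC, Subgroup.relIndex_mul_index hE.UE, Subgroup.card_mul_index]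
  have hpa : 0 < 2 ^ a - 1 := by
    have : 2 ^ 1 ≤ 2 ^ a := Nat.pow_le_pow_right (by omega) ha
    omega
  have h3 : Nat.card U ≤ 2 ^ a := (Nat.le_of_dvd hpa hU).trans (Nat.sub_le _ _)
  have h4 : (Subgroup.centralizer (U : Set L)).index ≤ a := Nat.le_of_dvd ha hC
  rw [he] at h1 h2
  rw [h2]
  calc 4 * (Nat.card U * (e ^ 2 * (E.relIndex (Subgroup.centralizer (U : Set L)) *
      (Subgroup.centralizer (U : Set L)).index)))
      = Nat.card U * (e ^ 2 * ((4 * E.relIndex (Subgroup.centralizer (U : Set L))) *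
      (Subgroup.centralizer (U : Set L)).index)) := by ring
    _ ≤ 2 ^ a * (e ^ 2 * ((e ^ 2) ^ 3 * a)) :=
        Nat.mul_le_mul h3 (Nat.mul_le_mul_left _ (Nat.mul_le_mul h1 h4))
    _ = a * 2 ^ a * e ^ 8 := by ring

private theorem cn3_fix (P : L → Prop) (t : ℕ)
    (ht : ∀ x, P x → Nat.card {w : W // ρ x w = w} ≤ t) :
    Nat.card {w : W // ∃ x : L, P x ∧ ρ x w = w} ≤ Nat.card L * t := by
  classical
  haveI := Fintype.ofFinite L
  haveI := Fintype.ofFinite W
  have h1 : Nat.card {w : W // ∃ x : L, P x ∧ ρ x w = w} =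
      (Finset.univ.filter fun w : W => ∃ x : L, P x ∧ ρ x w = w).card := by
    rw [Nat.card_eq_fintype_card, Fintype.card_subtype]
  have h2 : (Finset.univ.filter fun w : W => ∃ x : L, P x ∧ ρ x w = w) ⊆
      (Finset.univ.filter P).biUnion fun x : L => Finset.univ.filter fun w : W => ρ x w = w := by
    intro w hw
    rw [Finset.mem_filter] at hw
    obtain ⟨-, x, hx, hw⟩ := hw
    rw [Finset.mem_biUnion]
    exact ⟨x, Finset.mem_filter.mpr ⟨Finset.mem_univ _, hx⟩,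
      Finset.mem_filter.mpr ⟨Finset.mem_univ _, hw⟩⟩
  rw [h1]
  calc (Finset.univ.filter fun w : W => ∃ x : L, P x ∧ ρ x w = w).card
      ≤ ((Finset.univ.filter P).biUnion
        fun x : L => Finset.univ.filter fun w : W => ρ x w = w).card := Finset.card_le_card h2
    _ ≤ (Finset.univ.filter P).card * t := by
        apply Finset.card_biUnion_le_card_mul
        intro x hx
        rw [Finset.mem_filter] at hx
        have h3 := ht x hx.2
        rwa [Nat.card_eq_fintype_card, Fintype.card_subtype] at h3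
    _ ≤ Nat.card L * t := by
        apply Nat.mul_le_mul_right
        rw [Nat.card_eq_fintype_card]
        exact Finset.card_le_univ _

private theorem cn3_t (V k : ℕ) (hk : 0 < k) :
    ∃ t : ℕ, t ^ k ≤ V ∧ ∀ s : ℕ, s ^ k ≤ V → s ≤ t := by
  refine ⟨Nat.findGreatest (fun s => s ^ k ≤ V) V, ?_, ?_⟩
  · exact Nat.findGreatest_spec (P := fun s => s ^ k ≤ V) (m := 0) (Nat.zero_le _)
      (by rw [zero_pow hk.ne']; exact Nat.zero_le _)
  · intro s hs2
    exact Nat.le_findGreatest ((Nat.le_self_pow hk.ne' s).trans hs2) hs2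

/-- The vectors which are fixed by an element of prime order outside the centralizer. -/
theorem bad_gal (h : QP ρ U) (hs : Group.IsSolvable L)
    {E : Subgroup L} {n : ℕ}
    {M : Fin n → Subgroup L} (hE : SE U E n M) (hn : 0 < n) (e a : ℕ)
    (he : U.relIndex E = e ^ 2) (ha : Nat.card (AA ρ U) = 2 ^ a) :
    ((∀ l : ℕ, l.Prime → 3 ≤ l → l ∣ a → l ∣ Nat.card U) →
      Nat.card {w : W // ∃ x : L, Nao.Pe U x ∧ (∃ u ∈ U, x * u ≠ u * x) ∧ ρ x w = w} = 0) ∧
    ∃ t : ℕ, t ^ 3 ≤ Nat.card W ∧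
      4 * Nat.card {w : W // ∃ x : L, Nao.Pe U x ∧ (∃ u ∈ U, x * u ≠ u * x) ∧ ρ x w = w} ≤
        a * 2 ^ a * e ^ 8 * t := by
  obtain ⟨b, hb, hU, hC, hAA, -, hfix⟩ := qp_gal h
  have hab : b = a := Nat.pow_right_injective (le_refl 2) (hAA.symm.trans ha)
  subst hab
  have hnc : ∀ x : L, (∃ u ∈ U, x * u ≠ u * x) → x ∉ Subgroup.centralizer (U : Set L) := by
    rintro x ⟨u, hu, hxu⟩ hx
    rw [Subgroup.mem_centralizer_iff] at hx
    exact hxu (hx u hu).symm
  constructor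
  · intro hb10
    rw [Nat.card_eq_zero]
    left
    constructor
    rintro ⟨w, x, ⟨hx1, l, hl, hl3, hlU, hxl⟩, hxu, -⟩
    exact hlU (hb10 l hl hl3 ((cn3_ndvd h.ab l hl x hxl (hnc x hxu)).trans hC))
  · have hW : 0 < Nat.card W := Nat.card_pos
    obtain ⟨t, ht, ht2⟩ := cn3_t (Nat.card W) 3 (by omega)
    refine ⟨t, ht, ?_⟩
    have h1 : Nat.card {w : W // ∃ x : L, (Nao.Pe U x ∧ ∃ u ∈ U, x * u ≠ u * x) ∧ ρ x w = w} ≤
        Nat.card L * t := by
      apply cn3_fix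
      rintro x ⟨⟨hx1, l, hl, hl3, hlU, hxl⟩, hxu⟩
      apply ht2
      refine le_trans (Nat.pow_le_pow_right ?_ hl3) (hfix l x hl hxl (hnc x hxu))
      haveI : Nonempty {w : W // ρ x w = w} := ⟨⟨0, map_zero _⟩⟩
      exact Nat.card_pos
    have h2 : Nat.card {w : W // ∃ x : L, Nao.Pe U x ∧ (∃ u ∈ U, x * u ≠ u * x) ∧ ρ x w = w} =
        Nat.card {w : W // ∃ x : L, (Nao.Pe U x ∧ ∃ u ∈ U, x * u ≠ u * x) ∧ ρ x w = w} := by
      apply Nat.card_congr
      apply Equiv.subtypeEquivRight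
      intro w
      constructor
      · rintro ⟨x, h1, h2, h3⟩
        exact ⟨x, ⟨h1, h2⟩, h3⟩
      · rintro ⟨x, ⟨h1, h2⟩, h3⟩
        exact ⟨x, h1, h2, h3⟩
    rw [h2]
    calc 4 * Nat.card {w : W // ∃ x : L, (Nao.Pe U x ∧ ∃ u ∈ U, x * u ≠ u * x) ∧ ρ x w = w}
        ≤ 4 * (Nat.card L * t) := Nat.mul_le_mul_left 4 h1
      _ = 4 * Nat.card L * t := by ring
      _ ≤ b * 2 ^ b * e ^ 8 * t :=
        Nat.mul_le_mul_right t (cn3_card hs h.ab.nor hE hn e b he hU hb hC)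

end

private theorem cn4_a (a : ℕ) : a ^ 3 ≤ (2 ^ a) ^ 3 :=
  Nat.pow_le_pow_left (Nat.lt_two_pow_self).le 3

private theorem cn4_e11 (e : ℕ) (he : 11 ≤ e) : e ^ 24 ≤ (2 ^ 8) ^ (2 * e - 6) := by
  induction e, he using Nat.le_induction with
  | base => norm_num
  | succ n hn ih =>
    have h1 : (11 * (n + 1)) ^ 24 ≤ (12 * n) ^ 24 := Nat.pow_le_pow_left (by omega) 24
    rw [mul_pow, mul_pow] at h1
    have h2 : (2 ^ 8) ^ (2 * (n + 1) - 6) = (2 ^ 8) ^ (2 * n - 6) * (2 ^ 16) := by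
      rw [show 2 * (n + 1) - 6 = 2 * n - 6 + 2 by omega, pow_add]
      norm_num
    rw [h2]
    norm_num at h1 ih ⊢
    omega

private theorem cn4_e25 (e : ℕ) (he : 25 ≤ e) : e ^ 24 ≤ (2 ^ 3) ^ (2 * e - 6) := by
  induction e, he using Nat.le_induction with
  | base => norm_num
  | succ n hn ih =>
    have h1 : (25 * (n + 1)) ^ 24 ≤ (26 * n) ^ 24 := Nat.pow_le_pow_left (by omega) 24
    rw [mul_pow, mul_pow] at h1
    have h2 : (2 ^ 3) ^ (2 * (n + 1) - 6) = (2 ^ 3) ^ (2 * n - 6) * (2 ^ 6) := by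
      rw [show 2 * (n + 1) - 6 = 2 * n - 6 + 2 by omega, pow_add]
      norm_num
    rw [h2]
    norm_num at h1 ih ⊢
    omega

private theorem cn4_k11 (e : ℕ) (he : 11 ≤ e) : e ^ 16 ≤ 9 * (2 ^ 8) ^ e := by
  induction e, he using Nat.le_induction with
  | base => norm_num
  | succ n hn ih =>
    have h1 : (11 * (n + 1)) ^ 16 ≤ (12 * n) ^ 16 := Nat.pow_le_pow_left (by omega) 16
    rw [mul_pow, mul_pow] at h1
    rw [pow_succ (2 ^ 8) n]
    norm_num at h1 ih ⊢
    omega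

private theorem cn4_k25 (e : ℕ) (he : 25 ≤ e) : e ^ 16 ≤ 9 * (2 ^ 3) ^ e := by
  induction e, he using Nat.le_induction with
  | base => norm_num
  | succ n hn ih =>
    have h1 : (25 * (n + 1)) ^ 16 ≤ (26 * n) ^ 16 := Nat.pow_le_pow_left (by omega) 16
    rw [mul_pow, mul_pow] at h1
    rw [pow_succ (2 ^ 3) n]
    norm_num at h1 ih ⊢
    omega

private theorem cn4_ord (s a m : ℕ) (ha : 0 < a) (h : s ∣ 2 ^ a - 1)
    (hm : ∀ b, 0 < b → b < m → ¬ s ∣ 2 ^ b - 1) : m ≤ a := by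
  by_contra hlt
  exact hm a ha (by omega) h

/-- Numbers. -/
theorem cn_num2 (a e V bk bg t : ℕ) (ha : 0 < a) (he : 3 ≤ e)
    (heo : ¬ 2 ∣ e) (he3 : ¬ 3 ∣ e) (he7 : e ≠ 7)
    (hd : ∀ s : ℕ, s.Prime → s ∣ e → s ∣ 2 ^ a - 1) (hV : (2 ^ a) ^ e ≤ V)
    (h2 : e < 9 → 2 * bk ≤ e ^ 4 * Nat.sqrt V) (h4 : 8 * bk ≤ e ^ 8 * Nat.sqrt V)
    (h5 : (∀ l : ℕ, l.Prime → 3 ≤ l → l ∣ a → l ∣ e) → bg = 0) (h6 : t ^ 3 ≤ V)
    (h7 : 4 * bg ≤ a * 2 ^ a * e ^ 8 * t) :
    bk + bg + 1 < V := by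
  set r := Nat.sqrt V with hr
  have hrr : r * r ≤ V := Nat.sqrt_le V
  have hle : ∀ y : ℕ, y * y ≤ V → y ≤ r := fun y hy => Nat.le_sqrt.2 hy
  -- the bound for `bg`
  have hbg : ∀ B : ℕ, B ≤ a → e ^ 24 ≤ (2 ^ B) ^ (2 * e - 6) → 4 * bg ≤ V := by
    intro B hB hB2
    refine h7.trans ?_
    have h8 : (a * 2 ^ a * e ^ 8 * t) ^ 3 ≤ V ^ 3 := by
      calc (a * 2 ^ a * e ^ 8 * t) ^ 3 = a ^ 3 * e ^ 24 * (2 ^ a) ^ 3 * t ^ 3 := by ring
        _ ≤ (2 ^ a) ^ 3 * (2 ^ a) ^ (2 * e - 6) * (2 ^ a) ^ 3 * V := by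
            refine Nat.mul_le_mul (Nat.mul_le_mul_right _ (Nat.mul_le_mul (cn4_a a) ?_)) h6
            exact hB2.trans (Nat.pow_le_pow_left (Nat.pow_le_pow_right (by norm_num) hB) _)
        _ = ((2 ^ a) ^ e) ^ 2 * V := by
            rw [← pow_add, ← pow_add, ← pow_mul (2 ^ a) e 2,
              show 3 + (2 * e - 6) + 3 = e * 2 by omega]
        _ ≤ V ^ 2 * V := Nat.mul_le_mul_right _ (Nat.pow_le_pow_left hV 2)
        _ = V ^ 3 := by ring
    exact (Nat.pow_le_pow_iff_left (by norm_num)).1 h8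
  have hbk : ∀ B : ℕ, B ≤ a → 9 ≤ V → e ^ 16 ≤ 9 * (2 ^ B) ^ e → 2 * bk ≤ V := by
    intro B hB hV9 hB2
    have hr3 : 3 ≤ r := hle 3 hV9
    have h8 : e ^ 8 ≤ 4 * r := by
      have h11 : (e ^ 8) ^ 2 ≤ 9 * V := by
        calc (e ^ 8) ^ 2 = e ^ 16 := by ring
          _ ≤ 9 * (2 ^ B) ^ e := hB2
          _ ≤ 9 * V := Nat.mul_le_mul_left _ ((Nat.pow_le_pow_left
              (Nat.pow_le_pow_right (by norm_num) hB) e).trans hV)
      have h12 : V < (r + 1) * (r + 1) := Nat.lt_succ_sqrt V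
      have h13 : (e ^ 8) ^ 2 < (3 * (r + 1)) ^ 2 := by
        calc (e ^ 8) ^ 2 ≤ 9 * V := h11
          _ < 9 * ((r + 1) * (r + 1)) := by omega
          _ = (3 * (r + 1)) ^ 2 := by ring
      have h14 : e ^ 8 < 3 * (r + 1) := lt_of_pow_lt_pow_left₀ 2 (by positivity) h13
      omega
    have h9 : e ^ 8 * r ≤ 4 * r * r := Nat.mul_le_mul_right r h8
    have h10 : 4 * r * r = 4 * (r * r) := by ring
    omega
  have hVb : ∀ B : ℕ, B ≤ a → (2 ^ B) ^ e ≤ V := fun B hB =>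
    (Nat.pow_le_pow_left (Nat.pow_le_pow_right (by norm_num) hB) e).trans hV
  by_cases he25 : 25 ≤ e
  · have ha3 : 3 ≤ a := by
      obtain ⟨s, hs, hse⟩ := Nat.exists_prime_and_dvd (n := e) (by omega)
      refine cn4_ord s a 3 ha (hd s hs hse) ?_
      intro b hb hb3 hdv
      have hb' : b = 1 ∨ b = 2 := by omega
      rcases hb' with rfl | rfl
      · norm_num at hdv
        exact hs.one_lt.ne' hdv
      · norm_num at hdv
        have h8 : s = 3 := (Nat.prime_dvd_prime_iff_eq hs Nat.prime_three).1 hdv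
        exact he3 (h8 ▸ hse)
    have h8 := hbg 3 ha3 (cn4_e25 e he25)
    have hV9 : 9 ≤ V := by
      refine le_trans ?_ (hVb 3 ha3)
      calc 9 ≤ (2 ^ 3) ^ 25 := by norm_num
        _ ≤ (2 ^ 3) ^ e := Nat.pow_le_pow_right (by norm_num) he25
    have h9 := hbk 3 ha3 hV9 (cn4_k25 e he25)
    omega
  · have hcase : e = 5 ∨ e = 11 ∨ e = 13 ∨ e = 17 ∨ e = 19 ∨ e = 23 := by omega
    have h11 : 11 ≤ e → 8 ≤ a → bk + bg + 1 < V := by
      intro he11 ha8
      have h8 := hbg 8 ha8 (cn4_e11 e he11)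
      have hV9 : 9 ≤ V := by
        refine le_trans ?_ (hVb 8 ha8)
        calc 9 ≤ (2 ^ 8) ^ 11 := by norm_num
          _ ≤ (2 ^ 8) ^ e := Nat.pow_le_pow_right (by norm_num) he11
      have h9 := hbk 8 ha8 hV9 (cn4_k11 e he11)
      omega
    rcases hcase with rfl | rfl | rfl | rfl | rfl | rfl
    · -- `e = 5`
      have h5a := hd 5 Nat.prime_five (dvd_refl 5)
      have ha4 : 4 ≤ a := cn4_ord 5 a 4 ha h5a (by
        intro b hb hb4 hdv
        interval_cases b <;> norm_num at hdv)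
      have hr1024 : 1024 ≤ r := hle _ ((by norm_num : 1024 * 1024 ≤ (2 ^ 4) ^ 5).trans (hVb 4 ha4))
      have h8 : 3 * bk ≤ V := by
        have h9 := h2 (by norm_num)
        have h10 : 3 * (5 ^ 4 * r) ≤ 2 * (r * r) := by nlinarith
        omega
      have hV32 : 32 ≤ V := le_trans (by norm_num) (hVb 4 ha4)
      have h9 : 4 * bg ≤ V := by
        by_cases hb0 : bg = 0
        · omega
        have hex : ∃ l : ℕ, l.Prime ∧ 3 ≤ l ∧ l ∣ a ∧ ¬ l ∣ 5 := by
          by_contra hc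
          apply hb0
          apply h5
          intro l hl hl3 hla
          by_contra hle'
          exact hc ⟨l, hl, hl3, hla, hle'⟩
        obtain ⟨l, hl, hl3, hla, hl5⟩ := hex
        have ha12 : 12 ≤ a := by
          by_contra hlt
          have h10 : a < 12 := by omega
          have hl12 : l ≤ a := Nat.le_of_dvd ha hla
          have hl12' : l < 12 := by omega
          interval_cases a <;> first
            | (exfalso; revert h5a; norm_num; done)
            | (interval_cases l <;> first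
                | (exfalso; revert hla; norm_num; done)
                | (exfalso; revert hl; norm_num; done)
                | (exfalso; revert hl5; norm_num; done))
        refine h7.trans ?_
        have h8 : (a * 2 ^ a * 5 ^ 8 * t) ^ 3 ≤ V ^ 3 := by
          calc (a * 2 ^ a * 5 ^ 8 * t) ^ 3 = a ^ 3 * 5 ^ 24 * (2 ^ a) ^ 3 * t ^ 3 := by ring
            _ ≤ (2 ^ a) ^ 1 * (2 ^ a) ^ 6 * (2 ^ a) ^ 3 * V := by
                refine Nat.mul_le_mul (Nat.mul_le_mul_right _ (Nat.mul_le_mul ?_ ?_)) h6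
                · rw [pow_one]
                  clear h5a hV hd h5 h7 hr1024 hle hVb hbk hbg h4 h2 hla hb0
                  induction a, ha12 using Nat.le_induction with
                  | base => norm_num
                  | succ n hn ih =>
                    have h1 : (12 * (n + 1)) ^ 3 ≤ (13 * n) ^ 3 :=
                      Nat.pow_le_pow_left (by omega) 3
                    rw [mul_pow, mul_pow] at h1
                    have ih' := ih (by omega) (by omega)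
                    rw [pow_succ 2 n]
                    norm_num at h1
                    omega
                · calc 5 ^ 24 ≤ (2 ^ 12) ^ 6 := by norm_num
                    _ ≤ (2 ^ a) ^ 6 := Nat.pow_le_pow_left
                        (Nat.pow_le_pow_right (by norm_num) ha12) 6
            _ = ((2 ^ a) ^ 5) ^ 2 * V := by ring
            _ ≤ V ^ 2 * V := Nat.mul_le_mul_right _ (Nat.pow_le_pow_left hV 2)
            _ = V ^ 3 := by ring
        exact (Nat.pow_le_pow_iff_left (by norm_num)).1 h8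
      omega
    · refine h11 le_rfl (cn4_ord 11 a 8 ha (hd 11 (by norm_num) (dvd_refl 11)) ?_)
      intro b hb hb8 hdv
      interval_cases b <;> norm_num at hdv
    · refine h11 (by norm_num) (cn4_ord 13 a 8 ha (hd 13 (by norm_num) (dvd_refl 13)) ?_)
      intro b hb hb8 hdv
      interval_cases b <;> norm_num at hdv
    · refine h11 (by norm_num) (cn4_ord 17 a 8 ha (hd 17 (by norm_num) (dvd_refl 17)) ?_)
      intro b hb hb8 hdv
      interval_cases b <;> norm_num at hdv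
    · refine h11 (by norm_num) (cn4_ord 19 a 8 ha (hd 19 (by norm_num) (dvd_refl 19)) ?_)
      intro b hb hb8 hdv
      interval_cases b <;> norm_num at hdv
    · refine h11 (by norm_num) (cn4_ord 23 a 8 ha (hd 23 (by norm_num) (dvd_refl 23)) ?_)
      intro b hb hb8 hdv
      interval_cases b <;> norm_num at hdv

section
variable {p : ℕ} [Fact p.Prime] {L W : Type} [Group L] [Finite L] [AddCommGroup W]
  [Module (ZMod p) W] [Finite W] [Nontrivial W] {ρ : Representation (ZMod p) L W}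
  {U : Subgroup L}

/-- A vector which no Sylow subgroup fixes. -/
theorem cn (h : QP ρ U) (hs : Group.IsSolvable L) (ho : ¬ 2 ∣ Nat.card L)
    (hna : ¬ ∀ x y : L, x * y * x⁻¹ * y⁻¹ ∈ U) :
    ∃ w : W, w ≠ 0 ∧ ∀ r : ℕ, r.Prime → 3 ≤ r → ¬ r ∣ Nat.card U → ∀ R : Sylow r L,
      (∀ x ∈ (R : Subgroup L), ρ x w = w) → ∀ x ∈ (R : Subgroup L), x = 1 := by
  classical
  have hpp : p.Prime := Fact.out
  rcases Nat.lt_or_ge p 3 with hp2 | hp3
  swap
  · exact Nao.cn h hs ho hp3 hna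
  have hp2' : p = 2 := by have := hpp.two_le; omega
  subst hp2'
  by_cases h3U : 3 ∣ Nat.card U
  · obtain ⟨w, hw0, hw⟩ := Nfv.cn h hs hna
    refine ⟨w, hw0, fun r hr hr3 hrU => hw r hr ?_ hrU⟩
    have h3 : r ≠ 3 := fun h3 => hrU (h3 ▸ h3U)
    have h4 : r ≠ 4 := by
      intro h4
      rw [h4] at hr
      norm_num at hr
    omega
  obtain ⟨E, n, M, hE⟩ := qp_E h hs
  have hcyc := qp_cyc h
  have hprg : Prg U E := ⟨hcyc, hE.UE, hE.cU, hE.com, hE.cen⟩
  obtain ⟨e, he0, he, hep⟩ := sq_ex hprg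
  have hex : ∃ x, (∀ u ∈ U, x * u = u * x) ∧ x ∉ U := by
    by_contra hcon
    push Not at hcon
    apply hna
    intro x y
    apply hcon
    intro u hu
    have h1 := qp_abq h x y
    rw [Subgroup.mem_centralizer_iff] at h1
    exact (h1 u hu).symm
  have hn : 0 < n := hE.pos hex
  have heo := cn_odd ho e he
  have he2 : 3 ≤ e := by
    by_contra hlt
    have h1 : e = 1 := by omega
    rw [h1, one_pow, Subgroup.relIndex_eq_one] at he
    have h2 := hE.mU ⟨0, hn⟩
    exact absurd (le_trans (hE.mE ⟨0, hn⟩) he) (not_le_of_gt h2)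
  have he3 : ¬ 3 ∣ e := fun h3 => h3U (hep 3 Nat.prime_three h3)
  have he7 : e ≠ 7 := by
    rintro rfl
    exact no7 h hs ho hE hn he
  obtain ⟨a, ha0, hUa, _, hAA, ⟨d, hd0, hWd⟩, _⟩ := qp_gal h
  have hV : (2 ^ a) ^ e ≤ Nat.card W := by
    rw [← hAA]
    exact qp_dim h hE e he
  have hdv : ∀ s : ℕ, s.Prime → s ∣ e → s ∣ 2 ^ a - 1 := fun s hsp hse =>
    (hep s hsp hse).trans hUa
  obtain ⟨-, b2, -, b4⟩ := Nao.bad_cen h hs ho hE hn e he
  obtain ⟨g1, t, g2, g3⟩ := bad_gal h hs hE hn e a he hAA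
  have key := cn_num2 a e (Nat.card W) _ _ t ha0 he2 heo he3 he7 hdv hV b2
    b4 (fun hl => g1 fun l hlp hl3 hla => hep l hlp (hl l hlp hl3 hla)) g2 g3
  set A1 : Set W := {w | ∃ x : L, Nao.Pe U x ∧ (∀ u ∈ U, x * u = u * x) ∧ ρ x w = w} with hA1
  set A2 : Set W := {w | ∃ x : L, Nao.Pe U x ∧ (∃ u ∈ U, x * u ≠ u * x) ∧ ρ x w = w} with hA2
  have hc1 : Nat.card {w : W // ∃ x : L, Nao.Pe U x ∧ (∀ u ∈ U, x * u = u * x) ∧ ρ x w = w} =
    A1.ncard := rfl
  have hc2 : Nat.card {w : W // ∃ x : L, Nao.Pe U x ∧ (∃ u ∈ U, x * u ≠ u * x) ∧ ρ x w = w} =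
    A2.ncard := rfl
  rw [hc1, hc2] at key
  have hex2 : ∃ w : W, w ∉ (A1 ∪ A2) ∪ {0} := by
    by_contra hcon
    push Not at hcon
    have h1 : (A1 ∪ A2) ∪ {0} = (Set.univ : Set W) := Set.eq_univ_of_forall hcon
    have h2 : ((A1 ∪ A2) ∪ {0}).ncard ≤ A1.ncard + A2.ncard + 1 := by
      refine (Set.ncard_union_le _ _).trans ?_
      rw [Set.ncard_singleton]
      have := Set.ncard_union_le A1 A2
      omega
    rw [h1, Set.ncard_univ] at h2
    omega
  obtain ⟨w, hw⟩ := hex2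
  simp only [Set.mem_union, Set.mem_singleton_iff, not_or] at hw
  refine ⟨w, hw.2, ?_⟩
  intro r hr hr11 hrU R hfix x hx
  have : Fact r.Prime := ⟨hr⟩
  by_contra hx1
  obtain ⟨k, hk⟩ := (IsPGroup.iff_orderOf.mp R.isPGroup') ⟨x, hx⟩
  rw [Subgroup.orderOf_mk] at hk
  have hk0 : k ≠ 0 := by
    intro h0
    rw [h0, pow_zero, orderOf_eq_one_iff] at hk
    exact hx1 hk
  obtain ⟨k, rfl⟩ := Nat.exists_eq_succ_of_ne_zero hk0
  have hy1 : x ^ (r ^ k) ≠ 1 := by
    intro h0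
    have h1 := orderOf_dvd_of_pow_eq_one h0
    rw [hk] at h1
    have h2 := Nat.le_of_dvd (pow_pos hr.pos k) h1
    have h3 : r ^ k < r ^ (k + 1) := Nat.pow_lt_pow_right hr.one_lt (Nat.lt_succ_self k)
    exact absurd h2 (not_le_of_gt h3)
  have hyr : (x ^ (r ^ k)) ^ r = 1 := by
    rw [← pow_mul, ← pow_succ]
    have := pow_orderOf_eq_one x
    rw [hk] at this
    exact this
  have hyR : x ^ (r ^ k) ∈ (R : Subgroup L) := pow_mem hx _
  have hPe : Nao.Pe U (x ^ (r ^ k)) := ⟨hy1, r, hr, hr11, hrU, hyr⟩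
  by_cases hcu : ∀ u ∈ U, x ^ (r ^ k) * u = u * x ^ (r ^ k)
  · exact hw.1.1 ⟨_, hPe, hcu, hfix _ hyR⟩
  · push Not at hcu
    exact hw.1.2 ⟨_, hPe, hcu, hfix _ hyR⟩

end

end Pool.Agent.Nap
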