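import Pool.Agent.Nao.Sp

/-! The special vector, groups of odd order, characteristic two. -/

set_option autoImplicit false

namespace Pool.Agent.Nap

open Pool.Agent.Nan Pool.Agent.Nas

private theorem sp_num1 (a : ℕ) : a ^ 15 ≤ 5 ^ 15 * 4 ^ a := by
  rcases Nat.lt_or_ge a 11 with h1 | h2
  · interval_cases a <;> norm_num
  · induction a, h2 using Nat.le_induction with
    | base => norm_num
    | succ a h2 ih =>
      have h3 : (11 * (a + 1)) ^ 15 ≤ (12 * a) ^ 15 := Nat.pow_le_pow_left (by omega) 15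
      rw [mul_pow, mul_pow] at h3
      have h4 : (4 : ℕ) ^ (a + 1) = 4 ^ a * 4 := pow_succ _ _
      rw [h4]
      norm_num at h3 ih ⊢
      omega

private theorem sp_num2 (a : ℕ) : (2 * a) ^ 15 ≤ 15 ^ 15 * 4 ^ a := by
  have h1 := sp_num1 a
  calc (2 * a) ^ 15 = 2 ^ 15 * a ^ 15 := mul_pow _ _ _
    _ ≤ 2 ^ 15 * (5 ^ 15 * 4 ^ a) := Nat.mul_le_mul_left _ h1
    _ = 10 ^ 15 * 4 ^ a := by ring
    _ ≤ 15 ^ 15 * 4 ^ a := Nat.mul_le_mul_right _ (by norm_num)

private theorem sp_w (k w a z t5 N : ℕ) (hk : (k * a) ^ 15 ≤ (5 * 3 ^ (k - 1)) ^ 15 * 4 ^ a)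
    (hw : 5 * 3 ^ (k - 1) * w ≤ a) (h2 : z ^ 3 ≤ N) (h4 : t5 ^ 5 ≤ N) (h5 : 2 ^ a ≤ N) :
    k * w * (z * z * t5) ≤ N := by
  have h6 : (k * w) ^ 15 ≤ 4 ^ a := by
    have h7 : (5 * 3 ^ (k - 1) * (k * w)) ^ 15 ≤ (5 * 3 ^ (k - 1)) ^ 15 * 4 ^ a := by
      refine le_trans (Nat.pow_le_pow_left ?_ 15) hk
      calc 5 * 3 ^ (k - 1) * (k * w) = k * (5 * 3 ^ (k - 1) * w) := by ring
        _ ≤ k * a := Nat.mul_le_mul_left _ hw
    rw [mul_pow] at h7
    exact Nat.le_of_mul_le_mul_left h7 (by positivity)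
  have h8 : 4 ^ a ≤ N ^ 2 := by
    calc 4 ^ a = (2 ^ a) ^ 2 := by rw [← pow_mul, mul_comm, pow_mul]; norm_num
      _ ≤ N ^ 2 := Nat.pow_le_pow_left h5 2
  have h9 : (k * w * (z * z * t5)) ^ 15 ≤ N ^ 15 := by
    calc (k * w * (z * z * t5)) ^ 15 = (k * w) ^ 15 * (z ^ 3) ^ 10 * (t5 ^ 5) ^ 3 := by ring
      _ ≤ N ^ 2 * N ^ 10 * N ^ 3 := Nat.mul_le_mul (Nat.mul_le_mul (h6.trans h8)
          (Nat.pow_le_pow_left h2 10)) (Nat.pow_le_pow_left h4 3)
      _ = N ^ 15 := by ring
  exact (Nat.pow_le_pow_iff_left (by norm_num)).1 h9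

private theorem sp_st (k w u z t5 N b5 : ℕ) (hN : 0 < N) (h1 : u + 1 ≤ z)
    (h2 : k * w * (z * z * t5) ≤ N) (h3 : b5 ≤ w * (u * (z * t5))) : k * b5 < N := by
  rcases Nat.eq_zero_or_pos (k * w * (z * t5)) with h0 | h0
  · have h4 : k * b5 ≤ u * (k * w * (z * t5)) := by
      calc k * b5 ≤ k * (w * (u * (z * t5))) := Nat.mul_le_mul_left _ h3
        _ = u * (k * w * (z * t5)) := by ring
    rw [h0, mul_zero] at h4
    omega
  · have h4 : k * b5 ≤ u * (k * w * (z * t5)) := by
      calc k * b5 ≤ k * (w * (u * (z * t5))) := Nat.mul_le_mul_left _ h3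
        _ = u * (k * w * (z * t5)) := by ring
    have h5 : (u + 1) * (k * w * (z * t5)) ≤ N := by
      calc (u + 1) * (k * w * (z * t5)) ≤ z * (k * w * (z * t5)) := Nat.mul_le_mul_right _ h1
        _ = k * w * (z * z * t5) := by ring
        _ ≤ N := h2
    have h6 : (u + 1) * (k * w * (z * t5)) = u * (k * w * (z * t5)) + k * w * (z * t5) := by ring
    omega

private theorem sp_b3 (u z t3 N b3 : ℕ) (hz : 2 ≤ z) (h1 : u + 1 ≤ z) (h2 : z ^ 3 ≤ N)
    (h3 : t3 ^ 3 ≤ N) (h4 : 2 * b3 ≤ u * (z * t3) ∨ b3 ≤ z * t3) : 2 * b3 ≤ N := by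
  have h9 : z * z * t3 ≤ N := by
    have h10 : (z * z * t3) ^ 3 ≤ N ^ 3 := by
      calc (z * z * t3) ^ 3 = z ^ 3 * z ^ 3 * t3 ^ 3 := by ring
        _ ≤ N * N * N := Nat.mul_le_mul (Nat.mul_le_mul h2 h2) h3
        _ = N ^ 3 := by ring
    exact (Nat.pow_le_pow_iff_left (by norm_num)).1 h10
  rcases h4 with h4 | h4
  · calc 2 * b3 ≤ u * (z * t3) := h4
      _ ≤ z * (z * t3) := Nat.mul_le_mul_right _ (by omega)
      _ = z * z * t3 := by ring
      _ ≤ N := h9
  · calc 2 * b3 ≤ 2 * (z * t3) := Nat.mul_le_mul_left _ h4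
      _ ≤ z * (z * t3) := Nat.mul_le_mul_right _ hz
      _ = z * z * t3 := by ring
      _ ≤ N := h9

section
variable {H : Type} [Group H] [Finite H]

/-- Double counting. -/
private theorem sp_dbl {p : ℕ} {L Y : Type} [Group L] [Finite L] [AddCommGroup Y] [Module (ZMod p) Y]
    [Fintype Y] {ρ : Representation (ZMod p) L Y} (Z : Submodule (ZMod p) Y) [DecidableEq Y]
    (T : Finset L) (hTZ : ∀ x ∈ T, ∀ z ∈ Z, ρ x z ∈ Z) (c β : ℕ)
    (hpow : ∀ x ∈ T, ∀ i < c, x ^ (i + 1) ∈ T) (hord : ∀ x ∈ T, c < orderOf x)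
    (hb : ∀ x ∈ T, Nat.card {m : Y // ρ x m - m ∈ Z} ≤ β)
    (Bd : Finset Y) (hBd : ∀ m ∈ Bd, ∃ x ∈ T, ρ x m - m ∈ Z) :
    c * Bd.card ≤ T.card * β := by
  classical
  rw [mul_comm c]
  refine Finset.card_mul_le_card_mul (fun (m : Y) (x : L) => ρ x m - m ∈ Z) ?_ ?_
  · intro m hm
    obtain ⟨x, hxT, hxm⟩ := hBd m hm
    have hZi : ∀ i : ℕ, ∀ z ∈ Z, ρ (x ^ i) z ∈ Z := by
      intro i
      induction i with
      | zero =>
        intro z hz
        rw [pow_zero, map_one]
        exact hz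
      | succ i ih =>
        intro z hz
        rw [pow_succ, map_mul, Module.End.mul_apply]
        exact ih _ (hTZ x hxT z hz)
    have hpm : ∀ i : ℕ, ρ (x ^ i) m - m ∈ Z := by
      intro i
      induction i with
      | zero =>
        rw [pow_zero, map_one, Module.End.one_apply, sub_self]
        exact zero_mem _
      | succ i ih =>
        have h1 : ρ (x ^ (i + 1)) m - m = ρ (x ^ i) (ρ x m - m) + (ρ (x ^ i) m - m) := by
          rw [pow_succ, map_mul, Module.End.mul_apply, map_sub]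
          abel
        rw [h1]
        exact add_mem (hZi i _ hxm) ih
    have h3 : ((Finset.range c).image fun i => x ^ (i + 1)) ⊆
        Finset.bipartiteAbove (fun (m : Y) (x : L) => ρ x m - m ∈ Z) T m := by
      intro y hy
      obtain ⟨i, hi, rfl⟩ := Finset.mem_image.1 hy
      rw [Finset.mem_range] at hi
      rw [Finset.mem_bipartiteAbove]
      exact ⟨hpow x hxT i hi, hpm _⟩
    have h4 : ((Finset.range c).image fun i => x ^ (i + 1)).card = c := by
      rw [Finset.card_image_of_injOn, Finset.card_range]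
      intro i hi j hj hij
      rw [Finset.coe_range, Set.mem_Iio] at hi hj
      have hij' : x ^ (i + 1) = x ^ (j + 1) := hij
      have hco := hord x hxT
      have h5 := pow_injOn_Iio_orderOf (x := x) (show i + 1 ∈ Set.Iio (orderOf x) by
        rw [Set.mem_Iio]; omega) (show j + 1 ∈ Set.Iio (orderOf x) by
        rw [Set.mem_Iio]; omega) hij'
      omega
    calc c = _ := h4.symm
      _ ≤ _ := Finset.card_le_card h3
  · intro x hx
    calc (Finset.bipartiteBelow (fun (m : Y) (x : L) => ρ x m - m ∈ Z) Bd x).card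
        ≤ (Finset.univ.filter fun m : Y => ρ x m - m ∈ Z).card := by
          apply Finset.card_le_card
          intro m hm
          rw [Finset.mem_bipartiteBelow] at hm
          exact Finset.mem_filter.2 ⟨Finset.mem_univ _, hm.2⟩
      _ = Nat.card {m : Y // ρ x m - m ∈ Z} := by
          rw [Nat.card_eq_fintype_card, Fintype.card_subtype]
      _ ≤ β := hb x hx

/-- the preimage of a subspace -/
private theorem sp_pre {p : ℕ} {Y : Type} [AddCommGroup Y] [Module (ZMod p) Y] [Finite Y]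
    (f : Y →ₗ[ZMod p] Y) (Z : Submodule (ZMod p) Y) :
    Nat.card {m : Y // f m ∈ Z} ≤ Nat.card Z * Nat.card {m : Y // f m = 0} := by
  classical
  let g : Z → Y := fun z => if h : ∃ m, f m = z then h.choose else 0
  have hg : ∀ m : Y, ∀ hm : f m ∈ Z, f (g ⟨f m, hm⟩) = f m := by
    intro m hm
    have h : ∃ m', f m' = ((⟨f m, hm⟩ : Z) : Y) := ⟨m, rfl⟩
    show f (if h : ∃ m', f m' = ((⟨f m, hm⟩ : Z) : Y) then h.choose else 0) = f m
    rw [dif_pos h]
    exact h.choose_spec
  rw [← Nat.card_prod]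
  refine Nat.card_le_card_of_injective
    (fun m : {m : Y // f m ∈ Z} => (⟨⟨f m.1, m.2⟩, ⟨m.1 - g ⟨f m.1, m.2⟩, by
      rw [map_sub, hg, sub_self]⟩⟩ : Z × {m : Y // f m = 0})) ?_
  rintro ⟨m, hm⟩ ⟨m', hm'⟩ h
  rw [Prod.mk.injEq] at h
  obtain ⟨h1, h2⟩ := h
  have h3 := Subtype.ext_iff.1 h2
  simp only at h3
  rw [h1] at h3
  exact Subtype.ext (sub_left_injective h3)

/-- a proper subspace has at most half of the vectors -/
private theorem sp_half {Y : Type} [AddCommGroup Y] [Module (ZMod 2) Y] [Finite Y]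
    (Z' Z : Submodule (ZMod 2) Y) (h : Z' < Z) : 2 * Nat.card Z' ≤ Nat.card Z := by
  have h1 : Nat.card Z' ∣ Nat.card Z := by
    have h2 := AddSubgroup.card_dvd_of_le (H := Z'.toAddSubgroup) (K := Z.toAddSubgroup) h.le
    exact h2
  obtain ⟨k, hk⟩ := h1
  have h0 : 0 < Nat.card Z := Nat.card_pos
  have hk0 : k ≠ 0 := by
    rintro rfl
    omega
  have hk1 : k ≠ 1 := by
    rintro rfl
    rw [mul_one] at hk
    have h3 : (Z' : Set Y) = (Z : Set Y) := by
      apply Set.eq_of_subset_of_ncard_le h.le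
      rw [← Nat.card_coe_set_eq, ← Nat.card_coe_set_eq]
      exact hk.le
    exact h.ne (SetLike.coe_injective h3)
  rw [hk, mul_comm]
  exact Nat.mul_le_mul_left _ (by omega)

/-- At most `s - 1` automorphisms of order `s`. -/
private theorem sp_cyc {p : ℕ} [Fact p.Prime] {K : Type} [Field K] [Finite K] [CharP K p]
    [DecidableEq (K ≃+* K)] [Fintype (K ≃+* K)] (s : ℕ) (hs : 0 < s) :
    (Finset.univ.filter fun τ : K ≃+* K => τ ≠ 1 ∧ τ ^ s = 1).card ≤ s - 1 := by
  classical
  let _ := ZMod.algebra K p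
  have : Fintype (K ≃ₐ[ZMod p] K) := Fintype.ofFinite _
  let e : (K ≃+* K) ≃* (K ≃ₐ[ZMod p] K) :=
    { toFun := fun f => AlgEquiv.ofRingEquiv (f := f) fun r => by
        have h1 : (f : K →+* K).comp (algebraMap (ZMod p) K) = algebraMap (ZMod p) K :=
          Subsingleton.elim _ _
        exact congrArg (fun g : ZMod p →+* K => g r) h1
      invFun := fun f => f.toRingEquiv
      left_inv := fun f => by ext c; rfl
      right_inv := fun f => by ext c; rfl
      map_mul' := fun f g => by ext c; rfl }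
  have h1 : IsCyclic (K ≃ₐ[ZMod p] K) := inferInstance
  have h2 := IsCyclic.card_pow_eq_one_le (α := K ≃ₐ[ZMod p] K) (n := s) hs
  have h3 : (insert (1 : K ≃+* K) (Finset.univ.filter fun τ : K ≃+* K => τ ≠ 1 ∧ τ ^ s = 1)).card ≤
      (Finset.univ.filter fun a : K ≃ₐ[ZMod p] K => a ^ s = 1).card := by
    apply Finset.card_le_card_of_injOn e
    · intro τ hτ
      rw [Finset.mem_coe, Finset.mem_insert] at hτ
      rw [Finset.mem_coe, Finset.mem_filter]
      refine ⟨Finset.mem_univ _, ?_⟩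
      rcases hτ with rfl | hτ
      · rw [map_one, one_pow]
      · rw [← map_pow, (Finset.mem_filter.1 hτ).2.2, map_one]
    · exact e.injective.injOn
  rw [Finset.card_insert_of_notMem (by simp)] at h3
  omega

/-- the number of the primes -/
private theorem sp_cnt (a c : ℕ) (ha : 0 < a) (hc : 0 < c) (P : Finset ℕ)
    (hP : ∀ s ∈ P, 5 ≤ s ∧ c * s ∣ a) : 5 * c * P.card ≤ a := by
  have h1 : P.card ≤ a / (5 * c) := by
    have h2 : (P.image fun s => a / (c * s)) ⊆ Finset.Icc 1 (a / (5 * c)) := by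
      intro y hy
      obtain ⟨s, hs, rfl⟩ := Finset.mem_image.1 hy
      obtain ⟨h5, hd⟩ := hP s hs
      rw [Finset.mem_Icc]
      constructor
      · exact Nat.div_pos (Nat.le_of_dvd ha hd) (Nat.mul_pos hc (by omega))
      · apply Nat.div_le_div_left
        · rw [mul_comm c s]
          exact Nat.mul_le_mul_right _ h5
        · omega
    have h3 : (P.image fun s => a / (c * s)).card = P.card := by
      apply Finset.card_image_of_injOn
      intro s hs s' hs' hss
      obtain ⟨-, hd⟩ := hP s hs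
      obtain ⟨-, hd'⟩ := hP s' hs'
      have h4 : a / (c * s) = a / (c * s') := hss
      have h5 : c * s = c * s' := by
        rw [← Nat.div_div_self hd ha.ne', ← Nat.div_div_self hd' ha.ne', h4]
      exact Nat.eq_of_mul_eq_mul_left hc h5
    calc P.card = _ := h3.symm
      _ ≤ (Finset.Icc 1 (a / (5 * c))).card := Finset.card_le_card h2
      _ = a / (5 * c) := by rw [Nat.card_Icc, Nat.add_sub_cancel]
  calc 5 * c * P.card ≤ 5 * c * (a / (5 * c)) := Nat.mul_le_mul_left _ h1
    _ ≤ a := Nat.mul_div_le _ _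

/-- `(1 + x + x ^ 2) Z ≠ 0` if `x` does not commute with an element of `U` which stabilizes `Z` -/
private theorem sp_van {L Y : Type} [Group L] [Finite L] [AddCommGroup Y] [Module (ZMod 2) Y]
    [Finite Y] [Nontrivial Y] {ρ : Representation (ZMod 2) L Y} {U : Subgroup L} (h : QP ρ U)
    (Z : Submodule (ZMod 2) Y) (hZ : Z ≠ ⊥) (x v : L) (hv : v ∈ U)
    (hvZ : ∀ z ∈ Z, ρ v z ∈ Z) (hx3 : x ^ 3 = 1) (hxv : x * v ≠ v * x) :
    ∃ z ∈ Z, z + ρ x z + ρ (x * x) z ≠ 0 := by
  obtain ⟨K, iF, iFin, iCh, iMod, χ, σ, hχ, hχρ, hσρ, hσ, hgen⟩ := qp_fld h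
  obtain ⟨z0, hz0, hz1⟩ := Submodule.exists_mem_ne_zero_of_ne_bot hZ
  by_contra hcon
  push Not at hcon
  obtain ⟨α, hα⟩ : ∃ α : K, α = ((χ ⟨v, hv⟩ : Kˣ) : K) := ⟨_, rfl⟩
  have hact : ∀ w : Y, ρ v w = α • w := fun w => by rw [hα]; exact hχρ ⟨v, hv⟩ w
  obtain ⟨β, hβ⟩ : ∃ β : K, β = σ x α := ⟨_, rfl⟩
  obtain ⟨γ, hγ⟩ : ∃ γ : K, γ = σ (x * x) α := ⟨_, rfl⟩
  have hcomm : ∀ y : L, σ y α = α → y * v = v * y := by
    intro y hy
    have h1 : (v * y)⁻¹ * (y * v) = 1 := by
      apply h.fai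
      intro w
      have h2 : ρ (y * v) w = ρ (v * y) w := by
        rw [map_mul, map_mul, Module.End.mul_apply, Module.End.mul_apply, hact, hact, hσρ, hy]
      rw [map_mul, Module.End.mul_apply, h2, ← Module.End.mul_apply, ← map_mul, inv_mul_cancel,
        map_one, Module.End.one_apply]
    exact (inv_mul_eq_one.1 h1).symm
  have hαβ : α ≠ β := fun h1 => hxv (hcomm x (by rw [← hβ, ← h1]))
  have hαγ : α ≠ γ := by
    intro h1
    have h2 : (x * x) * v = v * (x * x) := hcomm (x * x) (by rw [← hγ, ← h1])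
    apply hxv
    have h3 : x = (x * x) * (x * x) := by
      have h4 : (x * x) * (x * x) = x ^ 3 * x := by
        simp only [pow_succ, pow_zero, one_mul, mul_assoc]
      rw [h4, hx3, one_mul]
    have h5 : Commute (x * x) v := h2
    have h6 : Commute ((x * x) * (x * x)) v := h5.mul_left h5
    rw [← h3] at h6
    exact h6
  have e1 := hcon z0 hz0
  have e2 := hcon (ρ v z0) (hvZ _ hz0)
  have e3 := hcon (ρ v (ρ v z0)) (hvZ _ (hvZ _ hz0))
  rw [hact, hσρ, hσρ, ← hβ, ← hγ] at e2
  rw [hact, hact, smul_smul, hσρ, hσρ, map_mul, map_mul, ← hβ, ← hγ] at e3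
  have e4 : ((α - β) * (α - γ)) • z0 = 0 := by
    have e5 : ((α - β) * (α - γ)) • z0 =
        ((α * α) • z0 + (β * β) • ρ x z0 + (γ * γ) • ρ (x * x) z0) -
        (β + γ) • (α • z0 + β • ρ x z0 + γ • ρ (x * x) z0) +
        (β * γ) • (z0 + ρ x z0 + ρ (x * x) z0) := by
      module
    rw [e5, e1, e2, e3, smul_zero, smul_zero, sub_zero, add_zero]
  rcases smul_eq_zero.1 e4 with h1 | h1
  · rcases mul_eq_zero.1 h1 with h2 | h2
    · exact hαβ (sub_eq_zero.1 h2)
    · exact hαγ (sub_eq_zero.1 h2)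
  · exact hz1 h1

/-- the version for a quasi-primitive group -/
private theorem sp_aux {L Y : Type} [Group L] [Finite L] [AddCommGroup Y] [Module (ZMod 2) Y]
    [Finite Y] [Nontrivial Y] {ρ : Representation (ZMod 2) L Y} {U : Subgroup L} (h : QP ρ U)
    (hab : ∀ x y : L, x * y * x⁻¹ * y⁻¹ ∈ U)
    (S : Subgroup L)
    (Z : Submodule (ZMod 2) Y) (hZ : Z ≠ ⊥) (hZS : ∀ x ∈ S, ∀ z ∈ Z, ρ x z ∈ Z)
    (hc : Nat.card Z ^ 3 ≤ Nat.card Y) :
    ∃ m : Y, ∀ x ∈ S, ∀ s : ℕ, s.Prime → 3 ≤ s → (∀ u ∈ U, u ^ s = 1 → u = 1) → x ^ s = 1 →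
      ρ x m - m ∈ Z → x = 1 := by
  classical
  obtain ⟨a, ha, -, hidx, -, ⟨d, hd, hcard⟩, hgal⟩ := qp_gal h
  -- the centralizer of `U` is `U`
  have hcent : Subgroup.centralizer (U : Set L) = U := by
    apply le_antisymm
    · intro z hz
      rw [Subgroup.mem_centralizer_iff] at hz
      have hzU : z ∈ U ⊔ Subgroup.zpowers z := Subgroup.mem_sup_right (Subgroup.mem_zpowers z)
      refine h.mx (U ⊔ Subgroup.zpowers z) ⟨⟨?_⟩, ?_⟩ le_sup_left hzU
      · intro n hn g
        have h1 : g * n * g⁻¹ = g * n * g⁻¹ * n⁻¹ * n := by group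
        rw [h1]
        exact mul_mem (Subgroup.mem_sup_left (hab g n)) hn
      · have h1 : U ⊔ Subgroup.zpowers z ≤ Subgroup.centralizer (U : Set L) := by
          refine sup_le (fun u hu => ?_) ?_
          · rw [Subgroup.mem_centralizer_iff]
            intro u' hu'
            exact h.ab.com u' hu' u hu
          · rw [Subgroup.zpowers_le, Subgroup.mem_centralizer_iff]
            exact hz
        have h2 : U ⊔ Subgroup.zpowers z ≤ Subgroup.centralizer ({z} : Set L) := by
          refine sup_le (fun u hu => ?_) ?_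
          · rw [Subgroup.mem_centralizer_iff]
            rintro _ rfl
            exact (hz u hu).symm
          · rw [Subgroup.zpowers_le, Subgroup.mem_centralizer_iff]
            rintro _ rfl
            rfl
        intro x hx
        have h3 : U ⊔ Subgroup.zpowers z ≤ Subgroup.centralizer ({x} : Set L) := by
          refine sup_le (fun u hu => ?_) ?_
          · rw [Subgroup.mem_centralizer_iff]
            rintro _ rfl
            exact (Subgroup.mem_centralizer_iff.1 (h1 hx) u hu).symm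
          · rw [Subgroup.zpowers_le, Subgroup.mem_centralizer_iff]
            rintro _ rfl
            exact (Subgroup.mem_centralizer_iff.1 (h2 hx) z rfl).symm
        intro y hy
        exact Subgroup.mem_centralizer_iff.1 (h3 hy) x rfl
    · intro u hu
      rw [Subgroup.mem_centralizer_iff]
      intro u' hu'
      exact h.ab.com u' hu' u hu
  have hUn : U.Normal := h.ab.nor
  -- the order of `S ⊓ U`
  set u := Nat.card (U.subgroupOf S) with hu
  have hu1 : 0 < u := Nat.card_pos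
  have hSU : u + 1 ≤ Nat.card Z := by
    obtain ⟨z0, hz0, hz1⟩ := Submodule.exists_mem_ne_zero_of_ne_bot hZ
    have hinj : ∀ g g' : U.subgroupOf S, ρ ((g : S) : L) z0 = ρ ((g' : S) : L) z0 → g = g' := by
      intro g g' h2
      have hg : ((g : S) : L) ∈ U := g.2
      have hg' : ((g' : S) : L) ∈ U := g'.2
      have h3 : ρ (((g' : S) : L)⁻¹ * ((g : S) : L)) z0 = z0 := by
        rw [map_mul, Module.End.mul_apply, h2, ← Module.End.mul_apply, ← map_mul, inv_mul_cancel,
          map_one, Module.End.one_apply]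
      have h4 := qp_fpf h U h.ab _ (mul_mem (inv_mem hg') hg) z0 hz1 h3
      have h5 : ((g : S) : L) = ((g' : S) : L) := by
        rw [inv_mul_eq_one] at h4
        exact h4.symm
      exact Subtype.ext (Subtype.ext h5)
    have h1 : Nat.card (Option (U.subgroupOf S)) ≤ Nat.card Z := by
      refine Nat.card_le_card_of_injective
        (fun o : Option (U.subgroupOf S) => (match o with
          | none => (0 : Z)
          | some g => ⟨ρ ((g : S) : L) z0, hZS _ (g : S).2 z0 hz0⟩ : Z)) ?_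
      have hne0 : ∀ g : U.subgroupOf S, ρ ((g : S) : L) z0 ≠ 0 := by
        intro g h0
        apply hz1
        have h2 : ρ (((g : S) : L)⁻¹) (ρ ((g : S) : L) z0) = z0 := by
          rw [← Module.End.mul_apply, ← map_mul, inv_mul_cancel, map_one, Module.End.one_apply]
        rw [h0, map_zero] at h2
        exact h2.symm
      rintro (_ | g) (_ | g') hgg
      · rfl
      · exact absurd (congrArg Subtype.val hgg).symm (hne0 g')
      · exact absurd (congrArg Subtype.val hgg) (hne0 g)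
      · have h2 : ρ ((g : S) : L) z0 = ρ ((g' : S) : L) z0 := congrArg Subtype.val hgg
        rw [hinj g g' h2]
    rwa [Finite.card_option] at h1
  have hz2 : 2 ≤ Nat.card Z := by omega
  have := Fintype.ofFinite L
  have := Fintype.ofFinite Y
  obtain ⟨K, iF, iFin, iCh, iMod, χ, σ, hχ, hχρ, hσρ, hσ, hgen⟩ := qp_fld h
  have hf1 : Finite (K ≃+* K) := Finite.of_injective (fun f : K ≃+* K => (f : K → K))
    (fun f g hfg => RingEquiv.ext fun x => congrFun hfg x)
  have : Fintype (K ≃+* K) := Fintype.ofFinite _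
  have hker : ∀ g : L, σ g = 1 ↔ g ∈ U := by
    intro g
    rw [hσ]
    constructor
    · intro h1
      rw [← hcent, Subgroup.mem_centralizer_iff]
      exact fun u hu => (h1 u hu).symm
    · intro h1 u hu
      exact h.ab.com g h1 u hu
  -- the elements of order `s`
  let T : ℕ → Finset L := fun s => Finset.univ.filter fun x => x ∈ S ∧ x ≠ 1 ∧
    (∀ u ∈ U, u ^ s = 1 → u = 1) ∧ x ^ s = 1
  have hTm : ∀ s x, x ∈ T s ↔ (x ∈ S ∧ x ≠ 1 ∧ (∀ u ∈ U, u ^ s = 1 → u = 1) ∧ x ^ s = 1) := by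
    intro s x
    simp [T]
  have hTσ : ∀ s x, x ∈ T s → σ x ≠ 1 ∧ (σ x) ^ s = 1 := by
    intro s x hx
    obtain ⟨hxS, hx1, hxU, hxs⟩ := (hTm s x).1 hx
    refine ⟨?_, by rw [← map_pow, hxs, map_one]⟩
    rw [Ne, hker]
    exact fun hxu => hx1 (hxU x hxu hxs)
  have hTc : ∀ s : ℕ, 0 < s → (T s).card ≤ u * (s - 1) := by
    intro s hs
    have h1 : (T s).card ≤ u * ((T s).image σ).card := by
      apply Finset.card_le_mul_card_image
      intro b hb
      obtain ⟨x, hx, rfl⟩ := Finset.mem_image.1 hb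
      have hxS : x ∈ S := ((hTm s x).1 hx).1
      rw [hu, Nat.card_eq_fintype_card]
      have h2 : ∀ y : {y // y ∈ (T s).filter fun y => σ y = σ x},
          x⁻¹ * y.1 ∈ S ∧ x⁻¹ * y.1 ∈ U := by
        rintro ⟨y, hy⟩
        obtain ⟨hyT, hyx⟩ := Finset.mem_filter.1 hy
        refine ⟨mul_mem (inv_mem hxS) ((hTm s y).1 hyT).1, ?_⟩
        rw [← hker, map_mul, map_inv, hyx, inv_mul_cancel]
      rw [← Fintype.card_coe]
      refine Fintype.card_le_of_injective (fun y =>
        (⟨⟨x⁻¹ * y.1, (h2 y).1⟩, (h2 y).2⟩ : U.subgroupOf S)) ?_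
      intro y y' hyy
      have h3 : x⁻¹ * y.1 = x⁻¹ * y'.1 :=
        congrArg (fun z : U.subgroupOf S => ((z : S) : L)) hyy
      exact Subtype.ext (mul_left_cancel h3)
    refine h1.trans (Nat.mul_le_mul_left _ ?_)
    refine le_trans (Finset.card_le_card ?_) (sp_cyc (p := 2) (K := K) s hs)
    intro τ hτ
    obtain ⟨x, hx, rfl⟩ := Finset.mem_image.1 hτ
    exact Finset.mem_filter.2 ⟨Finset.mem_univ _, hTσ s x hx⟩
  -- the primes divide `a`
  have hTa : ∀ s : ℕ, s.Prime → (T s).Nonempty → s ∣ a := by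
    rintro s hs ⟨x, hx⟩
    obtain ⟨hxS, hx1, hxU, hxs⟩ := (hTm s x).1 hx
    refine dvd_trans ?_ hidx
    rw [hcent]
    have h1 : (QuotientGroup.mk x : L ⧸ U) ≠ 1 := by
      intro h1
      exact hx1 (hxU x ((QuotientGroup.eq_one_iff x).mp h1) hxs)
    have h2 : (QuotientGroup.mk x : L ⧸ U) ^ s = 1 := by
      rw [← QuotientGroup.mk_pow, hxs]
      rfl
    have h4 : orderOf (QuotientGroup.mk x : L ⧸ U) = s := by
      have : Fact s.Prime := ⟨hs⟩
      exact orderOf_eq_prime h2 h1
    rw [Subgroup.index_eq_card, ← h4]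
    exact orderOf_dvd_natCard _
  -- fixed vectors
  have hfixc : ∀ k : ℕ, 0 < k → ∃ t : ℕ, t ^ k ≤ Nat.card Y ∧
      ∀ s : ℕ, s ^ k ≤ Nat.card Y → s ≤ t := by
    intro k hk
    refine ⟨Nat.findGreatest (fun s => s ^ k ≤ Nat.card Y) (Nat.card Y), ?_, ?_⟩
    · exact Nat.findGreatest_spec (P := fun s => s ^ k ≤ Nat.card Y) (m := 0) (Nat.zero_le _)
        (by rw [zero_pow hk.ne']; exact Nat.zero_le _)
    · intro s hs2
      exact Nat.le_findGreatest ((Nat.le_self_pow hk.ne' s).trans hs2) hs2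
  obtain ⟨t3, ht3, ht3'⟩ := hfixc 3 (by norm_num)
  obtain ⟨t5, ht5, ht5'⟩ := hfixc 5 (by norm_num)
  have hgal' : ∀ (k s : ℕ) (x : L), k ≤ s → s.Prime → x ∈ T s →
      Nat.card {w : Y // ρ x w = w} ^ k ≤ Nat.card Y := by
    intro k s x hks hs hx
    obtain ⟨hxS, hx1, hxU, hxs⟩ := (hTm s x).1 hx
    have hpos : 0 < Nat.card {w : Y // ρ x w = w} := by
      have : Nonempty {w : Y // ρ x w = w} := ⟨⟨0, map_zero _⟩⟩
      exact Nat.card_pos
    refine (Nat.pow_le_pow_right hpos hks).trans (hgal s x hs hxs ?_)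
    rw [hcent]
    exact fun hxu => hx1 (hxU x hxu hxs)
  have hord : ∀ (s : ℕ) (x : L), s.Prime → x ∈ T s → orderOf x = s := by
    intro s x hs hx
    obtain ⟨hxS, hx1, hxU, hxs⟩ := (hTm s x).1 hx
    have : Fact s.Prime := ⟨hs⟩
    exact orderOf_eq_prime hxs hx1
  have hTp : ∀ (s : ℕ) (x : L), s.Prime → x ∈ T s → ∀ i < s - 1, x ^ (i + 1) ∈ T s := by
    intro s x hs hx i hi
    obtain ⟨hxS, hx1, hxU, hxs⟩ := (hTm s x).1 hx
    refine (hTm s _).2 ⟨pow_mem hxS _, ?_, hxU, ?_⟩
    · intro h0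
      have h1 := Nat.le_of_dvd (Nat.succ_pos i) (orderOf_dvd_of_pow_eq_one h0)
      rw [hord s x hs hx] at h1
      omega
    · rw [← pow_mul, mul_comm, pow_mul, hxs, one_pow]
  let B : ℕ → Finset Y := fun s => Finset.univ.filter fun m => ∃ x ∈ T s, ρ x m - m ∈ Z
  have hBm : ∀ s m, m ∈ B s ↔ ∃ x ∈ T s, ρ x m - m ∈ Z := by
    intro s m
    simp [B]
  have hbad : ∀ x : L, Nat.card {m : Y // ρ x m - m ∈ Z} ≤
      Nat.card Z * Nat.card {w : Y // ρ x w = w} := by
    intro x
    have h1 := sp_pre (ρ x - 1 : Module.End (ZMod 2) Y) Z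
    refine le_trans (le_of_eq rfl) (h1.trans (le_of_eq ?_))
    congr 1
    refine Nat.card_congr (Equiv.subtypeEquivRight fun m => ?_)
    show ρ x m - m = 0 ↔ _
    exact sub_eq_zero
  have hcB : ∀ (s β : ℕ), s.Prime → (∀ x ∈ T s, Nat.card {m : Y // ρ x m - m ∈ Z} ≤ β) →
      (s - 1) * (B s).card ≤ (T s).card * β := by
    intro s β hs hb
    refine sp_dbl (ρ := ρ) Z (T s) ?_ (s - 1) β ?_ ?_ hb (B s) ?_
    · intro x hx z hz
      exact hZS x ((hTm s x).1 hx).1 z hz
    · intro x hx i hi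
      exact hTp s x hs hx i hi
    · intro x hx
      rw [hord s x hs hx]
      have := hs.two_le
      omega
    · intro m hm
      exact (hBm s m).1 hm
  -- the primes `≥ 5`
  have hB5 : ∀ s : ℕ, s.Prime → 5 ≤ s → (B s).card ≤ u * (Nat.card Z * t5) := by
    intro s hs hs5
    have h1 := hcB s (Nat.card Z * t5) hs (fun x hx => (hbad x).trans
      (Nat.mul_le_mul_left _ (ht5' _ (hgal' 5 s x hs5 hs hx))))
    have h2 : (s - 1) * (B s).card ≤ (s - 1) * (u * (Nat.card Z * t5)) := by
      refine h1.trans ((Nat.mul_le_mul_right _ (hTc s hs.pos)).trans (le_of_eq ?_))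
      ring
    exact Nat.le_of_mul_le_mul_left h2 (by omega)
  have hN : 0 < Nat.card Y := Nat.card_pos
  have hY : 2 ^ a ≤ Nat.card Y := by
    rw [hcard]
    calc 2 ^ a = (2 ^ a) ^ 1 := (pow_one _).symm
      _ ≤ (2 ^ a) ^ d := Nat.pow_le_pow_right (by positivity) hd
  let P : Finset ℕ := a.primeFactors.filter fun s => 5 ≤ s ∧ (T s).Nonempty
  have hPm : ∀ s ∈ P, s.Prime ∧ 5 ≤ s ∧ s ∣ a := by
    intro s hs
    obtain ⟨h1, h2, -⟩ := Finset.mem_filter.1 hs
    exact ⟨Nat.prime_of_mem_primeFactors h1, h2, Nat.dvd_of_mem_primeFactors h1⟩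
  have hBP : (P.biUnion B).card ≤ P.card * (u * (Nat.card Z * t5)) :=
    Finset.card_biUnion_le_card_mul _ _ _ fun s hs => hB5 s (hPm s hs).1 (hPm s hs).2.1
  have hlt : (B 3 ∪ P.biUnion B).card < Nat.card Y := by
    refine lt_of_le_of_lt (Finset.card_union_le _ _) ?_
    by_cases h3 : (T 3).Nonempty
    · have h3a := hTa 3 Nat.prime_three h3
      have hP15 : 5 * 3 * P.card ≤ a := by
        refine sp_cnt a 3 ha (by norm_num) P fun s hs => ⟨(hPm s hs).2.1, ?_⟩
        refine Nat.Coprime.mul_dvd_of_dvd_of_dvd ?_ h3a (hPm s hs).2.2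
        refine (Nat.coprime_primes Nat.prime_three (hPm s hs).1).2 ?_
        have := (hPm s hs).2.1
        omega
      have h5 : 2 * (P.biUnion B).card < Nat.card Y := by
        refine sp_st 2 P.card u (Nat.card Z) t5 (Nat.card Y) _ hN hSU ?_ hBP
        refine sp_w 2 P.card a (Nat.card Z) t5 (Nat.card Y) ?_ ?_ hc ht5 hY
        · have h6 := sp_num2 a
          norm_num at h6 ⊢
          exact h6
        · norm_num
          norm_num at hP15
          exact hP15
      have h6 : 2 * (B 3).card ≤ Nat.card Y := by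
        refine sp_b3 u (Nat.card Z) t3 (Nat.card Y) _ hz2 hSU hc ht3 ?_
        obtain ⟨x0, hx0⟩ := h3
        have hx0' := (hTm 3 x0).1 hx0
        have hσ0 := hTσ 3 x0 hx0
        have hT3 : ∀ y ∈ T 3, σ y = σ x0 ∨ σ y = σ (x0 * x0) := by
          intro y hy
          by_contra hcon
          push Not at hcon
          have h7 : ({σ x0, σ (x0 * x0), σ y} : Finset (K ≃+* K)) ⊆
              Finset.univ.filter fun τ : K ≃+* K => τ ≠ 1 ∧ τ ^ 3 = 1 := by
            intro τ hτ
            simp only [Finset.mem_insert, Finset.mem_singleton] at hτ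
            refine Finset.mem_filter.2 ⟨Finset.mem_univ _, ?_⟩
            rcases hτ with rfl | rfl | rfl
            · exact hσ0
            · refine hTσ 3 _ ?_
              have h8 := hTp 3 x0 Nat.prime_three hx0 1 (by norm_num)
              rwa [pow_two] at h8
            · exact hTσ 3 y hy
          have h8 := (Finset.card_le_card h7).trans (sp_cyc (p := 2) (K := K) 3 (by norm_num))
          have h9 : σ x0 ≠ σ (x0 * x0) := by
            rw [map_mul]
            intro h9
            exact hσ0.1 (left_eq_mul.1 h9)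
          rw [Finset.card_insert_of_notMem, Finset.card_insert_of_notMem, Finset.card_singleton] at h8
          · omega
          · rw [Finset.mem_singleton]
            exact fun h10 => hcon.2 h10.symm
          · rw [Finset.mem_insert, Finset.mem_singleton, not_or]
            exact ⟨h9, fun h10 => hcon.1 h10.symm⟩
        have hcmv : ∀ v ∈ U, ∀ y ∈ T 3, (y * v = v * y ↔ x0 * v = v * x0) := by
          intro v hv y hy
          have hsq : ∀ g : L, Commute (x0 * x0) g → Commute x0 g := by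
            intro g hg
            have h3 : x0 = (x0 * x0) * (x0 * x0) := by
              have h4 : (x0 * x0) * (x0 * x0) = x0 ^ 3 * x0 := by
                simp only [pow_succ, pow_zero, one_mul, mul_assoc]
              rw [h4, hx0'.2.2.2, one_mul]
            have h6 : Commute ((x0 * x0) * (x0 * x0)) g := hg.mul_left hg
            rwa [← h3] at h6
          have hw : ∀ g : L, σ y = σ g → (Commute y v ↔ Commute g v) := by
            intro g hg
            have h10 : g⁻¹ * y ∈ U := by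
              rw [← hker, map_mul, map_inv, hg, inv_mul_cancel]
            have h11 : Commute (g⁻¹ * y) v := h.ab.com _ h10 v hv
            constructor
            · intro h12
              have h13 : Commute (y * (g⁻¹ * y)⁻¹) v := h12.mul_left h11.inv_left
              have h14 : y * (g⁻¹ * y)⁻¹ = g := by group
              rwa [h14] at h13
            · intro h12
              have h13 : Commute (g * (g⁻¹ * y)) v := h12.mul_left h11
              rwa [mul_inv_cancel_left] at h13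
          rcases hT3 y hy with h10 | h10
          · exact hw x0 h10
          · have h11 := hw (x0 * x0) h10
            constructor
            · intro h12
              exact hsq v (h11.1 h12)
            · intro h12
              have h13 : Commute x0 v := h12
              exact h11.2 (h13.mul_left h13)
        by_cases hcm : ∀ v ∈ U, v ∈ S → x0 * v = v * x0
        · right
          have h7 : (T 3).card ≤ 2 := by
            -- `T 3` is mapped injectively
            have h8 : ∀ y ∈ T 3, ∀ y' ∈ T 3, σ y = σ y' → y = y' := by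
              intro y hy y' hy' hyy
              have hy1 := (hTm 3 y).1 hy
              have hy2 := (hTm 3 y').1 hy'
              have hvU : y⁻¹ * y' ∈ U := by
                rw [← hker, map_mul, map_inv, hyy, inv_mul_cancel]
              have hvS : y⁻¹ * y' ∈ S := mul_mem (inv_mem hy1.1) hy2.1
              have h10 : Commute y (y⁻¹ * y') := (hcmv _ hvU y hy).2 (hcm _ hvU hvS)
              have h11 : (y⁻¹ * y') ^ 3 = 1 := by
                have h12 := h10.mul_pow 3
                rw [mul_inv_cancel_left, hy2.2.2.2, hy1.2.2.2, one_mul] at h12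
                exact h12.symm
              have h12 := hy1.2.2.1 _ hvU h11
              rwa [inv_mul_eq_one] at h12
            have h9 : ((T 3).image σ).card = (T 3).card := Finset.card_image_of_injOn h8
            rw [← h9]
            refine le_trans (Finset.card_le_card ?_) (sp_cyc (p := 2) (K := K) 3 (by norm_num))
            intro τ hτ
            obtain ⟨x, hx, rfl⟩ := Finset.mem_image.1 hτ
            exact Finset.mem_filter.2 ⟨Finset.mem_univ _, hTσ 3 x hx⟩
          have h8 := hcB 3 (Nat.card Z * t3) Nat.prime_three (fun x hx => (hbad x).trans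
            (Nat.mul_le_mul_left _ (ht3' _ (hgal' 3 3 x le_rfl Nat.prime_three hx))))
          have h9 : (T 3).card * (Nat.card Z * t3) ≤ 2 * (Nat.card Z * t3) :=
            Nat.mul_le_mul_right _ h7
          omega
        · left
          push Not at hcm
          obtain ⟨v, hvU, hvS, hxv⟩ := hcm
          have h7 : ∀ x ∈ T 3, Nat.card {m : Y // ρ x m - m ∈ Z} ≤ Nat.card Z * t3 / 2 := by
            intro x hx
            have hx1 := (hTm 3 x).1 hx
            have hxv' : x * v ≠ v * x := fun h8 => hxv ((hcmv v hvU x hx).1 h8)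
            obtain ⟨z, hz, hz0⟩ := sp_van h Z hZ x v hvU (hZS v hvS) hx1.2.2.2 hxv'
            let Z' : Submodule (ZMod 2) Y :=
              Z ⊓ LinearMap.ker (1 + ρ x + ρ (x * x) : Module.End (ZMod 2) Y)
            have hlt' : Z' < Z := by
              refine lt_of_le_of_ne inf_le_left fun h8 => hz0 ?_
              have h9 : z ∈ Z' := by rw [h8]; exact hz
              exact LinearMap.mem_ker.1 h9.2
            have h8 := sp_half Z' Z hlt'
            have h9 := sp_pre (ρ x - 1 : Module.End (ZMod 2) Y) Z'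
            have h10 : Nat.card {m : Y // ρ x m - m ∈ Z} ≤
                Nat.card {m : Y // (ρ x - 1 : Module.End (ZMod 2) Y) m ∈ Z'} := by
              refine Nat.card_le_card_of_injective (fun m => ⟨m.1, ⟨m.2, ?_⟩⟩) ?_
              · apply LinearMap.mem_ker.2
                show (ρ x m.1 - m.1) + ρ x (ρ x m.1 - m.1) + ρ (x * x) (ρ x m.1 - m.1) = 0
                have h11 : ρ (x * x) (ρ x m.1) = m.1 := by
                  rw [← Module.End.mul_apply, ← map_mul,
                    show x * x * x = x ^ 3 by simp only [pow_succ, pow_zero, one_mul], hx1.2.2.2,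
                    map_one, Module.End.one_apply]
                rw [map_sub, map_sub, h11, map_mul, Module.End.mul_apply]
                abel
              · intro m m' hmm
                exact Subtype.ext (congrArg (fun y => (y.1 : Y)) hmm)
            have h11 : Nat.card {m : Y // (ρ x - 1 : Module.End (ZMod 2) Y) m = 0} ≤ t3 := by
              refine le_trans (le_of_eq ?_) (ht3' _ (hgal' 3 3 x le_rfl Nat.prime_three hx))
              refine Nat.card_congr (Equiv.subtypeEquivRight fun m => ?_)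
              show ρ x m - m = 0 ↔ _
              exact sub_eq_zero
            rw [Nat.le_div_iff_mul_le (by norm_num)]
            calc Nat.card {m : Y // ρ x m - m ∈ Z} * 2
                ≤ (Nat.card Z' * t3) * 2 := Nat.mul_le_mul_right _
                  (h10.trans (h9.trans (Nat.mul_le_mul_left _ h11)))
              _ = 2 * Nat.card Z' * t3 := by ring
              _ ≤ Nat.card Z * t3 := Nat.mul_le_mul_right _ h8
          have h8 := hcB 3 _ Nat.prime_three h7
          have h9 : (T 3).card * (Nat.card Z * t3 / 2) ≤ u * 2 * (Nat.card Z * t3 / 2) :=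
            Nat.mul_le_mul_right _ (hTc 3 (by norm_num))
          have h10 : u * 2 * (Nat.card Z * t3 / 2) ≤ u * (Nat.card Z * t3) := by
            rw [mul_assoc]
            exact Nat.mul_le_mul_left _ (Nat.mul_div_le _ _)
          omega
      omega
    · have hB0 : (B 3).card = 0 := by
        rw [Finset.card_eq_zero, Finset.eq_empty_iff_forall_notMem]
        intro m hm
        obtain ⟨x, hx, -⟩ := (hBm 3 m).1 hm
        exact h3 ⟨x, hx⟩
      have hP5 : 5 * 1 * P.card ≤ a := by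
        refine sp_cnt a 1 ha (by norm_num) P fun s hs => ⟨(hPm s hs).2.1, ?_⟩
        rw [one_mul]
        exact (hPm s hs).2.2
      have h5 : 1 * (P.biUnion B).card < Nat.card Y := by
        refine sp_st 1 P.card u (Nat.card Z) t5 (Nat.card Y) _ hN hSU ?_ hBP
        refine sp_w 1 P.card a (Nat.card Z) t5 (Nat.card Y) ?_ ?_ hc ht5 hY
        · have h6 := sp_num1 a
          norm_num at h6 ⊢
          exact h6
        · norm_num
          norm_num at hP5
          exact hP5
      omega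
  have hB : (B 3 ∪ P.biUnion B).card < (Finset.univ : Finset Y).card := by
    rwa [Finset.card_univ, ← Nat.card_eq_fintype_card]
  obtain ⟨m, -, hm⟩ := Finset.exists_mem_notMem_of_card_lt_card hB
  rw [Finset.mem_union, not_or] at hm
  refine ⟨m, fun x hx s hs1 hs2 hsU hs3 hs4 => ?_⟩
  by_contra h1
  have hxT : x ∈ T s := (hTm s x).2 ⟨hx, h1, hsU, hs3⟩
  have hs4' : s ≠ 4 := by
    intro h4
    rw [h4] at hs1
    norm_num at hs1
  rcases Nat.lt_or_ge s 5 with h5 | h5
  · have h3 : s = 3 := by omega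
    subst h3
    exact hm.1 ((hBm 3 m).2 ⟨x, hxT, hs4⟩)
  · apply hm.2
    rw [Finset.mem_biUnion]
    refine ⟨s, ?_, (hBm s m).2 ⟨x, hxT, hs4⟩⟩
    refine Finset.mem_filter.2 ⟨?_, h5, ⟨x, hxT⟩⟩
    exact Nat.mem_primeFactors.2 ⟨hs1, hTa s hs1 ⟨x, hxT⟩, ha.ne'⟩

/-- The special vector, `p = 2`. -/
private theorem spm2 (F : Fam 2 H) (hJ : Subsingleton F.J)
    (hab : Abq F.ρ F.W F.UU)
    (S : Subgroup H) (Z : Submodule (ZMod 2) F.X) (hZ : Z ≠ ⊥)
    (hZS : ∀ x ∈ S, ∀ z ∈ Z, F.ρ x z ∈ Z) (hZc : Nat.card Z ^ 3 ≤ Nat.card F.X) :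
    ∃ m : F.X, ∀ x ∈ S, ∀ s : ℕ, s.Prime → 3 ≤ s → Ufr F.ρ F.W F.UU s →
      (∀ y, F.ρ (x ^ s) y = y) →
      F.ρ x m - m ∈ Z → ∀ y, F.ρ x y = y := by
  classical
  have hsup := F.bs.sup
  have hne : Nonempty F.J := by
    by_contra h
    rw [not_nonempty_iff] at h
    rw [iSup_of_empty] at hsup
    exact bot_ne_top hsup
  obtain ⟨j⟩ := hne
  have hW : F.W j = ⊤ := by
    rw [← hsup]
    refine le_antisymm (le_iSup F.W j) (iSup_le fun j' => ?_)
    rw [Subsingleton.elim j' j]
  have hNm : ∀ g : H, g ∈ Nm F.ρ (F.W j) := by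
    intro g
    rw [mem_Nm]
    obtain ⟨j', hj'⟩ := F.bs.prm g j
    rw [hj', Subsingleton.elim j' j]
  obtain ⟨L, iL, iLf, ρL, π, U, hsurj, hcomp, hQ, hU⟩ := bs_qp F.bs j
  have : Nontrivial (F.W j) := (Submodule.nontrivial_iff_ne_bot).2 (F.bs.ne j)
  have hmem : ∀ y : F.X, y ∈ F.W j := fun y => by rw [hW]; exact Submodule.mem_top
  have hab' : ∀ x y : L, x * y * x⁻¹ * y⁻¹ ∈ U := by
    intro x y
    obtain ⟨g, rfl⟩ := hsurj x
    obtain ⟨k, rfl⟩ := hsurj y
    rw [← map_inv, ← map_inv, ← map_mul, ← map_mul, ← map_mul, hU]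
    exact hab j g g.2 k k.2
  let S' : Subgroup L := (S.subgroupOf (Nm F.ρ (F.W j))).map π
  let Z' : Submodule (ZMod 2) (F.W j) := Z.comap (F.W j).subtype
  have hZ' : Z' ≠ ⊥ := by
    obtain ⟨z, hz, hz0⟩ := Submodule.exists_mem_ne_zero_of_ne_bot hZ
    intro h0
    have h1 : (⟨z, hmem z⟩ : F.W j) ∈ Z' := hz
    rw [h0, Submodule.mem_bot] at h1
    exact hz0 (Subtype.ext_iff.1 h1)
  have hZS' : ∀ x ∈ S', ∀ z ∈ Z', ρL x z ∈ Z' := by
    rintro _ ⟨g, hg, rfl⟩ z hz
    show ((ρL (π g) z : F.W j) : F.X) ∈ Z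
    rw [hcomp]
    exact hZS g hg z hz
  have hc' : Nat.card Z' ^ 3 ≤ Nat.card (F.W j) := by
    have h1 : Nat.card Z' ≤ Nat.card Z :=
      Nat.card_le_card_of_injective (fun z : Z' => (⟨((z : F.W j) : F.X), z.2⟩ : Z))
        (fun z z' hzz => by
          have h9 : ((z : F.W j) : F.X) = ((z' : F.W j) : F.X) := by
            have h10 := congrArg (fun z : Z => (z : F.X)) hzz
            exact h10
          exact Subtype.ext (Subtype.ext h9))
    have h2 : Nat.card F.X = Nat.card (F.W j) :=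
      Nat.card_congr (Equiv.subtypeUnivEquiv hmem).symm
    rw [← h2]
    exact (Nat.pow_le_pow_left h1 3).trans hZc
  obtain ⟨m, hm⟩ := sp_aux hQ hab' S' Z' hZ' hZS' hc'
  refine ⟨m, fun x hx s hs1 hs2 hsU hs3 hs4 y => ?_⟩
  have hU2 : ∀ u ∈ U, u ^ s = 1 → u = 1 := by
    intro u huU hus
    obtain ⟨g, rfl⟩ := hsurj u
    have hgU : (g : H) ∈ F.UU j := (hU g).1 huU
    refine hQ.fai _ fun w => Subtype.ext ?_
    rw [hcomp]
    refine hsU j (g : H) hgU ?_ w w.2
    intro w' hw'
    have h1 := hcomp (g ^ s) ⟨w', hw'⟩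
    rw [map_pow, hus, map_one, Module.End.one_apply] at h1
    exact h1.symm
  have h1 : π ⟨x, hNm x⟩ ∈ S' := ⟨⟨x, hNm x⟩, hx, rfl⟩
  have h2 : (π ⟨x, hNm x⟩) ^ s = 1 := by
    rw [← map_pow]
    refine hQ.fai _ fun w => Subtype.ext ?_
    rw [hcomp]
    exact hs3 w
  have h3 : ρL (π ⟨x, hNm x⟩) m - m ∈ Z' := by
    show ((ρL (π ⟨x, hNm x⟩) m - m : F.W j) : F.X) ∈ Z
    rw [Submodule.coe_sub, hcomp]
    exact hs4
  have h4 := hm _ h1 s hs1 hs2 hU2 h2 h3
  have h5 := hcomp ⟨x, hNm x⟩ ⟨y, hmem y⟩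
  rw [h4, map_one, Module.End.one_apply] at h5
  exact h5.symm

/-- The special vector. -/
theorem spm {p : ℕ} [Fact p.Prime] (ho : ¬ 2 ∣ Nat.card H) (F : Fam p H) (hJ : Subsingleton F.J)
    (hab : Abq F.ρ F.W F.UU)
    (S : Subgroup H) (Z : Submodule (ZMod p) F.X) (hZ : Z ≠ ⊥)
    (hZS : ∀ x ∈ S, ∀ z ∈ Z, F.ρ x z ∈ Z) (hZc : Nat.card Z ^ 3 ≤ Nat.card F.X) :
    ∃ m : F.X, ∀ x ∈ S, ∀ s : ℕ, s.Prime → 3 ≤ s → Ufr F.ρ F.W F.UU s →
      (∀ y, F.ρ (x ^ s) y = y) →
      F.ρ x m - m ∈ Z → ∀ y, F.ρ x y = y := by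
  rcases Nat.lt_or_ge p 3 with hp2 | hp3
  · have hp2' : p = 2 := by
      have := (Fact.out : p.Prime).two_le
      omega
    subst hp2'
    exact spm2 F hJ hab S Z hZ hZS hZc
  · exact Nao.spm hp3 ho F hJ hab S Z hZ hZS hZc

end

end Pool.Agent.Nap
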