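import Pool.Agent.Nap.Gn
import Pool.Agent.Nap.Sp

/-! The local theorem for a `p`-group of class two, groups of odd order. -/

set_option autoImplicit false

namespace Pool.Agent.Nap

open Pool.Agent.Nan Pool.Agent.Nas Pool.Agent.Nao

section
variable {p : ℕ} {H V U : Type} [Group H] [AddCommGroup V] [Module (ZMod p) V]
  [AddCommGroup U] [Module (ZMod p) U]

/-- The setting: the irreducible modules `F i` are the summands of the dual of `V`. -/
structure LS (ρV : Representation (ZMod p) H V) (ρU : Representation (ZMod p) H U)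
    (β : V →ₗ[ZMod p] V →ₗ[ZMod p] U) (A : Subgroup H) (B : Set ℕ) {n : ℕ}
    (F : Fin n → Fam p H) (em : ∀ i, (F i).X →ₗ[ZMod p] Module.Dual (ZMod p) V) : Prop where
  ltg : Ltg p ρV ρU β
  sol : Group.IsSolvable H
  odd : ¬ 2 ∣ Nat.card H
  ab : Ab A
  ar : ∀ r ∈ B, AR A r
  b3 : ∀ r ∈ B, 3 ≤ r
  inj : ∀ i, Function.Injective (em i)
  eqv : ∀ i h x v, em i ((F i).ρ h x) v = em i x (ρV h⁻¹ v)
  ind : iSupIndep fun i => LinearMap.range (em i)
  sup : ⨆ i, LinearMap.range (em i) = ⊤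
  Ale : ∀ i, A ≤ (F i).A
  bt : ∀ r ∈ B, ∀ i, (F i).Bt r
  triv : ∀ r ∈ B, ∀ i, (∀ c ∈ cm A r, ∀ x, (F i).ρ c x = x) →
    ∀ R : Sylow r H, ∀ y ∈ (R : Subgroup H), ∀ x, (F i).ρ y x = x

/-- The summand of `V` which is dual to `F i`. -/
def Vs {n : ℕ} {F : Fin n → Fam p H} (em : ∀ i, (F i).X →ₗ[ZMod p] Module.Dual (ZMod p) V)
    (i : Fin n) : Submodule (ZMod p) V where
  carrier := {v | ∀ i', i' ≠ i → ∀ x, em i' x v = 0}
  zero_mem' := fun i' _ x => map_zero _
  add_mem' := by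
    intro a b ha hb i' hi x
    rw [map_add, ha i' hi x, hb i' hi x, add_zero]
  smul_mem' := by
    intro c a ha i' hi x
    rw [map_smul, ha i' hi x, smul_zero]

/-- The sum of the summands outside `I`. -/
def Cs {n : ℕ} {F : Fin n → Fam p H} (em : ∀ i, (F i).X →ₗ[ZMod p] Module.Dual (ZMod p) V)
    (I : Finset (Fin n)) : Submodule (ZMod p) V where
  carrier := {v | ∀ i ∈ I, ∀ x, em i x v = 0}
  zero_mem' := fun i' _ x => map_zero _
  add_mem' := by
    intro a b ha hb i' hi x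
    rw [map_add, ha i' hi x, hb i' hi x, add_zero]
  smul_mem' := by
    intro c a ha i' hi x
    rw [map_smul, ha i' hi x, smul_zero]

/-- `h` fixes `l` and the restriction of `m` to the radical of `l`. -/
def Fx2 (ρV : Representation (ZMod p) H V) (ρU : Representation (ZMod p) H U)
    (β : V →ₗ[ZMod p] V →ₗ[ZMod p] U) (l : Module.Dual (ZMod p) U) (m : Module.Dual (ZMod p) V)
    (h : H) : Prop := FixL ρU l h ∧ ∀ v ∈ Rad β l, m (ρV h v) = m v

/-- Case Y: the character of `l`, `m` is high. -/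
def CY (ρV : Representation (ZMod p) H V) (ρU : Representation (ZMod p) H U)
    (β : V →ₗ[ZMod p] V →ₗ[ZMod p] U) (A : Subgroup H) {n : ℕ} (F : Fin n → Fam p H) : Prop :=
  ∃ l : Module.Dual (ZMod p) U, l ≠ 0 ∧ ∃ m : Module.Dual (ZMod p) V,
    (∀ D : Subgroup H, D.Normal → D ≤ A → D ≠ ⊥ → ∃ d ∈ D, ¬ Fx2 ρV ρU β l m d) ∧
    ∀ r : ℕ, r.Prime → 3 ≤ r → (∃ i, ¬ (F i).Bt r) → ∀ R : Sylow r H,
      ¬ ∀ x ∈ (R : Subgroup H), Fx2 ρV ρU β l m x

/-- Case X: the character of `l`, `m` is low, the linear characters `t j` are high. -/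
def CX (ρV : Representation (ZMod p) H V) (ρU : Representation (ZMod p) H U)
    (β : V →ₗ[ZMod p] V →ₗ[ZMod p] U) (A : Subgroup H) (B : Set ℕ) {n : ℕ}
    (F : Fin n → Fam p H) : Prop :=
  ∃ l : Module.Dual (ZMod p) U, l ≠ 0 ∧ ∃ (m : Module.Dual (ZMod p) V) (N : ℕ)
    (t : Fin N → Module.Dual (ZMod p) V),
    (∀ k : Fin N → H, (∀ j, k j ∈ A) → ∀ r ∈ B, ∀ R : Sylow r H,
      (∀ x ∈ (R : Subgroup H), ∀ v, ∑ j, t j (ρV (k j)⁻¹ (ρV x v)) = ∑ j, t j (ρV (k j)⁻¹ v)) →
        ∀ x ∈ (R : Subgroup H), ∀ j, FixL ρV (t j) ((k j)⁻¹ * x * k j)) ∧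
    (∀ a ∈ A, (∀ j, FixL ρV (t j) a) → Fx2 ρV ρU β l m a) ∧
    (∀ r ∈ B, cm A r ≠ ⊥ →
      ¬ ((∃ R : Sylow r H, ∀ x ∈ (R : Subgroup H), Fx2 ρV ρU β l m x) ∧
        (∀ j, ∃ R : Sylow r H, ∀ x ∈ (R : Subgroup H), FixL ρV (t j) x) ∧
        (∀ c ∈ cm A r, Fx2 ρV ρU β l m c → ∀ j, FixL ρV (t j) c) ∧
        ∀ x : Fin N → H, (∀ j, x j ∈ cm A r) →
          ∃ y ∈ cm A r, ∀ j, FixL ρV (t j) ((x j)⁻¹ * y))) ∧
    ∀ k : Fin N → H, (∀ j, k j ∈ A) → ∀ r : ℕ, r.Prime → 3 ≤ r → (∃ i, ¬ (F i).Bt r) →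
      ∀ R : Sylow r H, ¬ ∀ x ∈ (R : Subgroup H), ∀ v,
        ∑ j, t j (ρV (k j)⁻¹ (ρV x v)) = ∑ j, t j (ρV (k j)⁻¹ v)

/-- The generic vectors `v i j`, `j ∈ Δ i`. -/
structure Cho (A : Subgroup H) (B : Set ℕ) {n : ℕ} (F : Fin n → Fam p H)
    (Δ : ∀ i, Finset (F i).J) (v : ∀ i, (F i).J → (F i).X) : Prop where
  ne : ∀ i, (Δ i).Nonempty
  two : ∀ i, Nontrivial (F i).J → 2 ≤ (Δ i).card
  vW : ∀ i j, v i j ∈ (F i).W j
  v0 : ∀ i j, v i j ≠ 0
  cov : ∀ i, ∀ k : (F i).J → H, (∀ j, k j ∈ A) → ∀ r : ℕ, r.Prime → 3 ≤ r → ¬ (F i).Bt r →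
    ∀ R : Sylow r H, ¬ ∀ x ∈ (R : Subgroup H), (F i).ρ x (∑ j ∈ Δ i, (F i).ρ (k j) (v i j)) =
      ∑ j ∈ Δ i, (F i).ρ (k j) (v i j)
  full : ∀ i, Subsingleton (F i).J → ∀ r ∈ B, ∀ (R : Sylow r H) (j : (F i).J),
    (∀ x ∈ (R : Subgroup H), (F i).ρ x (v i j) = v i j) →
      (∀ R' : Sylow r H, ∀ x ∈ (R' : Subgroup H), ∀ y, (F i).ρ x y = y) ∨
        Full (F i).ρ (cm A r)

/-- The prime `r` is not covered by `l`, `m` and the `v i j`. -/
def Bad (ρV : Representation (ZMod p) H V) (ρU : Representation (ZMod p) H U)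
    (β : V →ₗ[ZMod p] V →ₗ[ZMod p] U) (A : Subgroup H) {n : ℕ} (F : Fin n → Fam p H)
    (Δ : ∀ i, Finset (F i).J) (v : ∀ i, (F i).J → (F i).X) (l : Module.Dual (ZMod p) U)
    (m : Module.Dual (ZMod p) V) (r : ℕ) : Prop :=
  (∃ R : Sylow r H, ∀ x ∈ (R : Subgroup H), Fx2 ρV ρU β l m x) ∧
    (∀ i, ∀ j ∈ Δ i, ∃ R : Sylow r H, ∀ x ∈ (R : Subgroup H), (F i).ρ x (v i j) = v i j) ∧
    (∀ c ∈ cm A r, Fx2 ρV ρU β l m c → ∀ i, ∀ j ∈ Δ i, (F i).ρ c (v i j) = v i j) ∧
    ∀ x : ∀ i, (F i).J → H, (∀ i j, x i j ∈ cm A r) →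
      ∃ y ∈ cm A r, ∀ i, ∀ j ∈ Δ i, (F i).ρ ((x i j)⁻¹ * y) (v i j) = v i j

/-- What one knows about a bad prime `r`. -/
structure Anl (ρU : Representation (ZMod p) H U) (A : Subgroup H) {n : ℕ} (F : Fin n → Fam p H)
    (l : Module.Dual (ZMod p) U) (r : ℕ) (I : Finset (Fin n)) : Prop where
  hI : ∀ i, i ∈ I ↔ ∃ c ∈ cm A r, ∃ x, (F i).ρ c x ≠ x
  one : ∀ i ∈ I, Subsingleton (F i).J
  full : ∀ i ∈ I, Full (F i).ρ (cm A r)
  cyc : IsCyclic (cm A r)
  fpf : ∀ c ∈ cm A r, ∀ u, u ≠ 0 → ρU c u = u → c = 1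
  srj : ∀ x : Fin n → H, (∀ i, x i ∈ cm A r) →
    ∃ y ∈ cm A r, ∀ i ∈ I, ∀ z, (F i).ρ ((x i)⁻¹ * y) z = z
  size : ∀ c ∈ cm A r, c ^ Nat.card (Orb ρU (cm A r) l) = c
  fix : ∃ R : Sylow r H, ∀ x ∈ (R : Subgroup H), FixL ρU l x
  out : ∀ i, i ∉ I → ∀ R : Sylow r H, ∀ y ∈ (R : Subgroup H), ∀ x, (F i).ρ y x = x

/-- The module `F i` has one block, is semilinear, and the radical of `l` is large in `Vs em i`. -/
def Spc {n : ℕ} {F : Fin n → Fam p H} (em : ∀ i, (F i).X →ₗ[ZMod p] Module.Dual (ZMod p) V)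
    (β : V →ₗ[ZMod p] V →ₗ[ZMod p] U) (l : Module.Dual (ZMod p) U) (i : Fin n) : Prop :=
  Subsingleton (F i).J ∧ Abq (F i).ρ (F i).W (F i).UU ∧ (∃ v ∈ Vs em i, v ∉ Rad β l) ∧
    Nat.card {x : (F i).X // ∀ v ∈ Rad β l, v ∈ Vs em i → em i x v = 0} ^ 3 ≤
      Nat.card (F i).X

end

section
variable {p : ℕ} [Fact p.Prime] {H V U : Type} [Group H] [Finite H] [AddCommGroup V]
  [Module (ZMod p) V] [Finite V] [AddCommGroup U] [Module (ZMod p) U] [Finite U]
  {ρV : Representation (ZMod p) H V} {ρU : Representation (ZMod p) H U}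
  {β : V →ₗ[ZMod p] V →ₗ[ZMod p] U} {A : Subgroup H} {B : Set ℕ} {n : ℕ} {F : Fin n → Fam p H}
  {em : ∀ i, (F i).X →ₗ[ZMod p] Module.Dual (ZMod p) V}

-- BEGIN lc1
private theorem lc1_k0 (h : LS ρV ρU β A B F em) (v : V) (hv : ∀ i x, em i x v = 0) : v = 0 := by
  have hle : (⨆ i, LinearMap.range (em i)) ≤ LinearMap.ker (Module.Dual.eval (ZMod p) V v) := by
    refine iSup_le fun i => ?_
    rintro _ ⟨x, rfl⟩
    rw [LinearMap.mem_ker, Module.Dual.eval_apply]
    exact hv i x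
  rw [h.sup] at hle
  have hall : ∀ f : Module.Dual (ZMod p) V, f v = 0 := by
    intro f
    have := hle (Submodule.mem_top (x := f))
    rwa [LinearMap.mem_ker, Module.Dual.eval_apply] at this
  exact (Module.forall_dual_apply_eq_zero_iff (ZMod p) v).1 hall

private noncomputable def lc1_L (em : ∀ i, (F i).X →ₗ[ZMod p] Module.Dual (ZMod p) V) :
    (∀ i, (F i).X) →ₗ[ZMod p] Module.Dual (ZMod p) V :=
  ∑ i, (em i) ∘ₗ (LinearMap.proj i : (∀ i, (F i).X) →ₗ[ZMod p] (F i).X)

private theorem lc1_L_apply (em : ∀ i, (F i).X →ₗ[ZMod p] Module.Dual (ZMod p) V)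
    (x : ∀ i, (F i).X) : lc1_L em x = ∑ i, em i (x i) := by
  simp [lc1_L, LinearMap.sum_apply]

private theorem lc1_L_single (em : ∀ i, (F i).X →ₗ[ZMod p] Module.Dual (ZMod p) V)
    (i : Fin n) (x : (F i).X) : lc1_L em (Pi.single i x) = em i x := by
  rw [lc1_L_apply, Finset.sum_eq_single i]
  · rw [Pi.single_eq_same]
  · intro j _ hj
    rw [Pi.single_eq_of_ne hj, map_zero]
  · intro hi
    exact absurd (Finset.mem_univ i) hi

private theorem lc1_L_bij (h : LS ρV ρU β A B F em) : Function.Bijective (lc1_L em) := by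
  constructor
  · rw [← LinearMap.ker_eq_bot, LinearMap.ker_eq_bot']
    intro x hx
    rw [lc1_L_apply] at hx
    funext i
    have hd := h.ind i
    have hmem : em i (x i) ∈ ⨆ j, ⨆ (_ : j ≠ i), LinearMap.range (em j) := by
      have heq : em i (x i) = - ∑ j ∈ Finset.univ.erase i, em j (x j) := by
        rw [← Finset.add_sum_erase Finset.univ (fun j => em j (x j)) (Finset.mem_univ i)] at hx
        exact eq_neg_of_add_eq_zero_left hx
      rw [heq]
      refine Submodule.neg_mem _ (Submodule.sum_mem _ fun j hj => ?_)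
      have hji : j ≠ i := (Finset.mem_erase.1 hj).1
      exact (le_iSup₂ (f := fun j (_ : j ≠ i) => LinearMap.range (em j)) j hji) ⟨x j, rfl⟩
    have h0 : em i (x i) = 0 := by
      have := (Submodule.disjoint_def.1 hd) (em i (x i)) ⟨x i, rfl⟩ hmem
      exact this
    exact h.inj i (by rw [h0, Pi.zero_apply, map_zero])
  · rw [← LinearMap.range_eq_top]
    rw [eq_top_iff, ← h.sup]
    refine iSup_le fun i => ?_
    rintro _ ⟨x, rfl⟩
    exact ⟨Pi.single i x, lc1_L_single em i x⟩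

private theorem lc1_dec (h : LS ρV ρU β A B F em) (v : V) :
    ∃ w : Fin n → V, (∀ i, w i ∈ Vs em i) ∧ ∑ i, w i = v := by
  classical
  let E : (∀ i, (F i).X) ≃ₗ[ZMod p] Module.Dual (ZMod p) V :=
    LinearEquiv.ofBijective (lc1_L em) (lc1_L_bij h)
  have hE : ∀ i (x : (F i).X), E.symm (em i x) = Pi.single i x := by
    intro i x
    rw [LinearEquiv.symm_apply_eq]
    exact (lc1_L_single em i x).symm
  haveI : Module.Finite (ZMod p) V := Module.Finite.of_finite
  let w : Fin n → V := fun i => (Module.evalEquiv (ZMod p) V).symm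
    ((Module.Dual.eval (ZMod p) V v) ∘ₗ (em i) ∘ₗ
      (LinearMap.proj i : (∀ i, (F i).X) →ₗ[ZMod p] (F i).X) ∘ₗ E.symm.toLinearMap)
  have hw : ∀ i (f : Module.Dual (ZMod p) V), f (w i) = em i (E.symm f i) v := by
    intro i f
    simp only [w]
    rw [Module.apply_evalEquiv_symm_apply]
    rfl
  refine ⟨w, ?_, ?_⟩
  · intro i i' hi x
    show em i' x (w i) = 0
    rw [hw, hE, Pi.single_eq_of_ne (Ne.symm hi), map_zero]
    rfl
  · have hall : ∀ f : Module.Dual (ZMod p) V, f (∑ i, w i - v) = 0 := by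
      intro f
      rw [map_sub, map_sum]
      simp only [hw]
      have h1 : f = ∑ i, em i (E.symm f i) := by
        have := E.apply_symm_apply f
        rw [← lc1_L_apply]
        exact this.symm
      have h2 : ∑ i, (em i (E.symm f i)) v = f v := by
        rw [← LinearMap.sum_apply, ← h1]
      rw [h2, sub_self]
    exact sub_eq_zero.1 ((Module.forall_dual_apply_eq_zero_iff (ZMod p) _).1 hall)

/-- (lc1, size 4) Duality. PROOF. The dual of `V` is the direct sum of the ranges of the `em i`; for `v ∈ V` and `i` the functional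
`f ↦ (component of f in range (em i)) v` on `Dual V` is evaluation at some `v_i ∈ V` (finite dimension), `v = ∑ v_i`, `v_i ∈ Vs em i`.
The restriction `range (em i) → Dual (Vs em i)` is bijective. `Ivt`: `eqv`. The last parts: an `N`-invariant `W' ≤ Vs em i` has the
`N`-invariant annihilator in `(F i).X`, and conversely. -/
theorem vs_dec (h : LS ρV ρU β A B F em) :
    (∀ i, Ivt ρV ⊤ (Vs em i)) ∧ iSupIndep (Vs em) ∧ ⨆ i, Vs em i = ⊤ ∧
      (∀ i, Nat.card (Vs em i) = Nat.card (F i).X) ∧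
      (∀ i, ∀ x : (F i).X, (∀ v ∈ Vs em i, em i x v = 0) → x = 0) ∧
      (∀ i, ∀ f : Module.Dual (ZMod p) V, ∃ x : (F i).X, ∀ v ∈ Vs em i, em i x v = f v) ∧
      (∀ i g, (∀ x, (F i).ρ g x = x) ↔ ∀ v ∈ Vs em i, ρV g v = v) ∧
      (∀ I : Finset (Fin n), Cs em I ⊔ ⨆ i ∈ I, Vs em i = ⊤) ∧
      (∀ I : Finset (Fin n), ∀ i, i ∉ I → Vs em i ≤ Cs em I) ∧
      (∀ I : Finset (Fin n), Ivt ρV ⊤ (Cs em I)) := by
  classical
  have heqv : ∀ i g x v, em i x (ρV g v) = em i ((F i).ρ g⁻¹ x) v := by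
    intro i g x v
    have := h.eqv i g⁻¹ x v
    rw [inv_inv] at this
    exact this.symm
  have hsup : ⨆ i, Vs em i = ⊤ := by
    rw [eq_top_iff]
    intro v _
    obtain ⟨w, hw, rfl⟩ := lc1_dec h v
    exact Submodule.sum_mem _ fun i _ => (le_iSup (Vs em) i) (hw i)
  have h5 : ∀ i, ∀ x : (F i).X, (∀ v ∈ Vs em i, em i x v = 0) → x = 0 := by
    intro i x hx
    have hle : (⨆ j, Vs em j) ≤ LinearMap.ker (em i x) := by
      refine iSup_le fun j v hv => ?_
      rw [LinearMap.mem_ker]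
      by_cases hj : j = i
      · subst hj
        exact hx v hv
      · exact hv i (Ne.symm hj) x
    rw [hsup] at hle
    apply h.inj i
    rw [map_zero]
    ext v
    have := hle (Submodule.mem_top (x := v))
    rwa [LinearMap.mem_ker] at this
  have h6 : ∀ i, ∀ f : Module.Dual (ZMod p) V, ∃ x : (F i).X, ∀ v ∈ Vs em i, em i x v = f v := by
    intro i f
    obtain ⟨x, hx⟩ := (lc1_L_bij h).2 f
    refine ⟨x i, fun v hv => ?_⟩
    rw [← hx, lc1_L_apply, LinearMap.sum_apply, Finset.sum_eq_single i]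
    · intro j _ hj
      exact hv j hj (x j)
    · intro hi
      exact absurd (Finset.mem_univ i) hi
  have h9 : ∀ I : Finset (Fin n), ∀ i, i ∉ I → Vs em i ≤ Cs em I := by
    intro I i hi v hv i' hi' x
    exact hv i' (fun hc => hi (hc ▸ hi')) x
  refine ⟨?_, ?_, hsup, ?_, h5, h6, ?_, ?_, h9, ?_⟩
  · intro i g _ v hv i' hi' x
    rw [heqv]
    exact hv i' hi' _
  · intro i
    rw [Submodule.disjoint_def]
    intro v hv hv'
    refine lc1_k0 h v fun j x => ?_
    by_cases hj : j = i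
    · subst hj
      have hle : (⨆ k, ⨆ (_ : k ≠ j), Vs em k) ≤ LinearMap.ker (em j x) := by
        refine iSup₂_le fun k hk u hu => ?_
        rw [LinearMap.mem_ker]
        exact hu j (Ne.symm hk) x
      have := hle hv'
      rwa [LinearMap.mem_ker] at this
    · exact hv j hj x
  · intro i
    haveI : Module.Finite (ZMod p) V := Module.Finite.of_finite
    have hcd : Nat.card (Module.Dual (ZMod p) (Vs em i)) = Nat.card (Vs em i) := by
      rw [Module.natCard_eq_pow_finrank (K := ZMod p), Module.natCard_eq_pow_finrank (K := ZMod p)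
        (V := Vs em i), Subspace.dual_finrank_eq]
    rw [← hcd]
    symm
    let g : (F i).X →ₗ[ZMod p] Module.Dual (ZMod p) (Vs em i) :=
      (Submodule.dualRestrict (Vs em i)) ∘ₗ (em i)
    have hg : ∀ x v, g x v = em i x v := fun x v => rfl
    refine Nat.card_congr (Equiv.ofBijective g ⟨?_, ?_⟩)
    · rw [← LinearMap.ker_eq_bot, LinearMap.ker_eq_bot']
      intro x hx
      refine h5 i x fun v hv => ?_
      have := LinearMap.congr_fun hx ⟨v, hv⟩
      rwa [hg] at this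
    · intro f
      obtain ⟨f', hf'⟩ := Subspace.dualRestrict_surjective (W := Vs em i) f
      obtain ⟨x, hx⟩ := h6 i f'
      refine ⟨x, ?_⟩
      ext v
      rw [hg, hx v v.2, ← hf']
      rfl
  · intro i g
    constructor
    · intro hx v hv
      rw [← sub_eq_zero]
      refine lc1_k0 h _ fun j x => ?_
      rw [map_sub, heqv, sub_eq_zero]
      by_cases hj : j = i
      · subst hj
        have : (F j).ρ g⁻¹ x = x := by
          conv_lhs => rw [← hx x]
          rw [← Module.End.mul_apply, ← map_mul, inv_mul_cancel, map_one, Module.End.one_apply]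
        rw [this]
      · rw [hv j hj, hv j hj]
    · intro hv x
      rw [← sub_eq_zero]
      refine h5 i _ fun v hv' => ?_
      have h1 : ρV g⁻¹ v = v := by
        conv_lhs => rw [← hv v hv']
        rw [← Module.End.mul_apply, ← map_mul, inv_mul_cancel, map_one, Module.End.one_apply]
      rw [map_sub, LinearMap.sub_apply, h.eqv, h1, sub_self]
  · intro I
    rw [eq_top_iff, ← hsup]
    refine iSup_le fun i => ?_
    by_cases hi : i ∈ I
    · exact le_trans (le_iSup₂ (f := fun i (_ : i ∈ I) => Vs em i) i hi) le_sup_right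
    · exact le_trans (h9 I i hi) le_sup_left
  · intro I g _ v hv i hi x
    rw [heqv]
    exact hv i hi _
-- END lc1

-- BEGIN lc2
/-- (lc2, size 3) PROOF. `vs_dec`: annihilators of subspaces; `FullS ρV (Vs em i) N` is `Full` for the dual module. -/
theorem vs_full (h : LS ρV ρU β A B F em) (i : Fin n) (N : Subgroup H) :
    (Irrd (F i).ρ N → ∀ W' ≤ Vs em i, Ivt ρV N W' → W' = ⊥ ∨ W' = Vs em i) ∧
      (Full (F i).ρ N → FullS ρV (Vs em i) N) := by
  obtain ⟨-, -, -, hcard, -, hext, htriv, -, -, -⟩ := vs_dec h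
  have hzero : ∀ v : V, (∀ i' x, em i' x v = 0) → v = 0 := by
    intro v hv
    have hle : (⨆ i', LinearMap.range (em i')) ≤
        LinearMap.ker (Module.Dual.eval (ZMod p) V v) := by
      refine iSup_le fun i' => ?_
      rintro _ ⟨x, rfl⟩
      rw [LinearMap.mem_ker, Module.Dual.eval_apply]
      exact hv i' x
    rw [h.sup] at hle
    have hall : ∀ f : Module.Dual (ZMod p) V, f v = 0 := by
      intro f
      have hf := hle (Submodule.mem_top (x := f))
      rwa [LinearMap.mem_ker, Module.Dual.eval_apply] at hf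
    exact (Module.forall_dual_apply_eq_zero_iff (ZMod p) v).1 hall
  have main : Irrd (F i).ρ N → ∀ W' ≤ Vs em i, Ivt ρV N W' → W' = ⊥ ∨ W' = Vs em i := by
    intro hirr W' hW' hinv
    let Y : Submodule (ZMod p) (F i).X :=
      { carrier := {x | ∀ v ∈ W', em i x v = 0}
        zero_mem' := by
          intro v _
          rw [map_zero, LinearMap.zero_apply]
        add_mem' := by
          intro a b ha hb v hv
          rw [map_add, LinearMap.add_apply, ha v hv, hb v hv, add_zero]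
        smul_mem' := by
          intro c a ha v hv
          rw [map_smul, LinearMap.smul_apply, ha v hv, smul_zero] }
    have hY : ∀ x : (F i).X, x ∈ Y ↔ ∀ v ∈ W', em i x v = 0 := fun x => Iff.rfl
    have hYinv : ∀ g ∈ N, ∀ x ∈ Y, (F i).ρ g x ∈ Y := by
      intro g hg x hx
      rw [hY]
      intro v hv
      rw [h.eqv i g x v]
      exact (hY x).1 hx _ (hinv g⁻¹ (N.inv_mem hg) v hv)
    rcases hirr Y hYinv with hb | ht
    · right
      refine le_antisymm hW' ?_
      intro v₀ hv₀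
      by_contra hn
      obtain ⟨f, hf, hf0⟩ := Submodule.exists_le_ker_of_notMem hn
      obtain ⟨x, hx⟩ := hext i f
      have hxY : x ∈ Y := by
        rw [hY]
        intro v hv
        rw [hx v (hW' hv)]
        exact hf0 hv
      rw [hb, Submodule.mem_bot] at hxY
      apply hf
      rw [← hx v₀ hv₀, hxY, map_zero, LinearMap.zero_apply]
    · left
      rw [Submodule.eq_bot_iff]
      intro v hv
      refine hzero v fun i' x => ?_
      by_cases hi : i' = i
      · subst hi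
        have hx : x ∈ Y := by
          rw [ht]
          exact Submodule.mem_top
        exact (hY x).1 hx v hv
      · exact hW' hv i' hi x
  refine ⟨main, ?_⟩
  rintro ⟨hirr, m, t, hm, ht, hc, hk⟩
  refine ⟨main hirr, m, t, hm, ht, ?_, ?_⟩
  · rw [hcard i, hc]
  · rw [hk]
    have he : Nat.card {c : N // ∀ x : (F i).X, (F i).ρ (c : H) x = x} =
        Nat.card {c : N // ∀ w ∈ Vs em i, ρV (c : H) w = w} :=
      Nat.card_congr (Equiv.subtypeEquivRight fun c => htriv i (c : H))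
    rw [he]
-- END lc2

-- BEGIN lc3
private theorem lc3_A (h : LS ρV ρU β A B F em) (i : Fin n) (j : (F i).J) (a : H) (ha : a ∈ A) :
    a ∈ (F i).UU j := by
  have h1 := h.Ale i ha
  exact (Subgroup.mem_iInf.1 h1) j

private theorem lc3_W (h : LS ρV ρU β A B F em) (i : Fin n) (j : (F i).J) (a : H) (ha : a ∈ A)
    (x : (F i).X) (hx : x ∈ (F i).W j) : (F i).ρ a x ∈ (F i).W j := by
  have h1 := (F i).bs.uN j (lc3_A h i j a ha)
  rw [mem_Nm] at h1
  rw [← h1]
  exact Submodule.mem_map_of_mem hx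

private theorem lc3_p (h : LS ρV ρU β A B F em) (K : Subgroup H) :
    ((Nat.card K : ℕ) : ZMod p) ≠ 0 := by
  intro hc
  rw [ZMod.natCast_eq_zero_iff] at hc
  exact h.ltg.pH (hc.trans (Subgroup.card_subgroup_dvd_card K))

private theorem lc3_step (h : LS ρV ρU β A B F em) (T : Submodule (ZMod p) V)
    (hT : ∀ i (j : (F i).J) (w : V),
      (∀ a ∈ A, Tv (F i).ρ ((F i).W j) a → ρV a w = w) → w ∈ T)
    (S : Finset (Σ i, (F i).J)) :
    ∀ v : V, ∃ u : V, v - u ∈ T ∧ ∀ s ∈ S, ∀ x ∈ (F s.1).W s.2, em s.1 x u = 0 := by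
  classical
  induction S using Finset.induction_on with
  | empty => intro v; exact ⟨v, by rw [sub_self]; exact T.zero_mem, by simp⟩
  | insert s S hs ih =>
    intro v
    obtain ⟨u, hu, hz⟩ := ih v
    have hfin : Finite H := inferInstance
    let K : Subgroup H := A ⊓
      { carrier := {a | Tv (F s.1).ρ ((F s.1).W s.2) a}
        one_mem' := fun w _ => by rw [map_one]; rfl
        mul_mem' := fun {a b} ha hb w hw => by
          rw [map_mul]
          show (F s.1).ρ a ((F s.1).ρ b w) = w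
          rw [hb w hw, ha w hw]
        inv_mem' := fun {a} ha w hw => by
          have h1 : (F s.1).ρ a⁻¹ ((F s.1).ρ a w) = w := by
            rw [← Module.End.mul_apply, ← map_mul, inv_mul_cancel, map_one]
            rfl
          have h2 : (F s.1).ρ a w = w := ha w hw
          rw [h2] at h1
          exact h1 }
    have hK : ∀ a, a ∈ K ↔ a ∈ A ∧ Tv (F s.1).ρ ((F s.1).W s.2) a := fun a => Iff.rfl
    have hKf : Fintype K := Fintype.ofFinite K
    have hc : ((Nat.card K : ℕ) : ZMod p) ≠ 0 := lc3_p h K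
    let e : V := ((Nat.card K : ℕ) : ZMod p)⁻¹ • ∑ a : K, ρV (a : H) u
    have he : e ∈ T := by
      refine hT s.1 s.2 e fun b hb hb' => ?_
      have hbK : b ∈ K := (hK b).2 ⟨hb, hb'⟩
      show ρV b (_ • ∑ a : K, ρV (a : H) u) = _ • ∑ a : K, ρV (a : H) u
      rw [map_smul, map_sum]
      congr 1
      rw [← Equiv.sum_comp (Equiv.mulLeft (⟨b, hbK⟩ : K)) fun a : K => ρV (a : H) u]
      refine Finset.sum_congr rfl fun a _ => ?_
      rw [Equiv.coe_mulLeft, Subgroup.coe_mul, map_mul, Module.End.mul_apply]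
    have hax : ∀ (a : H) (i : Fin n) (x : (F i).X) (v : V),
        em i x (ρV a v) = em i ((F i).ρ a⁻¹ x) v := by
      intro a i x v
      rw [h.eqv, inv_inv]
    refine ⟨u - e, ?_, ?_⟩
    · have : v - (u - e) = (v - u) + e := by abel
      rw [this]
      exact T.add_mem hu he
    · intro t ht x hx
      have hexp : em t.1 x (u - e) = em t.1 x u -
          ((Nat.card K : ℕ) : ZMod p)⁻¹ • ∑ a : K, em t.1 x (ρV (a : H) u) := by
        show em t.1 x (u - _ • ∑ a : K, ρV (a : H) u) = _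
        rw [map_sub, map_smul, map_sum]
      rw [hexp]
      by_cases hts : t = s
      · subst hts
        have h1 : ∀ a : K, em t.1 x (ρV (a : H) u) = em t.1 x u := by
          intro a
          rw [hax]
          have h2 := (hK ((a : H)⁻¹)).1 (K.inv_mem a.2)
          rw [h2.2 x hx]
        rw [Finset.sum_congr rfl fun a _ => h1 a, Finset.sum_const, Finset.card_univ,
          ← Nat.card_eq_fintype_card, ← Nat.cast_smul_eq_nsmul (ZMod p), smul_smul,
          inv_mul_cancel₀ hc, one_smul, sub_self]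
      · have ht' : t ∈ S := by
          rcases Finset.mem_insert.1 ht with h1 | h1
          · exact absurd h1 hts
          · exact h1
        have h1 : ∀ a : K, em t.1 x (ρV (a : H) u) = 0 := by
          intro a
          rw [hax]
          exact hz t ht' _ (lc3_W h t.1 t.2 _ (A.inv_mem ((hK _).1 a.2).1) x hx)
        rw [Finset.sum_congr rfl fun a _ => h1 a, hz t ht' x hx]
        simp

private theorem lc3_top (h : LS ρV ρU β A B F em) (T : Submodule (ZMod p) V)
    (hT : ∀ i (j : (F i).J) (w : V),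
      (∀ a ∈ A, Tv (F i).ρ ((F i).W j) a → ρV a w = w) → w ∈ T) (v : V) : v ∈ T := by
  classical
  have : Fintype (Σ i, (F i).J) := Fintype.ofFinite _
  obtain ⟨u, hu, hz⟩ := lc3_step h T hT Finset.univ v
  have hu0 : u = 0 := by
    rw [← Module.forall_dual_apply_eq_zero_iff (ZMod p) u]
    intro f
    have hf : f ∈ ⨆ i, LinearMap.range (em i) := by rw [h.sup]; exact Submodule.mem_top
    have hle : (⨆ i, LinearMap.range (em i)) ≤
        LinearMap.ker (Module.Dual.eval (ZMod p) V u) := by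
      refine iSup_le fun i => ?_
      rintro _ ⟨x, rfl⟩
      rw [LinearMap.mem_ker, Module.Dual.eval_apply]
      have hx : x ∈ ⨆ j, (F i).W j := by rw [(F i).bs.sup]; exact Submodule.mem_top
      have hle' : (⨆ j, (F i).W j) ≤
          LinearMap.ker ((Module.Dual.eval (ZMod p) V u).comp (em i)) := by
        refine iSup_le fun j y hy => ?_
        rw [LinearMap.mem_ker, LinearMap.comp_apply, Module.Dual.eval_apply]
        exact hz ⟨i, j⟩ (Finset.mem_univ _) y hy
      have := hle' hx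
      rwa [LinearMap.mem_ker, LinearMap.comp_apply, Module.Dual.eval_apply] at this
    have := hle hf
    rwa [LinearMap.mem_ker, Module.Dual.eval_apply] at this
  rw [hu0, sub_zero] at hu
  exact hu

private theorem lc3_ex (h : LS ρV ρU β A B F em) :
    ∃ (i₀ : Fin n) (j₀ : (F i₀).J) (i₁ : Fin n) (j₁ : (F i₁).J) (w w' : V), β w w' ≠ 0 ∧
      (∀ a ∈ A, Tv (F i₀).ρ ((F i₀).W j₀) a → ρV a w = w) ∧
      ∀ a ∈ A, Tv (F i₁).ρ ((F i₁).W j₁) a → ρV a w' = w' := by
  by_contra hcon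
  apply h.ltg.ne
  refine LinearMap.ext fun v => ?_
  have h1 : v ∈ LinearMap.ker β := by
    refine lc3_top h _ (fun i₀ j₀ w hw => ?_) v
    rw [LinearMap.mem_ker]
    refine LinearMap.ext fun v' => ?_
    have h2 : v' ∈ LinearMap.ker (β w) := by
      refine lc3_top h _ (fun i₁ j₁ w' hw' => ?_) v'
      rw [LinearMap.mem_ker]
      by_contra hne
      exact hcon ⟨i₀, j₀, i₁, j₁, w, w', hne, hw, hw'⟩
    rw [LinearMap.mem_ker] at h2
    rw [h2, LinearMap.zero_apply]
  rw [LinearMap.mem_ker] at h1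
  rw [h1, LinearMap.zero_apply]

private theorem lc3_min {D : Type} [AddCommGroup D] [Module (ZMod p) D]
    [Finite D] (P : Submodule (ZMod p) D → Prop) (h : ∃ M, P M) :
    ∃ M, P M ∧ ∀ M' ≤ M, P M' → M' = M := by
  obtain ⟨M, hM, hmin⟩ := WellFounded.has_min (wellFounded_lt (α := Submodule (ZMod p) D)) {M | P M} h
  refine ⟨M, hM, fun M' hle hP => ?_⟩
  by_contra hne
  exact hmin M' hP (lt_of_le_of_ne hle hne)

private theorem lc3_fun (hpH : ¬ p ∣ Nat.card H) (hA : ∀ a ∈ A, ∀ b ∈ A, a * b = b * a)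
    (K : Subgroup H) (hK : K ≤ A) (u : U) (hu : u ≠ 0) (hfix : ∀ a ∈ K, ρU a u = u) :
    ∃ l : Module.Dual (ZMod p) U, l ≠ 0 ∧ LIrr ρU A l ∧ ∀ a ∈ K, FixL ρU l a := by
  have hfin : Finite (Module.Dual (ZMod p) U) := DFunLike.finite _
  have hKf : Fintype K := Fintype.ofFinite K
  obtain ⟨f, hf⟩ : ∃ l : Module.Dual (ZMod p) U, l u ≠ 0 := by
    by_contra hcon
    push Not at hcon
    exact hu ((Module.forall_dual_apply_eq_zero_iff (ZMod p) u).1 hcon)
  let D : Submodule (ZMod p) (Module.Dual (ZMod p) U) :=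
    { carrier := {l | ∀ a ∈ K, FixL ρU l a}
      zero_mem' := fun a _ x => rfl
      add_mem' := fun {l m} hl hm a ha x => by
        rw [LinearMap.add_apply, LinearMap.add_apply, hl a ha x, hm a ha x]
      smul_mem' := fun c l hl a ha x => by
        rw [LinearMap.smul_apply, LinearMap.smul_apply, hl a ha x] }
  have hD : ∀ l, l ∈ D ↔ ∀ a ∈ K, FixL ρU l a := fun l => Iff.rfl
  have hDinv : ∀ a ∈ A, ∀ l ∈ D, l ∘ₗ ρU a ∈ D := by
    intro a ha l hl b hb x
    rw [LinearMap.comp_apply, LinearMap.comp_apply, ← Module.End.mul_apply, ← map_mul,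
      hA a ha b (hK hb), map_mul, Module.End.mul_apply]
    exact hl b hb _
  let g : Module.Dual (ZMod p) U := ∑ a : K, f ∘ₗ ρU (a : H)
  have hgD : g ∈ D := by
    intro b hb x
    show (∑ a : K, f ∘ₗ ρU (a : H)) (ρU b x) = (∑ a : K, f ∘ₗ ρU (a : H)) x
    rw [LinearMap.sum_apply, LinearMap.sum_apply,
      ← Equiv.sum_comp (Equiv.mulRight (⟨b, hb⟩ : K)) fun a : K => (f ∘ₗ ρU (a : H)) x]
    refine Finset.sum_congr rfl fun a _ => ?_
    rw [Equiv.coe_mulRight, Subgroup.coe_mul, map_mul, LinearMap.comp_apply,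
      LinearMap.comp_apply, Module.End.mul_apply]
  have hg0 : g ≠ 0 := by
    intro hg
    have h1 : g u = ((Nat.card K : ℕ) : ZMod p) * f u := by
      show (∑ a : K, f ∘ₗ ρU (a : H)) u = _
      rw [LinearMap.sum_apply, Finset.sum_congr rfl fun (a : K) _ => show
        (f ∘ₗ ρU (a : H)) u = f u by rw [LinearMap.comp_apply, hfix a a.2], Finset.sum_const,
        Finset.card_univ, ← Nat.card_eq_fintype_card, nsmul_eq_mul]
    rw [hg, LinearMap.zero_apply] at h1
    rcases mul_eq_zero.1 h1.symm with h2 | h2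
    · rw [ZMod.natCast_eq_zero_iff] at h2
      exact hpH (h2.trans (Subgroup.card_subgroup_dvd_card K))
    · exact hf h2
  obtain ⟨M, ⟨hM1, hM2, hM3⟩, hmin⟩ := lc3_min (p := p)
    (fun M : Submodule (ZMod p) (Module.Dual (ZMod p) U) =>
      (∀ a ∈ A, ∀ f ∈ M, f ∘ₗ ρU a ∈ M) ∧ M ≠ ⊥ ∧ M ≤ D)
    ⟨D, hDinv, fun hb => hg0 (by
      have : g ∈ (⊥ : Submodule (ZMod p) (Module.Dual (ZMod p) U)) := hb ▸ hgD
      exact (Submodule.mem_bot _).1 this), le_refl _⟩
  obtain ⟨l, hl, hl'⟩ := M.ne_bot_iff.1 hM2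
  refine ⟨l, hl', fun M' hM' hinv => ?_, hM3 hl⟩
  have hO : Orb ρU A l ≤ M := by
    refine Submodule.span_le.2 ?_
    rintro f ⟨n, hn, rfl⟩
    exact hM1 n hn l hl
  by_cases hb : M' = ⊥
  · exact Or.inl hb
  · right
    have h1 := hmin M' (hM'.trans hO) ⟨hinv, hb, (hM'.trans hO).trans hM3⟩
    exact le_antisymm hM' (h1 ▸ hO)

/-- (lc3, size 4) The functional `l`. PROOF. For a block `j` of `F i` let `Wd i j ≤ V` be the set of the `v ∈ Vs em i` with `em i x v = 0` for all `x` in the other blocks of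
`F i`. `V` is the sum of all the `Wd i j` (as in `vs_dec`), so `β (w, w') ≠ 0` for some `w ∈ Wd i₀ j₀`, `w' ∈ Wd i₁ j₁` (`β ≠ 0`). An `a ∈ A` (it fixes all blocks) with
`Tv (W j₀) a` fixes all `w ∈ Wd i₀ j₀` (all functionals take the same value on `a w` and `w`). So `A₀ = {a ∈ A | Tv (W j₀) a, Tv (W j₁) a}` fixes the vector
`β (w, w') ≠ 0` of `U`. As `p` does not divide `card H`, `A₀` fixes a functional `≠ 0` on `U` (average of a functional which is not zero on
`β (w, w')`). The functionals which are fixed by `A₀` form an `A`-invariant subspace; take `l ≠ 0` in a minimal nonzero `A`-invariant subspace of it (compare `la_l`, `la_min`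
in Nan/La.lean). -/
theorem ch_l (h : LS ρV ρU β A B F em) :
    ∃ (i₀ : Fin n) (j₀ : (F i₀).J) (i₁ : Fin n) (j₁ : (F i₁).J) (l : Module.Dual (ZMod p) U),
      l ≠ 0 ∧ LIrr ρU A l ∧ ∀ a ∈ A, Tv (F i₀).ρ ((F i₀).W j₀) a → Tv (F i₁).ρ ((F i₁).W j₁) a →
        FixL ρU l a := by
  obtain ⟨i₀, j₀, i₁, j₁, w, w', hne, hw, hw'⟩ := lc3_ex h
  let K : Subgroup H := A ⊓
    { carrier := {a | ρV a w = w ∧ ρV a w' = w'}
      one_mem' := ⟨by rw [map_one]; rfl, by rw [map_one]; rfl⟩
      mul_mem' := fun {a b} ha hb =>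
        ⟨by rw [map_mul, Module.End.mul_apply, hb.1, ha.1],
          by rw [map_mul, Module.End.mul_apply, hb.2, ha.2]⟩
      inv_mem' := fun {a} ha => by
        have h1 : ∀ v, ρV a v = v → ρV a⁻¹ v = v := by
          intro v hv
          have h2 : ρV a⁻¹ (ρV a v) = v := by
            rw [← Module.End.mul_apply, ← map_mul, inv_mul_cancel, map_one]
            rfl
          rwa [hv] at h2
        exact ⟨h1 _ ha.1, h1 _ ha.2⟩ }
  obtain ⟨l, hl0, hli, hl⟩ := lc3_fun (ρU := ρU) (A := A) h.ltg.pH h.ab.com K inf_le_left (β w w')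
    hne (by
      intro a ha
      have h2 : ρV a w = w ∧ ρV a w' = w' := ha.2
      rw [← h.ltg.eqv, h2.1, h2.2])
  exact ⟨i₀, j₀, i₁, j₁, l, hl0, hli, fun a ha h1 h2 =>
    hl a ⟨ha, hw a ha h1, hw' a ha h2⟩⟩
-- END lc3

-- BEGIN lc4
/-- The vectors for one module. -/
private theorem lc4_loc (h : LS ρV ρU β A B F em) (i : Fin n) (j j' : (F i).J) :
    ∃ (Δ : Finset (F i).J) (v : (F i).J → (F i).X), j ∈ Δ ∧ j' ∈ Δ ∧
      (Nontrivial (F i).J → 2 ≤ Δ.card) ∧ (∀ j, v j ∈ (F i).W j) ∧ (∀ j, v j ≠ 0) ∧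
      (∀ k : (F i).J → H, (∀ j, k j ∈ A) → ∀ r : ℕ, r.Prime → 3 ≤ r → ¬ (F i).Bt r →
        ∀ R : Sylow r H, ¬ ∀ x ∈ (R : Subgroup H), (F i).ρ x (∑ j ∈ Δ, (F i).ρ (k j) (v j)) =
          ∑ j ∈ Δ, (F i).ρ (k j) (v j)) ∧
      (Subsingleton (F i).J → ∀ r ∈ B, ∀ (R : Sylow r H) (j : (F i).J),
        (∀ x ∈ (R : Subgroup H), (F i).ρ x (v j) = v j) →
          (∀ R' : Sylow r H, ∀ x ∈ (R' : Subgroup H), ∀ y, (F i).ρ x y = y) ∨
            Full (F i).ρ (cm A r)) := by
  classical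
  have hAU : ∀ j, A ≤ (F i).UU j := fun j a ha => (Subgroup.mem_iInf.1 (h.Ale i ha)) j
  by_cases hcase : Subsingleton (F i).J ∧ ∃ r ∈ B, ¬ ∀ R' : Sylow r H, ∀ x ∈ (R' : Subgroup H),
      ∀ y, (F i).ρ x y = y
  · obtain ⟨hs, r₀, hr₀, hnt⟩ := hcase
    have hab : Abq (F i).ρ (F i).W (F i).UU := by
      rcases h.bt r₀ hr₀ i with h1 | h1
      · exact absurd h1 hnt
      · exact h1.2.1
    have hone : ∀ j, (F i).W j = ⊤ := by
      intro j
      rw [eq_top_iff, ← (F i).bs.sup]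
      exact iSup_le fun j' => by rw [Subsingleton.elim j' j]
    obtain ⟨Rr, hRr⟩ := cmpl h.ab ((Nat.card H).primeFactors.filter fun r => r ∈ B)
      (fun r hr => h.ar r (Finset.mem_filter.1 hr).2)
    obtain ⟨x₀, hx1, hx2⟩ := tlem (ρ := (F i).ρ) (A := A) (C := A)
      (S := (Nat.card H).primeFactors.filter fun r => r ∈ B) (R := fun r => (Rr r : Subgroup H))
      { ab := h.ab
        pH := h.ltg.pH
        irr := (F i).irr
        prime := fun r hr => (h.ar r (Finset.mem_filter.1 hr).2).prime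
        ndvd := fun r hr => (h.ar r (Finset.mem_filter.1 hr).2).ndvd
        pgr := fun r _ => (Rr r).isPGroup'
        com := hRr
        Cn := h.ab.nor
        CA := le_rfl
        AC := fun r _ => by
          haveI := h.ab.nor
          exact Subgroup.commutator_le_left _ _
        fpf := by
          intro c hc x hx hcx y
          exact bs_fpf (F i).bs j c (hAU j hc) x (by rw [hone j]; exact Submodule.mem_top) hx hcx y
            (by rw [hone j]; exact Submodule.mem_top) }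
    have hx0 : x₀ ≠ 0 := by
      rintro rfl
      apply hnt
      refine h.triv r₀ hr₀ i fun c hc x => hx1 c (cm_le h.ab r₀ hc) ?_ x
      exact map_zero _
    refine ⟨{j}, fun _ => x₀, Finset.mem_singleton_self j, ?_, ?_, ?_, fun _ => hx0, ?_, ?_⟩
    · rw [Finset.mem_singleton]
      exact Subsingleton.elim _ _
    · intro hJ
      exact absurd hs (not_subsingleton_iff_nontrivial.2 hJ)
    · intro j''
      rw [hone j'']
      exact Submodule.mem_top
    · intro k hk r hr h11 hB R hcon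
      rw [Finset.sum_singleton] at hcon
      obtain ⟨x, hx, -, hinj⟩ := gen_one (F i).bs hab r hr hB R
      have h1 := hinj _ (hcon x hx)
      apply hx0
      have h2 := congrArg ((F i).ρ (k j)⁻¹) h1
      rw [← Module.End.mul_apply, ← map_mul, inv_mul_cancel, map_one, Module.End.one_apply,
        map_zero] at h2
      exact h2
    · intro _ r hr R j'' hfix
      have hAR : AR A r := h.ar r hr
      by_cases hd : r ∣ Nat.card H
      · have hrS : r ∈ ((Nat.card H).primeFactors.filter fun r => r ∈ B) :=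
          Finset.mem_filter.2 ⟨Nat.mem_primeFactors.2 ⟨hAR.prime, hd, Nat.card_pos.ne'⟩, hr⟩
        obtain ⟨a, ha, haR⟩ := ar_conj h.ab hAR (Rr r) R
        rcases hx2 r hrS ⟨a, ha, fun s hs' => hfix _ ((haR _).2 (by
          have h1 : a⁻¹ * (a * s * a⁻¹) * a = s := by group
          rw [h1]
          exact hs'))⟩ with h1 | h1
        · left
          intro R' x hx y
          obtain ⟨b, hb, hbR⟩ := ar_conj h.ab hAR (Rr r) R'
          have h2 := h1 _ ((hbR x).1 hx) ((F i).ρ b⁻¹ y)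
          have h3 : x = b * (b⁻¹ * x * b) * b⁻¹ := by group
          rw [h3, map_mul, map_mul, Module.End.mul_apply, Module.End.mul_apply, h2,
            ← Module.End.mul_apply, ← map_mul, mul_inv_cancel, map_one, Module.End.one_apply]
        · right
          rw [ar_cm h.ab hAR (Rr r)]
          exact h1
      · left
        intro R' x hx y
        have h1 : x = 1 := by
          haveI := Fact.mk hAR.prime
          obtain ⟨k, hk⟩ := (IsPGroup.iff_orderOf.1 R'.isPGroup') ⟨x, hx⟩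
          rw [Subgroup.orderOf_mk] at hk
          rcases Nat.eq_zero_or_pos k with h2 | h2
          · rw [h2, pow_zero] at hk
            exact orderOf_eq_one_iff.1 hk
          · exfalso
            apply hd
            refine dvd_trans ?_ (orderOf_dvd_natCard x)
            rw [hk]
            exact dvd_pow_self r h2.ne'
        rw [h1, map_one, Module.End.one_apply]
  · obtain ⟨Δ, v, h1, h2, h3, h4, h5⟩ := gen (F i).bs h.sol h.odd j j'
    refine ⟨Δ, v, h1, h2, h3, fun j => (h4 j).1, fun j => (h4 j).2, ?_, ?_⟩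
    · intro k hk r hr h11 hB R
      exact h5 k (fun j => (F i).bs.uN j (hAU j (hk j))) r hr h11 hB R
    · intro hs r hr R j'' _
      left
      by_contra hcon
      exact hcase ⟨hs, r, hr, hcon⟩

/-- (lc4, size 4) The generic vectors. PROOF. For each `i`. If `(F i).J` has at least two elements, or if all `r ∈ B` are trivial on `(F i).X`: `gen` (with `j₀`, `j₁` if `i = i₀`, `i = i₁`;
`A ≤ UU j ≤ Nm`); `full` holds by assumption in the second case. If `(F i).J` has one element and some `r ∈ B` is not trivial: then `Abq` (`bt`). `tlem` for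
`S` = the `r ∈ B` which divide `card H`, commuting Sylow subgroups `R r` from `cmpl`, `C = A`: `TH` (`fpf` by `bs_fpf`; `pH` from `ltg`). It gives `x` with `Sel`; `x ≠ 0` (otherwise `A` is trivial
on `(F i).X`, so `cm A r` is, so `R` is, by `triv`). `v i j = x`. `cov`: `gen_one` (`ρ (k j) x ≠ 0`). `full`: if `R` fixes `x`, then an `A`-conjugate of `R r`
(`ar_conj`) fixes it, so `R r` is trivial or `Full ρ ⁅A, R r⁆`, `⁅A, R r⁆ = cm A r` (`ar_cm`). -/
theorem ch_v (h : LS ρV ρU β A B F em) (i₀ : Fin n) (j₀ : (F i₀).J) (i₁ : Fin n)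
    (j₁ : (F i₁).J) :
    ∃ (Δ : ∀ i, Finset (F i).J) (v : ∀ i, (F i).J → (F i).X), Cho A B F Δ v ∧ j₀ ∈ Δ i₀ ∧
      j₁ ∈ Δ i₁ := by
  classical
  have hne : ∀ i, Nonempty (F i).J := by
    intro i
    by_contra hcon
    rw [not_nonempty_iff] at hcon
    have h1 := (F i).bs.sup
    rw [iSup_of_empty] at h1
    obtain ⟨x, hx⟩ := exists_ne (0 : (F i).X)
    apply hx
    have h2 : x ∈ (⊤ : Submodule (ZMod p) (F i).X) := Submodule.mem_top
    rw [← h1] at h2
    exact (Submodule.mem_bot _).1 h2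
  have hex : ∀ (i' : Fin n) (j' : (F i').J), ∃ f : ∀ i, (F i).J, f i' = j' := by
    intro i' j'
    refine ⟨fun i => if hi : i' = i then hi ▸ j' else (hne i).some, ?_⟩
    dsimp only
    rw [dif_pos rfl]
  obtain ⟨f, hf⟩ := hex i₀ j₀
  obtain ⟨g, hg⟩ := hex i₁ j₁
  choose Δ v h1 h2 h3 h4 h5 h6 h7 using fun i => lc4_loc h i (f i) (g i)
  refine ⟨Δ, v, ⟨fun i => ⟨f i, h1 i⟩, h3, h4, h5, h6, h7⟩, ?_, ?_⟩
  · rw [← hf]
    exact h1 i₀
  · rw [← hg]
    exact h2 i₁
-- END lc4

-- BEGIN lc5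
private theorem lc5_invA (l : Module.Dual (ZMod p) U) (a : H) (ha : a ∈ A)
    (f : Module.Dual (ZMod p) U) (hf : f ∈ Orb ρU A l) : f ∘ₗ ρU a ∈ Orb ρU A l := by
  refine Submodule.span_induction (p := fun f _ => f ∘ₗ ρU a ∈ Orb ρU A l) ?_ ?_ ?_ ?_ hf
  · rintro f ⟨n, hn, rfl⟩
    refine Submodule.subset_span ⟨n * a, A.mul_mem hn ha, ?_⟩
    rw [map_mul]
    rfl
  · rw [LinearMap.zero_comp]
    exact Submodule.zero_mem _
  · intro x y _ _ hx hy
    rw [LinearMap.add_comp]
    exact Submodule.add_mem _ hx hy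
  · intro c x _ hx
    rw [LinearMap.smul_comp]
    exact Submodule.smul_mem _ _ hx

private def lc5_map (ρU : Representation (ZMod p) H U) (l : Module.Dual (ZMod p) U) (a : H)
    (ha : a ∈ A) : Orb ρU A l →ₗ[ZMod p] Orb ρU A l where
  toFun f := ⟨f.1 ∘ₗ ρU a, lc5_invA l a ha f.1 f.2⟩
  map_add' f g := Subtype.ext (LinearMap.add_comp _ _ _)
  map_smul' c f := Subtype.ext (LinearMap.smul_comp _ _ _)

private def lc5_rep (ρU : Representation (ZMod p) H U) (hA : Ab A) (l : Module.Dual (ZMod p) U) :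
    Representation (ZMod p) A (Orb ρU A l) where
  toFun a := lc5_map ρU l a a.2
  map_one' := LinearMap.ext fun f => Subtype.ext (by
    show (f.1 : Module.Dual (ZMod p) U) ∘ₗ ρU ((1 : A) : H) = f.1
    rw [Subgroup.coe_one, map_one]
    rfl)
  map_mul' a b := by
    refine LinearMap.ext fun f => Subtype.ext ?_
    show (f : Module.Dual (ZMod p) U) ∘ₗ ρU ((a : H) * b) = (f.1 ∘ₗ ρU (b : H)) ∘ₗ ρU (a : H)
    rw [hA.com _ a.2 _ b.2, map_mul]
    rfl

private theorem lc5_irr (hA : Ab A) (l : Module.Dual (ZMod p) U) (hirr : LIrr ρU A l) :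
    Irrd (lc5_rep ρU hA l) ⊤ := by
  intro W hW
  have h1 := hirr (W.map (Orb ρU A l).subtype) (Submodule.map_subtype_le _ _) (by
    rintro a ha _ ⟨f, hf, rfl⟩
    exact ⟨lc5_rep ρU hA l ⟨a, ha⟩ f, hW ⟨a, ha⟩ (Subgroup.mem_top _) f hf, rfl⟩)
  rcases h1 with h1 | h1
  · left
    rw [eq_bot_iff]
    intro f hf
    have h2 : (f : Module.Dual (ZMod p) U) ∈ W.map (Orb ρU A l).subtype := ⟨f, hf, rfl⟩
    rw [h1, Submodule.mem_bot] at h2
    exact (Submodule.mem_bot _).2 (Subtype.ext h2)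
  · right
    rw [eq_top_iff]
    rintro f -
    have h2 : (f : Module.Dual (ZMod p) U) ∈ W.map (Orb ρU A l).subtype := by
      rw [h1]
      exact f.2
    obtain ⟨g, hg, hgf⟩ := h2
    have h3 : g = f := Subtype.ext hgf
    rwa [← h3]

private theorem lc5_mem (l : Module.Dual (ZMod p) U) : l ∈ Orb ρU A l := by
  refine Submodule.subset_span ⟨1, A.one_mem, ?_⟩
  rw [map_one]
  rfl

/-- An element of `A` which fixes `l` is trivial on the span of the orbit. -/
private theorem lc5_triv (hA : Ab A) (l : Module.Dual (ZMod p) U) (a : H) (ha : a ∈ A)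
    (hl : FixL ρU l a) (f : Module.Dual (ZMod p) U) (hf : f ∈ Orb ρU A l) : f ∘ₗ ρU a = f := by
  refine Submodule.span_induction (p := fun f _ => f ∘ₗ ρU a = f) ?_ ?_ ?_ ?_ hf
  · rintro f ⟨n, hn, rfl⟩
    apply LinearMap.ext
    intro u
    show l (ρU n (ρU a u)) = l (ρU n u)
    have h1 : ρU n (ρU a u) = ρU a (ρU n u) := by
      rw [← Module.End.mul_apply, ← map_mul, hA.com n hn a ha, map_mul, Module.End.mul_apply]
    rw [h1]
    exact hl _
  · exact LinearMap.zero_comp _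
  · intro x y _ _ hx hy
    rw [LinearMap.add_comp, hx, hy]
  · intro c x _ hx
    rw [LinearMap.smul_comp, hx]

/-- Two elements of order `q` on the span of the orbit. -/
private theorem lc5_q (hA : Ab A) (l : Module.Dual (ZMod p) U) (hl0 : l ≠ 0)
    (hirr : LIrr ρU A l) (q : ℕ) (hq : q.Prime) (y₁ y₂ : H) (h1 : y₁ ∈ A) (h2 : y₂ ∈ A)
    (hf1 : FixL ρU l (y₁ ^ q)) (hf2 : FixL ρU l (y₂ ^ q)) (hn : ¬ FixL ρU l y₁) :
    ∃ a : ℕ, FixL ρU l ((y₁ ^ a)⁻¹ * y₂) := by
  haveI : Finite (Module.Dual (ZMod p) U) := DFunLike.finite _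
  haveI : Nontrivial (Orb ρU A l) :=
    ⟨⟨⟨l, lc5_mem l⟩, 0, fun h => hl0 (congrArg Subtype.val h)⟩⟩
  obtain ⟨K, iK, fK, cK, χ, e, he, -⟩ := irf (lc5_rep ρU hA l) (fun a b y => by
    apply Subtype.ext
    show (y.1 ∘ₗ ρU (b : H)) ∘ₗ ρU (a : H) = (y.1 ∘ₗ ρU (a : H)) ∘ₗ ρU (b : H)
    rw [LinearMap.comp_assoc, LinearMap.comp_assoc]
    congr 1
    show ρU (b : H) * ρU (a : H) = ρU (a : H) * ρU (b : H)
    rw [← map_mul, ← map_mul, hA.com _ a.2 _ b.2]) (lc5_irr hA l hirr)
  have hel : e ⟨l, lc5_mem l⟩ ≠ 0 := by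
    intro h
    have h3 : (⟨l, lc5_mem l⟩ : Orb ρU A l) = 0 := by
      rw [← e.map_eq_zero_iff]
      exact h
    exact hl0 (congrArg Subtype.val h3)
  have hfx : ∀ a : A, FixL ρU l (a : H) ↔ χ a = 1 := by
    intro a
    constructor
    · intro hf
      have h3 := he a ⟨l, lc5_mem l⟩
      have h4 : lc5_rep ρU hA l a ⟨l, lc5_mem l⟩ = ⟨l, lc5_mem l⟩ := by
        apply Subtype.ext
        show l ∘ₗ ρU (a : H) = l
        exact lc5_triv hA l a a.2 hf l (lc5_mem l)
      rw [h4] at h3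
      apply Units.ext
      have h5 : ((χ a : Kˣ) : K) * e ⟨l, lc5_mem l⟩ = 1 * e ⟨l, lc5_mem l⟩ := by
        rw [one_mul]
        exact h3.symm
      exact mul_right_cancel₀ hel h5
    · intro hc u
      have h3 := he a ⟨l, lc5_mem l⟩
      rw [hc, Units.val_one, one_mul] at h3
      have h4 := e.injective h3
      have h5 := congrArg Subtype.val h4
      have h6 : l ∘ₗ ρU (a : H) = l := h5
      exact LinearMap.congr_fun h6 u
  have hc1 : (χ ⟨y₁, h1⟩) ^ q = 1 := by
    rw [← map_pow]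
    exact (hfx _).1 hf1
  have hc2 : (χ ⟨y₂, h2⟩) ^ q = 1 := by
    rw [← map_pow]
    exact (hfx _).1 hf2
  have hc3 : χ ⟨y₁, h1⟩ ≠ 1 := fun h => hn ((hfx ⟨y₁, h1⟩).2 h)
  have hpr : IsPrimitiveRoot (χ ⟨y₁, h1⟩) q := by
    have h3 := orderOf_eq_prime (hp := ⟨hq⟩) hc1 hc3
    rw [← h3]
    exact IsPrimitiveRoot.orderOf _
  haveI : NeZero q := ⟨hq.ne_zero⟩
  obtain ⟨a, -, ha⟩ := (IsPrimitiveRoot.coe_units_iff.2 hpr).eq_pow_of_pow_eq_one
    (ξ := ((χ ⟨y₂, h2⟩ : Kˣ) : K)) (by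
      rw [← Units.val_pow_eq_pow_val, hc2, Units.val_one])
  refine ⟨a, ?_⟩
  have h4 : χ ((⟨y₁, h1⟩ ^ a)⁻¹ * ⟨y₂, h2⟩) = 1 := by
    rw [map_mul, map_inv, map_pow]
    have h5 : (χ ⟨y₁, h1⟩) ^ a = χ ⟨y₂, h2⟩ := by
      apply Units.ext
      rw [Units.val_pow_eq_pow_val]
      exact ha
    rw [h5]
    exact inv_mul_cancel _
  exact (hfx _).2 h4

/-- Trivial action on `W j` in terms of the vector `v i j`. -/
private theorem lc5_tv (h : LS ρV ρU β A B F em) {Δ : ∀ i, Finset (F i).J}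
    {v : ∀ i, (F i).J → (F i).X} (hc : Cho A B F Δ v) (d : H) (hd : d ∈ A) (i : Fin n)
    (j : (F i).J) (hf : (F i).ρ d (v i j) = v i j) : Tv (F i).ρ ((F i).W j) d := by
  have h1 : d ∈ (F i).UU j := (Subgroup.mem_iInf.1 (h.Ale i hd)) j
  exact bs_fpf (F i).bs j d h1 (v i j) (hc.vW i j) (hc.v0 i j) hf

/-- `Tv` of a quotient. -/
private theorem lc5_eqw {X : Type} [AddCommGroup X] [Module (ZMod p) X]
    {ρ : Representation (ZMod p) H X} {W : Submodule (ZMod p) X} (a b : H)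
    (ht : Tv ρ W (a⁻¹ * b)) (w : X) (hw : w ∈ W) : ρ b w = ρ a w := by
  have h1 := ht w hw
  rw [map_mul, Module.End.mul_apply] at h1
  have h2 := congrArg (ρ a) h1
  rw [← Module.End.mul_apply, ← map_mul, mul_inv_cancel, map_one, Module.End.one_apply] at h2
  exact h2

private theorem lc5_powq {X : Type} [AddCommGroup X] [Module (ZMod p) X]
    {ρ : Representation (ZMod p) H X} {W : Submodule (ZMod p) X} (a b : H)
    (ha : a ∈ Nm ρ W) (ht : Tv ρ W (a⁻¹ * b)) (k : ℕ) :
    ∀ w ∈ W, ρ (b ^ k) w = ρ (a ^ k) w := by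
  induction k with
  | zero =>
    intro w _
    rw [pow_zero, pow_zero]
  | succ k ih =>
    intro w hw
    rw [pow_succ, pow_succ, map_mul, map_mul, Module.End.mul_apply, Module.End.mul_apply,
      lc5_eqw a b ht w hw]
    refine ih _ ?_
    have h1 : W.map (ρ a) = W := ha
    rw [← h1]
    exact Submodule.mem_map_of_mem hw

private theorem lc5_tvpow {X : Type} [AddCommGroup X] [Module (ZMod p) X]
    {ρ : Representation (ZMod p) H X} {W : Submodule (ZMod p) X} (a : H) (ha : Tv ρ W a)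
    (k : ℕ) : Tv ρ W (a ^ k) := by
  intro w hw
  induction k with
  | zero => rw [pow_zero, map_one, Module.End.one_apply]
  | succ k ih => rw [pow_succ, map_mul, Module.End.mul_apply, ha w hw, ih]

/-- A non-trivial element has a power of prime order on `W`. -/
private theorem lc5_prime {X : Type} [AddCommGroup X] [Module (ZMod p) X]
    {ρ : Representation (ZMod p) H X} {W : Submodule (ZMod p) X} (y : H) (hy : ¬ Tv ρ W y) :
    ∃ q : ℕ, q.Prime ∧ ∃ k : ℕ, ¬ Tv ρ W (y ^ k) ∧ Tv ρ W ((y ^ k) ^ q) := by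
  classical
  have hex : ∃ m : ℕ, 0 < m ∧ Tv ρ W (y ^ m) := by
    refine ⟨orderOf y, orderOf_pos y, ?_⟩
    rw [pow_orderOf_eq_one]
    intro w _
    rw [map_one, Module.End.one_apply]
  set m := Nat.find hex with hm
  obtain ⟨h1, h2⟩ := Nat.find_spec hex
  rw [← hm] at h1 h2
  have hm1 : m ≠ 1 := by
    intro h3
    rw [h3, pow_one] at h2
    exact hy h2
  obtain ⟨q, hq, hqm⟩ := Nat.exists_prime_and_dvd hm1
  obtain ⟨k, hk⟩ := hqm
  refine ⟨q, hq, k, fun h3 => ?_, ?_⟩
  · have hk0 : 0 < k := by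
      rcases Nat.eq_zero_or_pos k with h4 | h4
      · rw [h4, mul_zero] at hk
        omega
      · exact h4
    have h4 : k < m := by
      rw [hk]
      exact (Nat.lt_mul_iff_one_lt_left hk0).2 hq.one_lt
    exact Nat.find_min hex h4 ⟨hk0, h3⟩
  · rw [← pow_mul, mul_comm k q, ← hk]
    exact h2

/-- (lc5, size 5) Analysis of a bad prime. PROOF. `D = cm A r`, `θ = Orb ρU A l`. (1) If `(F i).J` has at least two elements then `D` is trivial on `(F i).X`: otherwise it is not trivial on any block (normal; the blocks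
are conjugate). `j ≠ j'` in `Δ i`. Let `q` be a prime divisor of the order of the image of `D` on `W j` (the same for `W j'`). By the last part of `Bad` there are `y₁, y₂ ∈ D`: `y₁` acts on `W j` with order `q`, and trivially
on the other blocks of `Δ` (all `i`), `y₂` the same for `j'` (an element of `D ≤ UU` which fixes `v i j` is trivial on `W j`: `bs_fpf`). `y₁ ^ q`, `y₂ ^ q` are trivial on all the blocks of `Δ`, so they fix `l`
(`hl`), so they act trivially on `θ`. `A` acts on `θ` irreducibly, so as a subgroup of the multiplicative group of a field (`irf`), where there are at most `q` elements with `z ^ q = 1`: so some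
`y = y₁ ^ a y₂ ^ b`, `(a, b) ≠ (0, 0)` mod `q`, is trivial on `θ`, so it fixes `l`, so by the third part of `Bad` it fixes all `v i j`, so it is trivial on `W j`, `W j'`: contradiction. (2) If `c ∈ D` fixes `l`: it fixes all `v i j`, `j ∈ Δ i`, so
it is trivial on `(F i).X` for all `i` (one block, or (1)), so on `V`, `c = 1`. `cyc`: `la_cyc`; `size`: `la_size`; `fpf`: `⟨c⟩` is normal (`cyc_nor`), `cycfixS` for `W = ⊤` (`U` irreducible). `full`: `Cho.full`, the first
alternative is impossible as `D = ⁅A, R⁆` is not trivial. `out`: `triv`. `srj`: last part of `Bad` and `bs_fpf`. -/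
theorem ana (h : LS ρV ρU β A B F em) {Δ : ∀ i, Finset (F i).J}
    {v : ∀ i, (F i).J → (F i).X} (hc : Cho A B F Δ v) (l : Module.Dual (ZMod p) U) (hl0 : l ≠ 0)
    (hli : LIrr ρU A l)
    (hl : ∀ a ∈ A, (∀ i, ∀ j ∈ Δ i, Tv (F i).ρ ((F i).W j) a) → FixL ρU l a) (r : ℕ) (hr : r ∈ B)
    (hD : cm A r ≠ ⊥) (hb : Bad ρV ρU β A F Δ v l 0 r) :
    ∃ I : Finset (Fin n), Anl ρU A F l r I := by
  classical
  obtain ⟨⟨R, hR⟩, hb2, hb3, hb4⟩ := hb
  have hDA : cm A r ≤ A := cm_le h.ab r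
  have hDn : (cm A r).Normal := cm_nor h.ab r
  have hAR : AR A r := h.ar r hr
  -- the elements of `cm A r` which fix `l`
  have hfl : ∀ c ∈ cm A r, FixL ρU l c → ∀ i, ∀ j ∈ Δ i, Tv (F i).ρ ((F i).W j) c := by
    intro c hcD hcl i j hj
    refine lc5_tv h hc c (hDA hcD) i j (hb3 c hcD ⟨hcl, fun v _ => ?_⟩ i j hj)
    rw [LinearMap.zero_apply, LinearMap.zero_apply]
  -- two blocks
  have htwo : ∀ i, Nontrivial (F i).J → ∀ c ∈ cm A r, ∀ x, (F i).ρ c x = x := by
    intro i hJ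
    by_contra hcon
    push Not at hcon
    obtain ⟨c₀, hc₀, x₀, hx₀⟩ := hcon
    -- not trivial on any block
    have hnb : ∀ j, ∃ c ∈ cm A r, ¬ Tv (F i).ρ ((F i).W j) c := by
      intro j
      by_contra hcon
      push Not at hcon
      have hall : ∀ j', ∀ w ∈ (F i).W j', (F i).ρ c₀ w = w := by
        intro j' w hw
        obtain ⟨g, hg⟩ := (F i).bs.tra j j'
        rw [← hg] at hw
        obtain ⟨w', hw', rfl⟩ := hw
        have h1 := hcon (g⁻¹ * c₀ * g) (by
          have h2 := hDn.conj_mem c₀ hc₀ g⁻¹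
          rwa [inv_inv] at h2) w' hw'
        rw [← Module.End.mul_apply, ← map_mul]
        have h2 : c₀ * g = g * (g⁻¹ * c₀ * g) := by group
        rw [h2, map_mul, Module.End.mul_apply, h1]
      have h2 : (⊤ : Submodule (ZMod p) (F i).X) ≤ LinearMap.eqLocus ((F i).ρ c₀) LinearMap.id := by
        rw [← (F i).bs.sup]
        refine iSup_le fun j' w hw => ?_
        exact hall j' w hw
      exact hx₀ (h2 (Submodule.mem_top (x := x₀)))
    have hcard : 1 < (Δ i).card := hc.two i hJ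
    obtain ⟨j, hj, j', hj', hjj⟩ := Finset.one_lt_card.1 hcard
    obtain ⟨y, hyD, hyn⟩ := hnb j
    obtain ⟨q, hq, k, hk1, hk2⟩ := lc5_prime y hyn
    set z₁ := y ^ k with hz₁
    have hz₁D : z₁ ∈ cm A r := (cm A r).pow_mem hyD k
    obtain ⟨g, hg⟩ := (F i).bs.tra j j'
    set z₂ := g * z₁ * g⁻¹ with hz₂
    have hz₂D : z₂ ∈ cm A r := hDn.conj_mem z₁ hz₁D g
    have hz₂n : ¬ Tv (F i).ρ ((F i).W j') z₂ := by
      intro ht
      apply hk1
      intro w hw
      have h1 := ht ((F i).ρ g w) (by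
        rw [← hg]
        exact Submodule.mem_map_of_mem hw)
      rw [hz₂, ← Module.End.mul_apply, ← map_mul, inv_mul_cancel_right, map_mul,
        Module.End.mul_apply] at h1
      have h2 := congrArg ((F i).ρ g⁻¹) h1
      rw [← Module.End.mul_apply, ← map_mul, inv_mul_cancel, map_one, Module.End.one_apply,
        ← Module.End.mul_apply, ← map_mul, inv_mul_cancel, map_one, Module.End.one_apply] at h2
      exact h2
    have hz₂q : Tv (F i).ρ ((F i).W j') (z₂ ^ q) := by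
      intro w hw
      rw [← hg] at hw
      obtain ⟨w', hw', rfl⟩ := hw
      rw [hz₂, conj_pow, ← Module.End.mul_apply, ← map_mul, inv_mul_cancel_right, map_mul,
        Module.End.mul_apply, hk2 w' hw']
    have hNm : ∀ d ∈ cm A r, ∀ i' (j'' : (F i').J), d ∈ Nm (F i').ρ ((F i').W j'') :=
      fun d hd i' j'' => (F i').bs.uN j'' ((Subgroup.mem_iInf.1 (h.Ale i' (hDA hd))) j'')
    -- the element with prescribed action
    have hpr : ∀ (z : H), z ∈ cm A r → ∀ j₀ : (F i).J, j₀ ∈ Δ i → ∃ y ∈ cm A r,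
        Tv (F i).ρ ((F i).W j₀) (z⁻¹ * y) ∧ ∀ i', ∀ j'' ∈ Δ i',
          (⟨i', j''⟩ : Σ i, (F i).J) ≠ ⟨i, j₀⟩ → Tv (F i').ρ ((F i').W j'') y := by
      intro z hz j₀ hj₀
      obtain ⟨y, hy, hyv⟩ := hb4 (fun i' j'' =>
        if (⟨i', j''⟩ : Σ i, (F i).J) = ⟨i, j₀⟩ then z else 1) (by
          intro i' j''
          split_ifs
          · exact hz
          · exact (cm A r).one_mem)
      refine ⟨y, hy, ?_, ?_⟩
      · have h1 := hyv i j₀ hj₀
        rw [if_pos rfl] at h1
        exact lc5_tv h hc _ (A.mul_mem (A.inv_mem (hDA hz)) (hDA hy)) i j₀ h1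
      · intro i' j'' hj'' hne
        have h1 := hyv i' j'' hj''
        rw [if_neg hne, inv_one, one_mul] at h1
        exact lc5_tv h hc _ (hDA hy) i' j'' h1
    obtain ⟨y₁, hy₁, hy₁a, hy₁b⟩ := hpr z₁ hz₁D j hj
    obtain ⟨y₂, hy₂, hy₂a, hy₂b⟩ := hpr z₂ hz₂D j' hj'
    have hq1 : FixL ρU l (y₁ ^ q) := by
      refine hl _ (A.pow_mem (hDA hy₁) q) fun i' j'' hj'' => ?_
      by_cases he : (⟨i', j''⟩ : Σ i, (F i).J) = ⟨i, j⟩
      · obtain ⟨rfl, h1⟩ := Sigma.mk.inj he
        obtain rfl := eq_of_heq h1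
        intro w hw
        rw [lc5_powq z₁ y₁ (hNm _ hz₁D _ _) hy₁a q w hw]
        exact hk2 w hw
      · exact lc5_tvpow _ (hy₁b i' j'' hj'' he) q
    have hq2 : FixL ρU l (y₂ ^ q) := by
      refine hl _ (A.pow_mem (hDA hy₂) q) fun i' j'' hj'' => ?_
      by_cases he : (⟨i', j''⟩ : Σ i, (F i).J) = ⟨i, j'⟩
      · obtain ⟨rfl, h1⟩ := Sigma.mk.inj he
        obtain rfl := eq_of_heq h1
        intro w hw
        rw [lc5_powq z₂ y₂ (hNm _ hz₂D _ _) hy₂a q w hw]
        exact hz₂q w hw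
      · exact lc5_tvpow _ (hy₂b i' j'' hj'' he) q
    have hn1 : ¬ FixL ρU l y₁ := by
      intro hf
      apply hk1
      intro w hw
      rw [← lc5_eqw z₁ y₁ hy₁a w hw]
      exact hfl y₁ hy₁ hf i j hj w hw
    obtain ⟨a, ha⟩ := lc5_q h.ab l hl0 hli q hq y₁ y₂ (hDA hy₁) (hDA hy₂) hq1 hq2 hn1
    apply hz₂n
    intro w hw
    rw [← lc5_eqw z₂ y₂ hy₂a w hw]
    have h1 := hfl _ ((cm A r).mul_mem ((cm A r).inv_mem ((cm A r).pow_mem hy₁ a)) hy₂) ha i j' hj'
    rw [lc5_eqw (y₁ ^ a) y₂ h1 w hw]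
    refine lc5_tvpow _ (hy₁b i j' hj' fun he => ?_) a w hw
    exact hjj (eq_of_heq (Sigma.mk.inj he).2).symm
  -- one block
  have hone : ∀ i, Subsingleton (F i).J → ∀ j, (F i).W j = ⊤ := by
    intro i hs j
    rw [eq_top_iff, ← (F i).bs.sup]
    exact iSup_le fun j' => by rw [Subsingleton.elim j' j]
  have hsub : ∀ i, Subsingleton (F i).J → ∀ d : H, (∀ j ∈ Δ i, Tv (F i).ρ ((F i).W j) d) →
      ∀ x, (F i).ρ d x = x := by
    intro i hs d hd x
    obtain ⟨j, hj⟩ := hc.ne i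
    refine hd j hj x ?_
    rw [hone i hs j]
    exact Submodule.mem_top
  have hfai : ∀ c ∈ cm A r, FixL ρU l c → c = 1 := by
    intro c hcD hcl
    have h1 : ∀ i x, (F i).ρ c x = x := by
      intro i
      rcases subsingleton_or_nontrivial (F i).J with hs | hs
      · exact hsub i hs c fun j hj => hfl c hcD hcl i j hj
      · exact htwo i hs c hcD
    have h2 : ∀ v, ρV c⁻¹ v = v := by
      intro v
      rw [← sub_eq_zero]
      refine (Module.forall_dual_apply_eq_zero_iff (ZMod p) _).1 fun f => ?_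
      have h3 : f ∈ ⨆ i, LinearMap.range (em i) := by
        rw [h.sup]
        exact Submodule.mem_top
      refine Submodule.iSup_induction (fun i => LinearMap.range (em i))
        (motive := fun f => f (ρV c⁻¹ v - v) = 0) h3 ?_ ?_ ?_
      · rintro i _ ⟨x, rfl⟩
        rw [map_sub, ← h.eqv i c x v, h1 i x, sub_self]
      · rfl
      · intro f g hf hg
        rw [LinearMap.add_apply, hf, hg, add_zero]
    exact inv_eq_one.1 (h.ltg.fai _ h2)
  have hfai' : ∀ c ∈ cm A r, (∀ f ∈ Orb ρU A l, f ∘ₗ ρU c = f) → c = 1 := by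
    intro c hcD hf
    exact hfai c hcD fun u => LinearMap.congr_fun (hf l (lc5_mem l)) u
  have hcyc : IsCyclic (cm A r) := la_cyc h.ab l hl0 hli (cm A r) hDA hfai'
  refine ⟨Finset.univ.filter fun i => ∃ c ∈ cm A r, ∃ x, (F i).ρ c x ≠ x, ?_⟩
  have hI : ∀ i, i ∈ (Finset.univ.filter fun i => ∃ c ∈ cm A r, ∃ x, (F i).ρ c x ≠ x) ↔
      ∃ c ∈ cm A r, ∃ x, (F i).ρ c x ≠ x := by
    intro i
    rw [Finset.mem_filter]
    exact ⟨fun h1 => h1.2, fun h1 => ⟨Finset.mem_univ _, h1⟩⟩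
  have hsubI : ∀ i ∈ (Finset.univ.filter fun i => ∃ c ∈ cm A r, ∃ x, (F i).ρ c x ≠ x),
      Subsingleton (F i).J := by
    intro i hi
    obtain ⟨c, hcD, x, hx⟩ := (hI i).1 hi
    rcases subsingleton_or_nontrivial (F i).J with hs | hs
    · exact hs
    · exact absurd (htwo i hs c hcD x) hx
  refine ⟨hI, hsubI, ?_, hcyc, ?_, ?_, ?_, ⟨R, fun x hx => (hR x hx).1⟩, ?_⟩
  · intro i hi
    have hs := hsubI i hi
    obtain ⟨j, hj⟩ := hc.ne i
    obtain ⟨R', hR'⟩ := hb2 i j hj
    rcases hc.full i hs r hr R' j hR' with h1 | h1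
    · exfalso
      obtain ⟨c, hcD, x, hx⟩ := (hI i).1 hi
      apply hx
      have h2 : cm A r ≤ (MonoidHom.ker ((F i).ρ : H →* Module.End (ZMod p) (F i).X)) := by
        rw [ar_cm h.ab hAR R', Subgroup.commutator_le]
        intro a ha y hy
        rw [MonoidHom.mem_ker, commutatorElement_def]
        have h3 : (F i).ρ y = 1 := LinearMap.ext fun z => h1 R' y hy z
        have h4 : (F i).ρ y⁻¹ = 1 := LinearMap.ext fun z => h1 R' _ ((R' : Subgroup H).inv_mem hy) z
        rw [map_mul, map_mul, map_mul, h3, h4, mul_one, mul_one, ← map_mul, mul_inv_cancel, map_one]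
      have h3 := MonoidHom.mem_ker.1 (h2 hcD)
      have h4 := LinearMap.congr_fun h3 x
      exact h4
    · exact h1
  · intro c hcD u hu hcu
    have h1 := cycfixS ρU ⊤ (fun _ _ _ _ => Submodule.mem_top) (fun W₁ _ hW₁ => h.ltg.irr W₁ hW₁)
      (cm A r) hDn hcyc c hcD u Submodule.mem_top hu hcu
    exact hfai c hcD fun u' => by rw [h1 u' Submodule.mem_top]
  · intro x hx
    obtain ⟨y, hy, hyv⟩ := hb4 (fun i _ => x i) fun i _ => hx i
    refine ⟨y, hy, fun i hi z => ?_⟩
    have hs := hsubI i hi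
    exact hsub i hs _ (fun j hj => lc5_tv h hc _
      (A.mul_mem (A.inv_mem (hDA (hx i))) (hDA hy)) i j (hyv i j hj)) z
  · intro c hcD
    exact la_size h.ab l hl0 hli (cm A r) hDA hfai' c hcD
  · intro i hi R' y hy x
    refine h.triv r hr i (fun c hcD z => ?_) R' y hy x
    by_contra hne
    exact hi ((hI i).2 ⟨c, hcD, z, hne⟩)
-- END lc5

-- BEGIN lc6
private theorem lc6_eq (h : LS ρV ρU β A B F em) (v w : V)
    (hvw : ∀ j x, em j x v = em j x w) : v = w := by
  rw [← sub_eq_zero, ← Module.forall_dual_apply_eq_zero_iff (ZMod p)]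
  intro f
  have hf : f ∈ ⨆ j, LinearMap.range (em j) := h.sup ▸ Submodule.mem_top
  have hle : (⨆ j, LinearMap.range (em j)) ≤
      LinearMap.ker (LinearMap.applyₗ (v - w) : Module.Dual (ZMod p) V →ₗ[ZMod p] ZMod p) := by
    refine iSup_le fun j => ?_
    rintro _ ⟨x, rfl⟩
    rw [LinearMap.mem_ker, LinearMap.applyₗ_apply_apply, map_sub, sub_eq_zero]
    exact hvw j x
  exact LinearMap.mem_ker.1 (hle hf)

/-- An element of `H` fixes the vectors whose components it fixes. -/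
private theorem lc6_fix (h : LS ρV ρU β A B F em) (c : H) (v : V)
    (hc : ∀ j, (∀ x, em j x v = 0) ∨ ∀ x, (F j).ρ c x = x) : ρV c v = v := by
  refine lc6_eq h _ _ fun j x => ?_
  have h1 := h.eqv j c⁻¹ x v
  rw [inv_inv] at h1
  rw [← h1]
  rcases hc j with h2 | h2
  · rw [h2, h2]
  · have h3 : (F j).ρ c⁻¹ x = x := by
      conv_lhs => rw [← h2 x]
      rw [← Module.End.mul_apply, ← map_mul, inv_mul_cancel, map_one, Module.End.one_apply]
    rw [h3]

/-- `cm A r` fixes the elements of `Cs em I`. -/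
private theorem lc6_cs (h : LS ρV ρU β A B F em) {l : Module.Dual (ZMod p) U} {r : ℕ}
    {I : Finset (Fin n)} (ha : Anl ρU A F l r I) (c : H) (hc : c ∈ cm A r) (v : V)
    (hv : v ∈ Cs em I) : ρV c v = v := by
  refine lc6_fix h c v fun j => ?_
  by_cases hj : j ∈ I
  · exact Or.inl (hv j hj)
  · right
    intro x
    by_contra hx
    exact hj ((ha.hI j).2 ⟨c, hc, x, hx⟩)

/-- A nontrivial element of `cm A r` which is trivial on all the modules but one. -/
private theorem lc6_c {l : Module.Dual (ZMod p) U} {r : ℕ}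
    {I : Finset (Fin n)} (ha : Anl ρU A F l r I) (i : Fin n) (hi : i ∈ I) :
    ∃ y ∈ cm A r, y ≠ 1 ∧ ∀ j, j ≠ i → ∀ x, (F j).ρ y x = x := by
  classical
  obtain ⟨c, hc, x, hx⟩ := (ha.hI i).1 hi
  obtain ⟨y, hy, hy'⟩ := ha.srj (fun j => if j = i then c else 1) (fun j => by
    split_ifs
    · exact hc
    · exact Subgroup.one_mem _)
  refine ⟨y, hy, ?_, fun j hj z => ?_⟩
  · intro hy1
    apply hx
    have h1 := hy' i hi ((F i).ρ c x)
    rw [if_pos rfl, hy1, mul_one, ← Module.End.mul_apply, ← map_mul, inv_mul_cancel, map_one,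
      Module.End.one_apply] at h1
    exact h1.symm
  · by_cases hjI : j ∈ I
    · have h1 := hy' j hjI z
      rw [if_neg hj, inv_one, one_mul] at h1
      exact h1
    · by_contra hz
      exact hjI ((ha.hI j).2 ⟨y, hy, z, hz⟩)

private theorem lc6_zero (h : LS ρV ρU β A B F em) {l : Module.Dual (ZMod p) U} {r : ℕ}
    {I : Finset (Fin n)} (ha : Anl ρU A F l r I) (c : H) (hc : c ∈ cm A r) (hc1 : c ≠ 1)
    (v w : V) (hv : ρV c v = v) (hw : ρV c w = w) : β v w = 0 := by
  by_contra hne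
  apply hc1
  refine ha.fpf c hc _ hne ?_
  rw [← h.ltg.eqv, hv, hw]

private theorem lc6_vs (h : LS ρV ρU β A B F em) (c : H) (i : Fin n)
    (hc : ∀ x, (F i).ρ c x = x) (v : V) (hv : v ∈ Vs em i) : ρV c v = v := by
  refine lc6_fix h c v fun j => ?_
  by_cases hj : j = i
  · subst hj
    exact Or.inr hc
  · exact Or.inl (hv j hj)

/-- `β x = 0` if this holds on `Cs em I` and on the summands in `I`. -/
private theorem lc6_all (h : LS ρV ρU β A B F em) (I : Finset (Fin n)) (x : V)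
    (h1 : ∀ y ∈ Cs em I, β x y = 0) (h2 : ∀ i ∈ I, ∀ y ∈ Vs em i, β x y = 0) (y : V) :
    β x y = 0 := by
  obtain ⟨_, _, _, _, _, _, _, h8, _⟩ := vs_dec h
  have h3 : Cs em I ⊔ ⨆ i ∈ I, Vs em i ≤ LinearMap.ker (β x) :=
    sup_le (fun y hy => h1 y hy) (iSup₂_le fun i hi y hy => h2 i hi y hy)
  rw [h8 I] at h3
  exact h3 (Submodule.mem_top (x := y))

private theorem lc6_anti (h : LS ρV ρU β A B F em) (x y : V) : β x y = - β y x := by
  have h1 := h.ltg.alt (x + y)
  rw [map_add, map_add, LinearMap.add_apply, LinearMap.add_apply, h.ltg.alt, h.ltg.alt, zero_add,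
    add_zero] at h1
  rw [add_comm] at h1
  exact eq_neg_of_add_eq_zero_left h1

/-- (lc6, size 4) At most two summands. PROOF. `D = cm A r ≠ ⊥`. `D` is trivial on `Cs em I` (sum of the `Vs em i`, `i ∉ I`; `hI`), so it fixes `β (x, y)` for `x, y ∈ Cs em I`, so it is zero
(`fpf`). `I` is not empty. For `i ∈ I` the subgroup `D_i` of the elements of `D` which are trivial on `(F i').X` for all `i' ∈ I`, `i' ≠ i`, is not trivial (`srj`). If `i ≠ i' ∈ I`: `D_i'` is trivial on `Vs em i` and on `Cs em I`,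
so `β` is zero on `Vs em i × Vs em i` and on `Vs em i × Cs em I`. If there were a third `i'' ∈ I` then `D_i''` is trivial on `Vs em i` and `Vs em i'`, so `β` would be zero. -/
theorem ana_two (h : LS ρV ρU β A B F em) (l : Module.Dual (ZMod p) U) (r : ℕ)
    (hD : cm A r ≠ ⊥) (I : Finset (Fin n)) (ha : Anl ρU A F l r I) :
    (∀ x ∈ Cs em I, ∀ y ∈ Cs em I, β x y = 0) ∧
      ((∃ i, I = {i}) ∨ ∃ i i', i ≠ i' ∧ I = {i, i'} ∧
        (∀ x ∈ Vs em i, ∀ y ∈ Vs em i, β x y = 0) ∧ (∀ x ∈ Vs em i', ∀ y ∈ Vs em i', β x y = 0) ∧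
        ∀ x ∈ Cs em I, ∀ y, β x y = 0) := by
  classical
  obtain ⟨c, hc, hc1⟩ := (Subgroup.ne_bot_iff_exists_ne_one).1 hD |>.elim fun c hc =>
    (⟨c.1, c.2, fun h => hc (Subtype.ext h)⟩ : ∃ c : H, c ∈ cm A r ∧ c ≠ 1)
  have hCC : ∀ x ∈ Cs em I, ∀ y ∈ Cs em I, β x y = 0 := fun x hx y hy =>
    lc6_zero h ha c hc hc1 x y (lc6_cs h ha c hc x hx) (lc6_cs h ha c hc y hy)
  refine ⟨hCC, ?_⟩
  -- the facts for two different elements of `I`
  have hVV : ∀ i i', i ∈ I → i' ∈ I → i ≠ i' → ∀ x ∈ Vs em i, ∀ y ∈ Vs em i, β x y = 0 := by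
    intro i i' _ hi' hne x hx y hy
    obtain ⟨z, hz, hz1, hz2⟩ := lc6_c ha i' hi'
    exact lc6_zero h ha z hz hz1 x y (lc6_vs h z i (hz2 i hne) x hx)
      (lc6_vs h z i (hz2 i hne) y hy)
  have hVC : ∀ i i', i ∈ I → i' ∈ I → i ≠ i' → ∀ x ∈ Vs em i, ∀ y ∈ Cs em I, β x y = 0 := by
    intro i i' _ hi' hne x hx y hy
    obtain ⟨z, hz, hz1, hz2⟩ := lc6_c ha i' hi'
    exact lc6_zero h ha z hz hz1 x y (lc6_vs h z i (hz2 i hne) x hx) (lc6_cs h ha z hz y hy)
  have hVV' : ∀ i i' i'', i ∈ I → i' ∈ I → i'' ∈ I → i ≠ i'' → i' ≠ i'' →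
      ∀ x ∈ Vs em i, ∀ y ∈ Vs em i', β x y = 0 := by
    intro i i' i'' _ _ hi'' hne hne' x hx y hy
    obtain ⟨z, hz, hz1, hz2⟩ := lc6_c ha i'' hi''
    exact lc6_zero h ha z hz hz1 x y (lc6_vs h z i (hz2 i hne) x hx)
      (lc6_vs h z i' (hz2 i' hne') y hy)
  have hz0 : (∀ x ∈ Cs em I, ∀ y, β x y = 0) →
      (∀ i ∈ I, ∀ x ∈ Vs em i, ∀ i' ∈ I, ∀ y ∈ Vs em i', β x y = 0) → False := by
    intro h1 h2
    refine h.ltg.ne (LinearMap.ext fun y => LinearMap.ext fun x => ?_)
    rw [LinearMap.zero_apply, LinearMap.zero_apply]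
    have h3 : ∀ x ∈ Cs em I, β y x = 0 := by
      intro x hx
      rw [lc6_anti h, h1 x hx y, neg_zero]
    refine lc6_all h I y h3 (fun i hi x hx => ?_) x
    rw [lc6_anti h]
    rw [lc6_all h I x (fun z hz => ?_) (fun i' hi' z hz => h2 i hi x hx i' hi' z hz) y, neg_zero]
    rw [lc6_anti h, h1 z hz x, neg_zero]
  rcases I.eq_empty_or_nonempty with hI0 | ⟨i, hi⟩
  · exfalso
    subst hI0
    have h1 : ∀ x, x ∈ Cs em (∅ : Finset (Fin n)) := fun x i hi => absurd hi (Finset.notMem_empty i)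
    exact h.ltg.ne (LinearMap.ext fun y => LinearMap.ext fun x => hCC y (h1 y) x (h1 x))
  by_cases h1 : ∃ i' ∈ I, i' ≠ i
  · obtain ⟨i', hi', hne⟩ := h1
    have hne' : i ≠ i' := fun h => hne h.symm
    have hC0 : ∀ x ∈ Cs em I, ∀ y, β x y = 0 := by
      intro x hx y
      refine lc6_all h I x (fun z hz => hCC x hx z hz) (fun j hj z hz => ?_) y
      rw [lc6_anti h]
      by_cases hji : j = i
      · rw [hVC j i' hj hi' (by rw [hji]; exact hne') z hz x hx, neg_zero]
      · rw [hVC j i hj hi hji z hz x hx, neg_zero]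
    right
    refine ⟨i, i', hne', ?_, hVV i i' hi hi' hne', hVV i' i hi' hi hne, hC0⟩
    by_contra hI
    have h2 : ∃ i'' ∈ I, i'' ≠ i ∧ i'' ≠ i' := by
      by_contra hcon
      push Not at hcon
      apply hI
      ext j
      rw [Finset.mem_insert, Finset.mem_singleton]
      constructor
      · intro hj
        by_cases hji : j = i
        · exact Or.inl hji
        · exact Or.inr (hcon j hj hji)
      · rintro (rfl | rfl)
        · exact hi
        · exact hi'
    obtain ⟨i'', hi'', h3, h4⟩ := h2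
    refine hz0 hC0 fun a haI x hx b hbI y hy => ?_
    -- some element of `I` is different from `a` and `b`
    have h5 : ∃ d ∈ I, a ≠ d ∧ b ≠ d := by
      by_cases e1 : a = i ∨ b = i
      · by_cases e2 : a = i' ∨ b = i'
        · refine ⟨i'', hi'', ?_, ?_⟩
          · rcases e1 with rfl | rfl
            · exact fun h => h3 h.symm
            · rcases e2 with rfl | e2
              · exact fun h => h4 h.symm
              · exact absurd e2 hne'
          · rcases e1 with rfl | rfl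
            · rcases e2 with e2 | rfl
              · exact absurd e2 hne'
              · exact fun h => h4 h.symm
            · exact fun h => h3 h.symm
        · push Not at e2
          exact ⟨i', hi', e2.1, e2.2⟩
      · push Not at e1
        exact ⟨i, hi, e1.1, e1.2⟩
    obtain ⟨d, hd, hda, hdb⟩ := h5
    exact hVV' a b d haI hbI hd hda hdb x hx y hy
  · left
    push Not at h1
    refine ⟨i, Finset.eq_singleton_iff_unique_mem.2 ⟨hi, fun j hj => h1 j hj⟩⟩
-- END lc6

-- BEGIN lc7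
private theorem lc7_size (hA : Ab A) (N : Subgroup H)
    (hNA : N ≤ A) (l : Module.Dual (ZMod p) U) (hl : l ≠ 0)
    (W : Submodule (ZMod p) V) (hW : Ivt ρV ⊤ W)
    (hWne : W ≠ ⊥) (hfull : ∀ W' ≤ W, Ivt ρV N W' → W' = ⊥ ∨ W' = W)
    (hsize : ∀ c ∈ N, c ^ Nat.card (Orb ρU N l) = c) :
    Module.finrank (ZMod p) W ≤ Module.finrank (ZMod p) (Orb ρU N l) := by
  have hdf : Finite (Module.Dual (ZMod p) U) :=
    Finite.of_injective (fun l : Module.Dual (ZMod p) U => (l : U → ZMod p))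
      DFunLike.coe_injective
  have hWn : Nontrivial W := Submodule.nontrivial_iff_ne_bot.2 hWne
  have hlM : l ∈ Orb ρU N l := Submodule.subset_span ⟨1, N.one_mem, by rw [map_one]; rfl⟩
  have hMn : Nontrivial (Orb ρU N l) :=
    ⟨⟨l, hlM⟩, 0, fun h1 => hl (congrArg Subtype.val h1)⟩
  have hc1 : Nat.card (Orb ρU N l) = p ^ Module.finrank (ZMod p) (Orb ρU N l) := by
    rw [Module.natCard_eq_pow_finrank (K := ZMod p), Nat.card_zmod]
  have hc2 : Nat.card W = p ^ Module.finrank (ZMod p) W := by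
    rw [Module.natCard_eq_pow_finrank (K := ZMod p), Nat.card_zmod]
  have hf : 0 < Module.finrank (ZMod p) (Orb ρU N l) := Module.finrank_pos
  have h1 : Nat.card W ≤ Nat.card (Orb ρU N l) := by
    refine sizeW (p := p) ((rs ρV W hW).comp N.subtype) ?_ ?_ _ _ hf hc1 ?_
    · intro a b y
      have h2 : (a : H) * b = b * a := hA.com a (hNA a.2) b (hNA b.2)
      refine Subtype.ext ?_
      show ρV (a : H) (ρV (b : H) (y : V)) = ρV (b : H) (ρV (a : H) (y : V))
      rw [← Module.End.mul_apply, ← map_mul, h2, map_mul, Module.End.mul_apply]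
    · intro W' hW'
      have h2 : W'.map W.subtype ≤ W := by
        rintro _ ⟨x, _, rfl⟩
        exact x.2
      have h3 : Ivt ρV N (W'.map W.subtype) := by
        rintro n hn _ ⟨x, hx, rfl⟩
        exact ⟨_, hW' ⟨n, hn⟩ (Subgroup.mem_top _) x hx, rfl⟩
      rcases hfull _ h2 h3 with h4 | h4
      · left
        refine (Submodule.eq_bot_iff W').2 fun x hx => Subtype.ext ?_
        have h5 : (x : V) ∈ W'.map W.subtype := ⟨x, hx, rfl⟩
        rw [h4] at h5
        exact h5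
      · right
        refine Submodule.eq_top_iff'.2 fun x => ?_
        have h5 : (x : V) ∈ W'.map W.subtype := by
          rw [h4]
          exact x.2
        obtain ⟨y, hy, hyx⟩ := h5
        have h6 : y = x := Subtype.ext hyx
        rw [← h6]
        exact hy
    · intro n w
      have h2 : n ^ Nat.card (Orb ρU N l) = n := Subtype.ext (hsize n n.2)
      rw [h2]
  rw [hc1, hc2] at h1
  exact (Nat.pow_le_pow_iff_right (Fact.out : p.Prime).one_lt).1 h1

private theorem lc7_ker (β : V →ₗ[ZMod p] V →ₗ[ZMod p] U)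
    (M : Submodule (ZMod p) (Module.Dual (ZMod p) U))
    (W : Submodule (ZMod p) V) (w : V) (hw : w ∈ W) (hw0 : w ≠ 0) (halt : β w w = 0)
    (hle : Module.finrank (ZMod p) W ≤ Module.finrank (ZMod p) M) :
    ∃ m ∈ M, m ≠ 0 ∧ ∀ x ∈ W, m (β w x) = 0 := by
  have hdf : Finite (Module.Dual (ZMod p) U) :=
    Finite.of_injective (fun l : Module.Dual (ZMod p) U => (l : U → ZMod p))
      DFunLike.coe_injective
  let Φ : M →ₗ[ZMod p] Module.Dual (ZMod p) W :=
    { toFun := fun m => ((m : Module.Dual (ZMod p) U) ∘ₗ β w) ∘ₗ W.subtype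
      map_add' := fun a b => rfl
      map_smul' := fun a b => rfl }
  have hΦ : ∀ (m : M) (x : W), Φ m x = (m : Module.Dual (ZMod p) U) (β w x) := fun _ _ => rfl
  by_cases hinj : Function.Injective Φ
  · exfalso
    have h1 := LinearMap.finrank_range_of_inj hinj
    have h2 : LinearMap.range Φ ≠ ⊤ := by
      intro h3
      have h4 : (⟨w, hw⟩ : W) = 0 := by
        rw [← Module.forall_dual_apply_eq_zero_iff (ZMod p)]
        intro φ
        have h5 : φ ∈ LinearMap.range Φ := by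
          rw [h3]
          exact Submodule.mem_top
        obtain ⟨m, rfl⟩ := h5
        rw [hΦ, halt, map_zero]
      exact hw0 (congrArg Subtype.val h4)
    have h3 := Submodule.finrank_lt h2
    rw [h1, Subspace.dual_finrank_eq] at h3
    exact absurd hle (not_le.2 h3)
  · rw [injective_iff_map_eq_zero] at hinj
    push Not at hinj
    obtain ⟨m, hm, hm0⟩ := hinj
    refine ⟨m, m.2, fun h => hm0 (Subtype.ext h), fun x hx => ?_⟩
    have h1 := hΦ m ⟨x, hx⟩
    rw [hm] at h1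
    exact h1.symm

/-- (lc7, size 3) Case A. PROOF. `W = Vs em i`, `V₀ = Cs em {i}`, `N = cm A r`: `FullS ρV W N` (`vs_full`), `J1c`: `β (W, V₀) = 0`, with `ana_two`: `β (V₀, V) = 0`. As in the proof of `J1` (private lemmas `xg_size`,
`xg_ker` of Nan/Ex.lean, copy them): `finrank W ≤ finrank (Orb ρU N l)` by `size`, and for `0 ≠ w ∈ W` there is `l' ∈ Orb ρU N l`, `l' ≠ 0`, with `l' (β w x) = 0` for all `x ∈ W`; so
`w ∈ Rad β l'`. -/
theorem case_A (h : LS ρV ρU β A B F em) (l : Module.Dual (ZMod p) U) (hl0 : l ≠ 0) (r : ℕ)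
    (hr : r ∈ B) (hD : cm A r ≠ ⊥) (i : Fin n) (ha : Anl ρU A F l r {i})
    (hne : ∃ x ∈ Vs em i, ∃ y ∈ Vs em i, β x y ≠ 0) :
    (∀ x ∈ Cs em {i}, ∀ y, β x y = 0) ∧ ∃ l' : Module.Dual (ZMod p) U, l' ≠ 0 ∧
      ∃ w ∈ Vs em i, w ≠ 0 ∧ w ∈ Rad β l' := by
  classical
  obtain ⟨v1, _, _, v4, _, _, v7, v8, _, v10⟩ := vs_dec h
  have hiI : i ∈ ({i} : Finset (Fin n)) := Finset.mem_singleton_self i
  have hanti : ∀ x y, β x y = - β y x := by
    intro x y
    have h1 := h.ltg.alt (x + y)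
    rw [map_add, map_add, LinearMap.add_apply, LinearMap.add_apply, h.ltg.alt, h.ltg.alt,
      zero_add, add_zero] at h1
    rw [add_comm] at h1
    exact eq_neg_of_add_eq_zero_left h1
  have hNA := cm_le h.ab r
  have hWne : Vs em i ≠ ⊥ := by
    obtain ⟨x, hx, y, hy, hxy⟩ := hne
    intro h0
    rw [h0, Submodule.mem_bot] at hx
    exact hxy (by rw [hx, map_zero, LinearMap.zero_apply])
  have hfull : FullS ρV (Vs em i) (cm A r) := (vs_full h i (cm A r)).2 (ha.full i hiI)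
  have hN0 : ∀ c ∈ cm A r, ∀ v ∈ Cs em {i}, ρV c v = v := by
    intro c hc v hv
    -- all functionals agree
    have key : ∀ j x, em j x (ρV c v) = em j x v := by
      intro j x
      have h1 := h.eqv j c⁻¹ x v
      rw [inv_inv] at h1
      rw [← h1]
      by_cases hj : j = i
      · subst hj
        rw [hv j hiI, hv j hiI]
      · have h3 : (F j).ρ c⁻¹ x = x := by
          by_contra h4
          exact hj (Finset.mem_singleton.1 ((ha.hI j).2 ⟨c⁻¹, Subgroup.inv_mem _ hc, x, h4⟩))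
        rw [h3]
    rw [← sub_eq_zero, ← Module.forall_dual_apply_eq_zero_iff (ZMod p)]
    intro f
    have hf : f ∈ ⨆ j, LinearMap.range (em j) := h.sup ▸ Submodule.mem_top
    have hle : (⨆ j, LinearMap.range (em j)) ≤ LinearMap.ker
        (LinearMap.applyₗ (ρV c v - v) : Module.Dual (ZMod p) V →ₗ[ZMod p] ZMod p) := by
      refine iSup_le fun j => ?_
      rintro _ ⟨x, rfl⟩
      rw [LinearMap.mem_ker, LinearMap.applyₗ_apply_apply, map_sub, sub_eq_zero]
      exact key j x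
    exact LinearMap.mem_ker.1 (hle hf)
  have hW0 := J1c h.ltg h.ab (cm A r) hNA (Cs em {i}) (Vs em i) (v10 {i}) (v1 i) hWne hN0 hfull
    hne
  have h00 := (ana_two h l r hD {i} ha).1
  have hdec : ∀ x : V, ∃ a ∈ Cs em {i}, ∃ b ∈ Vs em i, a + b = x := by
    intro x
    have h1 : x ∈ Cs em {i} ⊔ ⨆ j ∈ ({i} : Finset (Fin n)), Vs em j := by
      rw [v8 {i}]
      exact Submodule.mem_top
    have h2 : (⨆ j ∈ ({i} : Finset (Fin n)), Vs em j) = Vs em i := by
      simp
    rw [h2] at h1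
    exact Submodule.mem_sup.1 h1
  refine ⟨?_, ?_⟩
  · intro x hx y
    obtain ⟨a, ha', b, hb, rfl⟩ := hdec y
    rw [map_add, h00 x hx a ha', hanti x b, hW0 b hb x hx, neg_zero, add_zero]
  · obtain ⟨w, hw, hw0⟩ := (Vs em i).ne_bot_iff.1 hWne
    obtain ⟨m, _, hm0, hmW⟩ := lc7_ker β (Orb ρU (cm A r) l) (Vs em i) w hw hw0 (h.ltg.alt w)
      (lc7_size h.ab (cm A r) hNA l hl0 (Vs em i) (v1 i) hWne hfull.1 ha.size)
    refine ⟨m, hm0, w, hw, hw0, ?_⟩
    rw [mem_Rad]
    intro x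
    obtain ⟨a, ha', b, hb, rfl⟩ := hdec x
    rw [map_add, hW0 w hw a ha', zero_add]
    exact hmW b hb
-- END lc7

-- BEGIN lc8
private theorem lc8_dvd {p m t c d : ℕ} (hp : 1 < p) (hm : 0 < m) (ht : 3 ≤ t) (hd0 : 0 < d)
    (h : c * (p ^ m - 1) = p ^ (m * t) - 1) (hd : c ∣ p ^ d - 1) : m * t ∣ d := by
  obtain ⟨s, rfl⟩ : ∃ s, t = s + 1 := ⟨t - 1, by omega⟩
  have hc : c ∣ p ^ (m * (s + 1)) - 1 := h ▸ Dvd.intro _ rfl
  have hg0 : 0 < Nat.gcd (m * (s + 1)) d := Nat.gcd_pos_of_pos_right _ hd0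
  have hcg : c ∣ p ^ Nat.gcd (m * (s + 1)) d - 1 := by
    rw [← Nat.pow_sub_one_gcd_pow_sub_one]
    exact Nat.dvd_gcd hc hd
  set g := Nat.gcd (m * (s + 1)) d with hg
  have hpg : 1 < p ^ g := Nat.one_lt_pow hg0.ne' hp
  have hle : c ≤ p ^ g - 1 := Nat.le_of_dvd (by omega) hcg
  have hcp : p ^ (m * s) < c := by
    by_contra hcon
    push Not at hcon
    have hpm : 1 < p ^ m := Nat.one_lt_pow hm.ne' hp
    have h1 : c * (p ^ m - 1) ≤ p ^ (m * s) * (p ^ m - 1) := Nat.mul_le_mul_right _ hcon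
    have h2 : p ^ (m * s) * (p ^ m - 1) = p ^ (m * (s + 1)) - p ^ (m * s) := by
      rw [Nat.mul_sub, mul_one, ← pow_add, mul_add, mul_one]
    have h3 : 1 < p ^ (m * s) := Nat.one_lt_pow (by
      have : 0 < m * s := Nat.mul_pos hm (by omega)
      omega) hp
    have h4 : p ^ (m * s) ≤ p ^ (m * (s + 1)) :=
      Nat.pow_le_pow_right (by omega) (Nat.mul_le_mul_left _ (by omega))
    omega
  have h5 : p ^ (m * s) < p ^ g := by omega
  have h6 : m * s < g := (Nat.pow_lt_pow_iff_right hp).1 h5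
  obtain ⟨k, hk⟩ : g ∣ m * (s + 1) := Nat.gcd_dvd_left _ _
  have hk1 : k = 1 := by
    have hms : 0 < m * (s + 1) := Nat.mul_pos hm (by omega)
    rcases Nat.lt_or_ge k 2 with h7 | h7
    · interval_cases k
      · omega
      · rfl
    · exfalso
      have h8 : g * 2 ≤ g * k := Nat.mul_le_mul_left _ h7
      have h9 : m * (s + 1) = m * s + m := by ring
      have h10 : m * 2 ≤ m * s := Nat.mul_le_mul_left _ (by omega)
      omega
  rw [hk1, mul_one] at hk
  rw [hk]
  exact Nat.gcd_dvd_right _ _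

private theorem lc8_num {p m₁ t₁ m₂ t₂ c₁ c₂ u : ℕ} (hp : 1 < p) (hm₁ : 0 < m₁) (ht₁ : 3 ≤ t₁)
    (hm₂ : 0 < m₂) (ht₂ : 3 ≤ t₂) (hu : 0 < u) (h₁ : c₁ * (p ^ m₁ - 1) = p ^ (m₁ * t₁) - 1)
    (h₂ : c₂ * (p ^ m₂ - 1) = p ^ (m₂ * t₂) - 1) (hcop : c₁.Coprime c₂) (hc₁ : c₁ ∣ p ^ u - 1)
    (hc₂ : c₂ ∣ p ^ u - 1) (hle : ¬ (p ^ (m₁ * t₁)) ^ 3 ≤ p ^ (m₂ * t₂)) :
    p ^ (m₂ * t₂) < p ^ u := by
  by_contra hcon
  push Not at hcon
  have h1 : u ≤ m₂ * t₂ := (Nat.pow_le_pow_iff_right hp).1 hcon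
  have h2 : m₂ * t₂ ∣ u := lc8_dvd hp hm₂ ht₂ hu h₂ hc₂
  have h3 : u = m₂ * t₂ := le_antisymm h1 (Nat.le_of_dvd hu h2)
  rw [h3, ← h₂] at hc₁
  have h4 : c₁ ∣ p ^ m₂ - 1 := hcop.dvd_of_dvd_mul_left hc₁
  have h5 : m₁ * t₁ ∣ m₂ := lc8_dvd hp hm₁ ht₁ hm₂ h₁ h4
  have h6 : m₁ * t₁ ≤ m₂ := Nat.le_of_dvd hm₂ h5
  apply hle
  rw [← pow_mul]
  refine Nat.pow_le_pow_right (by omega) ?_
  calc m₁ * t₁ * 3 ≤ m₂ * 3 := Nat.mul_le_mul_right _ h6
    _ ≤ m₂ * t₂ := Nat.mul_le_mul_left _ ht₂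

/-- Two subgroups of a finite cyclic group which intersect trivially have coprime orders. -/
private theorem lc8_cop {D : Type} [Group D] [Finite D] (hD : IsCyclic D) (K₁ K₂ : Subgroup D)
    (hd : K₁ ⊓ K₂ = ⊥) : (Nat.card K₁).Coprime (Nat.card K₂) := by
  classical
  have : Fintype D := Fintype.ofFinite D
  refine Nat.coprime_of_dvd fun q hq h1 h2 => ?_
  have : Fact q.Prime := ⟨hq⟩
  obtain ⟨a, ha⟩ := exists_prime_orderOf_dvd_card' (G := K₁) q h1
  obtain ⟨b, hb⟩ := exists_prime_orderOf_dvd_card' (G := K₂) q h2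
  have ha' : orderOf (a : D) = q := by rw [Subgroup.orderOf_coe, ha]
  have hb' : orderOf (b : D) = q := by rw [Subgroup.orderOf_coe, hb]
  have hle := IsCyclic.card_pow_eq_one_le (α := D) hq.pos
  have hsub : ∀ x : D, orderOf x = q → (Subgroup.zpowers x : Set D) ⊆
      (Finset.univ.filter fun y : D => y ^ q = 1 : Finset D) := by
    intro x hx y hy
    obtain ⟨k, rfl⟩ := Subgroup.mem_zpowers_iff.1 hy
    rw [Finset.coe_filter]
    refine ⟨Finset.mem_univ _, ?_⟩
    rw [← zpow_natCast, zpow_comm, zpow_natCast, ← hx, pow_orderOf_eq_one, one_zpow]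
  have heq : ∀ x : D, orderOf x = q → (Subgroup.zpowers x : Set D) =
      (Finset.univ.filter fun y : D => y ^ q = 1 : Finset D) := by
    intro x hx
    refine Set.eq_of_subset_of_ncard_le (hsub x hx) ?_ (Finset.finite_toSet _)
    rw [Set.ncard_coe_finset]
    refine hle.trans ?_
    have h3 : (Subgroup.zpowers x : Set D).ncard = Nat.card (Subgroup.zpowers x) := rfl
    rw [h3, Nat.card_zpowers, hx]
  have h4 : (Subgroup.zpowers (a : D) : Set D) = (Subgroup.zpowers (b : D) : Set D) := by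
    rw [heq _ ha', heq _ hb']
  have h5 : (a : D) ∈ Subgroup.zpowers (b : D) := by
    have h6 : (a : D) ∈ (Subgroup.zpowers (a : D) : Set D) := Subgroup.mem_zpowers _
    rw [h4] at h6
    exact h6
  have h7 : (a : D) ∈ K₁ ⊓ K₂ := by
    refine ⟨a.2, ?_⟩
    exact (Subgroup.zpowers_le.2 b.2) h5
  rw [hd, Subgroup.mem_bot] at h7
  rw [h7, orderOf_one] at ha'
  exact hq.one_lt.ne ha'

private theorem lc8_card {D : Type} [Group D] [Finite D] (K₁ K₂ : Subgroup D)
    (hd : K₁ ⊓ K₂ = ⊥) (hs : ∀ d : D, ∃ y ∈ K₁, d⁻¹ * y ∈ K₂) :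
    Nat.card K₁ * Nat.card K₂ = Nat.card D := by
  refine (Subgroup.isComplement'_of_disjoint_and_mul_eq_univ (disjoint_iff.2 hd) ?_).card_mul_card
  refine Set.eq_univ_of_forall fun d => ?_
  obtain ⟨y, hy, h⟩ := hs d
  refine ⟨y, hy, (d⁻¹ * y)⁻¹, K₂.inv_mem h, ?_⟩
  show y * (d⁻¹ * y)⁻¹ = d
  group

/-- A free action: the order of the group divides the number of the points. -/
private theorem lc8_free {D X : Type} [Group D] [Finite D] [MulAction D X] [Finite X]
    (h : ∀ (d : D) (x : X), d • x = x → d = 1) : Nat.card D ∣ Nat.card X := by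
  have h0 : ∀ b : X, MulAction.stabilizer D b = ⊥ := by
    intro b
    rw [Subgroup.eq_bot_iff_forall]
    intro d hd
    exact h d b hd
  have e := MulAction.selfEquivOrbitsQuotientProd h0
  rw [Nat.card_congr e, Nat.card_prod]
  exact Dvd.intro_left _ rfl

/-- The elements of `D` which are trivial on the `j`-th module. -/
private def lc8_K (F : Fin n → Fam p H) (D : Subgroup H) (j : Fin n) : Subgroup D where
  carrier := {c | ∀ x : (F j).X, (F j).ρ (c : H) x = x}
  one_mem' := by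
    intro x
    rw [Subgroup.coe_one, map_one]
    rfl
  mul_mem' := by
    intro a b ha hb x
    rw [Subgroup.coe_mul, map_mul, Module.End.mul_apply, hb x, ha x]
  inv_mem' := by
    intro a ha x
    rw [Subgroup.coe_inv]
    conv_lhs => rw [← ha x]
    rw [← Module.End.mul_apply, ← map_mul, inv_mul_cancel, map_one, Module.End.one_apply]

private theorem lc8_one (h : LS ρV ρU β A B F em) (c : H)
    (hc : ∀ j, ∀ x : (F j).X, (F j).ρ c x = x) : c = 1 := by
  refine h.ltg.fai c fun v => ?_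
  rw [← sub_eq_zero, ← Module.forall_dual_apply_eq_zero_iff (ZMod p)]
  intro f
  have hf : f ∈ ⨆ j, LinearMap.range (em j) := h.sup ▸ Submodule.mem_top
  have hle : (⨆ j, LinearMap.range (em j)) ≤
      LinearMap.ker (LinearMap.applyₗ (ρV c v - v) : Module.Dual (ZMod p) V →ₗ[ZMod p] ZMod p) := by
    refine iSup_le fun j => ?_
    rintro _ ⟨x, rfl⟩
    rw [LinearMap.mem_ker, LinearMap.applyₗ_apply_apply, map_sub, sub_eq_zero]
    have h1 := h.eqv j c⁻¹ x v
    rw [inv_inv] at h1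
    rw [← h1]
    have h2 : (F j).ρ c⁻¹ x = x := by
      conv_lhs => rw [← hc j x]
      rw [← Module.End.mul_apply, ← map_mul, inv_mul_cancel, map_one, Module.End.one_apply]
    rw [h2]
  exact LinearMap.mem_ker.1 (hle hf)

private theorem lc8_div (ρU : Representation (ZMod p) H U) (D : Subgroup H)
    (hfpf : ∀ c ∈ D, ∀ u : U, u ≠ 0 → ρU c u = u → c = 1) :
    Nat.card D ∣ Nat.card U - 1 := by
  classical
  have hcard : Nat.card {u : U // u ≠ 0} = Nat.card U - 1 := by
    have := Fintype.ofFinite U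
    rw [Nat.card_eq_fintype_card, Nat.card_eq_fintype_card, Fintype.card_subtype_compl,
      Fintype.card_subtype_eq]
  let act : MulAction D {u : U // u ≠ 0} :=
    { smul := fun c u => ⟨ρU (c : H) u.1, fun h0 => u.2 (by
        have h1 : ρU (c : H)⁻¹ (ρU (c : H) u.1) = u.1 := by
          rw [← Module.End.mul_apply, ← map_mul, inv_mul_cancel, map_one, Module.End.one_apply]
        rw [← h1, h0, map_zero])⟩
      one_smul := fun u => Subtype.ext (by
        change ρU ((1 : D) : H) u.1 = u.1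
        rw [Subgroup.coe_one, map_one]
        rfl)
      mul_smul := fun a b u => Subtype.ext (by
        change ρU ((a * b : D) : H) u.1 = ρU (a : H) (ρU (b : H) u.1)
        rw [Subgroup.coe_mul, map_mul]
        rfl) }
  rw [← hcard]
  refine lc8_free fun d x hx => ?_
  have h1 : ρU (d : H) x.1 = x.1 := congrArg Subtype.val hx
  exact Subtype.ext (hfpf d d.2 x.1 x.2 h1)

/-- (lc8, size 4) Case B, numbers. PROOF. `c₁`, `c₂` = orders of the images of the cyclic group `D = cm A r` on the two modules: `c_i (p ^ m_i - 1) = p ^ n_i - 1`, `n_i = m_i t_i`, `t_i ≥ 3` (`Full`), `card X_i = p ^ n_i`;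
`card D = c₁ c₂` (faithful, `srj`), coprime (cyclic). `D` acts on `U` without fixed points, `card U = p ^ u`: `c₁ c₂ ∣ p ^ u - 1`, `u > 0`. Suppose `u ≤ n₂`. `c₂ ∣ p ^ gcd(u, n₂) - 1` (`Nat.pow_sub_one_gcd_pow_sub_one`), `c₂ > p ^ (n₂ - m₂)`,
so `gcd(u, n₂) > 2 n₂ / 3`, so it is `n₂`, and `u = n₂`. `c₁` is coprime to `c₂` and divides `c₂ (p ^ m₂ - 1)`, so `c₁ ∣ p ^ m₂ - 1`, `c₁ ∣ p ^ gcd(n₁, m₂) - 1`, so `gcd(n₁, m₂) = n₁`, `n₁ ≤ m₂ ≤ n₂ / 3`. -/
theorem case_Bn (h : LS ρV ρU β A B F em) (l : Module.Dual (ZMod p) U) (r : ℕ) (i i' : Fin n)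
    (hi : i ≠ i') (ha : Anl ρU A F l r {i, i'})
    (hle : ¬ Nat.card (F i).X ^ 3 ≤ Nat.card (F i').X) :
    Nat.card (F i').X < Nat.card U := by
  classical
  have hp : p.Prime := Fact.out
  obtain ⟨_, m₁, t₁, hm₁, ht₁, hX₁, hF₁⟩ := ha.full i (by simp)
  obtain ⟨_, m₂, t₂, hm₂, ht₂, hX₂, hF₂⟩ := ha.full i' (by simp)
  have hcyc := ha.cyc
  have hfpf := ha.fpf
  have hI := ha.hI
  have hsrj := ha.srj
  generalize cm A r = D at hF₁ hF₂ hcyc hfpf hI hsrj
  change Nat.card D * (p ^ m₁ - 1) = Nat.card (lc8_K F D i) * (p ^ (m₁ * t₁) - 1) at hF₁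
  change Nat.card D * (p ^ m₂ - 1) = Nat.card (lc8_K F D i') * (p ^ (m₂ * t₂) - 1) at hF₂
  have hinf : lc8_K F D i ⊓ lc8_K F D i' = ⊥ := by
    rw [Subgroup.eq_bot_iff_forall]
    rintro c ⟨hc, hc'⟩
    refine Subtype.ext (lc8_one h c fun j x => ?_)
    by_cases hj : j ∈ ({i, i'} : Finset (Fin n))
    · rw [Finset.mem_insert, Finset.mem_singleton] at hj
      rcases hj with rfl | rfl
      · exact hc x
      · exact hc' x
    · by_contra hx
      exact hj ((hI j).2 ⟨c, c.2, x, hx⟩)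
  have hsur : ∀ d : D, ∃ y ∈ lc8_K F D i, d⁻¹ * y ∈ lc8_K F D i' := by
    intro d
    obtain ⟨y, hy, hy'⟩ := hsrj (fun j => if j = i' then (d : H) else 1) (fun j => by
      split_ifs
      · exact d.2
      · exact D.one_mem)
    refine ⟨⟨y, hy⟩, fun x => ?_, fun x => ?_⟩
    · have h1 := hy' i (by simp) x
      rw [if_neg hi, inv_one, one_mul] at h1
      exact h1
    · have h1 := hy' i' (by simp) x
      rw [if_pos rfl] at h1
      exact h1
  have hcard := lc8_card _ _ hinf hsur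
  have hcop := lc8_cop hcyc _ _ hinf
  have hpos₁ : 0 < Nat.card (lc8_K F D i) := Nat.card_pos
  have hpos₂ : 0 < Nat.card (lc8_K F D i') := Nat.card_pos
  have hdiv := lc8_div ρU D hfpf
  have hUn : Nontrivial U := by
    by_contra hcon
    rw [not_nontrivial_iff_subsingleton] at hcon
    exact h.ltg.ne (LinearMap.ext fun v => LinearMap.ext fun w => Subsingleton.elim _ _)
  have hUc : Nat.card U = p ^ Module.finrank (ZMod p) U := by
    rw [Module.natCard_eq_pow_finrank (K := ZMod p), Nat.card_zmod]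
  have hu : 0 < Module.finrank (ZMod p) U := Module.finrank_pos
  rw [hUc] at hdiv ⊢
  rw [hX₂]
  rw [hX₁, hX₂] at hle
  refine lc8_num hp.one_lt hm₁ ht₁ hm₂ ht₂ hu (c₁ := Nat.card (lc8_K F D i'))
    (c₂ := Nat.card (lc8_K F D i)) ?_ ?_ hcop.symm ?_ ?_ hle
  · refine Nat.eq_of_mul_eq_mul_left hpos₁ ?_
    rw [← mul_assoc, hcard, hF₁]
  · refine Nat.eq_of_mul_eq_mul_left hpos₂ ?_
    rw [← mul_assoc, mul_comm (Nat.card (lc8_K F D i')), hcard, hF₂]
  · exact (Dvd.intro_left _ hcard).trans hdiv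
  · exact (Dvd.intro _ hcard).trans hdiv
-- END lc8

-- BEGIN lc9
private theorem lc9_fr {W : Type} [AddCommGroup W] [Module (ZMod p) W] [Finite W] :
    Nat.card W = p ^ Module.finrank (ZMod p) W := by
  haveI : Module.Finite (ZMod p) W := Module.Finite.of_finite
  have := Module.natCard_eq_pow_finrank (K := ZMod p) (V := W)
  rw [this, Nat.card_zmod]

private theorem lc9_dec (h : LS ρV ρU β A B F em) (i i' : Fin n) (v : V) :
    ∃ c ∈ Cs em {i, i'}, ∃ a ∈ Vs em i, ∃ b ∈ Vs em i', v = c + a + b := by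
  obtain ⟨-, -, -, -, -, -, -, hs, -, -⟩ := vs_dec h
  have h0 : v ∈ Cs em {i, i'} ⊔ ⨆ k ∈ ({i, i'} : Finset (Fin n)), Vs em k := by
    rw [hs]; trivial
  rw [Submodule.mem_sup] at h0
  obtain ⟨c, hc, w, hw, hcw⟩ := h0
  have h1 : (⨆ k ∈ ({i, i'} : Finset (Fin n)), Vs em k) ≤ Vs em i ⊔ Vs em i' := by
    refine iSup₂_le fun k hk => ?_
    rw [Finset.mem_insert, Finset.mem_singleton] at hk
    rcases hk with rfl | rfl
    · exact le_sup_left
    · exact le_sup_right
  have h2 := h1 hw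
  rw [Submodule.mem_sup] at h2
  obtain ⟨a, ha, b, hb, hab⟩ := h2
  exact ⟨c, hc, a, ha, b, hb, by rw [← hcw, ← hab, add_assoc]⟩

private theorem lc9_sw (h : LS ρV ρU β A B F em) (x y : V) : β x y = - β y x := by
  have h1 := h.ltg.alt (x + y)
  simp only [map_add, LinearMap.add_apply, h.ltg.alt, zero_add, add_zero] at h1
  exact eq_neg_of_add_eq_zero_right h1

/-- (lc9, size 3) Case B. PROOF. `V₁ = Vs em i`, `V₂ = Vs em i'`, `0 ≠ y₁ ∈ V₁`. `β (y₁, V) = β (y₁, V₂)` has at most `card V₂ < card U` elements, so there is `l' ≠ 0` which is zero on the subspace `β (y₁, V₂)`;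
`y₁ ∈ Rad β l'`. The map `V₂ → Dual V₁`, `y ↦ l' (β y ·)` has values in the annihilator of `y₁`, which has `card V₁ / p < card V₂` elements, so it is not injective; `y₂` in the kernel is
in `Rad β l'`. -/
theorem case_B (h : LS ρV ρU β A B F em) (i i' : Fin n) (hi : i ≠ i')
    (h1 : ∀ x ∈ Vs em i, ∀ y ∈ Vs em i, β x y = 0)
    (h2 : ∀ x ∈ Vs em i', ∀ y ∈ Vs em i', β x y = 0) (h3 : ∀ x ∈ Cs em {i, i'}, ∀ y, β x y = 0)
    (h4 : Nat.card (F i).X ≤ Nat.card (F i').X) (h5 : Nat.card (F i').X < Nat.card U) :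
    ∃ l' : Module.Dual (ZMod p) U, l' ≠ 0 ∧ (∃ w ∈ Vs em i, w ≠ 0 ∧ w ∈ Rad β l') ∧
      ∃ w ∈ Vs em i', w ≠ 0 ∧ w ∈ Rad β l' := by
  classical
  have hV := vs_dec h
  obtain ⟨-, -, -, hcard, -, -, -, -, -, -⟩ := hV
  haveI : Nontrivial (Vs em i) := by
    have hX : 1 < Nat.card (F i).X := Finite.one_lt_card
    rw [← hcard i] at hX
    exact Finite.one_lt_card_iff_nontrivial.mp hX
  obtain ⟨y1, hy1⟩ := exists_ne (0 : Vs em i)
  haveI : Module.Finite (ZMod p) U := Module.Finite.of_finite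
  haveI : Module.Finite (ZMod p) V := Module.Finite.of_finite
  have hp : 1 < p := (Fact.out : p.Prime).one_lt
  have hlt : Module.finrank (ZMod p) (Vs em i') < Module.finrank (ZMod p) U := by
    have h6 : Nat.card (Vs em i') < Nat.card U := by rw [hcard i']; exact h5
    rw [lc9_fr (p := p) (W := Vs em i'), lc9_fr (p := p) (W := U)] at h6
    exact (Nat.pow_lt_pow_iff_right hp).mp h6
  have hle : Module.finrank (ZMod p) (Vs em i) ≤ Module.finrank (ZMod p) (Vs em i') := by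
    have h6 : Nat.card (Vs em i) ≤ Nat.card (Vs em i') := by rw [hcard i, hcard i']; exact h4
    rw [lc9_fr (p := p) (W := Vs em i), lc9_fr (p := p) (W := Vs em i')] at h6
    exact (Nat.pow_le_pow_iff_right hp).mp h6
  have hbc : ∀ x c, c ∈ Cs em {i, i'} → β x c = 0 := by
    intro x c hc
    rw [lc9_sw h x c, h3 c hc x, neg_zero]
  -- the functional
  have hS : (Vs em i').map (β (y1 : V)) < ⊤ := by
    rw [lt_top_iff_ne_top]
    intro htop
    have h7 : Module.finrank (ZMod p) ((Vs em i').map (β (y1 : V))) ≤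
        Module.finrank (ZMod p) (Vs em i') := Submodule.finrank_map_le _ _
    rw [htop, finrank_top] at h7
    omega
  obtain ⟨l', hl', hker⟩ := Submodule.exists_le_ker_of_lt_top _ hS
  have hb2 : ∀ b ∈ Vs em i', l' (β (y1 : V) b) = 0 := by
    intro b hb
    exact hker (Submodule.mem_map_of_mem hb)
  refine ⟨l', hl', ⟨y1, y1.2, ?_, ?_⟩, ?_⟩
  · intro h0
    exact hy1 (Subtype.ext h0)
  · rw [mem_Rad]
    intro w
    obtain ⟨c, hc, a, ha, b, hb, rfl⟩ := lc9_dec h i i' w
    simp only [map_add, hbc _ c hc, h1 _ y1.2 _ ha, map_zero, zero_add]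
    exact hb2 b hb
  · -- the kernel of the map of `V₂` to the dual of `V₁`
    let φ : Vs em i' →ₗ[ZMod p] Module.Dual (ZMod p) (Vs em i) :=
      { toFun := fun y => (l' ∘ₗ β (y : V)) ∘ₗ (Vs em i).subtype
        map_add' := by
          intro a b
          ext x
          simp
        map_smul' := by
          intro c a
          ext x
          simp }
    have hφ : ∀ (y : Vs em i') (x : Vs em i), φ y x = l' (β (y : V) (x : V)) := fun _ _ => rfl
    let ev : Module.Dual (ZMod p) (Module.Dual (ZMod p) (Vs em i)) :=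
      Module.Dual.eval (ZMod p) (Vs em i) y1
    have hev0 : ev ≠ 0 := by
      intro h0
      apply hy1
      exact (Module.forall_dual_apply_eq_zero_iff (ZMod p) y1).mp fun f => by
        have h11 := LinearMap.congr_fun h0 f
        exact h11
    have hrange : LinearMap.range φ ≤ LinearMap.ker ev := by
      rintro _ ⟨y, rfl⟩
      rw [LinearMap.mem_ker]
      show φ y y1 = 0
      rw [hφ, lc9_sw h, map_neg, hb2 _ y.2, neg_zero]
    have hev1 : Module.finrank (ZMod p) (LinearMap.ker ev) + 1 =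
        Module.finrank (ZMod p) (Vs em i) := by
      rw [Module.Dual.finrank_ker_add_one_of_ne_zero hev0, Subspace.dual_finrank_eq]
    have hk : LinearMap.ker φ ≠ ⊥ := by
      intro hbot
      have h8 : Module.finrank (ZMod p) (LinearMap.range φ) =
          Module.finrank (ZMod p) (Vs em i') := by
        exact LinearMap.finrank_range_of_inj (LinearMap.ker_eq_bot.mp hbot)
      have h9 := Submodule.finrank_mono hrange
      omega
    obtain ⟨y2, hy2, hy20⟩ := (Submodule.ne_bot_iff _).mp hk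
    refine ⟨y2, y2.2, ?_, ?_⟩
    · intro h0
      exact hy20 (Subtype.ext h0)
    · rw [mem_Rad]
      intro w
      obtain ⟨c, hc, a, ha, b, hb, rfl⟩ := lc9_dec h i i' w
      simp only [map_add, hbc _ c hc, h2 _ y2.2 _ hb, map_zero, zero_add, add_zero]
      have h10 := hφ y2 ⟨a, ha⟩
      rw [LinearMap.mem_ker.mp hy2] at h10
      exact h10.symm
-- END lc9

-- BEGIN lc10
private theorem lc10_sum {X J : Type} [AddCommGroup X] [Module (ZMod p) X]
    {W : J → Submodule (ZMod p) X} (hW : iSupIndep W) (Δ : Finset J) (u : J → X)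
    (hu : ∀ j, u j ∈ W j) (h0 : ∑ j ∈ Δ, u j = 0) : ∀ j ∈ Δ, u j = 0 := by
  classical
  intro j hj
  have h1 : u j = - ∑ i ∈ Δ.erase j, u i := by
    rw [← Finset.add_sum_erase Δ u hj] at h0
    exact eq_neg_of_add_eq_zero_left h0
  have h2 : u j ∈ ⨆ (i : J) (_ : i ≠ j), W i := by
    rw [h1]
    refine neg_mem (sum_mem fun i hi => ?_)
    exact Submodule.mem_iSup_of_mem i (Submodule.mem_iSup_of_mem (Finset.ne_of_mem_erase hi) (hu i))
  exact (Submodule.disjoint_def.1 (hW j)) (u j) (hu j) h2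

private theorem lc10_two {ρ : Representation (ZMod p) H V} {g : H} {x : V} (h : ρ g⁻¹ x = x) :
    ρ g x = x := by
  have h1 : ρ g (ρ g⁻¹ x) = x := by
    rw [← Module.End.mul_apply, ← map_mul, mul_inv_cancel, map_one, Module.End.one_apply]
  rw [h] at h1
  exact h1

/-- the value of the sum on one summand -/
private theorem lc10_val (y : ∀ i, (F i).X) (i : Fin n) (v : V) (hv : v ∈ Vs em i) :
    (∑ i', em i' (y i')) v = em i (y i) v := by
  rw [LinearMap.sum_apply]
  refine Finset.sum_eq_single i (fun i' _ hi' => hv i' hi' _) (fun h => absurd (Finset.mem_univ i) h)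

/-- an element without fixed vectors cannot fix a functional on the radical -/
private theorem lc10_key (h : LS ρV ρU β A B F em) (l' : Module.Dual (ZMod p) U) (y : ∀ i, (F i).X)
    (i : Fin n) (w : V) (hw : w ∈ Vs em i) (hw' : w ∈ Rad β l') (hwy : em i (y i) w ≠ 0) (g : H)
    (hg : Fx2 ρV ρU β l' (∑ i', em i' (y i')) g) (hf : ∀ z, (F i).ρ g z = z → z = 0) : False := by
  classical
  obtain ⟨hiv, -⟩ := vs_dec h
  let Y : Submodule (ZMod p) V := Vs em i ⊓ Rad β l'
  have hgY : ∀ v ∈ Y, ρV g v ∈ Y := fun v hv =>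
    ⟨hiv i g (Subgroup.mem_top g) v hv.1, rad_inv h.ltg l' g hg.1 v hv.2⟩
  let T : Y →ₗ[ZMod p] Y := ((ρV g - 1 : Module.End (ZMod p) V)).restrict (fun v hv => by
    show ρV g v - v ∈ Y
    exact sub_mem (hgY v hv) hv)
  -- `T` is injective
  have hinj : Function.Injective T := by
    rw [← LinearMap.ker_eq_bot, LinearMap.ker_eq_bot']
    rintro ⟨v, hv⟩ hTv
    have h1 : ρV g v - v = 0 := congrArg Subtype.val hTv
    rw [sub_eq_zero] at h1
    have h2 : ρV g⁻¹ v = v := by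
      have h3 : ρV g⁻¹ (ρV g v) = v := by
        rw [← Module.End.mul_apply, ← map_mul, inv_mul_cancel, map_one, Module.End.one_apply]
      rwa [h1] at h3
    -- `ρ g - 1` is surjective
    have h4 : Function.Injective ((F i).ρ g - 1 : Module.End (ZMod p) (F i).X) := by
      rw [← LinearMap.ker_eq_bot, LinearMap.ker_eq_bot']
      intro z hz
      have h5 : (F i).ρ g z - z = 0 := hz
      exact hf z (sub_eq_zero.1 h5)
    have h6 : Function.Surjective ((F i).ρ g - 1 : Module.End (ZMod p) (F i).X) :=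
      Finite.surjective_of_injective h4
    have h7 : ∀ z, em i z v = 0 := by
      intro z
      obtain ⟨x, hx⟩ := h6 z
      have hx' : (F i).ρ g x - x = z := hx
      rw [← hx', map_sub, LinearMap.sub_apply, h.eqv, h2, sub_self]
    have h8 : ∀ f : Module.Dual (ZMod p) V, f v = 0 := by
      intro f
      have h9 : f ∈ ⨆ i, LinearMap.range (em i) := by
        rw [h.sup]
        exact Submodule.mem_top
      refine Submodule.iSup_induction (fun i => LinearMap.range (em i))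
        (motive := fun f => f v = 0) h9 ?_ rfl ?_
      · rintro i' _ ⟨x, rfl⟩
        by_cases hi : i' = i
        · subst hi
          exact h7 x
        · exact hv.1 i' hi x
      · intro f1 f2 h1 h2
        rw [LinearMap.add_apply, h1, h2, add_zero]
    have h10 : v = 0 := (Module.forall_dual_apply_eq_zero_iff (ZMod p) v).1 h8
    exact Subtype.ext h10
  have hsur : Function.Surjective T := Finite.surjective_of_injective hinj
  obtain ⟨⟨v, hv⟩, hTv⟩ := hsur ⟨w, hw, hw'⟩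
  have h1 : ρV g v - v = w := congrArg Subtype.val hTv
  apply hwy
  have h2 := hg.2 v hv.2
  rw [lc10_val y i _ (hgY v hv).1, lc10_val y i _ hv.1] at h2
  rw [← h1, map_sub, h2, sub_self]

/-- (lc10, size 5) Case Y. PROOF. `m = ∑_{i ∉ I} ∑_{j ∈ Δ i} em i (v i j) + ∑_{i ∈ I} em i (x_i)` with `em i (x_i)` not zero at `w_i ∈ Vs em i ⊓ Rad β l'` (`vs_dec`). (a) Let `D ≤ A` be normal and fix `l'`, `m` (on the radical). For `i ∉ I`:
`Vs em i ≤ Cs em I ≤ Rad β l'`, so `D` fixes the restriction of `m` to `Vs em i`, which is `∑ em i (v i j)`, so it fixes `∑ v i j` and its components (`D ≤ UU j ≤ Nm`), so it is trivial on `W j`, `j ∈ Δ i` (`bs_fpf`), so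
on all blocks (`D` is normal, `tra`). For `i ∈ I`, `d ∈ D` not trivial on `(F i).X`: one block, `ρ d - 1` is injective on `(F i).X` (`bs_fpf`), so `ρV d - 1` is bijective on `Vs em i`, and on the `d`-invariant subspace
`Y = Vs em i ⊓ Rad β l'` (`rad_inv`), so `m (d y - y) = 0` for `y ∈ Y` gives `m = 0` on `Y`, contradiction. So `D` is trivial on all `(F i).X`, `D = ⊥`. (b) Let `r ≥ 3` be not of type `B` at `i`. `i ∉ I`: `R` fixes `∑ v i j`: contradiction to `Cho.cov`
(`k = 1`). `i ∈ I`: `gen_one` gives `x ∈ R` with `ρ x - 1` injective; contradiction as before. -/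
theorem cy_of (h : LS ρV ρU β A B F em) {Δ : ∀ i, Finset (F i).J}
    {v : ∀ i, (F i).J → (F i).X} (hc : Cho A B F Δ v) (I : Finset (Fin n))
    (hI : ∀ i ∈ I, Subsingleton (F i).J ∧ Abq (F i).ρ (F i).W (F i).UU)
    (l' : Module.Dual (ZMod p) U) (hl' : l' ≠ 0) (hC : ∀ x ∈ Cs em I, ∀ y, β x y = 0)
    (hw : ∀ i ∈ I, ∃ w ∈ Vs em i, w ≠ 0 ∧ w ∈ Rad β l') : CY ρV ρU β A F := by
  classical
  obtain ⟨hiv, -, -, -, hz0, hsu, htr, -, hle, -⟩ := vs_dec h
  have hx : ∀ i ∈ I, ∃ x : (F i).X, ∃ w ∈ Vs em i, w ∈ Rad β l' ∧ em i x w ≠ 0 := by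
    intro i hi
    obtain ⟨w, hw1, hw0, hw2⟩ := hw i hi
    have h1 : ¬ ∀ f : Module.Dual (ZMod p) V, f w = 0 := by
      rw [Module.forall_dual_apply_eq_zero_iff (ZMod p) w]
      exact hw0
    rw [not_forall] at h1
    obtain ⟨f, hf⟩ := h1
    obtain ⟨x, hx⟩ := hsu i f
    exact ⟨x, w, hw1, hw2, by rwa [hx w hw1]⟩
  choose! xx hxx using hx
  let y : ∀ i, (F i).X := fun i => if i ∈ I then xx i else ∑ j ∈ Δ i, v i j
  have hy1 : ∀ i ∈ I, y i = xx i := fun i hi => if_pos hi
  have hy2 : ∀ i, i ∉ I → y i = ∑ j ∈ Δ i, v i j := fun i hi => if_neg hi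
  -- elements which fix the functional fix the vector of a summand outside `I`
  have hfix : ∀ g, Fx2 ρV ρU β l' (∑ i', em i' (y i')) g → ∀ i, i ∉ I →
      (F i).ρ g (∑ j ∈ Δ i, v i j) = ∑ j ∈ Δ i, v i j := by
    intro g hg i hi
    apply lc10_two
    have h1 : (F i).ρ g⁻¹ (y i) - y i = 0 := by
      apply hz0 i
      intro w hw
      have hwR : w ∈ Rad β l' := by
        intro w'
        rw [hC w (hle I i hi hw), map_zero]
      have h2 := hg.2 w hwR
      rw [lc10_val y i _ (hiv i g (Subgroup.mem_top g) w hw), lc10_val y i _ hw] at h2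
      rw [map_sub, LinearMap.sub_apply, h.eqv, inv_inv, h2, sub_self]
    rw [sub_eq_zero, hy2 i hi] at h1
    exact h1
  refine ⟨l', hl', ∑ i', em i' (y i'), ?_, ?_⟩
  · intro D hDn hDA hD0
    by_contra hcon
    push Not at hcon
    apply hD0
    rw [Subgroup.eq_bot_iff_forall]
    -- `D` is trivial on all the modules
    have htriv : ∀ i, ∀ d ∈ D, ∀ x, (F i).ρ d x = x := by
      intro i
      have hUU : ∀ d ∈ D, ∀ j, d ∈ (F i).UU j := by
        intro d hd j
        have h1 := h.Ale i (hDA hd)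
        rw [Fam.A, Subgroup.mem_iInf] at h1
        exact h1 j
      have hJne : Nonempty (F i).J := by
        by_contra hJ
        rw [not_nonempty_iff] at hJ
        have hsup := (F i).bs.sup
        rw [iSup_of_empty] at hsup
        exact bot_ne_top hsup
      -- it is enough to be trivial on one block
      have hone : ∀ j, (∀ d ∈ D, Tv (F i).ρ ((F i).W j) d) → ∀ d ∈ D, ∀ x, (F i).ρ d x = x := by
        intro j hj d hd x
        have h1 : x ∈ ⨆ j', (F i).W j' := by
          rw [(F i).bs.sup]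
          exact Submodule.mem_top
        refine Submodule.iSup_induction (fun j' => (F i).W j')
          (motive := fun x => (F i).ρ d x = x) h1 ?_ (map_zero _) ?_
        · intro j' x hx
          obtain ⟨g, hg⟩ := (F i).bs.tra j j'
          rw [← hg] at hx
          obtain ⟨x', hx', rfl⟩ := hx
          have h2 : g⁻¹ * d * g ∈ D := by
            have h3 := hDn.conj_mem d hd g⁻¹
            rwa [inv_inv] at h3
          have h4 := hj _ h2 x' hx'
          have h5 : d * g = g * (g⁻¹ * d * g) := by group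
          rw [← Module.End.mul_apply, ← map_mul, h5, map_mul, Module.End.mul_apply, h4]
        · intro x1 x2 h1 h2
          rw [map_add, h1, h2]
      by_cases hi : i ∈ I
      · obtain ⟨j⟩ := hJne
        refine hone j fun d hd => ?_
        by_contra hT
        obtain ⟨w, hw1, hw2, hw3⟩ := hxx i hi
        refine lc10_key h l' y i w hw1 hw2 (by rwa [hy1 i hi]) d (hcon d hd) fun z hz => ?_
        by_contra hz0'
        have := (hI i hi).1
        have hWj : (F i).W j = ⊤ := by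
          rw [← (F i).bs.sup]
          refine le_antisymm (le_iSup (F i).W j) (iSup_le fun j' => ?_)
          rw [Subsingleton.elim j' j]
        exact hT (bs_fpf (F i).bs j d (hUU d hd j) z (by rw [hWj]; exact Submodule.mem_top) hz0' hz)
      · obtain ⟨j, hj⟩ := hc.ne i
        refine hone j fun d hd => ?_
        have h1 := hfix d (hcon d hd) i hi
        have h2 : ∑ j ∈ Δ i, ((F i).ρ d (v i j) - v i j) = 0 := by
          rw [Finset.sum_sub_distrib, ← map_sum, h1, sub_self]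
        have hNm : ∀ j, d ∈ Nm (F i).ρ ((F i).W j) := fun j => (F i).bs.uN j (hUU d hd j)
        have h3 := lc10_sum (F i).bs.ind (Δ i) (fun j => (F i).ρ d (v i j) - v i j) (fun j => by
          refine sub_mem ?_ (hc.vW i j)
          have h4 := hNm j
          rw [mem_Nm] at h4
          have h5 : (F i).ρ d (v i j) ∈ ((F i).W j).map ((F i).ρ d) :=
            Submodule.mem_map_of_mem (hc.vW i j)
          rwa [h4] at h5) h2 j hj
        exact bs_fpf (F i).bs j d (hUU d hd j) (v i j) (hc.vW i j) (hc.v0 i j) (sub_eq_zero.1 h3)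
    intro d hd
    refine h.ltg.fai d fun x => ?_
    have h1 : x ∈ ⨆ i, Vs em i := by
      rw [(vs_dec h).2.2.1]
      exact Submodule.mem_top
    refine Submodule.iSup_induction (fun i => Vs em i)
      (motive := fun x => ρV d x = x) h1 ?_ (map_zero _) ?_
    · intro i x hx
      exact (htr i d).1 (htriv i d hd) x hx
    · intro x1 x2 h1 h2
      rw [map_add, h1, h2]
  · intro r hr hr3 ⟨i, hiB⟩ R hR
    by_cases hi : i ∈ I
    · have := (hI i hi).1
      obtain ⟨x, hxR, -, hxf⟩ := gen_one (F i).bs (hI i hi).2 r hr hiB R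
      obtain ⟨w, hw1, hw2, hw3⟩ := hxx i hi
      exact lc10_key h l' y i w hw1 hw2 (by rwa [hy1 i hi]) x (hR x hxR) hxf
    · refine hc.cov i (fun _ => 1) (fun _ => one_mem _) r hr hr3 hiB R fun x hx => ?_
      have h1 := hfix x (hR x hx) i hi
      rw [map_one]
      exact h1
-- END lc10

-- BEGIN lc11
/-- A Sylow subgroup which is trivial on a module: all are. -/
private theorem lc11_conj {X : Type} [AddCommGroup X] [Module (ZMod p) X]
    (ρ : Representation (ZMod p) H X) (r : ℕ) [Fact r.Prime] (R : Sylow r H)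
    (hR : ∀ x ∈ (R : Subgroup H), ∀ v, ρ x v = v) :
    ∀ R' : Sylow r H, ∀ x ∈ (R' : Subgroup H), ∀ v, ρ x v = v := by
  intro R' x hx v
  obtain ⟨g, hg⟩ := MulAction.exists_smul_eq H R R'
  rw [← hg, Sylow.coe_subgroup_smul, Subgroup.mem_pointwise_smul_iff_inv_smul_mem] at hx
  have h1 : g⁻¹ * x * g ∈ (R : Subgroup H) := by
    have h2 : (MulAut.conj g)⁻¹ • x = g⁻¹ * x * g := by
      rw [← map_inv, MulAut.smul_def, MulAut.conj_apply, inv_inv]
    rw [← h2]
    exact hx
  have h3 := hR _ h1 (ρ g⁻¹ v)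
  have h4 : ρ g (ρ (g⁻¹ * x * g) (ρ g⁻¹ v)) = ρ x v := by
    rw [← Module.End.mul_apply, ← Module.End.mul_apply, ← map_mul, ← map_mul]
    congr 2
    group
  rw [← h4, h3, ← Module.End.mul_apply, ← map_mul, mul_inv_cancel, map_one, Module.End.one_apply]

omit [Finite H] in
/-- If all the Sylow subgroups are trivial on the module then so is `cm A r`. -/
private theorem lc11_cm {X : Type} [AddCommGroup X] [Module (ZMod p) X]
    (ρ : Representation (ZMod p) H X) (A : Subgroup H) (r : ℕ)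
    (hR : ∀ R : Sylow r H, ∀ x ∈ (R : Subgroup H), ∀ v, ρ x v = v) :
    ∀ c ∈ cm A r, ∀ v, ρ c v = v := by
  intro c hc v
  have h1 : (⨆ R : Sylow r H, (R : Subgroup H)) ≤ MonoidHom.ker ρ := by
    refine iSup_le fun R x hx => ?_
    rw [MonoidHom.mem_ker]
    exact LinearMap.ext fun w => hR R x hx w
  have h2 : cm A r ≤ MonoidHom.ker ρ :=
    (Subgroup.commutator_mono le_rfl h1).trans (Subgroup.commutator_le_right _ _)
  have h3 := h2 hc
  rw [MonoidHom.mem_ker] at h3
  rw [h3, Module.End.one_apply]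

omit [Finite H] in
/-- A power of a nontrivial element of `r`-power order which acts with order `r`. -/
private theorem lc11_pow {X : Type} [AddCommGroup X] [Module (ZMod p) X]
    (ρ : Representation (ZMod p) H X) (r : ℕ) [Fact r.Prime] (R : Sylow r H) (x : H)
    (hx : x ∈ (R : Subgroup H)) (hn : ∃ v, ρ x v ≠ v) :
    ∃ y ∈ (R : Subgroup H), (∃ v, ρ y v ≠ v) ∧ ∀ v, ρ (y ^ r) v = v := by
  obtain ⟨k, hk⟩ := R.isPGroup' ⟨x, hx⟩
  have hk' : x ^ r ^ k = 1 := by
    have := congrArg (Subtype.val) hk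
    simpa using this
  have hex : ∃ k, ∀ v, ρ (x ^ r ^ k) v = v := ⟨k, fun v => by rw [hk', map_one]; rfl⟩
  classical
  have h0 : Nat.find hex ≠ 0 := by
    intro h0
    have h1 := Nat.find_spec hex
    rw [h0, pow_zero, pow_one] at h1
    obtain ⟨v, hv⟩ := hn
    exact hv (h1 v)
  obtain ⟨m, hm⟩ := Nat.exists_eq_succ_of_ne_zero h0
  have h2 := Nat.find_min hex (show m < Nat.find hex by omega)
  push Not at h2
  refine ⟨x ^ r ^ m, Subgroup.pow_mem _ hx _, h2, ?_⟩
  intro v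
  have h3 := Nat.find_spec hex v
  rw [hm, Nat.succ_eq_add_one, pow_succ, pow_mul] at h3
  exact h3

/-- The fixed vectors of an element of order `r` outside `UU j`, one block. -/
private theorem lc11_gal {X J : Type} [AddCommGroup X] [Module (ZMod p) X] [Finite X]
    {ρ : Representation (ZMod p) H X} {W : J → Submodule (ZMod p) X} {UU : J → Subgroup H}
    (h : BS ρ W UU) (hab : Abq ρ W UU) (r : ℕ) (hr : r.Prime) (j : J) (hj : W j = ⊤) (x : H)
    (hx : ∀ v, ρ (x ^ r) v = v) (hxU : x ∉ UU j) :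
    Nat.card {w : X // ρ x w = w} ^ r ≤ Nat.card X := by
  obtain ⟨L, iL, iF, ρL, π, U, hπ, hρ, hQ, hU⟩ := bs_qp h j
  have hNm : ∀ g : H, g ∈ Nm ρ (W j) := by
    intro g
    rw [mem_Nm, hj, Submodule.map_top, LinearMap.range_eq_top]
    intro v
    refine ⟨ρ g⁻¹ v, ?_⟩
    rw [← Module.End.mul_apply, ← map_mul, mul_inv_cancel, map_one, Module.End.one_apply]
  have hnt : Nontrivial (W j) := (Submodule.nontrivial_iff_ne_bot).2 (h.ne j)
  obtain ⟨a, -, -, -, -, -, hg⟩ := qp_gal hQ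
  have h1 : (π ⟨x, hNm x⟩) ^ r = 1 := by
    apply hQ.fai
    intro w
    apply Subtype.ext
    rw [← map_pow, hρ]
    exact hx w
  have habU : ∀ a b : L, a * b * a⁻¹ * b⁻¹ ∈ U := by
    intro a b
    obtain ⟨g, rfl⟩ := hπ a
    obtain ⟨g', rfl⟩ := hπ b
    rw [← map_mul, ← map_inv, ← map_mul, ← map_inv, ← map_mul, hU]
    exact hab j g g.2 g' g'.2
  have h2 : π ⟨x, hNm x⟩ ∉ Subgroup.centralizer (U : Set L) := by
    intro hc
    rw [Subgroup.mem_centralizer_iff] at hc
    apply hxU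
    rw [← hU ⟨x, hNm x⟩]
    have hle : U ≤ U ⊔ Subgroup.zpowers (π ⟨x, hNm x⟩) := le_sup_left
    have hmem : π ⟨x, hNm x⟩ ∈ U ⊔ Subgroup.zpowers (π ⟨x, hNm x⟩) :=
      Subgroup.mem_sup_right (Subgroup.mem_zpowers _)
    refine hQ.mx (U ⊔ Subgroup.zpowers (π ⟨x, hNm x⟩)) ⟨⟨?_⟩, ?_⟩ hle hmem
    · intro n hn g
      have h3 : g * n * g⁻¹ = (g * n * g⁻¹ * n⁻¹) * n := by group
      rw [h3]
      exact Subgroup.mul_mem _ (hle (habU g n)) hn
    · have k1 : U ≤ Subgroup.centralizer (U : Set L) := by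
        intro a ha
        rw [Subgroup.mem_centralizer_iff]
        intro b hb
        exact hQ.ab.com b hb a ha
      have k2 : Subgroup.zpowers (π ⟨x, hNm x⟩) ≤ Subgroup.centralizer (U : Set L) := by
        rw [Subgroup.zpowers_le, Subgroup.mem_centralizer_iff]
        exact hc
      have k3 := Subgroup.le_centralizer_iff.1 (sup_le k1 k2)
      have k4 := Subgroup.le_centralizer_iff.1
        (sup_le (Subgroup.le_centralizer_iff.1 k2) (Subgroup.le_centralizer (Subgroup.zpowers (π ⟨x, hNm x⟩))))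
      have h4 : U ⊔ Subgroup.zpowers (π ⟨x, hNm x⟩) ≤
          Subgroup.centralizer ((U ⊔ Subgroup.zpowers (π ⟨x, hNm x⟩) : Subgroup L) : Set L) :=
        sup_le k3 k4
      intro a ha b hb
      have h5 := Subgroup.mem_centralizer_iff.1 (h4 ha) b hb
      exact h5.symm
  have h3 := hg r (π ⟨x, hNm x⟩) hr h1 h2
  have e1 : Nat.card (W j) = Nat.card X := by
    rw [hj]
    exact Nat.card_congr Submodule.topEquiv.toEquiv
  have e2 : Nat.card {w : X // ρ x w = w} = Nat.card {w : W j // ρL (π ⟨x, hNm x⟩) w = w} := by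
    refine Nat.card_congr ⟨fun w => ⟨⟨w, by rw [hj]; exact Submodule.mem_top⟩, ?_⟩,
      fun w => ⟨w.1, ?_⟩, fun w => rfl, fun w => rfl⟩
    · apply Subtype.ext
      rw [hρ]
      exact w.2
    · have h4 := congrArg (Subtype.val) w.2
      rw [hρ] at h4
      exact h4
  rw [e2, ← e1]
  exact h3

/-- (lc11, size 4) Case C. PROOF. `V₁ = Vs em i`, `C = Cs em {i}`. `R` (a Sylow subgroup which fixes `l`, `ha.fix`) is trivial on `C` (`out`), not on `(F i).X`. For `x ∈ R`, `v ∈ V₁`, `c ∈ C`: `l (β (x v) c) = l (β (x v) (x c)) = l (β v c)`; with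
`h0`: `x v - v ∈ Rad β l`. Take `x ∈ R` which acts on `(F i).X` with order `r` (a power of a non-trivial element). The functionals in the set of `Spc` vanish on all `x v - v`, so they are the fixed vectors of `x` on `(F i).X`. `bt` gives `Abq`, `Ufr`.
`bs_qp` for the single block (`W j = ⊤`): the image `x'` of `x` in `L` has `x' ^ r = 1`; `L / U` is abelian, so the centralizer of `U` is `U` (a subgroup `⟨U, z⟩`, `z` in the centralizer, is normal, as `L / U` is abelian,
and commutative; `mx`), and `x'` is not in `U` by `Ufr`. `qp_gal`: `card (fixed vectors) ^ r ≤ card (F i).X`, `r ≥ 3`. Some `v ∈ V₁` is not in `Rad β l`: otherwise `l` is zero on all values of `β` (`ana_two`: `β (C, C) = 0`), contradiction to `ltg_ne`. -/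
theorem case_C (h : LS ρV ρU β A B F em) (l : Module.Dual (ZMod p) U) (hl0 : l ≠ 0) (r : ℕ)
    (hr : r ∈ B) (hD : cm A r ≠ ⊥) (i : Fin n) (ha : Anl ρU A F l r {i})
    (h0 : ∀ x ∈ Vs em i, ∀ y ∈ Vs em i, β x y = 0) : Spc em β l i := by
  have hrp : r.Prime := (h.ar r hr).prime
  have hr3 : 3 ≤ r := h.b3 r hr
  have : Fact r.Prime := ⟨hrp⟩
  obtain ⟨d1, -, -, -, d5, -, -, d8, -, -⟩ := vs_dec h
  have hii : i ∈ ({i} : Finset (Fin n)) := Finset.mem_singleton_self i
  have hsub : Subsingleton (F i).J := ha.one i hii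
  obtain ⟨R, hR⟩ := ha.fix
  -- some Sylow subgroup is not trivial on `(F i).X`
  have hnt : ¬ ∀ R' : Sylow r H, ∀ x ∈ (R' : Subgroup H), ∀ v, (F i).ρ x v = v := by
    intro hcon
    obtain ⟨c, hc, x, hx⟩ := (ha.hI i).1 hii
    exact hx (lc11_cm (F i).ρ A r hcon c hc x)
  have hRn : ∃ x ∈ (R : Subgroup H), ∃ v, (F i).ρ x v ≠ v := by
    by_contra hcon
    push Not at hcon
    exact hnt (lc11_conj (F i).ρ r R hcon)
  rcases h.bt r hr i with hb | ⟨-, hab, hU⟩
  · exact absurd hb hnt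
  obtain ⟨x₀, hx₀, hx₀n⟩ := hRn
  obtain ⟨x, hx, hxn, hxr⟩ := lc11_pow (F i).ρ r R x₀ hx₀ hx₀n
  obtain ⟨j⟩ : Nonempty (F i).J := by
    by_contra hne
    rw [not_nonempty_iff] at hne
    have h1 := (F i).bs.sup
    rw [iSup_of_empty] at h1
    exact bot_ne_top h1
  have hj : (F i).W j = ⊤ := by
    rw [eq_top_iff, ← (F i).bs.sup]
    refine iSup_le fun j' => ?_
    rw [Subsingleton.elim j' j]
  have hxU : x ∉ (F i).UU j := by
    intro hxU
    obtain ⟨v, hv⟩ := hxn
    refine hv (hU j x hxU (fun w _ => hxr w) v ?_)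
    rw [hj]
    exact Submodule.mem_top
  have hgal := lc11_gal (F i).bs hab r hrp j hj x hxr hxU
  -- `x` is trivial on `Cs em {i}`
  have hxC : ∀ c ∈ Cs em {i}, ρV x c = c := by
    intro c hc
    rw [← sub_eq_zero]
    rw [← Module.forall_dual_apply_eq_zero_iff (ZMod p)]
    have hE : (⊤ : Submodule (ZMod p) (Module.Dual (ZMod p) V)) ≤
        LinearMap.ker (Module.Dual.eval (ZMod p) V (ρV x c - c)) := by
      rw [← h.sup]
      refine iSup_le fun i' => ?_
      rintro _ ⟨y, rfl⟩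
      rw [LinearMap.mem_ker, Module.Dual.eval_apply, map_sub, sub_eq_zero]
      have h1 : em i' y (ρV x c) = em i' ((F i').ρ x⁻¹ y) c := by
        rw [h.eqv, inv_inv]
      rw [h1]
      by_cases hi' : i' = i
      · subst hi'
        rw [hc i' hii, hc i' hii]
      · rw [ha.out i' (by rwa [Finset.mem_singleton]) R x⁻¹ (Subgroup.inv_mem _ hx)]
    intro f
    exact hE (Submodule.mem_top (x := f))
  have hV : ∀ w : V, ∃ c ∈ Cs em {i}, ∃ w' ∈ Vs em i, w = c + w' := by
    intro w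
    have h1 : w ∈ Cs em {i} ⊔ ⨆ i' ∈ ({i} : Finset (Fin n)), Vs em i' := by
      rw [d8]
      exact Submodule.mem_top
    rw [Finset.iSup_singleton, Submodule.mem_sup] at h1
    obtain ⟨c, hc, w', hw', he⟩ := h1
    exact ⟨c, hc, w', hw', he.symm⟩
  have hrad : ∀ v ∈ Vs em i, ρV x v - v ∈ Rad β l := by
    intro v hv
    rw [mem_Rad]
    intro w
    obtain ⟨c, hc, w', hw', rfl⟩ := hV w
    have hxv : ρV x v ∈ Vs em i := d1 i x (Subgroup.mem_top x) v hv
    have e1 : β (ρV x v - v) w' = 0 := h0 _ (Submodule.sub_mem _ hxv hv) _ hw'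
    have e2 : l (β (ρV x v) c) = l (β v c) := by
      conv_lhs => rw [← hxC c hc, h.ltg.eqv]
      exact hR x hx _
    rw [map_add, map_add, e1, map_zero, add_zero, map_sub, LinearMap.sub_apply, map_sub, e2, sub_self]
  refine ⟨hsub, hab, ?_, ?_⟩
  · by_contra hcon
    push Not at hcon
    obtain ⟨v, w, hvw⟩ := ltg_ne h.ltg l hl0
    obtain ⟨c, hc, v', hv', rfl⟩ := hV v
    obtain ⟨c', hc', w', hw', rfl⟩ := hV w
    have hsk : ∀ a b, β a b = - β b a := by
      intro a b
      have h1 := h.ltg.alt (a + b)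
      rw [map_add, map_add, LinearMap.add_apply, LinearMap.add_apply, h.ltg.alt, h.ltg.alt, zero_add,
        add_zero] at h1
      rw [eq_neg_iff_add_eq_zero, add_comm]
      exact h1
    apply hvw
    have e1 : l (β v' (c' + w')) = 0 := (mem_Rad β l v').1 (hcon v' hv') _
    have e2 : l (β c w') = 0 := by
      rw [hsk, map_neg, (mem_Rad β l w').1 (hcon w' hw') _, neg_zero]
    have e3 : β c c' = 0 := (ana_two h l r hD {i} ha).1 c hc c' hc'
    have e4 : β (c + v') (c' + w') = β c c' + β c w' + β v' (c' + w') := by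
      rw [map_add β c v', LinearMap.add_apply, map_add (β c)]
    rw [e4, map_add, e1, add_zero, e3, zero_add, e2]
  · -- the functionals of the set are fixed by `x`
    have hfix : ∀ y : (F i).X, (∀ v ∈ Rad β l, v ∈ Vs em i → em i y v = 0) → (F i).ρ x y = y := by
      intro y hy
      have h1 : (F i).ρ x⁻¹ y - y = 0 := by
        apply d5 i
        intro v hv
        have hxv : ρV x v ∈ Vs em i := d1 i x (Subgroup.mem_top x) v hv
        have h2 := hy _ (hrad v hv) (Submodule.sub_mem _ hxv hv)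
        rw [map_sub, LinearMap.sub_apply, h.eqv, inv_inv, ← map_sub]
        exact h2
      rw [sub_eq_zero] at h1
      have h2 : (F i).ρ x ((F i).ρ x⁻¹ y) = y := by
        rw [← Module.End.mul_apply, ← map_mul, mul_inv_cancel, map_one, Module.End.one_apply]
      rw [h1] at h2
      exact h2
    have hle : Nat.card {y : (F i).X // ∀ v ∈ Rad β l, v ∈ Vs em i → em i y v = 0} ≤
        Nat.card {w : (F i).X // (F i).ρ x w = w} := by
      refine Nat.card_le_card_of_injective (fun y => ⟨y.1, hfix y.1 y.2⟩) ?_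
      intro y y' hyy
      exact Subtype.ext (Subtype.mk.inj hyy)
    have hpos : 1 ≤ Nat.card {w : (F i).X // (F i).ρ x w = w} := by
      have : Nonempty {w : (F i).X // (F i).ρ x w = w} := ⟨⟨0, map_zero _⟩⟩
      exact Nat.card_pos
    calc _ ≤ Nat.card {w : (F i).X // (F i).ρ x w = w} ^ 3 := Nat.pow_le_pow_left hle 3
      _ ≤ Nat.card {w : (F i).X // (F i).ρ x w = w} ^ r := Nat.pow_le_pow_right hpos (by omega)
      _ ≤ _ := hgal
-- END lc11

-- BEGIN lc12
/-- Extension of `β x = 0` from the summands. -/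
private theorem lc12_l (h : LS ρV ρU β A B F em) (I : Finset (Fin n)) (f : V →ₗ[ZMod p] ZMod p)
    (h1 : ∀ y ∈ Cs em I, f y = 0) (h2 : ∀ i ∈ I, ∀ y ∈ Vs em i, f y = 0) (y : V) : f y = 0 := by
  obtain ⟨_, _, _, _, _, _, _, h8, _⟩ := vs_dec h
  have h3 : Cs em I ⊔ ⨆ i ∈ I, Vs em i ≤ LinearMap.ker f :=
    sup_le (fun y hy => h1 y hy) (iSup₂_le fun i hi y hy => h2 i hi y hy)
  rw [h8 I] at h3
  exact h3 (Submodule.mem_top (x := y))

private theorem lc12_anti (h : LS ρV ρU β A B F em) (x y : V) : β x y = - β y x := by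
  have h1 := h.ltg.alt (x + y)
  rw [map_add, map_add, LinearMap.add_apply, LinearMap.add_apply, h.ltg.alt, h.ltg.alt, zero_add,
    add_zero] at h1
  rw [add_comm] at h1
  exact eq_neg_of_add_eq_zero_left h1

private theorem lc12_dual (p : ℕ) [Fact p.Prime] (M : Type) [AddCommGroup M] [Module (ZMod p) M]
    [Finite M] : Nat.card (Module.Dual (ZMod p) M) = Nat.card M := by
  rw [Module.natCard_eq_pow_finrank (K := ZMod p), Module.natCard_eq_pow_finrank (K := ZMod p)
    (V := M), Subspace.dual_finrank_eq]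

/-- (lc12, size 3) Case B, second part. PROOF. `V₁ = Vs em i`, `V₂ = Vs em i'`. The map `V₂ → Dual V₁`, `y ↦ l (β y ·)` has the kernel `V₂ ⊓ Rad β l`, so the annihilator of `V₂ ⊓ Rad β l` in `(F i').X` has at most `card V₁` elements.
`Abq` from `bt` (some Sylow subgroup is not trivial on `(F i').X`, since `cm A r = ⁅A, R⁆` is not). If `V₂ ≤ Rad β l` then `l` is zero on all values of `β`, contradiction to `ltg_ne`. -/
theorem case_B2 (h : LS ρV ρU β A B F em) (l : Module.Dual (ZMod p) U) (hl0 : l ≠ 0) (r : ℕ)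
    (hr : r ∈ B) (i i' : Fin n) (hi : i ≠ i') (ha : Anl ρU A F l r {i, i'})
    (h1 : ∀ x ∈ Vs em i, ∀ y ∈ Vs em i, β x y = 0)
    (h2 : ∀ x ∈ Vs em i', ∀ y ∈ Vs em i', β x y = 0) (h3 : ∀ x ∈ Cs em {i, i'}, ∀ y, β x y = 0)
    (h4 : Nat.card (F i).X ^ 3 ≤ Nat.card (F i').X) : Spc em β l i' := by
  classical
  obtain ⟨_, _, _, v4, v5, _, _, _, _⟩ := vs_dec h
  have hi'I : i' ∈ ({i, i'} : Finset (Fin n)) := by simp
  have h3' : ∀ x ∈ Cs em {i, i'}, ∀ y, β y x = 0 := by
    intro x hx y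
    rw [lc12_anti h, h3 x hx y, neg_zero]
  refine ⟨ha.one i' hi'I, ?_, ?_, ?_⟩
  · -- the type of `r`
    rcases h.bt r hr i' with hb | hb
    · exfalso
      obtain ⟨c, hc, x, hx⟩ := (ha.hI i').1 hi'I
      apply hx
      let K : Subgroup H :=
        { carrier := {g | ∀ x, (F i').ρ g x = x}
          one_mem' := by
            intro x
            rw [map_one]
            rfl
          mul_mem' := by
            intro a b ha hb x
            rw [map_mul, Module.End.mul_apply, hb, ha]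
          inv_mem' := by
            intro a ha x
            conv_lhs => rw [← ha x]
            rw [← Module.End.mul_apply, ← map_mul, inv_mul_cancel, map_one,
              Module.End.one_apply] }
      have hK : K.Normal := ⟨fun z hz g x => by
        rw [map_mul, map_mul, Module.End.mul_apply, Module.End.mul_apply, hz,
          ← Module.End.mul_apply, ← map_mul, mul_inv_cancel, map_one, Module.End.one_apply]⟩
      have hRK : (⨆ R : Sylow r H, (R : Subgroup H)) ≤ K := iSup_le fun R z hz => hb R z hz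
      have hcK : cm A r ≤ K := (Subgroup.commutator_mono le_rfl hRK).trans
        (Subgroup.commutator_le_right _ _)
      exact hcK hc x
    · exact hb.2.1
  · by_contra hcon
    push Not at hcon
    obtain ⟨v, w, hvw⟩ := ltg_ne h.ltg l hl0
    apply hvw
    have e1 : ∀ x ∈ Vs em i', ∀ y, l (β x y) = 0 := fun x hx y => hcon x hx y
    have e2 : ∀ x ∈ Vs em i, ∀ y, l (β x y) = 0 := by
      intro x hx y
      refine lc12_l h {i, i'} (l ∘ₗ β x) (fun y hy => ?_) (fun j hj y hy => ?_) y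
      · rw [LinearMap.comp_apply, h3' y hy, map_zero]
      · rw [LinearMap.comp_apply]
        rw [Finset.mem_insert, Finset.mem_singleton] at hj
        rcases hj with rfl | rfl
        · rw [h1 x hx y hy, map_zero]
        · rw [lc12_anti h, map_neg, e1 y hy x, neg_zero]
    have e3 : ∀ y, l (β y w) = 0 := by
      intro y
      refine lc12_l h {i, i'} (l ∘ₗ β.flip w) (fun y hy => ?_) (fun j hj y hy => ?_) y
      · rw [LinearMap.comp_apply, LinearMap.flip_apply, h3 y hy, map_zero]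
      · rw [LinearMap.comp_apply, LinearMap.flip_apply]
        rw [Finset.mem_insert, Finset.mem_singleton] at hj
        rcases hj with rfl | rfl
        · exact e2 y hy w
        · exact e1 y hy w
    exact e3 v
  · refine le_trans (Nat.pow_le_pow_left ?_ 3) h4
    -- the map `V₂ → Dual V₁`
    let f : Vs em i' →ₗ[ZMod p] Module.Dual (ZMod p) (Vs em i) :=
      { toFun := fun y => (l ∘ₗ β (y : V)) ∘ₗ (Vs em i).subtype
        map_add' := by
          intro a b
          refine LinearMap.ext fun x => ?_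
          change l (β ((a : V) + (b : V)) (x : V)) = l (β (a : V) (x : V)) + l (β (b : V) (x : V))
          rw [map_add, LinearMap.add_apply, map_add]
        map_smul' := by
          intro c a
          refine LinearMap.ext fun x => ?_
          change l (β (c • (a : V)) (x : V)) = c • l (β (a : V) (x : V))
          rw [map_smul, LinearMap.smul_apply, map_smul] }
    have hf : ∀ (y : Vs em i') (x : Vs em i), f y x = l (β (y : V) (x : V)) := fun _ _ => rfl
    have hker : ∀ y : Vs em i', y ∈ LinearMap.ker f → (y : V) ∈ Rad β l := by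
      intro y hy
      rw [LinearMap.mem_ker] at hy
      rw [mem_Rad]
      intro w
      refine lc12_l h {i, i'} (l ∘ₗ β (y : V)) (fun z hz => ?_) (fun j hj z hz => ?_) w
      · rw [LinearMap.comp_apply, h3' z hz, map_zero]
      · rw [LinearMap.comp_apply]
        rw [Finset.mem_insert, Finset.mem_singleton] at hj
        rcases hj with rfl | rfl
        · have h5 := hf y ⟨z, hz⟩
          rw [hy] at h5
          exact h5.symm
        · rw [h2 y y.2 z hz, map_zero]
    have hfinD : Finite (Module.Dual (ZMod p) (Vs em i)) := DFunLike.finite _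
    have hfinDD : Finite (Module.Dual (ZMod p) (Module.Dual (ZMod p) (Vs em i))) :=
      DFunLike.finite _
    have hfinD' : Finite (Module.Dual (ZMod p) (Vs em i')) := DFunLike.finite _
    let Φ : {x : (F i').X // ∀ v ∈ Rad β l, v ∈ Vs em i' → em i' x v = 0} →
        LinearMap.range f.dualMap := fun x =>
      ⟨em i' x.1 ∘ₗ (Vs em i').subtype, by
        rw [LinearMap.range_dualMap_eq_dualAnnihilator_ker, Submodule.mem_dualAnnihilator]
        intro y hy
        exact x.2 y (hker y hy) y.2⟩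
    have hΦ : Function.Injective Φ := by
      intro x y hxy
      have h5 : em i' x.1 ∘ₗ (Vs em i').subtype = em i' y.1 ∘ₗ (Vs em i').subtype :=
        congrArg Subtype.val hxy
      refine Subtype.ext (sub_eq_zero.1 (v5 i' _ fun v hv => ?_))
      have h6 := LinearMap.congr_fun h5 ⟨v, hv⟩
      rw [map_sub, LinearMap.sub_apply, sub_eq_zero]
      exact h6
    calc Nat.card {x : (F i').X // ∀ v ∈ Rad β l, v ∈ Vs em i' → em i' x v = 0}
        ≤ Nat.card (LinearMap.range f.dualMap) := Nat.card_le_card_of_injective Φ hΦ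
      _ ≤ Nat.card (Module.Dual (ZMod p) (Module.Dual (ZMod p) (Vs em i))) :=
          Nat.card_le_card_of_surjective _ (LinearMap.surjective_rangeRestrict f.dualMap)
      _ = Nat.card (F i).X := by
          rw [lc12_dual, lc12_dual, v4 i]
-- END lc12

end

section
variable {p : ℕ} [Fact p.Prime] {H V U : Type} [Group H] [Finite H] [AddCommGroup V]
  [Module (ZMod p) V] [Finite V] [AddCommGroup U] [Module (ZMod p) U] [Finite U]
  {ρV : Representation (ZMod p) H V} {ρU : Representation (ZMod p) H U}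
  {β : V →ₗ[ZMod p] V →ₗ[ZMod p] U} {A : Subgroup H} {B : Set ℕ} {n : ℕ} {F : Fin n → Fam p H}
  {em : ∀ i, (F i).X →ₗ[ZMod p] Module.Dual (ZMod p) V}

-- BEGIN lc14
/-- (lc14, size 2) PROOF. `spm` for `S = {x | FixL ρU l x}` and `Z` = the set of `Spc` (a submodule, `≠ ⊥` by `vs_dec`; invariant under `S` by `rad_inv`). `em i z (ρV x v) = em i (ρ x⁻¹ z) v` (`eqv`); the condition
says `ρ x⁻¹ z - z ∈ Z`, for `x⁻¹`. -/
theorem spv (h : LS ρV ρU β A B F em) (l : Module.Dual (ZMod p) U) (i : Fin n)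
    (hS : Spc em β l i) :
    ∃ z : (F i).X, ∀ x : H, FixL ρU l x → ∀ s : ℕ, s.Prime → 3 ≤ s →
      Ufr (F i).ρ (F i).W (F i).UU s → (∀ y, (F i).ρ (x ^ s) y = y) →
        (∀ w ∈ Rad β l, w ∈ Vs em i → em i z (ρV x w) = em i z w) → ∀ y, (F i).ρ x y = y := by
  classical
  obtain ⟨hJ, hab, ⟨v0, hv0, hv0R⟩, hcard⟩ := hS
  obtain ⟨_, _, _, _, hsep, hrep, _, _, _, _⟩ := vs_dec h
  set S : Subgroup H :=
    { carrier := {x | FixL ρU l x}
      mul_mem' := by
        intro a b ha hb u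
        show l (ρU (a * b) u) = l u
        rw [map_mul, Module.End.mul_apply, ha, hb]
      one_mem' := by
        intro u
        show l (ρU 1 u) = l u
        rw [map_one]
        rfl
      inv_mem' := by
        intro a ha u
        show l (ρU a⁻¹ u) = l u
        have h1 := ha (ρU a⁻¹ u)
        rw [← Module.End.mul_apply, ← map_mul, mul_inv_cancel, map_one] at h1
        exact h1.symm } with hSdef
  set Z : Submodule (ZMod p) (F i).X :=
    { carrier := {x | ∀ v ∈ Rad β l, v ∈ Vs em i → em i x v = 0}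
      add_mem' := by
        intro a b ha hb v hv hv2
        rw [map_add, LinearMap.add_apply, ha v hv hv2, hb v hv hv2, add_zero]
      zero_mem' := by
        intro v _ _
        rw [map_zero]
        rfl
      smul_mem' := by
        intro c a ha v hv hv2
        rw [map_smul, LinearMap.smul_apply, ha v hv hv2, smul_zero] } with hZdef
  have hVs := (vs_dec h).1 i
  have hZ0 : Z ≠ ⊥ := by
    intro hZb
    obtain ⟨f, hf1, hf2⟩ := Submodule.exists_le_ker_of_notMem (p := Rad β l) hv0R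
    obtain ⟨x, hx⟩ := hrep i f
    have hxZ : x ∈ Z := by
      intro v hv hv2
      rw [hx v hv2]
      exact LinearMap.mem_ker.mp (hf2 hv)
    rw [hZb, Submodule.mem_bot] at hxZ
    apply hf1
    rw [← hx v0 hv0, hxZ, map_zero]
    rfl
  have hSi : ∀ x, FixL ρU l x → FixL ρU l x⁻¹ := fun x hx => S.inv_mem (x := x) hx
  have hZS : ∀ x ∈ S, ∀ z ∈ Z, (F i).ρ x z ∈ Z := by
    intro x hx z hz v hv hv2
    rw [h.eqv]
    exact hz _ (rad_inv h.ltg l x⁻¹ (hSi x hx) v hv) (hVs x⁻¹ (Subgroup.mem_top _) v hv2)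
  obtain ⟨m, hm⟩ := spm h.odd (F i) hJ hab S Z hZ0 hZS hcard
  refine ⟨m, ?_⟩
  intro x hx s hs hs3 hsU hxs hfix y
  have hinv : ∀ (g : H) (w : (F i).X), (F i).ρ g w = w → (F i).ρ g⁻¹ w = w := by
    intro g w hg
    have h1 : (F i).ρ g⁻¹ ((F i).ρ g w) = w := by
      rw [← Module.End.mul_apply, ← map_mul, inv_mul_cancel, map_one]
      rfl
    rw [hg] at h1
    exact h1
  have h2 := hm x⁻¹ (hSi x hx) s hs hs3 hsU (fun w => by rw [inv_pow]; exact hinv _ w (hxs w)) (by
    intro v hv hv2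
    rw [map_sub, LinearMap.sub_apply, h.eqv, inv_inv, hfix v hv hv2, sub_self]) y
  have h3 := hinv x⁻¹ y h2
  rw [inv_inv] at h3
  exact h3
-- END lc14

-- BEGIN lc15
theorem lc15_em (h : LS ρV ρU β A B F em) (i : Fin n) (g : H) (x : (F i).X) (w : V) :
    em i x (ρV g w) = em i ((F i).ρ g⁻¹ x) w := by
  have h1 := h.eqv i g⁻¹ x w
  rw [inv_inv] at h1
  exact h1.symm

theorem lc15_inv {X : Type} [AddCommGroup X] [Module (ZMod p) X] (ρ : Representation (ZMod p) H X)
    (g : H) (x : X) (hx : ρ g⁻¹ x = x) : ρ g x = x := by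
  calc ρ g x = ρ g (ρ g⁻¹ x) := by rw [hx]
    _ = x := by
      rw [← Module.End.mul_apply, ← map_mul, mul_inv_cancel, map_one]
      rfl

theorem lc15_inv' {X : Type} [AddCommGroup X] [Module (ZMod p) X] (ρ : Representation (ZMod p) H X)
    (g : H) (x : X) (hx : ρ g x = x) : ρ g⁻¹ x = x := by
  apply lc15_inv
  rw [inv_inv]
  exact hx

theorem lc15_fix (h : LS ρV ρU β A B F em) (i : Fin n) (g : H) (x : (F i).X) :
    FixL ρV (em i x) g ↔ (F i).ρ g x = x := by
  constructor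
  · intro hx
    apply lc15_inv
    apply h.inj i
    apply LinearMap.ext
    intro w
    rw [← lc15_em h]
    exact hx w
  · intro hx w
    rw [lc15_em h, lc15_inv' _ _ _ hx]

theorem lc15_zero (h : LS ρV ρU β A B F em) (y : ∀ i, (F i).X) (hy : ∑ i, em i (y i) = 0) :
    ∀ i, y i = 0 := by
  intro i
  have h1 := (iSupIndep_iff_finsetSum_eq_zero_imp_eq_zero _).mp h.ind Finset.univ
    (fun i => em i (y i)) (fun i _ => LinearMap.mem_range_self _ _) hy i (Finset.mem_univ i)
  exact h.inj i (by rw [h1, map_zero])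

theorem lc15_sum (h : LS ρV ρU β A B F em) (y : ∀ i, (F i).X) (x : H)
    (hy : ∀ w, ∑ i, em i (y i) (ρV x w) = ∑ i, em i (y i) w) : ∀ i, (F i).ρ x (y i) = y i := by
  intro i
  apply lc15_inv
  have h1 := lc15_zero h (fun i => (F i).ρ x⁻¹ (y i) - y i) (by
    apply LinearMap.ext
    intro w
    rw [LinearMap.sum_apply, LinearMap.zero_apply]
    have h2 : ∀ i, em i ((F i).ρ x⁻¹ (y i) - y i) w = em i (y i) (ρV x w) - em i (y i) w := by
      intro i
      rw [map_sub, LinearMap.sub_apply, lc15_em h]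
    rw [Finset.sum_congr rfl fun i _ => h2 i, Finset.sum_sub_distrib, hy w, sub_self]) i
  exact sub_eq_zero.mp h1

theorem lc15_comp {X J : Type} [AddCommGroup X] [Module (ZMod p) X] (W : J → Submodule (ZMod p) X)
    (hW : iSupIndep W) (Δ : Finset J) (u u' : J → X) (hu : ∀ j, u j ∈ W j)
    (hu' : ∀ j, u' j ∈ W j) (hs : ∑ j ∈ Δ, u j = ∑ j ∈ Δ, u' j) : ∀ j ∈ Δ, u j = u' j := by
  intro j hj
  have h1 := (iSupIndep_iff_finsetSum_eq_zero_imp_eq_zero _).mp hW Δ
    (fun j => u j - u' j) (fun j _ => sub_mem (hu j) (hu' j)) (by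
      rw [Finset.sum_sub_distrib, hs, sub_self]) j hj
  exact sub_eq_zero.mp h1

theorem lc15_syl {X : Type} [AddCommGroup X] [Module (ZMod p) X] (ρ : Representation (ZMod p) H X)
    (r : ℕ) (hr : r.Prime) (R R' : Sylow r H) (hR : ∀ x ∈ (R : Subgroup H), ∀ y, ρ x y = y) :
    ∀ x ∈ (R' : Subgroup H), ∀ y, ρ x y = y := by
  haveI : Fact r.Prime := ⟨hr⟩
  obtain ⟨g, hg⟩ := MulAction.exists_smul_eq H R R'
  intro x hx y
  rw [← hg, Sylow.coe_subgroup_smul, Subgroup.mem_pointwise_smul_iff_inv_smul_mem] at hx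
  have h2 : (MulAut.conj g)⁻¹ • x = g⁻¹ * x * g := by
    rw [← map_inv, MulAut.smul_def, MulAut.conj_apply]
    group
  rw [h2] at hx
  have h3 := hR _ hx (ρ g⁻¹ y)
  have h4 : ρ g (ρ (g⁻¹ * x * g) (ρ g⁻¹ y)) = ρ x y := by
    rw [← Module.End.mul_apply, ← map_mul, ← Module.End.mul_apply, ← map_mul]
    congr 2
    group
  rw [← h4, h3, ← Module.End.mul_apply, ← map_mul, mul_inv_cancel, map_one]
  rfl

theorem lc15_sp (h : LS ρV ρU β A B F em) (l : Module.Dual (ZMod p) U) (m : Module.Dual (ZMod p) V)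
    (z : ∀ i, (F i).X) (i : Fin n)
    (hz : ∀ x : H, FixL ρU l x → ∀ s : ℕ, s.Prime → 3 ≤ s →
      Ufr (F i).ρ (F i).W (F i).UU s → (∀ y, (F i).ρ (x ^ s) y = y) →
        (∀ w ∈ Rad β l, w ∈ Vs em i → em i (z i) (ρV x w) = em i (z i) w) → ∀ y, (F i).ρ x y = y)
    (hm : ∀ w ∈ Vs em i, m w = em i (z i) w) (r : ℕ) (hr : r.Prime) (hr3 : 3 ≤ r)
    (hrU : Ufr (F i).ρ (F i).W (F i).UU r)
    (R : Sylow r H) (hR : ∀ x ∈ (R : Subgroup H), Fx2 ρV ρU β l m x) :
    ∀ x ∈ (R : Subgroup H), ∀ y, (F i).ρ x y = y := by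
  have hpow : ∀ k : ℕ, ∀ x ∈ (R : Subgroup H), x ^ (r ^ k) = 1 → ∀ y, (F i).ρ x y = y := by
    intro k
    induction k with
    | zero =>
      intro x _ hx y
      rw [pow_zero, pow_one] at hx
      rw [hx, map_one]
      rfl
    | succ k ih =>
      intro x hx hxk
      have h1 := ih (x ^ r) (pow_mem hx r) (by rw [← pow_mul, ← pow_succ', hxk])
      refine hz x (hR x hx).1 r hr hr3 hrU h1 ?_
      intro w hw hwV
      have hinv : ρV x w ∈ Vs em i := by
        intro i' hi' y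
        rw [lc15_em h]
        exact hwV i' hi' _
      rw [← hm _ hinv, ← hm _ hwV]
      exact (hR x hx).2 w hw
  intro x hx
  haveI : Fact r.Prime := ⟨hr⟩
  obtain ⟨k, hk⟩ := R.2 ⟨x, hx⟩
  exact hpow k x hx (congrArg Subtype.val hk)

theorem lc15_cm (h : LS ρV ρU β A B F em) (r : ℕ) (hr : r ∈ B) (i : Fin n) (R : Sylow r H)
    (hR : ∀ x ∈ (R : Subgroup H), ∀ y, (F i).ρ x y = y) : ∀ c ∈ cm A r, ∀ y, (F i).ρ c y = y := by
  let K : Subgroup H := ((F i).ρ : H →* Module.End (ZMod p) (F i).X).ker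
  have hK : ∀ c, c ∈ K ↔ ∀ y, (F i).ρ c y = y := by
    intro c
    constructor
    · intro hc y
      have h1 : (F i).ρ c = 1 := hc
      rw [h1]
      rfl
    · intro hc
      show (F i).ρ c = 1
      apply LinearMap.ext
      intro y
      exact hc y
  rw [ar_cm h.ab (h.ar r hr) R]
  have h2 : ⁅A, (R : Subgroup H)⁆ ≤ K := by
    rw [Subgroup.commutator_le]
    intro a _ x hx
    rw [commutatorElement_def]
    have hx' : x ∈ K := (hK x).mpr (hR x hx)
    have h3 : a * x * a⁻¹ ∈ K := (inferInstance : K.Normal).conj_mem x hx' a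
    exact K.mul_mem h3 (K.inv_mem hx')
  intro c hc
  exact (hK c).mp (h2 hc)

theorem lc15_T (h : LS ρV ρU β A B F em) {Δ : ∀ i, Finset (F i).J} {v : ∀ i, (F i).J → (F i).X}
    {N : ℕ} (e : Fin N ≃ Σ i : Fin n, {j // j ∈ Δ i}) (k : Fin N → H) (k' : ∀ i, (F i).J → H)
    (hk' : ∀ i (j : (F i).J) (hj : j ∈ Δ i), k' i j = k (e.symm ⟨i, ⟨j, hj⟩⟩)) (w : V) :
    ∑ s, em (e s).1 (v (e s).1 (e s).2) (ρV (k s)⁻¹ w) =
      ∑ i, em i (∑ j ∈ Δ i, (F i).ρ (k' i j) (v i j)) w := by
  have h1 : ∀ s, em (e s).1 (v (e s).1 (e s).2) (ρV (k s)⁻¹ w) =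
      (fun q : Σ i : Fin n, {j // j ∈ Δ i} => em q.1 (v q.1 q.2) (ρV (k (e.symm q))⁻¹ w)) (e s) := by
    intro s
    show _ = em (e s).1 (v (e s).1 (e s).2) (ρV (k (e.symm (e s)))⁻¹ w)
    rw [Equiv.symm_apply_apply]
  rw [Finset.sum_congr rfl fun s _ => h1 s, Equiv.sum_comp e
    (fun q : Σ i : Fin n, {j // j ∈ Δ i} => em q.1 (v q.1 q.2) (ρV (k (e.symm q))⁻¹ w)),
    Fintype.sum_sigma]
  apply Finset.sum_congr rfl
  intro i _
  rw [map_sum, LinearMap.sum_apply, ← Finset.sum_coe_sort (Δ i)]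
  apply Finset.sum_congr rfl
  intro j _
  rw [lc15_em h, inv_inv, hk' i j.1 j.2]

theorem lc15_one {X J : Type} [AddCommGroup X] [Module (ZMod p) X]
    {ρ : Representation (ZMod p) H X} {W : J → Submodule (ZMod p) X} {UU : J → Subgroup H}
    (hB : BS ρ W UU) (hJ : Subsingleton J) (j : J) (a : H) (ha : Tv ρ (W j) a) :
    ∀ x, ρ a x = x := by
  intro x
  apply ha
  have h1 : (⨆ j', W j') ≤ W j := iSup_le fun j' => by rw [Subsingleton.elim j' j]
  rw [hB.sup] at h1
  exact h1 Submodule.mem_top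

/-- (lc15, size 5) Case X. PROOF. `m = ∑ em i (z i)` over the `i` with `Spc em β l i` (`spv`). `t` = the family `em i (v i j)`, `j ∈ Δ i` (index set `Σ i, Δ i`, made into `Fin N`). For `k` the functional `∑ t ∘ ρV k⁻¹` is `∑_i em i (T_i)`, `T_i = ∑_j ρ (k i j) (v i j)`
(`eqv`); `x` fixes it iff `ρ x T_i = T_i` for all `i` (`ind`, `inj`). First part: `r ∈ B`: at `i` the Sylow subgroups are trivial or fix all blocks (`bt`), so `R` fixes the components `ρ (k i j) (v i j)`. Last part: `Cho.cov`. Second part: `a ∈ A` which fixes all `v i j`, `j ∈ Δ i`, is trivial on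
these `W j` (`bs_fpf`), so `FixL ρU l a` (`hl`), and for `i` with `Spc` (one block) it is trivial on `(F i).X`, so on `Vs em i`, so it fixes `m`. Third part: if it fails then `Bad ρV ρU β A F Δ v l m r`. Let `R` fix `l`, `m` on the radical. For `i` with `Spc`: an `x ∈ R` with `x ^ r` trivial on
`(F i).X` is trivial on it (`spv`), so `R` is trivial on `(F i).X` (`r`-group), and so is `cm A r = ⁅A, R⁆`, so the elements of `cm A r` fix `m`. So `Bad ρV ρU β A F Δ v l 0 r`, and `hb` gives an `i` with `Spc` and `R` not trivial, contradiction. -/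
theorem cx_of (h : LS ρV ρU β A B F em) {Δ : ∀ i, Finset (F i).J}
    {v : ∀ i, (F i).J → (F i).X} (hc : Cho A B F Δ v) (l : Module.Dual (ZMod p) U) (hl0 : l ≠ 0)
    (hl : ∀ a ∈ A, (∀ i, ∀ j ∈ Δ i, Tv (F i).ρ ((F i).W j) a) → FixL ρU l a)
    (hb : ∀ r ∈ B, cm A r ≠ ⊥ → Bad ρV ρU β A F Δ v l 0 r → ∃ i, Spc em β l i ∧
      ¬ ∀ R : Sylow r H, ∀ y ∈ (R : Subgroup H), ∀ x, (F i).ρ y x = x) : CX ρV ρU β A B F := by
  classical
  -- `A` fixes the blocks
  have hAU : ∀ i (j : (F i).J), ∀ a ∈ A, a ∈ (F i).UU j := by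
    intro i j a ha
    have h1 : a ∈ (F i).A := h.Ale i ha
    exact (Subgroup.mem_iInf.mp h1) j
  have hAN : ∀ i (j : (F i).J), ∀ a ∈ A, ((F i).W j).map ((F i).ρ a) = (F i).W j := by
    intro i j a ha
    exact (mem_Nm _ _ _).mp ((F i).bs.uN j (hAU i j a ha))
  have hvW : ∀ i (j : (F i).J), ∀ a ∈ A, (F i).ρ a (v i j) ∈ (F i).W j := by
    intro i j a ha
    rw [← hAN i j a ha]
    exact Submodule.mem_map_of_mem (hc.vW i j)
  -- the special vectors
  have hz0 : ∀ i, ∃ z : (F i).X, (Spc em β l i → ∀ x : H, FixL ρU l x → ∀ s : ℕ, s.Prime →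
      3 ≤ s → Ufr (F i).ρ (F i).W (F i).UU s → (∀ y, (F i).ρ (x ^ s) y = y) →
        (∀ w ∈ Rad β l, w ∈ Vs em i → em i z (ρV x w) = em i z w) → ∀ y, (F i).ρ x y = y) ∧
      (¬ Spc em β l i → z = 0) := by
    intro i
    by_cases hS : Spc em β l i
    · obtain ⟨z, hz⟩ := spv h l i hS
      exact ⟨z, fun _ => hz, fun h' => absurd hS h'⟩
    · exact ⟨0, fun h' => absurd h' hS, fun _ => rfl⟩
  choose z hz hzn using hz0
  set m : Module.Dual (ZMod p) V := ∑ i, em i (z i) with hm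
  have hmw : ∀ w, m w = ∑ i, em i (z i) w := by
    intro w
    rw [hm, LinearMap.sum_apply]
  have hmV : ∀ i, ∀ w ∈ Vs em i, m w = em i (z i) w := by
    intro i w hw
    rw [hmw, Finset.sum_eq_single i]
    · intro i' _ hi'
      exact hw i' hi' _
    · intro hi
      exact absurd (Finset.mem_univ i) hi
  have hmfix : ∀ a : H, (∀ i, Spc em β l i → ∀ y, (F i).ρ a y = y) → ∀ w, m (ρV a w) = m w := by
    intro a ha w
    rw [hmw, hmw]
    apply Finset.sum_congr rfl
    intro i _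
    rw [lc15_em h]
    by_cases hS : Spc em β l i
    · rw [lc15_inv' _ _ _ (ha i hS _)]
    · rw [hzn i hS, map_zero]
  -- the index set
  obtain ⟨N, ⟨e'⟩⟩ : ∃ N : ℕ, Nonempty ((Σ i : Fin n, {j // j ∈ Δ i}) ≃ Fin N) :=
    ⟨_, ⟨Fintype.equivFin _⟩⟩
  let e := e'.symm
  -- the functions `k`
  have hkk : ∀ k : Fin N → H, (∀ s, k s ∈ A) → ∃ k' : ∀ i, (F i).J → H,
      (∀ i j, k' i j ∈ A) ∧
        ∀ i (j : (F i).J) (hj : j ∈ Δ i), k' i j = k (e.symm ⟨i, ⟨j, hj⟩⟩) := by
    intro k hk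
    refine ⟨fun i j => if hj : j ∈ Δ i then k (e.symm ⟨i, ⟨j, hj⟩⟩) else 1, ?_, ?_⟩
    · intro i j
      dsimp only
      split_ifs with hj
      · exact hk _
      · exact A.one_mem
    · intro i j hj
      exact dif_pos hj
  have hfixT : ∀ (k : Fin N → H) (k' : ∀ i, (F i).J → H),
      (∀ i (j : (F i).J) (hj : j ∈ Δ i), k' i j = k (e.symm ⟨i, ⟨j, hj⟩⟩)) → ∀ x : H,
      (∀ w, ∑ s, em (e s).1 (v (e s).1 (e s).2) (ρV (k s)⁻¹ (ρV x w)) =
        ∑ s, em (e s).1 (v (e s).1 (e s).2) (ρV (k s)⁻¹ w)) → ∀ i,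
      (F i).ρ x (∑ j ∈ Δ i, (F i).ρ (k' i j) (v i j)) =
        ∑ j ∈ Δ i, (F i).ρ (k' i j) (v i j) := by
    intro k k' hk' x hx
    apply lc15_sum h
    intro w
    rw [← lc15_T h e k k' hk', ← lc15_T h e k k' hk']
    exact hx w
  refine ⟨l, hl0, m, N, fun s => em (e s).1 (v (e s).1 (e s).2), ?_, ?_, ?_, ?_⟩
  · -- first part
    intro k hk r hr R hR x hx s
    obtain ⟨k', hk'A, hk'⟩ := hkk k hk
    rw [lc15_fix h]
    have hks : k' (e s).1 (e s).2.1 = k s := by
      rw [hk' (e s).1 (e s).2.1 (e s).2.2]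
      exact congrArg k (e.symm_apply_apply s)
    have hu : (F (e s).1).ρ x ((F (e s).1).ρ (k s) (v (e s).1 (e s).2)) =
        (F (e s).1).ρ (k s) (v (e s).1 (e s).2) := by
      rcases h.bt r hr (e s).1 with ht | ⟨hblk, _, _⟩
      · exact ht R x hx _
      · rw [← hks]
        refine lc15_comp (F (e s).1).W (F (e s).1).bs.ind (Δ (e s).1)
          (fun j => (F (e s).1).ρ x ((F (e s).1).ρ (k' (e s).1 j) (v (e s).1 j)))
          (fun j => (F (e s).1).ρ (k' (e s).1 j) (v (e s).1 j)) ?_ ?_ ?_ (e s).2.1 (e s).2.2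
        · intro j
          have h1 := Submodule.mem_map_of_mem (f := (F (e s).1).ρ x)
            (hvW (e s).1 j _ (hk'A (e s).1 j))
          rwa [hblk R x hx j] at h1
        · intro j
          exact hvW (e s).1 j _ (hk'A (e s).1 j)
        · have h2 := hfixT k k' hk' x (hR x hx) (e s).1
          rw [map_sum] at h2
          exact h2
    rw [map_mul, map_mul, Module.End.mul_apply, Module.End.mul_apply, hu,
      ← Module.End.mul_apply, ← map_mul, inv_mul_cancel, map_one]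
    rfl
  · -- second part
    intro a ha hfa
    have hv : ∀ i, ∀ j ∈ Δ i, (F i).ρ a (v i j) = v i j := by
      intro i j hj
      have h1 := hfa (e.symm ⟨i, ⟨j, hj⟩⟩)
      dsimp only at h1
      rw [Equiv.apply_symm_apply] at h1
      exact (lc15_fix h _ _ _).mp h1
    have hTv : ∀ i, ∀ j ∈ Δ i, Tv (F i).ρ ((F i).W j) a := by
      intro i j hj
      exact bs_fpf (F i).bs j a (hAU i j a ha) (v i j) (hc.vW i j) (hc.v0 i j) (hv i j hj)
    refine ⟨hl a ha hTv, ?_⟩
    intro w _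
    apply hmfix
    intro i hS
    obtain ⟨j, hj⟩ := hc.ne i
    exact lc15_one (F i).bs hS.1 j a (hTv i j hj)
  · -- third part
    rintro r hr hD ⟨⟨R, hR⟩, h2, h3, h4⟩
    have hrp : r.Prime := (h.ar r hr).prime
    have hRt : ∀ i, Spc em β l i → ∀ x ∈ (R : Subgroup H), ∀ y, (F i).ρ x y = y := by
      intro i hS
      rcases h.bt r hr i with ht | ⟨_, _, hrU⟩
      · exact ht R
      · exact lc15_sp h l m z i (hz i hS) (hmV i) r hrp (h.b3 r hr) hrU R hR
    have hct : ∀ i, Spc em β l i → ∀ c ∈ cm A r, ∀ y, (F i).ρ c y = y := by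
      intro i hS
      exact lc15_cm h r hr i R (hRt i hS)
    have hbad : Bad ρV ρU β A F Δ v l 0 r := by
      refine ⟨⟨R, fun x hx => ⟨(hR x hx).1, fun w _ => rfl⟩⟩, ?_, ?_, ?_⟩
      · intro i j hj
        obtain ⟨R', hR'⟩ := h2 (e.symm ⟨i, ⟨j, hj⟩⟩)
        refine ⟨R', ?_⟩
        intro x hx
        have h5 := hR' x hx
        dsimp only at h5
        rw [Equiv.apply_symm_apply] at h5
        exact (lc15_fix h _ _ _).mp h5
      · intro c hcc hc0 i j hj
        have h5 := h3 c hcc ⟨hc0.1, fun w _ => hmfix c (fun i hS => hct i hS c hcc) w⟩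
          (e.symm ⟨i, ⟨j, hj⟩⟩)
        dsimp only at h5
        rw [Equiv.apply_symm_apply] at h5
        exact (lc15_fix h _ _ _).mp h5
      · intro x hx
        obtain ⟨y, hy, hy2⟩ := h4 (fun s => x (e s).1 (e s).2) (fun s => hx _ _)
        refine ⟨y, hy, ?_⟩
        intro i j hj
        have h5 := hy2 (e.symm ⟨i, ⟨j, hj⟩⟩)
        dsimp only at h5
        rw [Equiv.apply_symm_apply] at h5
        exact (lc15_fix h _ _ _).mp h5
    obtain ⟨i, hS, hn⟩ := hb r hr hD hbad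
    exact hn fun R' => lc15_syl (F i).ρ r hrp R R' (hRt i hS)
  · -- last part
    intro k hk r hrp hr3 ⟨i, hi⟩ R hR
    obtain ⟨k', hk'A, hk'⟩ := hkk k hk
    exact hc.cov i (k' i) (hk'A i) r hrp hr3 hi R fun x hx => hfixT k k' hk' x (hR x hx) i
-- END lc15

-- BEGIN lc16
/-- If all the Sylow `r`-subgroups act trivially then so does `cm A r`. -/
private theorem lc16_tr {X : Type} [AddCommGroup X] [Module (ZMod p) X]
    (ρ : Representation (ZMod p) H X) (A : Subgroup H) (r : ℕ)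
    (hR : ∀ R : Sylow r H, ∀ y ∈ (R : Subgroup H), ∀ x, ρ y x = x) (c : H) (hc : c ∈ cm A r) :
    ∀ x, ρ c x = x := by
  have hle : (⨆ R : Sylow r H, (R : Subgroup H)) ≤ ρ.ker := by
    refine iSup_le fun R y hy => ?_
    rw [MonoidHom.mem_ker]
    ext x
    rw [hR R y hy x]
    rfl
  have h1 : cm A r ≤ ρ.ker := by
    refine Subgroup.commutator_le.2 fun a _ b hb => ?_
    have hb' : b ∈ ρ.ker := hle hb
    rw [commutatorElement_def]
    exact mul_mem (ρ.normal_ker.conj_mem b hb' a) (inv_mem hb')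
  have h2 : ρ c = 1 := h1 hc
  intro x
  rw [h2]
  rfl

/-- The members of `I` are not trivial for the Sylow subgroups. -/
private theorem lc16_nt {l : Module.Dual (ZMod p) U} {r : ℕ} {I : Finset (Fin n)}
    (ha : Anl ρU A F l r I) (i : Fin n) (hi : i ∈ I) :
    ¬ ∀ R : Sylow r H, ∀ y ∈ (R : Subgroup H), ∀ x, (F i).ρ y x = x := by
  intro hR
  obtain ⟨c, hc, x, hx⟩ := (ha.hI i).1 hi
  exact hx (lc16_tr (F i).ρ A r hR c hc x)

private theorem lc16_abq (h : LS ρV ρU β A B F em) {l : Module.Dual (ZMod p) U} {r : ℕ}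
    (hr : r ∈ B) {I : Finset (Fin n)} (ha : Anl ρU A F l r I) (i : Fin n) (hi : i ∈ I) :
    Abq (F i).ρ (F i).W (F i).UU := by
  rcases h.bt r hr i with h1 | h1
  · exact absurd (fun R y hy x => h1 R y hy x) (lc16_nt ha i hi)
  · exact h1.2.1

/-- Two summands, the first one is not larger than the second one. -/
private theorem lc16_two (h : LS ρV ρU β A B F em) {Δ : ∀ i, Finset (F i).J}
    {v : ∀ i, (F i).J → (F i).X} (hc : Cho A B F Δ v) (l : Module.Dual (ZMod p) U) (hl0 : l ≠ 0)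
    {r : ℕ} (hr : r ∈ B) (hCY : ¬ CY ρV ρU β A F) (i i' : Fin n) (hi : i ≠ i')
    (ha : Anl ρU A F l r {i, i'})
    (h1 : ∀ x ∈ Vs em i, ∀ y ∈ Vs em i, β x y = 0)
    (h2 : ∀ x ∈ Vs em i', ∀ y ∈ Vs em i', β x y = 0) (h3 : ∀ x ∈ Cs em {i, i'}, ∀ y, β x y = 0)
    (hle : Nat.card (F i).X ≤ Nat.card (F i').X) : Spc em β l i' := by
  by_cases h4 : Nat.card (F i).X ^ 3 ≤ Nat.card (F i').X
  · exact case_B2 h l hl0 r hr i i' hi ha h1 h2 h3 h4
  · exfalso
    have h5 := case_Bn h l r i i' hi ha h4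
    obtain ⟨l', hl', hw1, hw2⟩ := case_B h i i' hi h1 h2 h3 hle h5
    refine hCY (cy_of h hc {i, i'} (fun k hk => ⟨ha.one k hk, lc16_abq h hr ha k hk⟩) l' hl' h3 ?_)
    intro k hk
    rcases Finset.mem_insert.1 hk with hk1 | hk1
    · rw [hk1]
      exact hw1
    · rw [Finset.mem_singleton.1 hk1]
      exact hw2

/-- (lc16, size 3) PROOF. `ch_l`, `ch_v`; if `CY` is false then `cx_of`: for a bad `r` take `ana`, `ana_two`. `I = {i}`: if `β` is not zero on `Vs em i`: `case_A`, `cy_of`; otherwise `case_C` (`i ∈ I`, so `cm A r` and `R` are not trivial on `(F i).X`).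
`I = {i, i'}`, `card (F i).X ≤ card (F i').X` (or exchange them): if `card (F i).X ^ 3 ≤ card (F i').X`: `case_B2`; otherwise `case_Bn`, `case_B`, `cy_of`. `Abq` for `i ∈ I` from `bt`. -/
theorem lc_main (h : LS ρV ρU β A B F em) : CY ρV ρU β A F ∨ CX ρV ρU β A B F := by
  obtain ⟨i₀, j₀, i₁, j₁, l, hl0, hli, hl⟩ := ch_l h
  obtain ⟨Δ, v, hc, hj0, hj1⟩ := ch_v h i₀ j₀ i₁ j₁
  by_cases hCY : CY ρV ρU β A F
  · exact Or.inl hCY
  right
  have hl' : ∀ a ∈ A, (∀ i, ∀ j ∈ Δ i, Tv (F i).ρ ((F i).W j) a) → FixL ρU l a :=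
    fun a ha H => hl a ha (H i₀ j₀ hj0) (H i₁ j₁ hj1)
  refine cx_of h hc l hl0 hl' ?_
  intro r hr hD hbad
  obtain ⟨I, ha⟩ := ana h hc l hl0 hli hl' r hr hD hbad
  obtain ⟨hCC, hI⟩ := ana_two h l r hD I ha
  rcases hI with ⟨i, rfl⟩ | ⟨i, i', hii, rfl, h1, h2, h3⟩
  · by_cases hne : ∃ x ∈ Vs em i, ∃ y ∈ Vs em i, β x y ≠ 0
    · exfalso
      obtain ⟨hC, l', hl1, hw⟩ := case_A h l hl0 r hr hD i ha hne
      refine hCY (cy_of h hc {i} (fun k hk => ⟨ha.one k hk, lc16_abq h hr ha k hk⟩) l' hl1 hC ?_)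
      intro k hk
      rw [Finset.mem_singleton.1 hk]
      exact hw
    · have h0 : ∀ x ∈ Vs em i, ∀ y ∈ Vs em i, β x y = 0 := by
        intro x hx y hy
        by_contra hxy
        exact hne ⟨x, hx, y, hy, hxy⟩
      exact ⟨i, case_C h l hl0 r hr hD i ha h0, lc16_nt ha i (Finset.mem_singleton_self i)⟩
  · rcases le_total (Nat.card (F i).X) (Nat.card (F i').X) with hle | hle
    · exact ⟨i', lc16_two h hc l hl0 hr hCY i i' hii ha h1 h2 h3 hle,
        lc16_nt ha i' (Finset.mem_insert_of_mem (Finset.mem_singleton_self i'))⟩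
    · have hsw : ({i, i'} : Finset (Fin n)) = {i', i} := Finset.pair_comm i i'
      refine ⟨i, lc16_two h hc l hl0 hr hCY i' i (Ne.symm hii) (hsw ▸ ha) h2 h1 ?_ hle,
        lc16_nt ha i (Finset.mem_insert_self i _)⟩
      rw [← hsw]
      exact h3
-- END lc16

end

end Pool.Agent.Nap
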