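import Pool.Agent.Nap.Lo

/-! Two characters cover all the primes of a group of odd order. -/

set_option autoImplicit false

namespace Pool.Agent.Nap

open Classical
open Pool.Agent.Nan Pool.Agent.Nas Pool.Agent.Nao
open Pool.Agent.KB Pool.Agent.KB.ContrAux Pool.Agent.KBL Pool.Agent.KBZ Pool.Agent.KBU
  Pool.Agent.KBQ Pool.Agent.KBY

section
variable {H : Type} [Group H] [Finite H]

-- BEGIN mn1
private theorem mn1_conj {r : ℕ} (R : Sylow r H) (S : Subgroup H) (g : H)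
    (h : ∀ x ∈ (R : Subgroup H), g⁻¹ * x * g ∈ S) :
    ∃ R'' : Sylow r H, (R'' : Subgroup H) ≤ S := by
  refine ⟨g⁻¹ • R, fun x hx => ?_⟩
  rw [Sylow.coe_subgroup_smul, Subgroup.mem_pointwise_smul_iff_inv_smul_mem, ← map_inv,
    MulAut.smul_def, MulAut.conj_apply] at hx
  have h1 := h _ hx
  have h2 : g⁻¹ * (g⁻¹⁻¹ * x * g⁻¹⁻¹⁻¹) * g = x := by group
  rwa [h2] at h1

private theorem mn1_ext {ι : Type} {n : ι → ℕ} (i : ι) (C : Subgroup H) (x : Fin (n i) → H)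
    (hx : ∀ j, x j ∈ C) :
    ∃ X : (Σ i, Fin (n i)) → H, (∀ J, X J ∈ C) ∧ (∀ j, X ⟨i, j⟩ = x j) ∧
      ∀ i' j', i' ≠ i → X ⟨i', j'⟩ = 1 := by
  refine ⟨fun J => if h : ∃ j, J = ⟨i, j⟩ then x h.choose else 1, fun J => ?_, fun j => ?_,
    fun i' j' hi => ?_⟩
  · by_cases h : ∃ j, J = ⟨i, j⟩
    · simp only [h, dite_true]
      exact hx _
    · simp only [h, dite_false]
      exact one_mem _
  · have h : ∃ j', (⟨i, j⟩ : Σ i, Fin (n i)) = ⟨i, j'⟩ := ⟨j, rfl⟩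
    have h1 : h.choose = j := by
      have := h.choose_spec
      exact (eq_of_heq (Sigma.mk.inj this).2).symm
    show (if h : ∃ j', (⟨i, j⟩ : Σ i, Fin (n i)) = ⟨i, j'⟩ then x h.choose else 1) = x j
    rw [dif_pos h, h1]
  · have h : ¬ ∃ j, (⟨i', j'⟩ : Σ i, Fin (n i)) = ⟨i, j⟩ := by
      rintro ⟨j, hj⟩
      exact hi (congrArg Sigma.fst hj)
    show (if h : ∃ j, (⟨i', j'⟩ : Σ i, Fin (n i)) = ⟨i, j⟩ then x h.choose else 1) = 1
    rw [dif_neg h]

/-- (mn1, size 2) PROOF. The second half of the proof of `fin_glue` of Nan/Ar.lean. -/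
theorem fin_glue2 {ι : Type} [Finite ι] {A : Subgroup H} (hA : Ab A) (B : Set ℕ)
    (hB : ∀ r ∈ B, AR A r) (hne : ∀ r ∈ B, cm A r ≠ ⊥) (p : ι → ℕ) (nt : ι → Subgroup H → Prop)
    (Ss : ι → Subgroup H) (n : ι → ℕ) (St : ∀ i, Fin (n i) → Subgroup H)
    (hblk : ∀ i, Blk2 A B (p i) (nt i) (Ss i) (n i) (St i))
    (hf : ∀ q : ℕ, q.Prime → ∀ D : Subgroup H, D.Normal → IsPGroup q D → D ≠ ⊥ →
      ∃ i, p i ≠ q ∧ nt i D) :
    ∃ k : ∀ i, Fin (n i) → H, (∀ i j, k i j ∈ A) ∧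
      ∀ r ∈ B, (∀ R : Sylow r H, ¬ ∀ x ∈ (R : Subgroup H), ∀ i j, (k i j)⁻¹ * x * k i j ∈ St i j) ∨
        ¬ ∃ R : Sylow r H, (∀ i, (R : Subgroup H) ≤ Ss i) ∧
          ∀ c ∈ cm A r, (∀ i, c ∈ Ss i) → c = 1 := by
  obtain ⟨k, hkA, hk⟩ := glue (J := Σ i, Fin (n i)) hA B hB (fun J => St J.1 J.2)
  refine ⟨fun i j => k ⟨i, j⟩, fun i j => hkA _, ?_⟩
  intro r hr
  by_cases hZZ : ∀ R : Sylow r H,
      ¬ ∀ x ∈ (R : Subgroup H), ∀ i j, (k ⟨i, j⟩)⁻¹ * x * k ⟨i, j⟩ ∈ St i j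
  · exact Or.inl hZZ
  · right
    push Not at hZZ
    obtain ⟨R', hZ⟩ := hZZ
    rintro ⟨R, hR1, hR2⟩
    have hS := hk r hr ⟨R', fun J x hx => hZ x hx J.1 J.2⟩
    have hAc : Ab (cm A r) := ⟨cm_nor hA r, fun a ha b hb =>
      hA.com a (cm_le hA r ha) b (cm_le hA r hb)⟩
    have hcard : Nat.card (cm A r) ≠ 1 := fun h => hne r hr (Subgroup.card_eq_one.1 h)
    obtain ⟨q, hq, hqd⟩ := Nat.exists_prime_and_dvd hcard
    obtain ⟨D, hD, hDA, hDp, hD1⟩ := omq hAc q hq hqd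
    obtain ⟨i, hpi, hnt⟩ := hf q hq D hD hDp hD1
    have hc := (hblk i).c r hr ⟨q, hq, Ne.symm hpi, D, hD, hDA, hDp, hnt⟩
    have hd : Srj A r (St i) := by
      intro x hx
      obtain ⟨X, hX1, hX2, -⟩ := mn1_ext i (cm A r) x hx
      obtain ⟨y, hy, hy2⟩ := hS X hX1
      refine ⟨y, hy, fun j => ?_⟩
      have := hy2 ⟨i, j⟩
      rwa [hX2 j] at this
    have hc3 : ¬ ∀ c ∈ cm A r, c ∈ Ss i → ∀ j, c ∈ St i j := fun h3 =>
      hc ⟨⟨R, hR1 i⟩, fun j => mn1_conj R' (St i j) (k ⟨i, j⟩) fun x hx =>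
        hZ x hx i j, h3, hd⟩
    push Not at hc3
    obtain ⟨c, hcA, hcS, j, hcj⟩ := hc3
    obtain ⟨X, hX1, hX2, hX3⟩ := mn1_ext i (cm A r) (fun _ => c) (fun _ => hcA)
    obtain ⟨y, hy, hy2⟩ := hS X hX1
    have hyi : ∀ j, c⁻¹ * y ∈ St i j := by
      intro j
      have := hy2 ⟨i, j⟩
      rwa [hX2 j] at this
    have hyS : ∀ i', y ∈ Ss i' := by
      intro i'
      by_cases hi : i' = i
      · subst hi
        have h1 : c⁻¹ * y ∈ Ss i' := (hblk i').b1 _
          (mul_mem (inv_mem (cm_le hA r hcA)) (cm_le hA r hy)) hyi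
        have h2 := mul_mem hcS h1
        rwa [mul_inv_cancel_left] at h2
      · refine (hblk i').b1 y (cm_le hA r hy) fun j' => ?_
        have := hy2 ⟨i', j'⟩
        rwa [hX3 i' j' hi, inv_one, one_mul] at this
    have hy1 := hR2 y hy hyS
    apply hcj
    have h1 := hyi j
    rw [hy1, mul_one] at h1
    exact inv_mem_iff.1 h1
-- END mn1

end

/-- The module of the linear characters of order `p` of `Op p G` and its irreducible submodules. -/
structure PD (G : Type) [Group G] [Finite G] (p : ℕ) where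
  V : Type
  [iA : AddCommGroup V]
  [iM : Module (ZMod p) V]
  [iF : Finite V]
  q : Op p G → V
  ρV : Representation (ZMod p) (G ⧸ Fit G) V
  n : ℕ
  F : Fin n → Fam p (G ⧸ Fit G)
  em : ∀ i, (F i).X →ₗ[ZMod p] Module.Dual (ZMod p) V
  q_mul : ∀ x y, q (x * y) = q x + q y
  q_surj : Function.Surjective q
  q_ker : ∀ x, q x = 0 ↔ x ∈ pe_Phi p (Op p G)
  q_eq : ∀ (g : G) (x y : Op p G), (y : G) = g * x * g⁻¹ → q y = ρV (g : G ⧸ Fit G) (q x)
  inj : ∀ i, Function.Injective (em i)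
  eqv : ∀ i h x v, em i ((F i).ρ h x) v = em i x (ρV h⁻¹ v)
  ind : iSupIndep fun i => LinearMap.range (em i)
  sup : ¬ p ∣ Nat.card (G ⧸ Fit G) → ⨆ i, LinearMap.range (em i) = ⊤
  det : ∀ r : ℕ, r.Prime → r ≠ p → ∀ D : Subgroup (G ⧸ Fit G), D.Normal → IsPGroup r D →
    ntG (Op p G) D → ∃ i, ∃ d ∈ D, ∃ x, (F i).ρ d x ≠ x

attribute [instance] PD.iA PD.iM PD.iF

section
variable {G : Type} [Group G] [Finite G]

-- BEGIN mn2
/-- An irreducible invariant submodule. -/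
private def mn2_I {p : ℕ} {H X : Type} [Group H] [AddCommGroup X] [Module (ZMod p) X]
    (ρ : Representation (ZMod p) H X) (Y : Submodule (ZMod p) X) : Prop :=
  Ivt ρ ⊤ Y ∧ Y ≠ ⊥ ∧ ∀ W ≤ Y, Ivt ρ ⊤ W → W = ⊥ ∨ W = Y

private theorem mn2_finS {p : ℕ} (X : Type) [AddCommGroup X] [Module (ZMod p) X] [Finite X] :
    Finite (Submodule (ZMod p) X) :=
  Finite.of_injective (fun W : Submodule (ZMod p) X => (W : Set X)) SetLike.coe_injective

/-- A non-zero invariant submodule contains an irreducible one. -/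
private theorem mn2_sub {p : ℕ} {H X : Type} [Group H] [AddCommGroup X] [Module (ZMod p) X]
    [Finite X] (ρ : Representation (ZMod p) H X) (T : Submodule (ZMod p) X) (hT : Ivt ρ ⊤ T)
    (h0 : T ≠ ⊥) : ∃ Z ≤ T, mn2_I ρ Z := by
  have hfin := mn2_finS (p := p) X
  have hne : Nonempty {Z : Submodule (ZMod p) X // Z ≤ T ∧ Ivt ρ ⊤ Z ∧ Z ≠ ⊥} :=
    ⟨⟨T, le_rfl, hT, h0⟩⟩
  obtain ⟨⟨Z, hZT, hZ, hZ0⟩, hmin⟩ := Finite.exists_min
    (fun Z : {Z : Submodule (ZMod p) X // Z ≤ T ∧ Ivt ρ ⊤ Z ∧ Z ≠ ⊥} => Nat.card Z.1)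
  refine ⟨Z, hZT, hZ, hZ0, fun W hW hWi => ?_⟩
  by_contra hc
  push Not at hc
  have h1 : Nat.card Z ≤ Nat.card W := hmin ⟨W, hW.trans hZT, hWi, hc.1⟩
  apply hc.2
  apply SetLike.coe_injective
  exact Set.eq_of_subset_of_ncard_le hW h1 (Set.toFinite _)

private theorem mn2_inv {p : ℕ} {H X : Type} [Group H] [AddCommGroup X] [Module (ZMod p) X]
    (ρ : Representation (ZMod p) H X) (s : Set (Submodule (ZMod p) X))
    (hs : ∀ Y ∈ s, Ivt ρ ⊤ Y) : Ivt ρ ⊤ (sSup s) := by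
  intro n hn w hw
  have h1 : sSup s ≤ (sSup s).comap (ρ n) :=
    sSup_le fun Y hY y hy => le_sSup hY (hs Y hY n hn y hy)
  exact h1 hw

/-- A maximal independent family of irreducible submodules. -/
private theorem mn2_soc {p : ℕ} {H X : Type} [Group H] [AddCommGroup X] [Module (ZMod p) X]
    [Finite X] (ρ : Representation (ZMod p) H X) :
    ∃ s : Set (Submodule (ZMod p) X), sSupIndep s ∧ (∀ Y ∈ s, mn2_I ρ Y) ∧
      ∀ Z, mn2_I ρ Z → Z ≤ sSup s := by
  have hfin := mn2_finS (p := p) X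
  have hne : Nonempty {s : Set (Submodule (ZMod p) X) // sSupIndep s ∧ ∀ Y ∈ s, mn2_I ρ Y} :=
    ⟨⟨∅, sSupIndep_empty, fun Y hY => absurd hY (Set.notMem_empty Y)⟩⟩
  obtain ⟨⟨s, hs, hsI⟩, hmax⟩ := Finite.exists_max
    (fun s : {s : Set (Submodule (ZMod p) X) // sSupIndep s ∧ ∀ Y ∈ s, mn2_I ρ Y} =>
      Set.ncard s.1)
  refine ⟨s, hs, hsI, fun Z hZ => ?_⟩
  by_contra hc
  have hinv : Ivt ρ ⊤ (sSup s) := mn2_inv ρ s fun Y hY => (hsI Y hY).1
  have hd : Disjoint Z (sSup s) := by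
    rw [disjoint_iff]
    rcases hZ.2.2 (Z ⊓ sSup s) inf_le_left
      (fun n hn w hw => ⟨hZ.1 n hn w hw.1, hinv n hn w hw.2⟩) with h | h
    · exact h
    · exact absurd (inf_eq_left.1 h) hc
  have hns : Z ∉ s := fun h => hc (le_sSup h)
  have h1 : sSupIndep (insert Z s) := by
    intro a ha
    rcases ha with rfl | ha
    · rw [Set.insert_sdiff_of_mem _ (Set.mem_singleton _), Set.sdiff_singleton_eq_self hns]
      exact hd
    · have hne : Z ≠ a := fun h => hns (h ▸ ha)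
      rw [Set.insert_sdiff_of_notMem s
        (show Z ∉ ({a} : Set (Submodule (ZMod p) X)) from fun h => hne h), sSup_insert]
      have h2 : Disjoint a (sSup (s \ {a})) := hs ha
      rw [sup_comm]
      refine h2.disjoint_sup_right_of_disjoint_sup_left ?_
      refine Disjoint.mono_left ?_ hd.symm
      exact sup_le (le_sSup ha) (sSup_le_sSup Set.sdiff_subset)
  have h2 : Set.ncard (insert Z s) ≤ Set.ncard s := hmax ⟨insert Z s, h1, by
    intro Y hY
    rcases hY with rfl | hY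
    · exact hZ
    · exact hsI Y hY⟩
  rw [Set.ncard_insert_of_notMem hns (Set.toFinite _)] at h2
  omega

/-- The family member for an irreducible submodule. -/
private theorem mn2_fam {p : ℕ} [Fact p.Prime] {H X : Type} [Group H] [Finite H]
    [AddCommGroup X] [Module (ZMod p) X] [Finite X] (ρ : Representation (ZMod p) H X)
    (Y : Submodule (ZMod p) X) (hY : mn2_I ρ Y) :
    ∃ (F : Fam p H) (e : F.X →ₗ[ZMod p] X), Function.Injective e ∧ LinearMap.range e = Y ∧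
      ∀ h x, e (F.ρ h x) = ρ h (e x) := by
  have hn : Nontrivial Y := Submodule.nontrivial_iff_ne_bot.2 hY.2.1
  have hirr : Irrd (rs ρ Y hY.1) ⊤ := by
    intro W hW
    have h1 := hY.2.2 (W.map Y.subtype) (Submodule.map_subtype_le Y W) (by
      rintro n hn _ ⟨w, hw, rfl⟩
      exact ⟨rs ρ Y hY.1 n w, hW n hn w hw, rfl⟩)
    rcases h1 with h | h
    · left
      rw [eq_bot_iff]
      intro w hw
      have h2 : (w : X) ∈ W.map Y.subtype := ⟨w, hw, rfl⟩
      rw [h, Submodule.mem_bot] at h2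
      exact Submodule.mem_bot _ |>.2 (Subtype.ext h2)
    · right
      rw [eq_top_iff]
      intro y _
      have h2 : (y : X) ∈ W.map Y.subtype := by
        rw [h]
        exact y.2
      obtain ⟨w, hw, he⟩ := h2
      have h3 : w = y := Subtype.ext he
      exact h3 ▸ hw
  obtain ⟨J, hJ, W, UU, hB⟩ := bs_ex hirr
  exact ⟨{ X := Y, ρ := rs ρ Y hY.1, irr := hirr, J := J, W := W, UU := UU, bs := hB },
    Y.subtype, Y.injective_subtype, Y.range_subtype, fun h x => rfl⟩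

/-- Automorphisms preserve the kernel of `q`. -/
private theorem mn2_ker {p : ℕ} {P V : Type} [Group P] [AddCommGroup V]
    [Module (ZMod p) V] (q : P → V) (q_mul : ∀ x y, q (x * y) = q x + q y)
    (q_ker : ∀ x, q x = 0 ↔ x ∈ pe_Phi p P) (α : P →* P) (x : P) (hx : q x = 0) :
    q (α x) = 0 := by
  have hq1 : q 1 = 0 := by
    have h1 := q_mul 1 1
    rw [mul_one] at h1
    simpa using h1
  let f : P →* Multiplicative V :=
    { toFun := fun x => Multiplicative.ofAdd (q (α x))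
      map_one' := by
        rw [map_one, hq1, ofAdd_zero]
      map_mul' := fun x y => by
        rw [map_mul, q_mul, ofAdd_add] }
  have h1 := pe_Phi_le p f (by
    intro a
    obtain ⟨v, rfl⟩ := Multiplicative.ofAdd.surjective a
    rw [← ofAdd_nsmul, ZModModule.char_nsmul_eq_zero, ofAdd_zero])
  have h2 := h1 ((q_ker x).1 hx)
  rw [MonoidHom.mem_ker] at h2
  exact Multiplicative.ofAdd.injective h2

/-- The representation on the Frattini factor group. -/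
private theorem mn2_rep (p : ℕ) [Fact p.Prime] {V : Type} [AddCommGroup V]
    [Module (ZMod p) V] (q : Op p G → V) (q_mul : ∀ x y, q (x * y) = q x + q y)
    (q_surj : Function.Surjective q) (q_ker : ∀ x, q x = 0 ↔ x ∈ pe_Phi p (Op p G)) :
    ∃ ρV : Representation (ZMod p) (G ⧸ Fit G) V, ∀ (g : G) (x y : Op p G),
      (y : G) = g * x * g⁻¹ → q y = ρV (g : G ⧸ Fit G) (q x) := by
  have hN : (Op p G).Normal := op_nor p
  have h1 : ∀ g : G, ∃ F : V →+ V, ∀ x, F (q x) = q (MulAut.conjNormal g x) := by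
    intro g
    exact pe_lift q q_mul q_surj (fun x => q (MulAut.conjNormal g x))
      (fun x y => by rw [map_mul, q_mul])
      (fun x hx => mn2_ker q q_mul q_ker (MulAut.conjNormal g : MulAut (Op p G)).toMonoidHom x hx)
  choose F hF using h1
  let R : G →* Module.End (ZMod p) V :=
    { toFun := fun g => (F g).toZModLinearMap p
      map_one' := by
        refine LinearMap.ext fun v => ?_
        obtain ⟨x, rfl⟩ := q_surj v
        show F 1 (q x) = q x
        rw [hF, map_one, MulAut.one_apply]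
      map_mul' := fun g h => by
        refine LinearMap.ext fun v => ?_
        obtain ⟨x, rfl⟩ := q_surj v
        show F (g * h) (q x) = F g (F h (q x))
        rw [hF, hF, hF, map_mul, MulAut.mul_apply] }
  have hR : ∀ g x, R g (q x) = q (MulAut.conjNormal g x) := fun g x => hF g x
  have hq1 : q 1 = 0 := by
    have h1 := q_mul 1 1
    rw [mul_one] at h1
    simpa using h1
  have hker : Fit G ≤ R.ker := by
    refine iSup_le fun r u hu => ?_
    rw [MonoidHom.mem_ker]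
    refine LinearMap.ext fun v => ?_
    obtain ⟨x, rfl⟩ := q_surj v
    rw [hR]
    show q (MulAut.conjNormal u x) = q x
    by_cases hr : (r : ℕ) = p
    · rw [hr] at hu
      have h2 : (MulAut.conjNormal u : MulAut (Op p G)) x = ⟨u, hu⟩ * x * ⟨u, hu⟩⁻¹ := by
        apply Subtype.ext
        rw [MulAut.conjNormal_apply]
        rfl
      have h3 : q (⟨u, hu⟩ : Op p G) + q (⟨u, hu⟩ : Op p G)⁻¹ = 0 := by
        rw [← q_mul, mul_inv_cancel, hq1]
      rw [h2, q_mul, q_mul, add_right_comm, h3, zero_add]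
    · have h2 : (MulAut.conjNormal u : MulAut (Op p G)) x = x := by
        apply Subtype.ext
        rw [MulAut.conjNormal_apply, op_com (r : ℕ) p (Nat.prime_of_mem_primeFactors r.2)
          (Fact.out) hr u x hu x.2, mul_inv_cancel_right]
      rw [h2]
  refine ⟨QuotientGroup.lift (Fit G) R hker, fun g x y hxy => ?_⟩
  have h2 : y = MulAut.conjNormal g x := by
    apply Subtype.ext
    rw [MulAut.conjNormal_apply, hxy]
  rw [h2, ← hR]
  rfl

private theorem mn2_one (P : Type) [Group P] : (fun _ : P => (1 : ℂ)) ∈ Irr P := by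
  refine ⟨1, (1 : P →* ((Fin 1 → ℂ) →ₗ[ℂ] (Fin 1 → ℂ))), ?_, ?_⟩
  · have h1 : IsSimpleOrder (Submodule ℂ (Fin 1 → ℂ)) := by
      have h2 : IsSimpleModule ℂ (Fin 1 → ℂ) := by
        rw [isSimpleModule_iff_finrank_eq_one]
        simp
      exact (isSimpleModule_iff ℂ (Fin 1 → ℂ)).1 h2
    refine { exists_pair_ne := ⟨⊥, ⊤, fun h => ?_⟩, eq_bot_or_eq_top := fun S => ?_ }
    · have h2 := congrArg Subrepresentation.toSubmodule h
      exact bot_ne_top h2
    · rcases h1.eq_bot_or_eq_top S.toSubmodule with h2 | h2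
      · left
        exact Subrepresentation.toSubmodule_injective h2
      · right
        exact Subrepresentation.toSubmodule_injective h2
  · funext g
    show LinearMap.trace ℂ (Fin 1 → ℂ) (1 : (Fin 1 → ℂ) →ₗ[ℂ] (Fin 1 → ℂ)) = 1
    rw [LinearMap.trace_one]
    simp

/-- A `p'`-element which is trivial on `V` is trivial on the linear characters. -/
private theorem mn2_lin (p : ℕ) [hp : Fact p.Prime] {V : Type} [AddCommGroup V]
    [Module (ZMod p) V] (q : Op p G → V) (q_mul : ∀ x y, q (x * y) = q x + q y)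
    (q_ker : ∀ x, q x = 0 ↔ x ∈ pe_Phi p (Op p G))
    (ρV : Representation (ZMod p) (G ⧸ Fit G) V)
    (q_eq : ∀ (g : G) (x y : Op p G), (y : G) = g * x * g⁻¹ →
      q y = ρV (g : G ⧸ Fit G) (q x)) (r : ℕ) (hr : r.Prime) (hrp : r ≠ p) (g : G)
    (k : ℕ) (hk : (g : G ⧸ Fit G) ^ r ^ k = 1) (hV : ρV (g : G ⧸ Fit G) = 1)
    (f : Op p G →* ℂˣ) (x y : Op p G) (hxy : (y : G) = g * x * g⁻¹) : f y = f x := by
  have hN : (Op p G).Normal := op_nor p
  have hrf : Fact r.Prime := ⟨hr⟩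
  obtain ⟨a, m, hm, hgo⟩ := Nat.exists_eq_pow_mul_and_not_dvd (orderOf_pos g).ne' r hr.ne_one
  have hcop : Nat.Coprime (r ^ a) m := Nat.Coprime.pow_left a ((hr.coprime_iff_not_dvd).2 hm)
  obtain ⟨s, hs1, hs2⟩ := Nat.chineseRemainder hcop 1 0
  have hms : m ∣ s := (Nat.modEq_zero_iff_dvd).1 hs2
  have h1 : (g ^ s) ^ r ^ a = 1 := by
    rw [← pow_mul]
    apply orderOf_dvd_iff_pow_eq_one.1
    rw [hgo, mul_comm s]
    exact Nat.mul_dvd_mul_left _ hms
  have h2 : (g : G ⧸ Fit G) ^ s = (g : G ⧸ Fit G) := by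
    obtain ⟨b, hb, hob⟩ := (Nat.dvd_prime_pow hr).1 (orderOf_dvd_of_pow_eq_one hk)
    have h3 : orderOf (g : G ⧸ Fit G) ∣ r ^ a := by
      have h4 : orderOf (g : G ⧸ Fit G) ∣ orderOf g :=
        orderOf_map_dvd (QuotientGroup.mk' (Fit G)) g
      rw [hgo] at h4
      refine Nat.Coprime.dvd_of_dvd_mul_right ?_ h4
      rw [hob]
      exact Nat.Coprime.pow_left b ((hr.coprime_iff_not_dvd).2 hm)
    have h4 : (g : G ⧸ Fit G) ^ s = (g : G ⧸ Fit G) ^ 1 :=
      pow_eq_pow_iff_modEq.2 (Nat.ModEq.of_dvd h3 hs1)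
    rw [h4, pow_one]
  have hu : (g ^ s)⁻¹ * g ∈ Fit G := by
    rw [← QuotientGroup.eq_one_iff, QuotientGroup.mk_mul, QuotientGroup.mk_inv,
      QuotientGroup.mk_pow, h2, inv_mul_cancel]
  -- the action of the powers of `g ^ s`
  have hcard : ¬ p ∣ Nat.card (Subgroup.zpowers (g ^ s)) := by
    rw [Nat.card_zpowers]
    intro hd
    have h3 := hd.trans (orderOf_dvd_of_pow_eq_one h1)
    exact hrp ((Nat.prime_dvd_prime_iff_eq hp.out hr).1 (hp.out.dvd_of_dvd_pow h3)).symm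
  have hfr : pe_Phi p (Op p G) ≤ frattini (Op p G) := by
    refine sup_le (gc_comm_le p (op_pgr p)) ?_
    rw [Subgroup.closure_le]
    rintro _ ⟨x, rfl⟩
    exact gc_pow_mem p (op_pgr p) x
  have hq1 : q 1 = 0 := by
    have h1 := q_mul 1 1
    rw [mul_one] at h1
    simpa using h1
  have hqi : ∀ x, q x⁻¹ = - q x := by
    intro x
    have h := q_mul x x⁻¹
    rw [mul_inv_cancel, hq1] at h
    exact eq_neg_of_add_eq_zero_right h.symm
  have h3 := gc_core p hp.out (op_pgr (G := G) p) hcard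
    ((MulAut.conjNormal (H := Op p G)).comp (Subgroup.zpowers (g ^ s)).subtype) (by
      intro z x
      apply hfr
      have h4 : ρV ((z : G) : G ⧸ Fit G) = 1 := by
        obtain ⟨i, hi⟩ := Subgroup.mem_zpowers_iff.1 z.2
        rw [← hi]
        have h5 : ((g : G) : G ⧸ Fit G) ∈ MonoidHom.ker ρV := hV
        have h6 : (((g ^ s) ^ i : G) : G ⧸ Fit G) ∈ MonoidHom.ker ρV := by
          rw [QuotientGroup.mk_zpow, QuotientGroup.mk_pow]
          exact zpow_mem (pow_mem h5 s) i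
        exact h6
      have h6 : q ((MulAut.conjNormal (z : G) : MulAut (Op p G)) x) = q x := by
        rw [q_eq (z : G) x _ (MulAut.conjNormal_apply _ _), h4]
        rfl
      rw [← q_ker, q_mul, hqi]
      exact (congrArg (fun t => -q x + t) h6).trans (neg_add_cancel _))
  obtain ⟨x', hx'⟩ : ∃ x' : Op p G, (x' : G) = ((g ^ s)⁻¹ * g) * x * ((g ^ s)⁻¹ * g)⁻¹ :=
    ⟨⟨_, hN.conj_mem (x : G) x.2 ((g ^ s)⁻¹ * g)⟩, rfl⟩
  have h4 := h3 ⟨g ^ s, Subgroup.mem_zpowers _⟩ x'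
  have h5 : y = x' := by
    rw [← h4]
    apply Subtype.ext
    rw [MonoidHom.comp_apply, MulAut.conjNormal_apply, Subgroup.coe_subtype, hxy, hx']
    group
  have h6 := (mem_fxG _ _ _ _).1 (fit_fx p hp.out (fun x => ((f x : ℂˣ) : ℂ)) (by
    have h7 := LinB_irr f _ (mn2_one (Op p G))
    simpa using h7) hu) x x' hx'
  rw [h5]
  exact Units.ext h6

/-- (mn2, size 4) The irreducible submodules. PROOF. `V`, `q` from `pe_V`; `ρV` from the conjugation action (`pe_lift`; `Fit G` acts trivially: `Op p G` acts on `Op p G / Φ` trivially by inner automorphisms, and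
the other `Op r G` centralize `Op p G`: `op_com`). `D` = the dual representation of `ρV`. Take an independent family `Y_1, .., Y_n` of irreducible submodules of `Dual V` with maximal sum `S`; `S` contains all irreducible submodules. `(F i).X = Y_i`,
blocks from `bs_ex`. `sup`: if `p` does not divide the order, then `S = ⊤` (a complement of `S`, `msk`, would contain an irreducible submodule). `det`: `D` a normal `r`-group, `r ≠ p`, which moves a linear character `f : Op p G → ℂˣ`. Then `D` acts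
nontrivially on `V` (if it is trivial on `V` then on all linear characters: coprime action, `gc_core` / `triv_of_lin`-like: the dual group of `Op p G` is an abelian `p`-group on which the `r`-group `D` acts, trivially on the elements of order `p`
(they factor through `V`), so trivially). So `D` is not trivial on `Dual V`; `Dual V = C ⊕ T`, `C` the fixed points of `D`, `T = [Dual V, D] ≠ 0` (coprime), `T` is invariant (`D` is normal); an irreducible submodule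
`Y ≤ T` is in `S`, and `D` has no fixed points on it, so `D` is not trivial on `S = ⊕ Y_i`, so not on some `Y_i`. -/
theorem pd_ex (p : ℕ) (hp : p.Prime) : Nonempty (PD G p) := by
  have hpf : Fact p.Prime := ⟨hp⟩
  obtain ⟨V, iA, iM, iF, q, q_mul, q_surj, q_ker⟩ := pe_V p (Op p G)
  obtain ⟨ρV, q_eq⟩ := mn2_rep p q q_mul q_surj q_ker
  have hDfin : Finite (Module.Dual (ZMod p) V) :=
    Finite.of_injective (fun f : Module.Dual (ZMod p) V => (f : V → ZMod p))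
      DFunLike.coe_injective
  have hdual : ∀ (h : G ⧸ Fit G) (f : Module.Dual (ZMod p) V) (v : V),
      ρV.dual h f v = f (ρV h⁻¹ v) := fun h f v => rfl
  obtain ⟨s, hs, hsI, hsM⟩ := mn2_soc ρV.dual
  have hfin := mn2_finS (p := p) (Module.Dual (ZMod p) V)
  obtain ⟨n, ⟨e⟩⟩ : ∃ n : ℕ, Nonempty (Fin n ≃ s) :=
    ⟨Nat.card s, ⟨(Finite.equivFin s).symm⟩⟩
  have hF := fun i : Fin n => mn2_fam ρV.dual (e i : Submodule (ZMod p) (Module.Dual (ZMod p) V))
    (hsI _ (e i).2)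
  choose F em hinj hran heq using hF
  have hsup : ⨆ i, LinearMap.range (em i) = sSup s := by
    rw [sSup_eq_iSup', ← e.iSup_comp]
    exact iSup_congr hran
  have hind : iSupIndep fun i => LinearMap.range (em i) := by
    have h1 : iSupIndep fun y : s => (y : Submodule (ZMod p) (Module.Dual (ZMod p) V)) :=
      (sSupIndep_iff s).1 hs
    have h2 := h1.comp e.injective
    have h3 : (fun i => LinearMap.range (em i)) =
        (fun y : s => (y : Submodule (ZMod p) (Module.Dual (ZMod p) V))) ∘ e :=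
      funext hran
    rw [h3]
    exact h2
  have hinv : Ivt ρV.dual ⊤ (sSup s) := mn2_inv ρV.dual s fun Y hY => (hsI Y hY).1
  refine ⟨{
    V := V
    q := q
    ρV := ρV
    n := n
    F := F
    em := em
    q_mul := q_mul
    q_surj := q_surj
    q_ker := q_ker
    q_eq := q_eq
    inj := hinj
    eqv := fun i h x v => by rw [heq, hdual]
    ind := hind
    sup := ?_
    det := ?_ }⟩
  · intro hH
    rw [hsup]
    have hT : ¬ p ∣ Nat.card (⊤ : Subgroup (G ⧸ Fit G)) := by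
      rw [Subgroup.card_top]
      exact hH
    obtain ⟨C, hC, hCi⟩ := msk ρV.dual ⊤ hT (sSup s) hinv
    by_contra hne
    have hC0 : C ≠ ⊥ := by
      rintro rfl
      exact hne (by simpa using hC.sup_eq_top)
    obtain ⟨Z, hZC, hZ⟩ := mn2_sub ρV.dual C hCi hC0
    exact hZ.2.1 (eq_bot_iff.2 (le_trans (le_inf (hsM Z hZ) hZC) (le_of_eq hC.inf_eq_bot)))
  · intro r hr hrp D hD hDr hnt
    by_contra hcon
    push Not at hcon
    -- `D` is trivial on the socle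
    have hS : ∀ d ∈ D, ∀ f ∈ sSup s, ρV.dual d f = f := by
      intro d hd f hf
      rw [← hsup] at hf
      refine Submodule.iSup_induction _ (motive := fun f => ρV.dual d f = f) hf ?_ (map_zero _) ?_
      · rintro i _ ⟨x, rfl⟩
        rw [← heq, hcon i d hd x]
      · intro f f' h1 h2
        rw [map_add, h1, h2]
    -- `D` is trivial on the dual space
    have hft := Fintype.ofFinite D
    have hpD : ¬ p ∣ Nat.card D := by
      have hrf : Fact r.Prime := ⟨hr⟩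
      obtain ⟨k, hk⟩ := IsPGroup.iff_card.1 hDr
      rw [hk]
      intro hd
      exact hrp ((Nat.prime_dvd_prime_iff_eq hp hr).1 (hp.dvd_of_dvd_pow hd)).symm
    have hM : ∀ d ∈ D, ∀ f, ρV.dual d f = f := by
      by_contra hc
      push Not at hc
      obtain ⟨y, hy0, hy⟩ := avg_ex ρV.dual D hpD hc
      let T : Submodule (ZMod p) (Module.Dual (ZMod p) V) :=
        LinearMap.ker (∑ k : D, ρV.dual (k : G ⧸ Fit G))
      have hTm : ∀ f, f ∈ T ↔ ∑ k : D, ρV.dual (k : G ⧸ Fit G) f = 0 := by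
        intro f
        show (∑ k : D, ρV.dual (k : G ⧸ Fit G)) f = 0 ↔ _
        rw [LinearMap.sum_apply]
      have hTi : Ivt ρV.dual ⊤ T := by
        intro h _ f hf
        rw [hTm] at hf ⊢
        have h1 : ∑ k : D, ρV.dual (k : G ⧸ Fit G) (ρV.dual h f) =
            ρV.dual h (∑ k : D, ρV.dual (k : G ⧸ Fit G) f) := by
          rw [map_sum]
          refine Fintype.sum_equiv (MulAut.conjNormal (H := D) h⁻¹).toEquiv _ _ fun k => ?_
          have h2 : (((MulAut.conjNormal (H := D) h⁻¹).toEquiv k : D) : G ⧸ Fit G) =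
              h⁻¹ * k * h := by
            have h3 := MulAut.conjNormal_apply (H := D) h⁻¹ k
            rw [inv_inv] at h3
            exact h3
          rw [h2]
          rw [← Module.End.mul_apply, ← Module.End.mul_apply, ← map_mul, ← map_mul]
          congr 2
          group
        rw [h1, hf, map_zero]
      have hT0 : T ≠ ⊥ := by
        intro h
        apply hy0
        have h1 : y ∈ T := (hTm y).2 hy
        rw [h, Submodule.mem_bot] at h1
        exact h1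
      obtain ⟨Z, hZT, hZ⟩ := mn2_sub ρV.dual T hTi hT0
      apply hZ.2.1
      rw [eq_bot_iff]
      intro z hz
      have h1 := (hTm z).1 (hZT hz)
      have h2 : ∀ k : D, ρV.dual (k : G ⧸ Fit G) z = z := fun k =>
        hS k k.2 z (hsM Z hZ hz)
      rw [Finset.sum_congr rfl fun k _ => h2 k, Finset.sum_const, Finset.card_univ,
        ← Nat.card_eq_fintype_card, ← Nat.cast_smul_eq_nsmul (ZMod p)] at h1
      have hn : ((Nat.card D : ℕ) : ZMod p) ≠ 0 := by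
        rw [Ne, ZMod.natCast_eq_zero_iff]
        exact hpD
      rw [Submodule.mem_bot]
      rcases smul_eq_zero.1 h1 with h3 | h3
      · exact absurd h3 hn
      · exact h3
    -- `D` is trivial on `V`
    have hV : ∀ d ∈ D, ρV d = 1 := by
      intro d hd
      refine LinearMap.ext fun v => ?_
      by_contra hne
      have hne' : ρV d v - v ≠ 0 := sub_ne_zero.2 hne
      apply hne'
      rw [← Module.forall_dual_apply_eq_zero_iff (ZMod p)]
      intro f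
      have h1 := hM d⁻¹ (D.inv_mem hd) f
      have h2 := congrArg (fun t : Module.Dual (ZMod p) V => t v) h1
      beta_reduce at h2
      rw [hdual, inv_inv] at h2
      rw [map_sub, h2, sub_self]
    obtain ⟨g, hg, f, x, y, hxy, hf⟩ := hnt
    obtain ⟨k, hk⟩ := hDr ⟨_, hg⟩
    have hk' : (g : G ⧸ Fit G) ^ r ^ k = 1 := by
      have := congrArg Subtype.val hk
      simpa using this
    exact hf (mn2_lin p q q_mul q_ker ρV q_eq r hr hrp g k hk' (hV _ hg) f x y hxy)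
-- END mn2

/-- The data of the prime `p` for `G`. -/
def GBlk2 (G : Type) [Group G] [Finite G] (A : Subgroup (G ⧸ Fit G)) (B nb : Set ℕ)
    (p : ℕ) : Prop :=
  ∃ s ∈ Irr (Op p G), ∃ (n : ℕ) (St : Fin n → Subgroup (G ⧸ Fit G))
    (Θ : (Fin n → G ⧸ Fit G) → Op p G → ℂ),
    (∀ k, (∀ j, k j ∈ A) → Θ k ∈ Irr (Op p G)) ∧
    (∀ k, (∀ j, k j ∈ A) → ∀ r ∈ B, ∀ R : Sylow r (G ⧸ Fit G),
      (R : Subgroup (G ⧸ Fit G)) ≤ fxH (Fit G) (Op p G) (op_nor p) (Θ k) →
        ∀ z ∈ (R : Subgroup (G ⧸ Fit G)), ∀ j, (k j)⁻¹ * z * k j ∈ St j) ∧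
    (Tau G p → (∃ d : ℕ, s 1 = d ∧ p ∣ d) ∨
      ∀ k, (∀ j, k j ∈ A) → ∃ d : ℕ, Θ k 1 = d ∧ p ∣ d) ∧
    (¬ Tau G p → s = fun _ => 1) ∧
    (∀ k, (∀ j, k j ∈ A) → ∀ r ∈ nb, ∀ R : Sylow r (G ⧸ Fit G),
      ¬ (R : Subgroup (G ⧸ Fit G)) ≤ fxH (Fit G) (Op p G) (op_nor p) (Θ k)) ∧
    Blk2 A B p (fun D => ntG (Op p G) D) (fxH (Fit G) (Op p G) (op_nor p) s) n St

-- BEGIN mn3
omit [Finite G] in
private theorem mn3_top (F : Subgroup G) [F.Normal] (P : Subgroup G) (hP : P.Normal) (x : G ⧸ F) :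
    x ∈ fxH F P hP (fun _ => 1) := by
  obtain ⟨g, rfl⟩ := QuotientGroup.mk'_surjective F x
  exact ⟨g, fun _ _ _ => rfl, rfl⟩

private theorem mn3_one (P : Type) [Group P] : (fun _ : P => (1 : ℂ)) ∈ Irr P := by
  refine ⟨1, (1 : P →* ((Fin 1 → ℂ) →ₗ[ℂ] (Fin 1 → ℂ))), ?_, ?_⟩
  · have h1 : IsSimpleOrder (Submodule ℂ (Fin 1 → ℂ)) := by
      have h2 : IsSimpleModule ℂ (Fin 1 → ℂ) := by
        rw [isSimpleModule_iff_finrank_eq_one]
        simp
      exact (isSimpleModule_iff ℂ (Fin 1 → ℂ)).1 h2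
    refine { exists_pair_ne := ⟨⊥, ⊤, fun h => ?_⟩, eq_bot_or_eq_top := fun S => ?_ }
    · have h2 := congrArg Subrepresentation.toSubmodule h
      exact bot_ne_top h2
    · rcases h1.eq_bot_or_eq_top S.toSubmodule with h2 | h2
      · left
        exact Subrepresentation.toSubmodule_injective h2
      · right
        exact Subrepresentation.toSubmodule_injective h2
  · funext g
    show LinearMap.trace ℂ (Fin 1 → ℂ) (1 : (Fin 1 → ℂ) →ₗ[ℂ] (Fin 1 → ℂ)) = 1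
    rw [LinearMap.trace_one]
    simp

private theorem mn3_lin {P : Type} [Group P] (f : P →* ℂˣ) :
    (fun x : P => ((f x : ℂˣ) : ℂ)) ∈ Irr P := by
  have h1 := LinB_irr f _ (mn3_one P)
  simpa using h1

/-- the stabilizer of a vector -/
private def mn3_st {p : ℕ} {H X : Type} [Group H] [AddCommGroup X] [Module (ZMod p) X]
    (ρ : Representation (ZMod p) H X) (v : X) : Subgroup H where
  carrier := {h | ρ h v = v}
  one_mem' := by
    show ρ 1 v = v
    rw [map_one]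
    rfl
  mul_mem' := by
    intro a b ha hb
    show ρ (a * b) v = v
    rw [map_mul, Module.End.mul_apply]
    have h1 : ρ b v = v := hb
    have h2 : ρ a v = v := ha
    rw [h1, h2]
  inv_mem' := by
    intro a ha
    show ρ a⁻¹ v = v
    have h2 : ρ a v = v := ha
    calc ρ a⁻¹ v = ρ a⁻¹ (ρ a v) := by rw [h2]
      _ = (ρ a⁻¹ * ρ a) v := rfl
      _ = v := by
        rw [← map_mul, inv_mul_cancel, map_one]
        rfl

private theorem mn3_inv {p : ℕ} {H X : Type} [Group H] [AddCommGroup X] [Module (ZMod p) X]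
    (ρ : Representation (ZMod p) H X) {h : H} {v : X} (hv : ρ h⁻¹ v = v) : ρ h v = v := by
  have h1 : h⁻¹ ∈ mn3_st ρ v := hv
  have h2 := (mn3_st ρ v).inv_mem h1
  rw [inv_inv] at h2
  exact h2

/-- components of a fixed vector are fixed, if the blocks are fixed -/
private theorem mn3_cmp {p : ℕ} {H X J : Type} [Group H] [AddCommGroup X] [Module (ZMod p) X]
    [Finite J] (ρ : Representation (ZMod p) H X) (W : J → Submodule (ZMod p) X)
    (hind : iSupIndep W) (z : H) (hz : ∀ j, (W j).map (ρ z) = W j) (Δ : Finset J) (w : J → X)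
    (hw : ∀ j, w j ∈ W j) (hf : ρ z (∑ j ∈ Δ, w j) = ∑ j ∈ Δ, w j) :
    ∀ j ∈ Δ, ρ z (w j) = w j := by
  intro j hj
  have h1 : ∑ j ∈ Δ, (ρ z (w j) - w j) = 0 := by
    rw [Finset.sum_sub_distrib, ← map_sum, hf, sub_self]
  have h2 : ∀ j, ρ z (w j) - w j ∈ W j := by
    intro j
    refine Submodule.sub_mem _ ?_ (hw j)
    rw [← hz j]
    exact ⟨w j, hw j, rfl⟩
  have h3 := (iSupIndep_iff_finsetSum_eq_zero_imp_eq_zero W).1 hind Δ _ (fun j _ => h2 j) h1 j hj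
  exact sub_eq_zero.1 h3

/-- the action on the linear form -/
private theorem mn3_fx (p : ℕ) [Fact p.Prime] (E : PD G p) (ζ : Multiplicative (ZMod p) →* ℂˣ)
    (hζ : Function.Injective ζ) (T : ∀ i, (E.F i).X) (z : G ⧸ Fit G)
    (hz : z ∈ fxH (Fit G) (Op p G) (op_nor p)
      (fun x => ((ζ (Multiplicative.ofAdd ((∑ i, E.em i (T i)) (E.q x))) : ℂˣ) : ℂ))) :
    ∀ i, (E.F i).ρ z (T i) = T i := by
  obtain ⟨g, hg, rfl⟩ := hz
  have hg' := (mem_fxG _ _ _ _).1 hg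
  have h1 : ∀ v : E.V, (∑ i, E.em i (T i)) (E.ρV (g : G ⧸ Fit G) v) = (∑ i, E.em i (T i)) v := by
    intro v
    obtain ⟨x, rfl⟩ := E.q_surj v
    obtain ⟨y, hy⟩ : ∃ y : Op p G, (y : G) = g * x * g⁻¹ :=
      ⟨⟨_, (op_nor (G := G) p).conj_mem (x : G) x.2 g⟩, rfl⟩
    have h2 := hζ (Units.ext (hg' x y hy))
    have h3 := Multiplicative.ofAdd.injective h2
    rw [E.q_eq g x y hy] at h3
    exact h3
  have h2 : ∑ i, E.em i ((E.F i).ρ (g : G ⧸ Fit G)⁻¹ (T i) - T i) = 0 := by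
    refine LinearMap.ext fun v => ?_
    have h3 := h1 v
    rw [LinearMap.sum_apply, LinearMap.sum_apply] at h3
    rw [LinearMap.sum_apply, LinearMap.zero_apply]
    simp only [map_sub, LinearMap.sub_apply]
    rw [Finset.sum_sub_distrib, sub_eq_zero, ← h3]
    refine Finset.sum_congr rfl fun i _ => ?_
    rw [E.eqv, inv_inv]
  intro i
  apply mn3_inv
  have h3 := (iSupIndep_iff_finsetSum_eq_zero_imp_eq_zero _).1 E.ind Finset.univ _
    (fun i _ => ⟨_, rfl⟩) h2 i (Finset.mem_univ i)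
  have h4 := E.inj i (h3.trans (map_zero _).symm)
  exact sub_eq_zero.1 h4

/-- (mn3, size 4) A prime whose low character is trivial. PROOF. `s = 1`. For each `i` take `Δ i`, `v i` from `gen` (any `j₀`). The index set is `Σ i, Δ i` (as `Fin n`), `St (i, j)` = the stabilizer of `v i j`, `Θ k` = the linear character
`x ↦ ζ (∑ em i (ρ (k i j) (v i j)) (q x))` of `Op p G` (`ζ` from `zt_ex`; irreducible: degree 1, compare `gblk_lin`, `chr_lin`). `z` fixes `Θ k` iff `ρ z T_i = T_i` for all `i`, `T_i = ∑_j ρ (k i j) (v i j)` (`q_eq`, `q_surj`, `eqv`, `ind`, `inj`).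
Second part: `r ∈ B`: `bt`: `R` is trivial on `(F i).X` or it fixes the blocks, so the components of `T_i`. Fifth part: `gen`. `b1`: `s = 1`. `c`: the third condition says `cm A r ≤ St (i, j)`; so `D ≤ A ≤ UU j` fixes `v i j ≠ 0`, so it is trivial on
`W j`, `j ∈ Δ i` (`bs_fpf`), so on all blocks (`D` is normal, `tra`), for all `i`: contradiction to `det`. -/
theorem gblk_lin2 (p : ℕ) [hp : Fact p.Prime] (hs : Group.IsSolvable G)
    (ho : ¬ 2 ∣ Nat.card (G ⧸ Fit G)) (E : PD G p)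
    (hτ : ¬ Tau G p) {A : Subgroup (G ⧸ Fit G)} (hA : Ab A) (B : Set ℕ)
    (hB : ∀ r ∈ B, AR A r) (Ale : ∀ i, A ≤ (E.F i).A) (bt : ∀ r ∈ B, ∀ i, (E.F i).Bt r) :
    GBlk2 G A B {r | r.Prime ∧ 3 ≤ r ∧ ∃ i, ¬ (E.F i).Bt r} p := by
  have hsQ : Group.IsSolvable (G ⧸ Fit G) := inferInstance
  have hAU : ∀ i j, ∀ a ∈ A, a ∈ (E.F i).UU j := by
    intro i j a ha
    have h1 := Ale i ha
    rw [Fam.A, Subgroup.mem_iInf] at h1
    exact h1 j
  have hgen : ∀ i : Fin E.n, ∃ (j₀ : (E.F i).J) (Δ : Finset (E.F i).J)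
      (v : (E.F i).J → (E.F i).X), j₀ ∈ Δ ∧ (∀ j, v j ∈ (E.F i).W j ∧ v j ≠ 0) ∧
      ∀ k : (E.F i).J → G ⧸ Fit G, (∀ j, k j ∈ Nm (E.F i).ρ ((E.F i).W j)) → ∀ r : ℕ, r.Prime →
        3 ≤ r → ¬ Nas.Bt (E.F i).ρ (E.F i).W (E.F i).UU r → ∀ R : Sylow r (G ⧸ Fit G),
          ¬ ∀ x ∈ (R : Subgroup (G ⧸ Fit G)), (E.F i).ρ x (∑ j ∈ Δ, (E.F i).ρ (k j) (v j)) =
            ∑ j ∈ Δ, (E.F i).ρ (k j) (v j) := by
    intro i
    have hne : Nonempty (E.F i).J := by
      by_contra hc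
      rw [not_nonempty_iff] at hc
      have h1 := (E.F i).bs.sup
      rw [iSup_of_empty] at h1
      exact bot_ne_top h1
    obtain ⟨j₀⟩ := hne
    obtain ⟨Δ, v, h1, -, -, h2, h3⟩ := gen (E.F i).bs hsQ ho j₀ j₀
    exact ⟨j₀, Δ, v, h1, h2, h3⟩
  choose j₀ Δ v hj₀ hv hgen using hgen
  obtain ⟨ζ, hζ⟩ := zt_ex p
  -- the index set
  obtain ⟨n, ⟨e⟩⟩ : ∃ n : ℕ, Nonempty ((Σ i : Fin E.n, {j : (E.F i).J // j ∈ Δ i}) ≃ Fin n) :=
    ⟨_, ⟨Finite.equivFin _⟩⟩
  -- the conjugating elements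
  obtain ⟨K, hK⟩ : ∃ K : (Fin n → G ⧸ Fit G) → ∀ i : Fin E.n, (E.F i).J → G ⧸ Fit G,
      ∀ k i j, K k i j = if h : j ∈ Δ i then k (e ⟨i, ⟨j, h⟩⟩) else 1 := ⟨_, fun _ _ _ => rfl⟩
  have hKA : ∀ k, (∀ j, k j ∈ A) → ∀ i j, K k i j ∈ A := by
    intro k hk i j
    rw [hK]
    split_ifs
    · exact hk _
    · exact A.one_mem
  obtain ⟨T, hT⟩ : ∃ T : (Fin n → G ⧸ Fit G) → ∀ i : Fin E.n, (E.F i).X,
      ∀ k i, T k i = ∑ j ∈ Δ i, (E.F i).ρ (K k i j) (v i j) := ⟨_, fun _ _ => rfl⟩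
  have hKW : ∀ k, (∀ j, k j ∈ A) → ∀ i j, (E.F i).ρ (K k i j) (v i j) ∈ (E.F i).W j := by
    intro k hk i j
    have h1 := (E.F i).bs.uN j (hAU i j _ (hKA k hk i j))
    rw [mem_Nm] at h1
    rw [← h1]
    exact ⟨v i j, (hv i j).1, rfl⟩
  refine ⟨fun _ => 1, mn3_one _, n,
    fun a => mn3_st (E.F (e.symm a).1).ρ (v (e.symm a).1 (e.symm a).2),
    fun k x => ((ζ (Multiplicative.ofAdd ((∑ i, E.em i (T k i)) (E.q x))) : ℂˣ) : ℂ),
    ?_, ?_, fun h1 => absurd h1 hτ, fun _ => rfl, ?_, ?_⟩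
  · intro k hk
    have hq1 : E.q 1 = 0 := by
      have h1 := E.q_mul 1 1
      rw [mul_one] at h1
      simpa using h1
    let μ : Op p G →* ℂˣ :=
      { toFun := fun x => ζ (Multiplicative.ofAdd ((∑ i, E.em i (T k i)) (E.q x)))
        map_one' := by
          rw [hq1, map_zero, ofAdd_zero, map_one]
        map_mul' := fun x y => by
          rw [E.q_mul, map_add, ofAdd_add, map_mul] }
    exact mn3_lin μ
  · intro k hk r hr R hR z hz a
    have h1 := mn3_fx p E ζ hζ (T k) z (hR hz)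
    obtain ⟨⟨i, j, hj⟩, rfl⟩ := e.surjective a
    beta_reduce
    rw [Equiv.symm_apply_apply]
    show (E.F i).ρ ((k (e ⟨i, ⟨j, hj⟩⟩))⁻¹ * z * k (e ⟨i, ⟨j, hj⟩⟩)) (v i j) = v i j
    have hKk : K k i j = k (e ⟨i, ⟨j, hj⟩⟩) := by
      rw [hK, dif_pos hj]
    have h2 : (E.F i).ρ z ((E.F i).ρ (K k i j) (v i j)) = (E.F i).ρ (K k i j) (v i j) := by
      rcases bt r hr i with h3 | ⟨h3, -, -⟩
      · exact h3 R z hz _
      · refine mn3_cmp (E.F i).ρ (E.F i).W (E.F i).bs.ind z (fun j => h3 R z hz j) (Δ i)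
          (fun j => (E.F i).ρ (K k i j) (v i j)) (fun j => hKW k hk i j) ?_ j hj
        rw [← hT]
        exact h1 i
    rw [← hKk, map_mul, map_mul, Module.End.mul_apply, Module.End.mul_apply, h2,
      ← Module.End.mul_apply, ← map_mul, inv_mul_cancel, map_one]
    rfl
  · rintro k hk r ⟨hr, h11, i, hi⟩ R hR
    refine hgen i (K k i) (fun j => (E.F i).bs.uN j (hAU i j _ (hKA k hk i j))) r hr h11 hi R ?_
    intro x hx
    have h1 := mn3_fx p E ζ hζ (T k) x (hR hx) i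
    rw [hT] at h1
    exact h1
  · refine ⟨fun a _ _ => mn3_top _ _ _ a, ?_⟩
    rintro r hr ⟨q, hq, hqp, D, hD, hDc, hDq, hD'⟩ ⟨-, -, h3, -⟩
    obtain ⟨i, d, hd, x, hx⟩ := E.det q hq hqp D hD hDq hD'
    apply hx
    have h4 : ∀ d ∈ D, Tv (E.F i).ρ ((E.F i).W (j₀ i)) d := by
      intro d hd
      have h5 := h3 d (hDc hd) (mn3_top _ _ _ d) (e ⟨i, ⟨j₀ i, hj₀ i⟩⟩)
      rw [Equiv.symm_apply_apply] at h5
      have h6 : (E.F i).ρ d (v i (j₀ i)) = v i (j₀ i) := h5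
      exact bs_fpf (E.F i).bs (j₀ i) d (hAU i _ d (cm_le hA r (hDc hd))) (v i (j₀ i))
        (hv i (j₀ i)).1 (hv i (j₀ i)).2 h6
    have h5 : ∀ j, ∀ w ∈ (E.F i).W j, (E.F i).ρ d w = w := by
      intro j w hw
      obtain ⟨h, hh⟩ := (E.F i).bs.tra (j₀ i) j
      rw [← hh] at hw
      obtain ⟨u, hu, rfl⟩ := hw
      have h6 : h⁻¹ * d * h ∈ D := by
        have := hD.conj_mem d hd h⁻¹
        rwa [inv_inv] at this
      have h7 : (E.F i).ρ (h⁻¹ * d * h) u = u := h4 _ h6 u hu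
      calc (E.F i).ρ d ((E.F i).ρ h u) = (E.F i).ρ (d * h) u := by
            rw [map_mul, Module.End.mul_apply]
        _ = (E.F i).ρ (h * (h⁻¹ * d * h)) u := by
            congr 2
            group
        _ = (E.F i).ρ h ((E.F i).ρ (h⁻¹ * d * h) u) := by
            rw [map_mul, Module.End.mul_apply]
        _ = (E.F i).ρ h u := by rw [h7]
    have h6 : x ∈ ⨆ j, (E.F i).W j := by
      rw [(E.F i).bs.sup]
      exact Submodule.mem_top
    refine Submodule.iSup_induction _ (motive := fun x => (E.F i).ρ d x = x) h6 h5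
      (map_zero _) ?_
    intro x y hx hy
    rw [map_add, hx, hy]
-- END mn3

-- BEGIN mn4
private theorem mn4_fx {p : ℕ} (φ : (G ⧸ Fit G) →* MulAut (Op p G))
    (hφ : ∀ g : G, ∃ y : Op p G, ∀ x z : Op p G,
      (z : G) = g * x * g⁻¹ → z = y * φ (g : G ⧸ Fit G) x * y⁻¹) (χ : Op p G → ℂ)
    (hχ : χ ∈ Irr (Op p G)) : fxH (Fit G) (Op p G) (op_nor p) χ = fxS φ χ := by
  have key : ∀ (g : G) (x z : Op p G), (z : G) = g * x * g⁻¹ →
      χ z = χ (φ (g : G ⧸ Fit G) x) := by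
    intro g x z hz
    obtain ⟨y, hy⟩ := hφ g
    rw [hy x z hz]
    have := Fintype.ofFinite (Op p G)
    exact irr_conj hχ (isConj_iff.2 ⟨y⁻¹, by group⟩)
  ext z
  constructor
  · rintro ⟨g, hg, rfl⟩ x
    obtain ⟨z, hz⟩ : ∃ z : Op p G, (z : G) = g * x * g⁻¹ :=
      ⟨⟨_, (op_nor (G := G) p).conj_mem (x : G) x.2 g⟩, rfl⟩
    exact (key g x z hz).symm.trans (hg x z hz)
  · intro h
    obtain ⟨g, rfl⟩ := QuotientGroup.mk_surjective z
    exact ⟨g, fun x z hz => (key g x z hz).trans (h x), rfl⟩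

/-- (mn4, size 3) PROOF. As `gblk_tau` of Nan/Mn.lean: `act`, `loc_main2` (`q (φ h x) = ρV h (q x)`: `q_eq` and `hφ`, `q` is invariant under inner automorphisms of `Op p G`). -/
theorem gblk_tau2 (p : ℕ) [hp : Fact p.Prime] (hs : Group.IsSolvable G)
    (ho : ¬ 2 ∣ Nat.card (G ⧸ Fit G)) (E : PD G p)
    (hτ : Tau G p) {A : Subgroup (G ⧸ Fit G)} (hA : Ab A) (B : Set ℕ)
    (hB : ∀ r ∈ B, AR A r) (hB3 : ∀ r ∈ B, 3 ≤ r) (Ale : ∀ i, A ≤ (E.F i).A)
    (bt : ∀ r ∈ B, ∀ i, (E.F i).Bt r)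
    (triv : ∀ r ∈ B, ∀ i, (∀ c ∈ cm A r, ∀ x, (E.F i).ρ c x = x) →
      ∀ R : Sylow r (G ⧸ Fit G), ∀ y ∈ (R : Subgroup (G ⧸ Fit G)), ∀ x, (E.F i).ρ y x = x) :
    GBlk2 G A B {r | r.Prime ∧ 3 ≤ r ∧ ∃ i, ¬ (E.F i).Bt r} p := by
  have hp' : p.Prime := hp.out
  obtain ⟨φ, hφ⟩ := act p hp' hτ.1
  have hne : commutator (Op p G) ≠ ⊥ := by
    intro h
    apply hτ.2
    intro x hx y hy
    have h1 := Subgroup.commutator_mem_commutator (H₁ := (⊤ : Subgroup (Op p G))) (H₂ := ⊤)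
      (Subgroup.mem_top (⟨x, hx⟩ : Op p G)) (Subgroup.mem_top (⟨y, hy⟩ : Op p G))
    rw [← commutator_def, h, Subgroup.mem_bot, commutatorElement_eq_one_iff_mul_comm] at h1
    exact congrArg Subtype.val h1
  have hcard : ¬ p ∣ Nat.card (G ⧸ Fit G) := hτ.1
  have hs' : Group.IsSolvable (G ⧸ Fit G) := inferInstance
  have hq1 : E.q 1 = 0 := by
    have h1 := E.q_mul 1 1
    rw [mul_one] at h1
    exact (left_eq_add.1 h1)
  have hqi : ∀ y : Op p G, E.q y + E.q y⁻¹ = 0 := by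
    intro y
    rw [← E.q_mul, mul_inv_cancel, hq1]
  have hqe : ∀ h x, E.q (φ h x) = E.ρV h (E.q x) := by
    intro h x
    obtain ⟨g, rfl⟩ := QuotientGroup.mk_surjective h
    obtain ⟨y, hy⟩ := hφ g
    obtain ⟨z, hz⟩ : ∃ z : Op p G, (z : G) = g * x * g⁻¹ :=
      ⟨⟨_, (op_nor (G := G) p).conj_mem (x : G) x.2 g⟩, rfl⟩
    have h1 := E.q_eq g x z hz
    have h2 := hy x z hz
    rw [← h1, h2, E.q_mul, E.q_mul, add_right_comm, hqi, zero_add]
  obtain ⟨s, hs1, n, St, Θ, h1, h2, h3, h4, h5⟩ :=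
    loc_main2 p ho (op_pgr p) hcard hs' φ hne E.ρV E.q E.q_mul E.q_surj E.q_ker hqe E.F E.em
      E.inj E.eqv E.ind (E.sup hcard) hA B hB hB3 Ale bt triv
  refine ⟨s, hs1, n, St, Θ, h1, fun k hk r hr R hR => ?_, fun _ => h3,
    fun h => absurd hτ h, fun k hk r hr R => ?_, ?_⟩
  · rw [mn4_fx φ hφ (Θ k) (h1 k hk)] at hR
    exact h2 k hk r hr R hR
  · rw [mn4_fx φ hφ (Θ k) (h1 k hk)]
    exact h4 k hk r hr R
  · rw [mn4_fx φ hφ s hs1]
    have hnt : ∀ D : Subgroup (G ⧸ Fit G), ntG (Op p G) D → ∃ d ∈ D, φ d ≠ 1 := by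
      rintro D ⟨g, hg, f, x, y, hxy, hf⟩
      refine ⟨g, hg, fun h => hf ?_⟩
      obtain ⟨w, hw⟩ := hφ g
      rw [hw x y hxy, h, MulAut.one_apply, map_mul, map_mul, map_inv]
      rw [mul_right_comm, mul_inv_cancel, one_mul]
    exact ⟨h5.b1, fun r hr ⟨q, hq, hqp, D, hD, hDc, hDq, hD'⟩ =>
        h5.c r hr ⟨q, hq, hqp, D, hD, hDc, hDq, hnt D hD'⟩⟩
-- END mn4

-- BEGIN mn5
/-- A nontrivial normal subgroup of a finite solvable group contains a nontrivial normal subgroup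
which is an `r`-group for a prime `r`. -/
private theorem mn5_min {Q : Type} [Group Q] [Finite Q] [Group.IsSolvable Q] (N : Subgroup Q)
    (hN : N.Normal) (hne : N ≠ ⊥) :
    ∃ r : ℕ, r.Prime ∧ ∃ D : Subgroup Q, D.Normal ∧ D ≠ ⊥ ∧ D ≤ N ∧ IsPGroup r D := by
  obtain ⟨M, ⟨hM1, hM2, hM3⟩, hmin⟩ := WellFounded.has_min
    (wellFounded_lt (α := Subgroup Q)) {M | M.Normal ∧ M ≠ ⊥ ∧ M ≤ N} ⟨N, hN, hne, le_rfl⟩
  have hcm : ⁅M, M⁆ = ⊥ := by
    by_contra hcon
    have hlt : ⁅M, M⁆ < M := Group.IsSolvable.commutator_lt_of_ne_bot hM2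
    exact hmin ⁅M, M⁆ ⟨Subgroup.commutator_normal M M, hcon, hlt.le.trans hM3⟩ hlt
  have hcom : ∀ a ∈ M, ∀ b ∈ M, a * b = b * a := by
    intro a ha b hb
    have h1 : a * b * a⁻¹ * b⁻¹ ∈ ⁅M, M⁆ := by
      rw [← commutatorElement_def]
      exact Subgroup.commutator_mem_commutator ha hb
    rw [hcm, Subgroup.mem_bot, mul_inv_eq_one, mul_inv_eq_iff_eq_mul] at h1
    exact h1
  have hc : Nat.card M ≠ 1 := fun h => hM2 (Subgroup.card_eq_one.1 h)
  obtain ⟨r, hr, hrd⟩ := Nat.exists_prime_and_dvd hc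
  have : Fact r.Prime := ⟨hr⟩
  obtain ⟨a, ha⟩ := exists_prime_orderOf_dvd_card' (G := M) r hrd
  let D : Subgroup Q :=
    { carrier := {x | x ∈ M ∧ x ^ r = 1}
      one_mem' := ⟨M.one_mem, one_pow r⟩
      mul_mem' := by
        rintro x y ⟨hx, hx'⟩ ⟨hy, hy'⟩
        refine ⟨M.mul_mem hx hy, ?_⟩
        have hxy : Commute x y := hcom x hx y hy
        rw [hxy.mul_pow, hx', hy', one_mul]
      inv_mem' := by
        rintro x ⟨hx, hx'⟩
        refine ⟨M.inv_mem hx, ?_⟩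
        rw [inv_pow, hx', inv_one] }
  refine ⟨r, hr, D, ⟨?_⟩, ?_, fun x hx => hM3 hx.1, ?_⟩
  · rintro x ⟨hx, hx'⟩ g
    refine ⟨hM1.conj_mem x hx g, ?_⟩
    rw [conj_pow, hx', mul_one, mul_inv_cancel]
  · intro hD
    have h1 : (a : Q) ∈ D := by
      refine ⟨a.2, ?_⟩
      rw [← Subgroup.coe_pow, ← ha, pow_orderOf_eq_one, Subgroup.coe_one]
    rw [hD, Subgroup.mem_bot] at h1
    have h2 : a = 1 := Subtype.ext h1
    rw [h2, orderOf_one] at ha
    exact hr.one_lt.ne ha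
  · rintro ⟨x, hx⟩
    refine ⟨1, Subtype.ext ?_⟩
    rw [pow_one, Subgroup.coe_pow, Subgroup.coe_one]
    exact hx.2

/-- (mn5, size 3) The family of all the modules is faithful. PROOF. Let `N` be the normal subgroup of the `h` which are trivial on all the `(E p).F i`. If `N ≠ 1`: `G ⧸ Fit G` is solvable, so `N` contains a nontrivial normal `r`-subgroup `D` of `G ⧸ Fit G`
for a prime `r` (last nontrivial term of the derived series of `N`: abelian, characteristic in `N`; its elements of `r`-power order). `fit_fai`: `ntG (Op p G) D` for some `p ≠ r`; `det`: contradiction. -/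
theorem pd_fai (hs : Group.IsSolvable G)
    (E : ∀ i : {p : ℕ // p ∈ (Nat.card G).primeFactors}, PD G i) (h : G ⧸ Fit G)
    (hh : ∀ i j x, ((E i).F j).ρ h x = x) : h = 1 := by
  by_contra hne
  let N : Subgroup (G ⧸ Fit G) :=
    { carrier := {z | ∀ i j x, ((E i).F j).ρ z x = x}
      one_mem' := by
        intro i j x
        rw [map_one]
        rfl
      mul_mem' := by
        intro a b ha hb i j x
        rw [map_mul, Module.End.mul_apply, hb, ha]
      inv_mem' := by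
        intro a ha i j x
        conv_lhs => rw [← ha i j x]
        rw [← Module.End.mul_apply, ← map_mul, inv_mul_cancel, map_one, Module.End.one_apply] }
  have hN : N.Normal := ⟨fun z hz g i j x => by
    rw [map_mul, map_mul, Module.End.mul_apply, Module.End.mul_apply, hz,
      ← Module.End.mul_apply, ← map_mul, mul_inv_cancel, map_one, Module.End.one_apply]⟩
  have hN0 : N ≠ ⊥ := fun h0 => hne ((Subgroup.mem_bot).1 (h0 ▸ (show h ∈ N from hh)))
  obtain ⟨r, hr, D, hD1, hD2, hD3, hD4⟩ := mn5_min N hN hN0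
  obtain ⟨p, hp, hnt⟩ := fit_fai r hr D hD1 hD4 hD2
  obtain ⟨j, d, hd, x, hx⟩ := (E p).det r hr (Ne.symm hp) D hD1 hD4 hnt
  exact hx (hD3 hd p j x)
-- END mn5

-- BEGIN mn6
omit [Finite G] in
private theorem mn6_one (F : Subgroup G) [F.Normal] (P : Subgroup G) (hP : P.Normal) (x : G ⧸ F) :
    x ∈ fxH F P hP (fun _ => 1) := by
  obtain ⟨g, rfl⟩ := QuotientGroup.mk'_surjective F x
  exact ⟨g, fun _ _ _ => rfl, rfl⟩

/-- (mn6, size 4) PROOF. `E i` from `pd_ex` for the prime divisors of `card G`, the family `F` of all the `(E i).F j` (index set `Σ i, Fin (E i).n`, finite), `A = HA F`, `B` = the primes `r ≥ 3` which divide `card (G ⧸ Fit G)` and are of type `B` for all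
members of the family. `ha_ab`, `ha_ar`, `ha_triv`, `ha_ne`, `pd_fai`. `gblk_tau2` for `Tau G i ∧ 3 ≤ i`, `gblk_lin2` otherwise. Then as in the proof of `main` in Nan/Mn.lean: `fin_glue2` (`fit_fai`), `high`, `low`. A prime `r ≥ 3` which divides
`card (G ⧸ Fit G)` and is not in `B` is in `nb` for some `i`: if it does not divide `Z.index`, a Sylow subgroup `R ≤ Z` (`syl_in`) fixes `Θ i (k i)`, contradiction. The rest as there (`r ∈ B`: `fin_glue2`, `low`; primes which do not divide `card (G ⧸ Fit G)`: `ito`, `Tau`). -/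
theorem main2 (hs : Group.IsSolvable G) (ho : ¬ 2 ∣ Nat.card (G ⧸ Fit G)) :
    ∃ χ₁ ∈ Irr G, ∃ χ₂ ∈ Irr G, ∃ d₁ d₂ : ℕ, χ₁ 1 = d₁ ∧ χ₂ 1 = d₂ ∧
      ∀ p : ℕ, p.Prime → (∃ χ ∈ Irr G, ∃ d : ℕ, χ 1 = d ∧ p ∣ d) → p ∣ d₁ * d₂ := by
  have hge : ∀ i : ℕ, i.Prime → i ∣ Nat.card (G ⧸ Fit G) → 3 ≤ i := by
    intro i hi hid
    have h2 := hi.two_le
    have h3 : i ≠ 2 := fun h3 => ho (h3 ▸ hid)
    omega
  have hpr : ∀ i : {p : ℕ // p ∈ (Nat.card G).primeFactors}, (i : ℕ).Prime := fun i =>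
    Nat.prime_of_mem_primeFactors i.2
  have hE : ∀ i : {p : ℕ // p ∈ (Nat.card G).primeFactors}, Nonempty (PD G i) := fun i =>
    pd_ex i (hpr i)
  obtain ⟨E⟩ : Nonempty (∀ i : {p : ℕ // p ∈ (Nat.card G).primeFactors}, PD G i) :=
    ⟨fun i => (hE i).some⟩
  let F : ∀ s : (Σ i : {p : ℕ // p ∈ (Nat.card G).primeFactors}, Fin (E i).n),
    Fam (s.1 : ℕ) (G ⧸ Fit G) := fun s => (E s.1).F s.2
  have hfin : Finite (Σ i : {p : ℕ // p ∈ (Nat.card G).primeFactors}, Fin (E i).n) := inferInstance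
  have hpF : ∀ s : (Σ i : {p : ℕ // p ∈ (Nat.card G).primeFactors}, Fin (E i).n),
    (s.1 : ℕ).Prime := fun s => hpr s.1
  have hfai : ∀ h : G ⧸ Fit G, (∀ s, ∀ x, (F s).ρ h x = x) → h = 1 := fun h hh =>
    pd_fai hs E h fun i j x => hh ⟨i, j⟩ x
  have hA : Ab (HA F) := ha_ab F hpF hfai
  obtain ⟨A, hAdef⟩ : ∃ A, A = HA F := ⟨_, rfl⟩
  obtain ⟨B, hBdef⟩ : ∃ B : Set ℕ, ∀ r, r ∈ B ↔
      r.Prime ∧ 3 ≤ r ∧ r ∣ Nat.card (G ⧸ Fit G) ∧ ∀ s, (F s).Bt r := ⟨_, fun r => Iff.rfl⟩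
  have hB : ∀ r ∈ B, AR A r := fun r hr => by
    rw [hAdef]
    exact ha_ar F hpF hfai r ((hBdef r).1 hr).1 ((hBdef r).1 hr).2.2.2
  have hne : ∀ r ∈ B, cm A r ≠ ⊥ := fun r hr => by
    rw [hAdef]
    exact ha_ne F hpF hfai r ((hBdef r).1 hr).1 ((hBdef r).1 hr).2.2.2 ((hBdef r).1 hr).2.2.1
  have htriv : ∀ r ∈ B, ∀ s, (∀ c ∈ cm A r, ∀ x, (F s).ρ c x = x) →
      ∀ R : Sylow r (G ⧸ Fit G), ∀ y ∈ (R : Subgroup (G ⧸ Fit G)), ∀ x, (F s).ρ y x = x := by
    intro r hr s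
    rw [hAdef]
    exact ha_triv F hpF hfai r ((hBdef r).1 hr).1 ((hBdef r).1 hr).2.2.2 s
  have hAle : ∀ s, A ≤ (F s).A := fun s => by
    rw [hAdef]
    exact iInf_le _ s
  rw [← hAdef] at hA
  have hblk0 : ∀ i : {p : ℕ // p ∈ (Nat.card G).primeFactors},
      GBlk2 G A B {r | r.Prime ∧ 3 ≤ r ∧ ∃ j, ¬ ((E i).F j).Bt r} i := by
    intro i
    have hpi : Fact (i : ℕ).Prime := ⟨hpr i⟩
    by_cases hτ : Tau G i
    · exact gblk_tau2 i hs ho (E i) hτ hA B hB (fun r hr => ((hBdef r).1 hr).2.1)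
        (fun j => hAle ⟨i, j⟩) (fun r hr j => ((hBdef r).1 hr).2.2.2 ⟨i, j⟩)
        (fun r hr j => htriv r hr ⟨i, j⟩)
    · exact gblk_lin2 i hs ho (E i) hτ hA B hB
        (fun j => hAle ⟨i, j⟩) (fun r hr j => ((hBdef r).1 hr).2.2.2 ⟨i, j⟩)
  unfold GBlk2 at hblk0
  choose s hs' n St Θ hΘ hst hdiv hs1 hnb hblk using hblk0
  obtain ⟨k, hkA, hk2⟩ := fin_glue2 hA B hB hne
    (fun i : {p : ℕ // p ∈ (Nat.card G).primeFactors} => (i : ℕ))
    (fun i D => ntG (Op i G) D) (fun i => fxH (Fit G) (Op i G) (op_nor i) (s i)) n St hblk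
    (fun q hq D hD hD' hne => fit_fai q hq D hD hD' hne)
  obtain ⟨χ₂, hχ₂, d₂, hd₂, hdiv₂, Z, hZd, hZ⟩ := high (fun i => Θ i (k i))
    (fun i => hΘ i (k i) (hkA i))
  obtain ⟨χ₁, hχ₁, d₁, hd₁, hdiv₁, hlow⟩ := low hA B hB (fun i => s ⟨i, i.2.1⟩)
    (fun i => hs' ⟨i, i.2.1⟩)
  refine ⟨χ₁, hχ₁, χ₂, hχ₂, d₁, d₂, hd₁, hd₂, fun p hp hex => ?_⟩
  obtain ⟨χ, hχ, d, hd, hpd⟩ := hex
  have hpG : p ∣ Nat.card G := by
    have hft := Fintype.ofFinite G
    exact hpd.trans (Cdeg_dvd χ hχ d hd)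
  have hpm : p ∈ (Nat.card G).primeFactors :=
    Nat.mem_primeFactors.2 ⟨hp, hpG, Nat.card_pos.ne'⟩
  by_cases hpF : p ∣ Nat.card (G ⧸ Fit G)
  · by_cases hpB : p ∈ B
    · rcases hk2 p hpB with h1 | h1
      · refine ((?_ : p ∣ Z.index).trans hZd).mul_left d₁
        by_contra hZ'
        obtain ⟨R, hR⟩ := syl_in p hp Z hZ'
        refine h1 R fun x hx i j => ?_
        exact hst i (k i) (hkA i) p hpB R (fun z hz => hZ z (hR hz) i) x hx j
      · rcases hlow p hpB with h2 | ⟨R, hR1, hR2⟩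
        · exact h2.mul_right d₂
        · exfalso
          refine h1 ⟨R, fun i => ?_, fun c hc hci => hR2 c hc fun i => hci ⟨i, i.2.1⟩⟩
          by_cases hτ : Tau G i
          · exact hR1 ⟨i, i.2, hτ⟩
          · intro x _
            show x ∈ fxH (Fit G) (Op i G) (op_nor i) (s i)
            rw [hs1 i hτ]
            exact mn6_one _ _ _ x
    · have hex : ∃ s, ¬ (F s).Bt p := by
        by_contra hno
        push Not at hno
        exact hpB ((hBdef p).2 ⟨hp, hge p hp hpF, hpF, hno⟩)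
      obtain ⟨⟨i, j⟩, hij⟩ := hex
      refine ((?_ : p ∣ Z.index).trans hZd).mul_left d₁
      by_contra hZ'
      obtain ⟨R, hR⟩ := syl_in p hp Z hZ'
      exact hnb i (k i) (hkA i) p ⟨hp, hge p hp hpF, j, hij⟩ R fun z hz => hZ z (hR hz) i
  · have hpF' : ¬ p ∣ (Fit G).index := hpF
    by_cases hab : ∀ x ∈ Op p G, ∀ y ∈ Op p G, x * y = y * x
    · exact absurd hpd (ito p hp (Op p G) (op_nor p) (op_pgr p) hab (op_idx p hp hpF') χ hχ d hd)
    · have hτ : Tau G p := ⟨hpF', hab⟩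
      rcases hdiv ⟨p, hpm⟩ hτ with ⟨e, he, hpe⟩ | h1
      · exact (hpe.trans (hdiv₁ ⟨p, hpm, hτ⟩ e he)).mul_right d₂
      · obtain ⟨e, he, hpe⟩ := h1 (k ⟨p, hpm⟩) (hkA ⟨p, hpm⟩)
        exact (hpe.trans (hdiv₂ ⟨p, hpm⟩ e he)).mul_left d₁
-- END mn6

end

-- BEGIN mn7
private theorem mn7_deg {G : Type} [Group G] {n : ℕ} (ρ : Representation ℂ G (Fin n → ℂ))
    (hρ : ρ.IsIrreducible) : ρ.character ∈ Irr G ∧ ρ.character 1 = (n : ℂ) := by
  refine ⟨⟨n, ρ, hρ, rfl⟩, ?_⟩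
  have h1 := (Omega_deg ρ hρ).1
  rw [h1]
  simp

private theorem mn7_irr {G : Type} [Group G] {χ : G → ℂ} (hχ : χ ∈ Irr G) {d : ℕ}
    (hd : χ 1 = d) : d ∈ Deg G := by
  obtain ⟨n, ρ, hρ, rfl⟩ := hχ
  have h1 := (mn7_deg ρ hρ).2
  rw [hd] at h1
  have h2 : d = n := by exact_mod_cast h1
  subst h2
  exact ⟨ρ, hρ⟩

/-- (mn7, size 2) PROOF. `main2`, and the translation between `Irr G` and the degrees as in `cov_of` (private lemmas `mg_deg`, `mg_irr` of Nan/Mn.lean, copy them). -/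
theorem deg2 {G : Type} [Group G] [Finite G] (hs : Group.IsSolvable G)
    (ho : ¬ 2 ∣ Nat.card (G ⧸ Fit G)) :
    ∃ m ∈ Deg G, ∃ n ∈ Deg G, ∀ p : ℕ, p.Prime → (∃ d ∈ Deg G, p ∣ d) → p ∣ m * n := by
  obtain ⟨χ₁, h1, χ₂, h2, d₁, d₂, e1, e2, h3⟩ := main2 hs ho
  refine ⟨d₁, mn7_irr h1 e1, d₂, mn7_irr h2 e2, fun p hp h4 => ?_⟩
  obtain ⟨d, ⟨ρ, hρ⟩, hd⟩ := h4
  exact h3 p hp ⟨ρ.character, (mn7_deg ρ hρ).1, d, (mn7_deg ρ hρ).2, hd⟩
-- END mn7


end Pool.Agent.Nap
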